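import Pool.Agent.Lib_helper82.GG.D.All

/-! GG, block F2 (helper4): the values `vl`. -/

set_option autoImplicit false

open Filter Topology Metric Set
open scoped Nat

namespace Pool.Agent.GG

open Pool.Agent.BR

theorem f2_tendsto {T : Fin 3 → V2 → ℂ} {z₀ : V2} {r s : ℤ} {f g : V2 → ℂ}
    (hg : ContinuousAt g z₀)
    (h : ∀ᶠ z in 𝓝 z₀, z ∈ Gd T → f z = T 0 z ^ r * dl T z ^ s * g z) :
    Tendsto (fun w => T 0 w ^ (-r) * dl T w ^ (-s) * f w) (𝓝[Gd T] z₀) (𝓝 (g z₀)) := by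
  have h1 : Tendsto g (𝓝[Gd T] z₀) (𝓝 (g z₀)) := hg.tendsto.mono_left nhdsWithin_le_nhds
  refine h1.congr' ?_
  filter_upwards [nhdsWithin_le_nhds h, self_mem_nhdsWithin] with w hw hw'
  have e := hw hw'
  have t0 : T 0 w ^ r ≠ 0 := zpow_ne_zero _ hw'.1
  have d0 : dl T w ^ s ≠ 0 := zpow_ne_zero _ hw'.2
  rw [e, zpow_neg, zpow_neg]
  field_simp

theorem vl_eq {T : Fin 3 → V2 → ℂ} {z₀ : V2} (hd : (𝓝[Gd T] z₀).NeBot) {r s : ℤ}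
    {f g : V2 → ℂ} (hg : ContinuousAt g z₀)
    (h : ∀ᶠ z in 𝓝 z₀, z ∈ Gd T → f z = T 0 z ^ r * dl T z ^ s * g z) :
    vl T r s f z₀ = g z₀ := by
  have := hd
  exact (f2_tendsto hg h).limUnder_eq

theorem vl_tendsto {T : Fin 3 → V2 → ℂ} {z₀ : V2} (hd : (𝓝[Gd T] z₀).NeBot) {r s : ℤ}
    {f : V2 → ℂ} (h : OO T z₀ r s f) :
    Tendsto (fun w => T 0 w ^ (-r) * dl T w ^ (-s) * f w) (𝓝[Gd T] z₀)
      (𝓝 (vl T r s f z₀)) := by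
  obtain ⟨g, hg, hfg⟩ := h
  rw [vl_eq hd hg.continuousAt hfg]
  exact f2_tendsto hg.continuousAt hfg

theorem vl_an {T : Fin 3 → V2 → ℂ} {z₀ : V2} (hd : ∀ᶠ z in 𝓝 z₀, (𝓝[Gd T] z).NeBot)
    {r s : ℤ} {f : V2 → ℂ}
    (h : OO T z₀ r s f) : ∃ g : V2 → ℂ, AnalyticAt ℂ g z₀ ∧
      (∀ᶠ z in 𝓝 z₀, z ∈ Gd T → f z = T 0 z ^ r * dl T z ^ s * g z) ∧
      ∀ᶠ z in 𝓝 z₀, vl T r s f z = g z := by
  obtain ⟨g, hg, hfg⟩ := h
  refine ⟨g, hg, hfg, ?_⟩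
  filter_upwards [hd, hfg.eventually_nhds, hg.eventually_analyticAt] with z h1 h2 h3
  exact vl_eq h1 h3.continuousAt h2

theorem vl_add {T : Fin 3 → V2 → ℂ} {z₀ : V2} (hd : (𝓝[Gd T] z₀).NeBot) {r s : ℤ}
    {f g : V2 → ℂ} (hf : OO T z₀ r s f) (hg : OO T z₀ r s g) :
    vl T r s (fun z => f z + g z) z₀ = vl T r s f z₀ + vl T r s g z₀ := by
  obtain ⟨f', hf', e⟩ := hf
  obtain ⟨g', hg', e'⟩ := hg
  rw [vl_eq hd hf'.continuousAt e, vl_eq hd hg'.continuousAt e']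
  refine vl_eq (g := fun z => f' z + g' z) hd (hf'.continuousAt.add hg'.continuousAt) ?_
  filter_upwards [e, e'] with z h1 h2 hz
  rw [h1 hz, h2 hz]
  ring

theorem vl_smul {T : Fin 3 → V2 → ℂ} {z₀ : V2} (hd : (𝓝[Gd T] z₀).NeBot) {r s : ℤ}
    {f : V2 → ℂ} (hf : OO T z₀ r s f) (a : ℂ) :
    vl T r s (fun z => a * f z) z₀ = a * vl T r s f z₀ := by
  obtain ⟨f', hf', e⟩ := hf
  rw [vl_eq hd hf'.continuousAt e]
  refine vl_eq (g := fun z => a * f' z) hd (continuousAt_const.mul hf'.continuousAt) ?_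
  filter_upwards [e] with z h1 hz
  rw [h1 hz]
  ring


end Pool.Agent.GG
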