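import Pool.Agent.Lib_helper82.GG.D.All

set_option autoImplicit false
set_option linter.unusedVariables false
set_option linter.unusedSectionVars false

open Filter Topology Metric Set

namespace Pool.Agent.GG

open Pool.Agent.BR

section surf

variable {X : Type} [MetricSpace X] [CompactSpace X] {A : Cha V2 X}

/-- G1 -/
theorem tc_near {i j : A.ι} {x : X} (hi : x ∈ (A.ch i).source) (hj : x ∈ (A.ch j).source) :
    AnalyticAt ℂ (tc A i j) (A.ch i x) ∧ tc A i j (A.ch i x) = A.ch j x ∧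
    ∀ᶠ z in 𝓝 (A.ch i x), z ∈ (A.ch i).target ∧ (A.ch i).symm z ∈ (A.ch i).source ∧
      (A.ch i).symm z ∈ (A.ch j).source ∧ A.ch i ((A.ch i).symm z) = z ∧
      (A.ch j).symm (tc A i j z) = (A.ch i).symm z := by
  refine ⟨A.trans i j x hi hj, ?_, ?_⟩
  · show A.ch j ((A.ch i).symm (A.ch i x)) = A.ch j x
    rw [(A.ch i).left_inv hi]
  · have ha : ∀ᶠ z in 𝓝 (A.ch i x), z ∈ (A.ch i).target :=
      (A.ch i).open_target.mem_nhds ((A.ch i).map_source hi)
    have hb : ∀ᶠ z in 𝓝 (A.ch i x), (A.ch i).symm z ∈ (A.ch j).source := by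
      have hc : ContinuousAt (A.ch i).symm (A.ch i x) :=
        (A.ch i).continuousAt_symm ((A.ch i).map_source hi)
      refine hc.eventually ?_
      rw [(A.ch i).left_inv hi]
      exact (A.ch j).open_source.mem_nhds hj
    filter_upwards [ha, hb] with z h1 h2
    refine ⟨h1, (A.ch i).map_target h1, h2, (A.ch i).right_inv h1, ?_⟩
    show (A.ch j).symm (A.ch j ((A.ch i).symm z)) = (A.ch i).symm z
    exact (A.ch j).left_inv h2

theorem g1_det (F : V2 → V2) (z : V2) :
    LinearMap.det ((fderiv ℂ F z : V2 →L[ℂ] V2) : V2 →ₗ[ℂ] V2) = (Jm F z).det := by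
  by_cases hF : DifferentiableAt ℂ F z
  · rw [← LinearMap.det_toMatrix']
    congr 1
    ext a c
    rw [LinearMap.toMatrix'_apply]
    have h1 : HasFDerivAt (fun w => F w a)
        ((ContinuousLinearMap.proj (R := ℂ) (φ := fun _ : Fin 2 => ℂ) a).comp (fderiv ℂ F z)) z :=
      hasFDerivAt_pi'.1 hF.hasFDerivAt a
    have h2 : Jm F z a c = fderiv ℂ (fun w => F w a) z (Pi.single c (1 : ℂ)) := rfl
    rw [h2, h1.fderiv]
    rfl
  · have h1 : ∃ a, ¬ DifferentiableAt ℂ (fun w => F w a) z := by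
      by_contra h
      push Not at h
      exact hF (differentiableAt_pi.2 h)
    obtain ⟨a, ha⟩ := h1
    have h2 : (Jm F z).det = 0 := by
      refine Matrix.det_eq_zero_of_row_eq_zero a ?_
      intro c
      show fderiv ℂ (fun w => F w a) z (Pi.single c (1 : ℂ)) = 0
      rw [fderiv_zero_of_not_differentiableAt ha]
      rfl
    rw [h2, fderiv_zero_of_not_differentiableAt hF]
    have h3 : ((0 : V2 →L[ℂ] V2) : V2 →ₗ[ℂ] V2) = 0 := rfl
    rw [h3]
    exact LinearMap.det_zero' (Pi.basisFun ℂ (Fin 2))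

/-- G1 -/
theorem jac_det {i j : A.ι} {x : X} :
    IS.jac A i j x = (Jm (tc A i j) (A.ch i x)).det :=
  g1_det (tc A i j) (A.ch i x)

/-- G1: a section in the charts -/
theorem ps_loc {w : ℕ} {s : A.ι → X → ℂ} (hs : IS.PS A w s) {i j : A.ι} {x : X}
    (hi : x ∈ (A.ch i).source) (hj : x ∈ (A.ch j).source) :
    ∀ᶠ z in 𝓝 (A.ch i x), lz A i (s i) z = (Jm (tc A i j) z).det ^ w * lz A j (s j) (tc A i j z) := by
  filter_upwards [(tc_near hi hj).2.2] with z hz
  obtain ⟨h1, h2, h3, h4, h5⟩ := hz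
  have h6 := hs.tr i j ((A.ch i).symm z) h2 h3
  rw [jac_det, h4] at h6
  show s i ((A.ch i).symm z) = _ * s j ((A.ch j).symm (tc A i j z))
  rw [h5]
  exact h6

end surf

end Pool.Agent.GG

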