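import Pool.Agent.Lib_helper82.GG.D.All

set_option autoImplicit false
set_option linter.unusedVariables false
set_option linter.unusedSectionVars false

open Filter Topology Metric Set

namespace Pool.Agent.GG

open Pool.Agent.BR

section surface

variable {X : Type} [MetricSpace X] [CompactSpace X] {A : Cha V2 X} {b D : ℕ}
  {T : Fin 3 → A.ι → X → ℂ}

theorem b1_comp {i j : A.ι} {x : X} (hi : x ∈ (A.ch i).source)
    (hj : x ∈ (A.ch j).source) :
    (IS.dtr A j i x).comp (IS.dtr A i j x) = ContinuousLinearMap.id ℂ V2 := by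
  have h1 : DifferentiableAt ℂ (fun ξ => A.ch j ((A.ch i).symm ξ)) (A.ch i x) :=
    (A.trans i j x hi hj).differentiableAt
  have h2 : DifferentiableAt ℂ (fun ξ => A.ch i ((A.ch j).symm ξ)) (A.ch j x) :=
    (A.trans j i x hj hi).differentiableAt
  have h3 : A.ch j ((A.ch i).symm (A.ch i x)) = A.ch j x := by rw [(A.ch i).left_inv hi]
  have h4 : HasFDerivAt ((fun ξ => A.ch i ((A.ch j).symm ξ)) ∘ fun ξ => A.ch j ((A.ch i).symm ξ))
      ((IS.dtr A j i x).comp (IS.dtr A i j x)) (A.ch i x) := by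
    refine HasFDerivAt.comp (A.ch i x) ?_ h1.hasFDerivAt
    rw [h3]
    exact h2.hasFDerivAt
  have h5 : ((fun ξ => A.ch i ((A.ch j).symm ξ)) ∘ fun ξ => A.ch j ((A.ch i).symm ξ))
      =ᶠ[𝓝 (A.ch i x)] id := by
    have ha : ∀ᶠ ξ in 𝓝 (A.ch i x), ξ ∈ (A.ch i).target :=
      (A.ch i).open_target.mem_nhds ((A.ch i).map_source hi)
    have hb : ∀ᶠ ξ in 𝓝 (A.ch i x), (A.ch i).symm ξ ∈ (A.ch j).source := by
      have hc : ContinuousAt (A.ch i).symm (A.ch i x) :=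
        (A.ch i).continuousAt_symm ((A.ch i).map_source hi)
      refine hc.eventually ?_
      rw [(A.ch i).left_inv hi]
      exact (A.ch j).open_source.mem_nhds hj
    filter_upwards [ha, hb] with ξ h6 h7
    show A.ch i ((A.ch j).symm (A.ch j ((A.ch i).symm ξ))) = ξ
    rw [(A.ch j).left_inv h7, (A.ch i).right_inv h6]
  exact (h4.congr_of_eventuallyEq h5.symm).unique (hasFDerivAt_id _)

theorem b1_jac_ne {i j : A.ι} {x : X} (hi : x ∈ (A.ch i).source) (hj : x ∈ (A.ch j).source) :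
    IS.jac A i j x ≠ 0 := by
  intro h0
  have h1 : LinearMap.det ((IS.dtr A j i x : V2 →ₗ[ℂ] V2) ∘ₗ (IS.dtr A i j x : V2 →ₗ[ℂ] V2)) =
      LinearMap.det (LinearMap.id : V2 →ₗ[ℂ] V2) :=
    congrArg (fun L : V2 →L[ℂ] V2 => LinearMap.det (L : V2 →ₗ[ℂ] V2)) (b1_comp hi hj)
  rw [LinearMap.det_comp, LinearMap.det_id] at h1
  unfold IS.jac at h0
  rw [h0, mul_zero] at h1
  exact zero_ne_one h1

theorem b1_ci (A : Cha V2 X) (x : X) : x ∈ (A.ch (ci A x)).source :=
  A.W_sub _ (subset_closure (A.cover x).choose_spec)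

/-- B1: the zeros of a section can be seen in one chart -/
theorem zs_iff {w : ℕ} {s : A.ι → X → ℂ} (hs : IS.PS A w s) {i : A.ι} {x : X}
    (hx : x ∈ (A.ch i).source) : x ∈ ZS A s ↔ s i x = 0 := by
  constructor
  · intro h
    exact h i hx
  · intro h j hj
    rw [hs.tr j i x hj hx, h, mul_zero]

/-- B1 -/
theorem zs_closed {w : ℕ} {s : A.ι → X → ℂ} (hs : IS.PS A w s) : IsClosed (ZS A s) := by
  rw [← isOpen_compl_iff, isOpen_iff_mem_nhds]
  intro x hx
  have hi := b1_ci A x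
  have h0 : s (ci A x) x ≠ 0 := fun h => hx ((zs_iff hs hi).2 h)
  have hc : ContinuousAt (fun ξ => s (ci A x) ((A.ch (ci A x)).symm ξ)) (A.ch (ci A x) x) :=
    (hs.an _ x hi).continuousAt
  have hc2 : ContinuousAt (A.ch (ci A x)) x := (A.ch (ci A x)).continuousAt hi
  have hc3 : ContinuousAt (fun y => s (ci A x) ((A.ch (ci A x)).symm (A.ch (ci A x) y))) x :=
    ContinuousAt.comp (g := fun ξ => s (ci A x) ((A.ch (ci A x)).symm ξ)) hc hc2
  have h1 : (fun y => s (ci A x) ((A.ch (ci A x)).symm (A.ch (ci A x) y))) x ≠ 0 := by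
    show s (ci A x) ((A.ch (ci A x)).symm (A.ch (ci A x) x)) ≠ 0
    rw [(A.ch (ci A x)).left_inv hi]
    exact h0
  have h2 : ∀ᶠ y in 𝓝 x, s (ci A x) ((A.ch (ci A x)).symm (A.ch (ci A x) y)) ≠ 0 :=
    hc3.eventually_ne h1
  have h3 : ∀ᶠ y in 𝓝 x, y ∈ (A.ch (ci A x)).source := (A.ch (ci A x)).open_source.mem_nhds hi
  filter_upwards [h2, h3] with y hy1 hy2
  intro hy3
  apply hy1
  rw [(A.ch (ci A x)).left_inv hy2]
  exact (zs_iff hs hy2).1 hy3

/-- B1 -/
theorem qt_eq {w : ℕ} {s t : A.ι → X → ℂ} (hs : IS.PS A w s) (ht : IS.PS A w t) {i : A.ι}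
    {x : X} (hx : x ∈ (A.ch i).source) : qt A s t x = s i x / t i x := by
  unfold qt
  have hi := b1_ci A x
  rw [hs.tr _ i x hi hx, ht.tr _ i x hi hx]
  exact mul_div_mul_left _ _ (pow_ne_zero _ (b1_jac_ne hi hx))

/-- B1: analyticity of the quotients in the charts -/
theorem qt_an {w : ℕ} {s t : A.ι → X → ℂ} (hs : IS.PS A w s) (ht : IS.PS A w t) {i : A.ι}
    {x : X} (hx : x ∈ (A.ch i).source) (h0 : x ∉ ZS A t) :
    AnalyticAt ℂ (lz A i (qt A s t)) (A.ch i x) := by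
  have h1 : t i x ≠ 0 := fun h => h0 ((zs_iff ht hx).2 h)
  have h2 : AnalyticAt ℂ (fun ξ => s i ((A.ch i).symm ξ) / t i ((A.ch i).symm ξ)) (A.ch i x) := by
    refine (hs.an i x hx).fun_div (ht.an i x hx) ?_
    rw [(A.ch i).left_inv hx]
    exact h1
  refine h2.congr ?_
  have ha : ∀ᶠ ξ in 𝓝 (A.ch i x), ξ ∈ (A.ch i).target :=
    (A.ch i).open_target.mem_nhds ((A.ch i).map_source hx)
  filter_upwards [ha] with ξ hξ
  exact (qt_eq hs ht ((A.ch i).map_target hξ)).symm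

/-- B1 -/
theorem lT_an (hT : ∀ j, IS.PS A b (T j)) {i : A.ι} {x : X} (hx : x ∈ (A.ch i).source)
    (j : Fin 3) :
    AnalyticAt ℂ (lT A T i j) (A.ch i x) ∧ lT A T i j (A.ch i x) = T j i x := by
  refine ⟨(hT j).an i x hx, ?_⟩
  show T j i ((A.ch i).symm (A.ch i x)) = T j i x
  rw [(A.ch i).left_inv hx]

end surface

end Pool.Agent.GG

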