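import Pool.Agent.Lib_helper82.GG.D.All
import Pool.Agent.Lib_helper82.GG.P.B1
import Pool.Agent.Lib_helper82.GG.P.B2

set_option autoImplicit false
set_option linter.unusedVariables false
set_option linter.unusedSectionVars false

open Filter Topology Metric Set
open scoped Nat

namespace Pool.Agent.GG

open Pool.Agent.BR

section surf

variable {X : Type} [MetricSpace X] [CompactSpace X] {A : Cha V2 X} {b D k m n : ℕ}
  {T : Fin 3 → A.ι → X → ℂ} {T₃ : A.ι → X → ℂ}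

/-- G3: the sections `T j` in a chart -/
theorem net_an (hT : Net A b T) {i : A.ι} {x : X} (hi : x ∈ (A.ch i).source) (j : Fin 3) :
    AnalyticAt ℂ (lT A T i j) (A.ch i x) :=
  (hT.ps j).an i x hi

/-- G3: the sections in the chart at the point -/
theorem net_val {i : A.ι} {x : X} (hi : x ∈ (A.ch i).source) :
    (∀ j, lT A T i j (A.ch i x) = T j i x) ∧ dl (lT A T i) (A.ch i x) = dlt A T i x := by
  refine ⟨fun j => ?_, rfl⟩
  unfold lT lz
  rw [(A.ch i).left_inv hi]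

/-- auxiliary: near the point of a chart the chart is inverted -/
theorem g3_near {i : A.ι} {x : X} (hi : x ∈ (A.ch i).source) :
    ∀ᶠ z in 𝓝 (A.ch i x), (A.ch i).symm z ∈ (A.ch i).source ∧ A.ch i ((A.ch i).symm z) = z := by
  filter_upwards [(A.ch i).open_target.mem_nhds ((A.ch i).map_source hi)] with z hz
  exact ⟨(A.ch i).map_target hz, (A.ch i).right_inv hz⟩

/-- auxiliary: the good set at a point -/
theorem g3_gd (hT : Net A b T) {i : A.ι} {x : X} (hi : x ∈ (A.ch i).source) :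
    x ∈ GX A T ↔ A.ch i x ∈ Gd (lT A T i) := by
  have h1 := zs_iff (hT.ps 0) hi
  have h2 := zs_iff (dlt_ps hT.ps) hi
  obtain ⟨v1, v2⟩ := net_val (T := T) hi
  have e : A.ch i x ∈ Gd (lT A T i) ↔ (lT A T i 0 (A.ch i x) ≠ 0 ∧ dl (lT A T i) (A.ch i x) ≠ 0) :=
    Iff.rfl
  have e' : x ∈ GX A T ↔ (x ∉ ZS A (T 0) ∧ x ∉ ZS A (dlt A T)) := Iff.rfl
  rw [e, e', h1, h2, v1 0, v2]

/-- G3: the good set in a chart -/
theorem net_gd (hT : Net A b T) {i : A.ι} {x : X} (hi : x ∈ (A.ch i).source) :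
    (x ∈ GX A T ↔ A.ch i x ∈ Gd (lT A T i)) ∧
    ∀ᶠ z in 𝓝 (A.ch i x), (z ∈ Gd (lT A T i) ↔ (A.ch i).symm z ∈ GX A T) := by
  refine ⟨g3_gd hT hi, ?_⟩
  filter_upwards [g3_near hi] with z hz
  rw [g3_gd hT hz.1, hz.2]

/-- G3: the local form of the properties g1, g2, g3 -/
theorem net_loc (hT : Net A b T) {i : A.ι} {x : X} (hi : x ∈ (A.ch i).source) :
    (lT A T i 0 (A.ch i x) = 0 → (∃ j, pd j (lT A T i 0) (A.ch i x) ≠ 0) ∧
      (lT A T i 1 (A.ch i x) ≠ 0 ∨ lT A T i 2 (A.ch i x) ≠ 0)) ∧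
    (dl (lT A T i) (A.ch i x) = 0 → ∃ j, pd j (dl (lT A T i)) (A.ch i x) ≠ 0) := by
  obtain ⟨v1, v2⟩ := net_val (T := T) hi
  refine ⟨fun h0 => ⟨?_, ?_⟩, fun h0 => ?_⟩
  · rw [v1 0] at h0
    exact hT.g2 i x hi h0
  · rw [v1 0] at h0
    rw [v1 1, v1 2]
    obtain ⟨j, hj⟩ := hT.g1 x
    rw [zs_iff (hT.ps j) hi] at hj
    fin_cases j
    · exact absurd h0 hj
    · exact Or.inl hj
    · exact Or.inr hj
  · rw [v2] at h0
    obtain ⟨j, hj⟩ := hT.g3 i x hi h0
    refine ⟨j, ?_⟩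
    have e : lz A i (dlt A T i) =ᶠ[𝓝 (A.ch i x)] dl (lT A T i) := by
      filter_upwards [g3_near hi] with z hz
      unfold lz dlt
      rw [hz.2]
    have e2 : ds A (dlt A T) j i x = pd j (dl (lT A T i)) (A.ch i x) := by
      unfold ds pd
      rw [e.fderiv_eq]
    rwa [e2] at hj


end surf

end Pool.Agent.GG
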