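import Pool.Agent.Lib_helper82.GG.D.All
import Pool.Agent.Lib_helper82.GG.P.G3

set_option autoImplicit false
set_option linter.unusedVariables false
set_option linter.unusedSectionVars false

open Filter Topology Metric Set
open scoped Nat

namespace Pool.Agent.GG

open Pool.Agent.BR

theorem g4_pd_zero {f : V2 → ℂ} {z : V2} (h : ∀ᶠ w in 𝓝 z, f w = 0) (j : Fin 2) :
    pd j f z = 0 := by
  unfold pd
  have h1 : f =ᶠ[𝓝 z] fun _ => (0 : ℂ) := h
  rw [h1.fderiv_eq]
  simp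

section surf

variable {X : Type} [MetricSpace X] [CompactSpace X] {A : Cha V2 X} {b D k m n : ℕ}
  {T : Fin 3 → A.ι → X → ℂ} {T₃ : A.ι → X → ℂ}

theorem net_dense (hT : Net A b T) {i : A.ι} {x : X} (hi : x ∈ (A.ch i).source) :
    ∀ᶠ z in 𝓝 (A.ch i x), (𝓝[Gd (lT A T i)] z).NeBot := by
  have htgt : A.ch i x ∈ (A.ch i).target := (A.ch i).map_source hi
  have key : ∀ z ∈ (A.ch i).target, (∀ j, AnalyticAt ℂ (lT A T i j) z) ∧
      (lT A T i 0 z = 0 → ∃ j, pd j (lT A T i 0) z ≠ 0) ∧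
      (dl (lT A T i) z = 0 → ∃ j, pd j (dl (lT A T i)) z ≠ 0) := by
    intro z hz
    have hy : (A.ch i).symm z ∈ (A.ch i).source := (A.ch i).map_target hz
    have e : A.ch i ((A.ch i).symm z) = z := (A.ch i).right_inv hz
    have h1 := net_loc hT hy
    have h2 := fun j => net_an hT hy j
    rw [e] at h1
    rw [e] at h2
    exact ⟨h2, fun h => (h1.1 h).1, h1.2⟩
  filter_upwards [(A.ch i).open_target.mem_nhds htgt] with z hz
  rw [← mem_closure_iff_nhdsWithin_neBot, _root_.mem_closure_iff]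
  intro O hO hzO
  have hO' : IsOpen (O ∩ (A.ch i).target) := hO.inter (A.ch i).open_target
  -- a point where the first section does not vanish
  have step1 : ∃ z1 ∈ O ∩ (A.ch i).target, lT A T i 0 z1 ≠ 0 := by
    by_contra hcon
    push Not at hcon
    have h1 : ∀ᶠ w in 𝓝 z, lT A T i 0 w = 0 := by
      filter_upwards [hO'.mem_nhds ⟨hzO, hz⟩] with w hw
      exact hcon w hw
    obtain ⟨j, hj⟩ := (key z hz).2.1 h1.self_of_nhds
    exact hj (g4_pd_zero h1 j)
  obtain ⟨z1, hz1, hT1⟩ := step1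
  have hev : ∀ᶠ w in 𝓝 z1, lT A T i 0 w ≠ 0 :=
    ((key z1 hz1.2).1 0).continuousAt.eventually_ne hT1
  have step2 : ∃ z2, z2 ∈ O ∩ (A.ch i).target ∧ lT A T i 0 z2 ≠ 0 ∧ dl (lT A T i) z2 ≠ 0 := by
    by_contra hcon
    push Not at hcon
    have h1 : ∀ᶠ w in 𝓝 z1, dl (lT A T i) w = 0 := by
      filter_upwards [hO'.mem_nhds hz1, hev] with w hw hw'
      exact hcon w hw hw'
    obtain ⟨j, hj⟩ := (key z1 hz1.2).2.2 h1.self_of_nhds
    exact hj (g4_pd_zero h1 j)
  obtain ⟨z2, hz2, h0, hd⟩ := step2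
  exact ⟨z2, hz2.1, h0, hd⟩

end surf

end Pool.Agent.GG

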