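import Pool.Agent.Lib_helper82.GG.D.All
import Pool.Agent.Lib_helper82.GG.P.B1
import Pool.Agent.Lib_helper82.GG.P.B2
import Pool.Agent.Lib_helper82.GG.P.G1
import Pool.Agent.Lib_helper82.GG.P.G3

/-! GG, block G5: the net in two charts; `RegX` in a chart; the intersection of the curves -/

set_option autoImplicit false
set_option linter.unusedSectionVars false

open Filter Topology Metric Set
open scoped Nat

namespace Pool.Agent.GG

open Pool.Agent.BR

section surf

variable {X : Type} [MetricSpace X] [CompactSpace X] {A : Cha V2 X} {b D k m n : ℕ}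
  {T : Fin 3 → A.ι → X → ℂ} {T₃ : A.ι → X → ℂ}

theorem net_tr (hT : Net A b T) {i j : A.ι} {x : X} (hi : x ∈ (A.ch i).source)
    (hj : x ∈ (A.ch j).source) (l : Fin 3) :
    ∀ᶠ z in 𝓝 (A.ch i x), lT A T i l z =
      (Jm (tc A i j) z).det ^ b * lT A T j l (tc A i j z) :=
  ps_loc (hT.ps l) hi hj

theorem g5_symm {i : A.ι} {x : X} (hi : x ∈ (A.ch i).source) :
    Tendsto (A.ch i).symm (𝓝 (A.ch i x)) (𝓝 x) := by
  have h1 : ContinuousAt (A.ch i).symm (A.ch i x) :=
    (A.ch i).continuousAt_symm ((A.ch i).map_source hi)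
  have h2 : (A.ch i).symm (A.ch i x) = x := (A.ch i).left_inv hi
  have h3 := h1.tendsto
  rw [h2] at h3
  exact h3

theorem reg_oo (hT : Net A b T) {i : A.ι} {x : X} (hi : x ∈ (A.ch i).source) (f : X → ℂ) :
    RegX A (GX A T) f x ↔ OO (lT A T i) (A.ch i x) 0 0 (lz A i f) := by
  have hgd := (net_gd hT hi).2
  constructor
  · rintro ⟨g, hg1, hg2⟩
    refine ⟨lz A i g, hg1 i hi, ?_⟩
    filter_upwards [(g5_symm hi).eventually hg2, hgd] with z h1 h2 h3
    rw [zpow_zero, zpow_zero, one_mul, one_mul]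
    exact h1 (h2.1 h3)
  · rintro ⟨g', hg1, hg2⟩
    refine ⟨fun y => g' (A.ch i y), ?_, ?_⟩
    · intro j hj
      obtain ⟨h1, h2, -⟩ := tc_near hj hi
      have h3 : AnalyticAt ℂ g' (tc A j i (A.ch j x)) := by rw [h2]; exact hg1
      exact h3.comp h1
    · have h1 : Tendsto (A.ch i) (𝓝 x) (𝓝 (A.ch i x)) := (A.ch i).continuousAt hi
      filter_upwards [h1.eventually hg2, h1.eventually hgd,
        (A.ch i).open_source.mem_nhds hi] with y h2 h3 h4 h5
      have h6 : (A.ch i).symm (A.ch i y) = y := (A.ch i).left_inv h4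
      rw [h6] at h3
      have h7 := h2 (h3.2 h5)
      rw [zpow_zero, zpow_zero, one_mul, one_mul] at h7
      rw [← h7]
      simp only [lz]
      rw [h6]

theorem net_pt (hT : Net A b T) {i : A.ι} {x : X} (hi : x ∈ (A.ch i).source) :
    ∀ᶠ z in 𝓝[≠] (A.ch i x), ¬ (lT A T i 0 z = 0 ∧ dl (lT A T i) z = 0) := by
  set S : Set X := (ZS A (T 0) ∩ ZS A (dlt A T)) \ {x} with hS
  have hfin : S.Finite := hT.g4.subset sdiff_subset
  have h1 : ∀ᶠ y in 𝓝 x, y ∉ S := hfin.isClosed.isOpen_compl.mem_nhds (by simp [hS])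
  have h2 := (g5_symm hi).eventually h1
  have h3 : ∀ᶠ z in 𝓝 (A.ch i x), z ∈ (A.ch i).target :=
    (A.ch i).open_target.mem_nhds ((A.ch i).map_source hi)
  filter_upwards [h2.filter_mono nhdsWithin_le_nhds, h3.filter_mono nhdsWithin_le_nhds,
    self_mem_nhdsWithin] with z h4 h5 h6
  rintro ⟨h7, h8⟩
  have hys : (A.ch i).symm z ∈ (A.ch i).source := (A.ch i).map_target h5
  have hz : A.ch i ((A.ch i).symm z) = z := (A.ch i).right_inv h5
  apply h4
  refine ⟨⟨?_, ?_⟩, ?_⟩
  · exact (zs_iff (hT.ps 0) hys).2 h7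
  · refine (zs_iff (dlt_ps hT.ps) hys).2 ?_
    show dl (lT A T i) (A.ch i ((A.ch i).symm z)) = 0
    rw [hz]
    exact h8
  · intro h9
    apply h6
    rw [mem_singleton_iff] at h9 ⊢
    rw [← hz, h9]

end surf


end Pool.Agent.GG
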