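import Pool.Agent.Lib_helper82.GG.D.All

/-! # Block J2 (project GG): values of the polynomials `bp`, the curve `cv` -/

set_option autoImplicit false

open Filter Topology Metric Set
open scoped Nat

namespace Pool.Agent.GG

open Pool.Agent.BR

section jets

variable {k : ℕ}

theorem j2_iter (P : Polynomial ℂ) (l : ℕ) :
    iteratedDeriv l (fun ζ => P.eval ζ) = fun ζ => (Polynomial.derivative^[l] P).eval ζ := by
  induction l with
  | zero => simp
  | succ l ih =>
    rw [iteratedDeriv_succ, ih]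
    funext ζ
    rw [Polynomial.deriv, Function.iterate_succ_apply']

/-- the derivatives of a polynomial function at `0` -/
theorem j2_iter0 (P : Polynomial ℂ) (l : ℕ) :
    iteratedDeriv l (fun ζ => P.eval ζ) 0 = ((l ! : ℕ) : ℂ) * P.coeff l := by
  rw [j2_iter]
  show (Polynomial.derivative^[l] P).eval 0 = _
  rw [← Polynomial.coeff_zero_eq_eval_zero, Polynomial.coeff_iterate_derivative, zero_add,
    Nat.descFactorial_self, nsmul_eq_mul]

theorem j2_gp (z : V2) (ξ : Fin 2 × Fin k → ℂ) (j : Fin 2) (ζ : ℂ) :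
    ((gp k j).map (MvPolynomial.eval ξ)).eval ζ = cv z ξ ζ j - z j := by
  unfold gp cv
  rw [Polynomial.map_sum, Polynomial.eval_finsetSum, add_sub_cancel_left]
  refine Finset.sum_congr rfl fun l _ => ?_
  rw [Polynomial.map_monomial, Polynomial.eval_monomial, map_mul, MvPolynomial.eval_C,
    MvPolynomial.eval_X]
  ring

/-- J2: the values of the polynomials `bp` -/
theorem bp_eval (z : V2) (ξ : Fin 2 × Fin k → ℂ) (α : ℕ × ℕ) (l : ℕ) :
    MvPolynomial.eval ξ (bp k α l) =
      iteratedDeriv l (fun ζ => (cv z ξ ζ 0 - z 0) ^ α.1 * (cv z ξ ζ 1 - z 1) ^ α.2) 0 := by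
  have h : (fun ζ => (cv z ξ ζ 0 - z 0) ^ α.1 * (cv z ξ ζ 1 - z 1) ^ α.2) = fun ζ =>
      ((gp k 0 ^ α.1 * gp k 1 ^ α.2).map (MvPolynomial.eval ξ)).eval ζ := by
    funext ζ
    rw [Polynomial.map_mul, Polynomial.map_pow, Polynomial.map_pow, Polynomial.eval_mul,
      Polynomial.eval_pow, Polynomial.eval_pow, j2_gp z, j2_gp z]
  rw [h, j2_iter0, Polynomial.coeff_map]
  unfold bp
  rw [map_mul, MvPolynomial.eval_C]

/-- J2 -/
theorem cv_an (z : V2) (ξ : Fin 2 × Fin k → ℂ) : AnalyticAt ℂ (cv z ξ) 0 ∧ cv z ξ 0 = z ∧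
    jt k (cv z ξ) = ξ := by
  have hev : ∀ j, (fun ζ => cv z ξ ζ j) = fun ζ =>
      ((Polynomial.C (z j) + (gp k j).map (MvPolynomial.eval ξ)).eval ζ) := by
    intro j
    funext ζ
    rw [Polynomial.eval_add, Polynomial.eval_C, j2_gp z]
    ring
  refine ⟨?_, ?_, ?_⟩
  · rw [analyticAt_pi_iff]
    intro j
    have := hev j
    show AnalyticAt ℂ (fun ζ => cv z ξ ζ j) 0
    rw [this]
    exact (Polynomial.differentiable _).analyticAt 0
  · funext j
    unfold cv
    simp
  · funext v
    obtain ⟨j, l⟩ := v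
    unfold jt
    show iteratedDeriv ((l : ℕ) + 1) (fun ζ => cv z ξ ζ j) 0 = ξ (j, l)
    rw [hev, j2_iter0, Polynomial.coeff_add, Polynomial.coeff_C, if_neg (Nat.succ_ne_zero _),
      zero_add, Polynomial.coeff_map]
    have h1 : (gp k j).coeff ((l : ℕ) + 1) =
        MvPolynomial.C ((((l : ℕ) + 1)! : ℕ) : ℂ)⁻¹ * MvPolynomial.X (j, l) := by
      unfold gp
      rw [Polynomial.finsetSum_coeff, Finset.sum_eq_single l]
      · rw [Polynomial.coeff_monomial, if_pos rfl]
      · intro l' _ hl'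
        rw [Polynomial.coeff_monomial, if_neg]
        intro h
        exact hl' (Fin.ext (by omega))
      · intro h
        exact absurd (Finset.mem_univ _) h
    rw [h1, map_mul, MvPolynomial.eval_C, MvPolynomial.eval_X, ← mul_assoc, mul_inv_cancel₀,
      one_mul]
    exact_mod_cast Nat.factorial_ne_zero _

end jets


end Pool.Agent.GG
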