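import Pool.Agent.Lib_helper82.GG.D.All

/-! # GG block J3a: Taylor's formula in two variables -/

set_option autoImplicit false

open Filter Topology Metric Set
open scoped Nat

namespace Pool.Agent.GG

open Pool.Agent.BR

theorem j3a_pd_an (j : Fin 2) {f : V2 → ℂ} {z : V2} (hf : AnalyticAt ℂ f z) :
    AnalyticAt ℂ (pd j f) z := by
  have h := hf.fderiv
  exact ((ContinuousLinearMap.apply ℂ ℂ (Pi.single j (1 : ℂ) : V2)).analyticAt _).comp h

theorem j3a_iter_an (j : Fin 2) {f : V2 → ℂ} {z : V2} (hf : AnalyticAt ℂ f z) (n : ℕ) :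
    AnalyticAt ℂ ((pd j)^[n] f) z := by
  induction n generalizing f with
  | zero => simpa using hf
  | succ n ih =>
    rw [Function.iterate_succ_apply]
    exact ih (j3a_pd_an j hf)

/-- the Taylor remainder in the direction `j` -/
noncomputable def j3a_R (j : Fin 2) (L : ℕ) (f : V2 → ℂ) (p : V2 × ℂ) : ℂ :=
  f (p.1 + Pi.single j p.2) - ∑ b ∈ Finset.range L, (pd j)^[b] f p.1 / (b ! : ℕ) * p.2 ^ b

theorem j3a_single (j : Fin 2) (s : ℂ) :
    HasDerivAt (fun s : ℂ => (Pi.single j s : V2)) (Pi.single j (1 : ℂ)) s := by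
  rw [hasDerivAt_pi]
  intro i
  by_cases h : i = j
  · subst h
    simpa using hasDerivAt_id' s
  · simpa [Pi.single_apply, h] using hasDerivAt_const s (0 : ℂ)

theorem j3a_norm_single (j : Fin 2) (s : ℂ) : ‖(Pi.single j s : V2)‖ = ‖s‖ := by
  exact Pi.norm_single (G := fun _ : Fin 2 => ℂ) s

theorem j3a_zero (j : Fin 2) (L : ℕ) (f : V2 → ℂ) (w : V2) :
    j3a_R j (L + 1) f (w, 0) = 0 := by
  unfold j3a_R
  rw [Finset.sum_range_succ']
  simp

theorem j3a_deriv (j : Fin 2) (L : ℕ) (f : V2 → ℂ) (w : V2) (s : ℂ)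
    (hd : DifferentiableAt ℂ f (w + Pi.single j s)) :
    HasDerivAt (fun s : ℂ => j3a_R j (L + 1) f (w, s)) (j3a_R j L (pd j f) (w, s)) s := by
  have h1 : HasDerivAt (fun s : ℂ => f (w + Pi.single j s)) (pd j f (w + Pi.single j s)) s := by
    have h2 : HasDerivAt (fun s : ℂ => w + (Pi.single j s : V2)) (Pi.single j (1 : ℂ)) s :=
      (j3a_single j s).const_add w
    exact hd.hasFDerivAt.comp_hasDerivAt s h2
  have h3 : HasDerivAt (fun s : ℂ => ∑ b ∈ Finset.range (L + 1),
      (pd j)^[b] f w / (b ! : ℕ) * s ^ b)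
      (∑ b ∈ Finset.range L, (pd j)^[b] (pd j f) w / (b ! : ℕ) * s ^ b) s := by
    have h4 : HasDerivAt (fun s : ℂ => ∑ b ∈ Finset.range (L + 1),
        (pd j)^[b] f w / (b ! : ℕ) * s ^ b)
        (∑ b ∈ Finset.range (L + 1), (pd j)^[b] f w / (b ! : ℕ) * ((b : ℂ) * s ^ (b - 1))) s := by
      apply HasDerivAt.fun_sum
      intro b _
      exact (hasDerivAt_pow b s).const_mul _
    convert h4 using 1
    rw [Finset.sum_range_succ']
    simp only [Nat.cast_zero, zero_mul, mul_zero, add_zero]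
    apply Finset.sum_congr rfl
    intro b _
    rw [Function.iterate_succ_apply, Nat.factorial_succ]
    have hb : ((b ! : ℕ) : ℂ) ≠ 0 := by exact_mod_cast Nat.factorial_ne_zero b
    have hb1 : ((b + 1 : ℕ) : ℂ) ≠ 0 := by exact_mod_cast Nat.succ_ne_zero b
    push_cast at hb1 ⊢
    field_simp
  exact h1.sub h3

theorem j3a_bound (j : Fin 2) (L : ℕ) : ∀ {f : V2 → ℂ} {z : V2} (_ : AnalyticAt ℂ f z),
    (j3a_R j L f) =O[𝓝 (z, 0)] fun p : V2 × ℂ => ‖p.2‖ ^ L := by
  induction L with
  | zero =>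
    intro f z hf
    have hc : ContinuousAt (fun p : V2 × ℂ => f (p.1 + Pi.single j p.2)) (z, 0) := by
      have h1 : ContinuousAt (fun p : V2 × ℂ => p.1 + (Pi.single j p.2 : V2)) (z, 0) := by
        apply Continuous.continuousAt
        apply continuous_fst.add
        apply continuous_pi
        intro i
        by_cases h : i = j
        · subst h
          simpa using continuous_snd
        · simpa [Pi.single_apply, h] using continuous_const
      have h2 : ContinuousAt f ((fun p : V2 × ℂ => p.1 + (Pi.single j p.2 : V2)) (z, 0)) := by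
        simpa using hf.continuousAt
      exact ContinuousAt.comp (f := fun p : V2 × ℂ => p.1 + (Pi.single j p.2 : V2)) h2 h1
    have : j3a_R j 0 f = fun p : V2 × ℂ => f (p.1 + Pi.single j p.2) := by
      funext p
      simp [j3a_R]
    rw [this]
    simp only [pow_zero]
    exact hc.isBigO_one ℝ
  | succ L ih =>
    intro f z hf
    have h1 := ih (j3a_pd_an j hf)
    obtain ⟨C, hC⟩ := h1.bound
    obtain ⟨e1, he1, hb⟩ := Metric.eventually_nhds_iff.mp hC
    obtain ⟨e2, he2, hd⟩ := Metric.eventually_nhds_iff.mp hf.eventually_analyticAt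
    have he : 0 < min e1 (e2 / 2) := lt_min he1 (by linarith)
    apply Asymptotics.IsBigO.of_bound C
    rw [Metric.eventually_nhds_iff]
    refine ⟨min e1 (e2 / 2), he, ?_⟩
    rintro ⟨w, t⟩ hp
    rw [Prod.dist_eq, max_lt_iff, dist_zero_right] at hp
    obtain ⟨hw, ht⟩ := hp
    simp only at hw ht
    have key : ∀ s ∈ Metric.closedBall (0 : ℂ) ‖t‖,
        HasDerivWithinAt (fun s : ℂ => j3a_R j (L + 1) f (w, s)) (j3a_R j L (pd j f) (w, s))
          (Metric.closedBall (0 : ℂ) ‖t‖) s := by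
      intro s hs
      rw [mem_closedBall_zero_iff] at hs
      apply (j3a_deriv j L f w s _).hasDerivWithinAt
      apply AnalyticAt.differentiableAt
      apply hd
      have h20 : dist (w + Pi.single j s) w = ‖s‖ := by
        rw [dist_eq_norm, add_sub_cancel_left, j3a_norm_single]
      have h21 := dist_triangle (w + Pi.single j s) w z
      have h22 : ‖t‖ < e2 / 2 := lt_of_lt_of_le ht (min_le_right _ _)
      have h23 : dist w z < e2 / 2 := lt_of_lt_of_le hw (min_le_right _ _)
      linarith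
    have key2 : ∀ s ∈ Metric.closedBall (0 : ℂ) ‖t‖,
        ‖j3a_R j L (pd j f) (w, s)‖ ≤ C * ‖t‖ ^ L := by
      intro s hs
      rw [mem_closedBall_zero_iff] at hs
      have h3 : dist (w, s) (z, (0 : ℂ)) < e1 := by
        rw [Prod.dist_eq, max_lt_iff, dist_zero_right]
        exact ⟨lt_of_lt_of_le hw (min_le_left _ _),
          lt_of_le_of_lt hs (lt_of_lt_of_le ht (min_le_left _ _))⟩
      have h4 := hb h3
      simp only [norm_pow, norm_norm] at h4
      by_cases hC0 : 0 ≤ C
      · refine h4.trans ?_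
        gcongr
      · push Not at hC0
        have h5 : dist (w, t) (z, (0 : ℂ)) < e1 := by
          rw [Prod.dist_eq, max_lt_iff, dist_zero_right]
          exact ⟨lt_of_lt_of_le hw (min_le_left _ _), (lt_of_lt_of_le ht (min_le_left _ _))⟩
        have h6 := hb h5
        simp only [norm_pow, norm_norm] at h6
        have h7 : 0 ≤ C * ‖t‖ ^ L := (norm_nonneg _).trans h6
        have h8 : ‖t‖ ^ L = 0 := by
          by_contra hne
          have : 0 < ‖t‖ ^ L := lt_of_le_of_ne (by positivity) (Ne.symm hne)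
          nlinarith
        have h9 : ‖s‖ ^ L ≤ ‖t‖ ^ L := by gcongr
        have h10 : ‖s‖ ^ L = 0 := le_antisymm (h8 ▸ h9) (by positivity)
        rw [h8]
        rw [h10] at h4
        exact h4
    have h5 := (convex_closedBall (0 : ℂ) ‖t‖).norm_image_sub_le_of_norm_hasDerivWithin_le
      key key2 (x := 0) (y := t) (by simp) (by simp)
    simp only [j3a_zero, sub_zero] at h5
    simp only [norm_pow, norm_norm]
    calc _ ≤ C * ‖t‖ ^ L * ‖t‖ := h5
      _ = C * ‖t‖ ^ (L + 1) := by ring

theorem taylor2 {f : V2 → ℂ} {z : V2} (hf : AnalyticAt ℂ f z) (L : ℕ) :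
    (fun h : V2 => f (z + h) - ∑ α ∈ (Finset.range (L + 1) ×ˢ Finset.range (L + 1)),
      pdd α f z / ((α.1 ! : ℕ) * (α.2 ! : ℕ) : ℂ) * (h 0 ^ α.1 * h 1 ^ α.2)) =O[𝓝 0]
      fun h => ‖h‖ ^ (L + 1) := by
  have hs0 : Continuous fun h : V2 => (Pi.single 0 (h 0) : V2) := by
    apply continuous_pi
    intro i
    fin_cases i
    · simpa using continuous_apply (A := fun _ : Fin 2 => ℂ) 0
    · simpa using continuous_const
  -- the remainder in the direction `1`
  have h1 : (fun h : V2 => j3a_R 1 (L + 1) f (z + Pi.single 0 (h 0), h 1)) =O[𝓝 0]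
      fun h => ‖h‖ ^ (L + 1) := by
    have ht : Tendsto (fun h : V2 => ((z + Pi.single 0 (h 0) : V2), h 1)) (𝓝 0) (𝓝 (z, 0)) := by
      have hc : Continuous fun h : V2 => ((z + Pi.single 0 (h 0) : V2), h 1) :=
        (continuous_const.add hs0).prodMk (continuous_apply 1)
      have := hc.tendsto 0
      simpa using this
    have h2 := (j3a_bound 1 (L + 1) hf).comp_tendsto ht
    refine h2.trans ?_
    apply Asymptotics.IsBigO.of_bound 1
    filter_upwards with h
    simp only [Function.comp, norm_pow, norm_norm, one_mul]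
    gcongr
    exact norm_le_pi_norm h 1
  -- the remainders in the direction `0`
  have h2 : ∀ b ∈ Finset.range (L + 1),
      (fun h : V2 => j3a_R 0 (L + 1) ((pd 1)^[b] f) (z, h 0) / (b ! : ℕ) * h 1 ^ b) =O[𝓝 0]
      fun h => ‖h‖ ^ (L + 1) := by
    intro b _
    have ht : Tendsto (fun h : V2 => (z, h 0)) (𝓝 0) (𝓝 (z, 0)) := by
      have hc : Continuous fun h : V2 => (z, h 0) :=
        continuous_const.prodMk (continuous_apply 0)
      have := hc.tendsto 0
      simpa using this
    have h3 := (j3a_bound 0 (L + 1) (j3a_iter_an 1 hf b)).comp_tendsto ht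
    have h4 : (fun h : V2 => j3a_R 0 (L + 1) ((pd 1)^[b] f) (z, h 0)) =O[𝓝 0]
        fun h => ‖h‖ ^ (L + 1) := by
      refine h3.trans ?_
      apply Asymptotics.IsBigO.of_bound 1
      filter_upwards with h
      simp only [Function.comp, norm_pow, norm_norm, one_mul]
      gcongr
      exact norm_le_pi_norm h 0
    have h5 : (fun h : V2 => h 1 ^ b / ((b ! : ℕ) : ℂ)) =O[𝓝 0] fun _ => (1 : ℝ) := by
      have hc : Continuous fun h : V2 => h 1 ^ b / ((b ! : ℕ) : ℂ) :=
        ((continuous_apply 1).pow b).div_const _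
      exact hc.continuousAt.isBigO_one ℝ
    have h6 := h4.mul h5
    simp only [mul_one] at h6
    refine h6.congr_left ?_
    intro h
    ring
  have h3 := Asymptotics.IsBigO.sum h2
  have h4 := h1.add h3
  refine h4.congr_left ?_
  intro h
  rw [Finset.sum_apply]
  unfold j3a_R
  have e0 : z + Pi.single 0 (h 0) + Pi.single 1 (h 1) = z + h := by
    rw [add_assoc]
    congr 1
    funext i
    fin_cases i <;> simp
  simp only [e0]
  rw [Finset.sum_product_right]
  have e1 : ∀ b ∈ Finset.range (L + 1),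
      ((pd 1)^[b] f (z + Pi.single 0 (h 0)) - ∑ a ∈ Finset.range (L + 1),
        (pd 0)^[a] ((pd 1)^[b] f) z / (a ! : ℕ) * h 0 ^ a) / (b ! : ℕ) * h 1 ^ b =
      (pd 1)^[b] f (z + Pi.single 0 (h 0)) / (b ! : ℕ) * h 1 ^ b -
      ∑ a ∈ Finset.range (L + 1), pdd (a, b) f z / ((a ! : ℕ) * (b ! : ℕ) : ℂ) *
        (h 0 ^ a * h 1 ^ b) := by
    intro b _
    rw [sub_div, sub_mul, Finset.sum_div, Finset.sum_mul]
    congr 1
    apply Finset.sum_congr rfl
    intro a _
    have ha : ((a ! : ℕ) : ℂ) ≠ 0 := by exact_mod_cast Nat.factorial_ne_zero a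
    have hb : ((b ! : ℕ) : ℂ) ≠ 0 := by exact_mod_cast Nat.factorial_ne_zero b
    unfold pdd
    field_simp
  rw [Finset.sum_congr rfl e1, Finset.sum_sub_distrib]
  ring


end Pool.Agent.GG
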