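import Pool.Agent.Lib_helper82.GG.D.All
import Pool.Agent.Lib_helper58.MBS.L.AORD
import Pool.Agent.Lib_helper58.MBS.L.AJET

set_option autoImplicit false

open Filter Topology Metric Set

namespace Pool.Agent.GG

variable {k : ℕ}

theorem iter_zero {f : ℂ → ℂ} (hf : AnalyticAt ℂ f 0) {l : ℕ}
    (h : f =O[𝓝 0] fun ζ => ‖ζ‖ ^ (l + 1)) : iteratedDeriv l f 0 = 0 := by
  obtain ⟨C, hC⟩ := h.bound
  refine MBS.deriv_zero_of_bound_pr hf (μ := l + 1) (C := C) ?_ l (Nat.lt_succ_self l)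
  filter_upwards [hC] with z hz
  simpa using hz

theorem jet_dep {f : V2 → ℂ} {c d : ℂ → V2} (hc : AnalyticAt ℂ c 0) (hd : AnalyticAt ℂ d 0)
    (h0 : c 0 = d 0) (hf : AnalyticAt ℂ f (c 0)) (h : jt k c = jt k d) {l : ℕ} (hl : l ≤ k) :
    iteratedDeriv l (fun ζ => f (c ζ)) 0 = iteratedDeriv l (fun ζ => f (d ζ)) 0 := by
  have hcj : ∀ j, AnalyticAt ℂ (fun ζ => c ζ j) 0 := fun j =>
    ((ContinuousLinearMap.proj (R := ℂ) j : V2 →L[ℂ] ℂ).analyticAt _).comp hc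
  have hdj : ∀ j, AnalyticAt ℂ (fun ζ => d ζ j) 0 := fun j =>
    ((ContinuousLinearMap.proj (R := ℂ) j : V2 →L[ℂ] ℂ).analyticAt _).comp hd
  have hj : ∀ j, ∃ C : ℝ, ∀ᶠ z in 𝓝 (0 : ℂ), ‖c z j - d z j‖ ≤ C * ‖z‖ ^ (k + 1) := by
    intro j
    refine (MBS.jets_eq_iff_pr (hcj j) (hdj j) (k + 1)).1 ?_
    intro q hq
    rcases Nat.eq_zero_or_pos q with rfl | hq0
    · simp [h0]
    · obtain ⟨q', rfl⟩ := Nat.exists_eq_succ_of_ne_zero hq0.ne'
      exact congrFun h (j, ⟨q', by omega⟩)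
  choose C hC using hj
  obtain ⟨K, V, hV, hK⟩ := hf.hasStrictFDerivAt.exists_lipschitzOnWith
  have hfd : AnalyticAt ℂ f (d 0) := by rw [← h0]; exact hf
  refine (MBS.jets_eq_iff_pr (hf.comp hc) (hfd.comp hd) (k + 1)).2 ?_ l (by omega)
  refine ⟨K * (|C 0| + |C 1|), ?_⟩
  have e1 : ∀ᶠ z in 𝓝 (0 : ℂ), c z ∈ V := hc.continuousAt.eventually hV
  have e2 : ∀ᶠ z in 𝓝 (0 : ℂ), d z ∈ V := by
    refine hd.continuousAt.eventually ?_
    rw [← h0]; exact hV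
  filter_upwards [e1, e2, hC 0, hC 1] with z z1 z2 z3 z4
  have h1 := hK.dist_le_mul _ z1 _ z2
  rw [dist_eq_norm, dist_eq_norm] at h1
  refine h1.trans ?_
  rw [mul_assoc]
  refine mul_le_mul_of_nonneg_left ?_ K.2
  refine (pi_norm_le_iff_of_nonneg (by positivity)).2 fun j => ?_
  have hp : 0 ≤ ‖z‖ ^ (k + 1) := by positivity
  fin_cases j
  · refine z3.trans ?_
    have : C 0 ≤ |C 0| + |C 1| := (le_abs_self _).trans (le_add_of_nonneg_right (abs_nonneg _))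
    exact mul_le_mul_of_nonneg_right this hp
  · refine z4.trans ?_
    have : C 1 ≤ |C 0| + |C 1| := (le_abs_self _).trans (le_add_of_nonneg_left (abs_nonneg _))
    exact mul_le_mul_of_nonneg_right this hp


end Pool.Agent.GG
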