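import Pool.Agent.Lib_helper82.GG.D.All
import Pool.Agent.Lib_helper82.GG.P.J2
import Pool.Agent.Lib_helper82.GG.P.J3a
import Pool.Agent.Lib_helper82.GG.P.J3b

set_option autoImplicit false

open Filter Topology Metric Set
open scoped Nat

namespace Pool.Agent.GG

open Pool.Agent.BR

variable {k : ℕ}

/-- J3: the chain rule for a function -/
theorem jp_eval {f : V2 → ℂ} {c : ℂ → V2} (hc : AnalyticAt ℂ c 0) (hf : AnalyticAt ℂ f (c 0))
    {l : ℕ} (h1 : 1 ≤ l) (hl : l ≤ k) :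
    MvPolynomial.eval (jt k c) (jp k (fun α => pdd α f (c 0)) l) =
      iteratedDeriv l (fun ζ => f (c ζ)) 0 := by
  classical
  obtain ⟨hd, hd0, hdj⟩ := cv_an (c 0) (jt k c)
  set d : ℂ → V2 := cv (c 0) (jt k c) with hdd
  have hfd : AnalyticAt ℂ f (d 0) := by rw [hd0]; exact hf
  rw [jet_dep hc hd hd0.symm hf hdj.symm hl]
  -- the components
  have hcomp : ∀ j : Fin 2, AnalyticAt ℂ (fun ζ => d ζ j) 0 := fun j =>
    ((ContinuousLinearMap.proj j : V2 →L[ℂ] ℂ).analyticAt _).comp hd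
  have hmon : ∀ α : ℕ × ℕ, AnalyticAt ℂ (fun ζ => (d ζ 0 - c 0 0) ^ α.1 * (d ζ 1 - c 0 1) ^ α.2) 0 :=
    fun α => (((hcomp 0).sub analyticAt_const).pow _).mul (((hcomp 1).sub analyticAt_const).pow _)
  have hfc : AnalyticAt ℂ (fun ζ => f (d ζ)) 0 := hfd.comp hd
  set S : Finset (ℕ × ℕ) := Finset.range (l + 1) ×ˢ Finset.range (l + 1) with hS
  set a : ℕ × ℕ → ℂ := fun α => pdd α f (c 0) / ((α.1 ! : ℕ) * (α.2 ! : ℕ) : ℂ) with ha
  -- the remainder
  have hsum : AnalyticAt ℂ (fun ζ => ∑ α ∈ S, a α *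
      ((d ζ 0 - c 0 0) ^ α.1 * (d ζ 1 - c 0 1) ^ α.2)) 0 := by
    refine Finset.analyticAt_fun_sum _ fun α _ => ?_
    exact analyticAt_const.mul (hmon α)
  have hrem : (fun ζ => f (d ζ) - ∑ α ∈ S, a α *
      ((d ζ 0 - c 0 0) ^ α.1 * (d ζ 1 - c 0 1) ^ α.2)) =O[𝓝 0] fun ζ : ℂ => ‖ζ‖ ^ (l + 1) := by
    have ht := taylor2 hf l
    have hlim : Tendsto (fun ζ => d ζ - c 0) (𝓝 0) (𝓝 0) := by
      have : ContinuousAt (fun ζ => d ζ - c 0) 0 := hd.continuousAt.sub continuousAt_const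
      have h2 := this.tendsto
      simp only [hd0, sub_self] at h2
      exact h2
    have h3 := ht.comp_tendsto hlim
    have h4 : (fun ζ => ‖d ζ - c 0‖ ^ (l + 1)) =O[𝓝 0] fun ζ : ℂ => ‖ζ‖ ^ (l + 1) := by
      have h5 : (fun ζ => d ζ - d 0) =O[𝓝 0] fun ζ : ℂ => ζ - 0 :=
        hd.differentiableAt.isBigO_sub
      rw [hd0] at h5
      simp only [sub_zero] at h5
      exact h5.norm_norm.pow _
    refine (h3.trans h4).congr_left fun ζ => ?_
    simp only [Function.comp_apply, Pi.sub_apply, ha, hS, add_sub_cancel]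
  have hz := iter_zero (hfc.sub hsum) hrem
  rw [iteratedDeriv_sub hfc.contDiffAt hsum.contDiffAt] at hz
  have hcd : ∀ α ∈ S, ContDiffAt ℂ l (fun ζ => a α *
      ((d ζ 0 - c 0 0) ^ α.1 * (d ζ 1 - c 0 1) ^ α.2)) 0 := fun α _ =>
    (analyticAt_const.mul (hmon α)).contDiffAt
  rw [sub_eq_zero.1 hz, iteratedDeriv_fun_sum hcd]
  have hterm : ∀ α ∈ S, iteratedDeriv l (fun ζ => a α *
      ((d ζ 0 - c 0 0) ^ α.1 * (d ζ 1 - c 0 1) ^ α.2)) 0 =
      a α * MvPolynomial.eval (jt k c) (bp k α l) := by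
    intro α _
    rw [iteratedDeriv_const_mul_field, bp_eval (c 0) (jt k c) α l]
  rw [Finset.sum_congr rfl hterm]
  -- the left side
  unfold jp
  rw [map_sum]
  simp only [map_mul, MvPolynomial.eval_C]
  rw [Finset.sum_filter]
  refine Finset.sum_congr rfl fun α _ => ?_
  split_ifs with hα
  · rfl
  · have h0 : α = (0, 0) := by
      obtain ⟨α1, α2⟩ := α
      simp only [Prod.mk.injEq]
      simp only at hα
      omega
    subst h0
    rw [bp_eval (c 0) (jt k c) (0, 0) l]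
    simp only [pow_zero, mul_one]
    rw [iteratedDeriv_const]
    have : l ≠ 0 := by omega
    simp [this]


end Pool.Agent.GG
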