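import Pool.Agent.Lib_helper82.GG.D.All
import Pool.Agent.Lib_helper82.GG.P.J3

set_option autoImplicit false

open Filter Topology Metric Set
open scoped Nat

namespace Pool.Agent.GG

open Pool.Agent.BR

variable {k : ℕ}

/-- J4: the chain rule -/
theorem tr_eval {F : V2 → V2} {c : ℂ → V2} (hc : AnalyticAt ℂ c 0) (hF : AnalyticAt ℂ F (c 0))
    (P : JP k) : MvPolynomial.eval (jt k c) (Tr k F (c 0) P) =
      MvPolynomial.eval (jt k fun ζ => F (c ζ)) P := by
  induction P using MvPolynomial.induction_on with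
  | C a => simp [Tr]
  | add p q hp hq => rw [map_add, map_add, hp, hq, map_add]
  | mul_X p v hp =>
    rw [map_mul, map_mul, hp, map_mul]
    congr 1
    have h1 : Tr k F (c 0) (MvPolynomial.X v) =
        jp k (fun α => pdd α (fun w => F w v.1) (c 0)) ((v.2 : ℕ) + 1) := by
      simp [Tr]
    have h2 : AnalyticAt ℂ (fun w => F w v.1) (c 0) :=
      ((ContinuousLinearMap.proj v.1 : (Fin 2 → ℂ) →L[ℂ] ℂ).analyticAt _).comp hF
    rw [h1, jp_eval hc h2 (by omega) (by have := v.2.2; omega), MvPolynomial.eval_X]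
    rfl

end Pool.Agent.GG

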