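import Pool.Agent.Lib_helper82.GG.D.All
import Pool.Agent.Lib_helper82.GG.P.J2
import Pool.Agent.Lib_helper82.GG.P.J4

/-! # GG, block J5: functoriality of the action on jets (helper20) -/

set_option autoImplicit false

open Filter Topology Metric Set
open scoped Nat

namespace Pool.Agent.GG

open Pool.Agent.BR

section jets

variable {k : ℕ}

theorem tr_comp {F G : V2 → V2} {z : V2} (hF : AnalyticAt ℂ F z) (hG : AnalyticAt ℂ G (F z))
    (P : JP k) : Tr k F z (Tr k G (F z) P) = Tr k (fun w => G (F w)) z P := by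
  apply MvPolynomial.funext
  intro ξ
  obtain ⟨hc, h0, hj⟩ := cv_an z ξ
  have hF' : AnalyticAt ℂ F (cv z ξ 0) := by rw [h0]; exact hF
  have hFc : AnalyticAt ℂ (fun ζ => F (cv z ξ ζ)) 0 := hF'.comp_of_eq hc rfl
  have hGF : AnalyticAt ℂ (fun w => G (F w)) (cv z ξ 0) := by
    rw [h0]
    exact hG.comp_of_eq hF rfl
  have hG' : AnalyticAt ℂ G ((fun ζ => F (cv z ξ ζ)) 0) := by
    show AnalyticAt ℂ G (F (cv z ξ 0))
    rw [h0]
    exact hG
  have e1 := tr_eval hc hF' (Tr k G (F z) P)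
  have e2 := tr_eval hFc hG' P
  have e3 := tr_eval hc hGF P
  rw [h0, hj] at e1 e3
  rw [e1, e3]
  rw [h0] at e2
  exact e2

theorem tr_id (z : V2) (P : JP k) : Tr k (fun w => w) z P = P := by
  apply MvPolynomial.funext
  intro ξ
  obtain ⟨hc, h0, hj⟩ := cv_an z ξ
  have e1 := tr_eval (F := fun w => w) hc analyticAt_id P
  rw [h0, hj] at e1
  rw [e1]

theorem j5_pd {f g : V2 → ℂ} {z : V2} (h : f =ᶠ[𝓝 z] g) (j : Fin 2) : pd j f =ᶠ[𝓝 z] pd j g := by
  filter_upwards [h.fderiv (𝕜 := ℂ)] with w hw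
  show fderiv ℂ f w _ = fderiv ℂ g w _
  rw [hw]

theorem j5_iter {f g : V2 → ℂ} {z : V2} (j : Fin 2) (n : ℕ) (h : f =ᶠ[𝓝 z] g) :
    (pd j)^[n] f =ᶠ[𝓝 z] (pd j)^[n] g := by
  induction n with
  | zero => exact h
  | succ n ih =>
    rw [Function.iterate_succ_apply', Function.iterate_succ_apply']
    exact j5_pd ih j

theorem tr_congr {F G : V2 → V2} {z : V2} (h : F =ᶠ[𝓝 z] G) : Tr k F z = Tr k G z := by
  unfold Tr
  congr 1
  funext v
  congr 1
  funext α
  have h1 : (fun w => F w v.1) =ᶠ[𝓝 z] (fun w => G w v.1) := by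
    filter_upwards [h] with w hw
    rw [hw]
  exact (j5_iter 0 α.1 (j5_iter 1 α.2 h1)).self_of_nhds

end jets


end Pool.Agent.GG
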