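import Pool.Agent.Lib_helper82.GG.D.All

/-! # GG, block L0b: the jacobian of the quotients, the local inverse -/

set_option autoImplicit false

open Filter Topology Metric Set
open scoped Nat

namespace Pool.Agent.GG

open Pool.Agent.BR

theorem l0b_line {h : V2 → ℂ} {z : V2} (hh : DifferentiableAt ℂ h z) (j : Fin 2) :
    HasDerivAt (fun t : ℂ => h (z + t • Pi.single j (1 : ℂ))) (pd j h z) 0 :=
  hh.hasFDerivAt.hasLineDerivAt _

theorem l0b_pd_div {f g : V2 → ℂ} {z : V2} (hf : DifferentiableAt ℂ f z)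
    (hg : DifferentiableAt ℂ g z) (h0 : g z ≠ 0) (j : Fin 2) :
    pd j (fun w => f w / g w) z = (pd j f z * g z - f z * pd j g z) / g z ^ 2 := by
  have h1 := (l0b_line hf j).fun_div (l0b_line hg j) (by simpa using h0)
  have hd : DifferentiableAt ℂ (fun w => f w / g w) z := by
    simp only [div_eq_mul_inv]
    exact hf.mul ((differentiableAt_inv h0).comp z hg)
  have h2 := l0b_line hd j
  have := h2.unique h1
  simpa using this

theorem l0b_jm {T : Fin 3 → V2 → ℂ} {z : V2} (hT : ∀ j, AnalyticAt ℂ (T j) z) (h0 : T 0 z ≠ 0)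
    (i j : Fin 2) : Jm (UU T) z i j =
      (pd j (T i.succ) z * T 0 z - T i.succ z * pd j (T 0) z) / T 0 z ^ 2 :=
  l0b_pd_div (hT i.succ).differentiableAt (hT 0).differentiableAt h0 j

theorem l0b_toMatrix {F : V2 → V2} {z : V2} (hF : DifferentiableAt ℂ F z) :
    LinearMap.toMatrix' ((fderiv ℂ F z : V2 →L[ℂ] V2) : V2 →ₗ[ℂ] V2) = Jm F z := by
  ext i j
  rw [LinearMap.toMatrix'_apply]
  have h1 : HasDerivAt (fun t : ℂ => F (z + t • Pi.single j (1 : ℂ)))
      (fderiv ℂ F z (Pi.single j (1 : ℂ))) 0 := hF.hasFDerivAt.hasLineDerivAt _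
  have h2 := (hasDerivAt_pi.1 h1) i
  have h3 := l0b_line (differentiableAt_pi.1 hF i) j
  have h4 := h2.unique h3
  have e : (fun j' : Fin 2 => if j' = j then (1 : ℂ) else 0) = Pi.single j (1 : ℂ) := by
    ext j'
    rw [Pi.single_apply]
  simpa [Jm, e] using h4

theorem uu_inv {T : Fin 3 → V2 → ℂ} {z : V2} (hT : ∀ j, AnalyticAt ℂ (T j) z) (hz : z ∈ Gd T) :
    AnalyticAt ℂ (UU T) z ∧ (Jm (UU T) z).det = dl T z / T 0 z ^ 3 ∧
    ∃ Θ : V2 → V2, AnalyticAt ℂ Θ (UU T z) ∧ (∀ᶠ w in 𝓝 z, Θ (UU T w) = w) ∧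
      ∀ᶠ y in 𝓝 (UU T z), UU T (Θ y) = y := by
  have h0 : T 0 z ≠ 0 := hz.1
  have hU : AnalyticAt ℂ (UU T) z := by
    rw [analyticAt_pi_iff]
    intro j
    exact (hT j.succ).fun_div (hT 0) h0
  have hdet : (Jm (UU T) z).det = dl T z / T 0 z ^ 3 := by
    rw [Matrix.det_fin_two, l0b_jm hT h0, l0b_jm hT h0, l0b_jm hT h0, l0b_jm hT h0]
    unfold dl
    rw [Matrix.det_fin_three]
    simp only [Matrix.of_apply, Matrix.cons_val_zero, Matrix.cons_val_one, Matrix.cons_val_two,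
      Matrix.head_cons, Matrix.tail_cons, Fin.succ_zero_eq_one, Fin.succ_one_eq_two]
    field_simp
    ring
  refine ⟨hU, hdet, ?_⟩
  have hdet0 : (Jm (UU T) z).det ≠ 0 := by
    rw [hdet]
    exact div_ne_zero hz.2 (pow_ne_zero _ h0)
  have hd : (fderiv ℂ (UU T) z).det ≠ 0 := by
    show LinearMap.det ((fderiv ℂ (UU T) z : V2 →L[ℂ] V2) : V2 →ₗ[ℂ] V2) ≠ 0
    rw [← LinearMap.det_toMatrix', l0b_toMatrix hU.differentiableAt]
    exact hdet0
  have hf' : HasFDerivAt (UU T)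
      (((fderiv ℂ (UU T) z).toContinuousLinearEquivOfDetNeZero hd : V2 ≃L[ℂ] V2) : V2 →L[ℂ] V2)
      z := by
    rw [ContinuousLinearMap.coe_toContinuousLinearEquivOfDetNeZero]
    exact hU.differentiableAt.hasFDerivAt
  have hc : ContDiffAt ℂ (⊤ : WithTop ℕ∞) (UU T) z := hU.contDiffAt
  have hn : (⊤ : WithTop ℕ∞) ≠ 0 := by simp
  refine ⟨hc.localInverse hf' hn, ?_, ?_, ?_⟩
  · have h1 := hc.to_localInverse hf' hn
    have h2 := contDiffWithinAt_omega_iff_analyticWithinAt.1 (contDiffWithinAt_univ.2 h1)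
    exact analyticWithinAt_univ.1 h2
  · exact (hc.hasStrictFDerivAt' hf' hn).eventually_left_inverse
  · exact (hc.hasStrictFDerivAt' hf' hn).eventually_right_inverse


end Pool.Agent.GG
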