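import Pool.Agent.Lib_helper82.GG.D.All
import Pool.Agent.Lib_helper82.GG.P.G1
import Pool.Agent.Lib_helper82.GG.P.G3
import Pool.Agent.Lib_helper82.GG.P.G5
import Pool.Agent.Lib_helper82.GG.P.J5
import Pool.Agent.Lib_helper82.GG.P.L0b

/-! # Block G6 of project GG: the jet differentials `P_c` in two charts -/

set_option autoImplicit false

open Filter Topology Metric Set
open scoped Nat

namespace Pool.Agent.GG

open Pool.Agent.BR

section surf

variable {X : Type} [MetricSpace X] [CompactSpace X] {A : Cha V2 X} {b D k m n : ℕ}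
  {T : Fin 3 → A.ι → X → ℂ} {T₃ : A.ι → X → ℂ}

/-- G6: change of charts -/
theorem pcf_tr (hT : Net A b T) (c : X → JP k) {i j : A.ι} {x : X} (hi : x ∈ (A.ch i).source)
    (hj : x ∈ (A.ch j).source) :
    ∀ᶠ z in 𝓝 (A.ch i x), z ∈ Gd (lT A T i) →
      pcf A T c i z = Tr k (tc A i j) z (pcf A T c j (tc A i j z)) := by
  obtain ⟨han, _, hnear⟩ := tc_near (A := A) hi hj
  filter_upwards [hnear, han.eventually_analyticAt] with z hz hzan hgd
  obtain ⟨_, hxi, hxj, hz1, hz2⟩ := hz
  -- the point of the surface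
  have hzj : A.ch j ((A.ch i).symm z) = tc A i j z := rfl
  have hgx : (A.ch i).symm z ∈ GX A T := by
    rw [(net_gd hT hxi).1, hz1]
    exact hgd
  have hgdj : tc A i j z ∈ Gd (lT A T j) := by
    rw [← hzj]
    exact (net_gd hT hxj).1.1 hgx
  have hanj : ∀ l, AnalyticAt ℂ (lT A T j l) (tc A i j z) := fun l => by
    rw [← hzj]
    exact net_an hT hxj l
  have hani : AnalyticAt ℂ (lT A T i 0) z := by
    have := net_an hT hxi 0
    rwa [hz1] at this
  have hG := (uu_inv hanj hgdj).1
  -- the quotients in the two charts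
  have hUU : UU (lT A T i) =ᶠ[𝓝 z] fun w => UU (lT A T j) (tc A i j w) := by
    have h1 : ∀ᶠ w in 𝓝 z, ∀ l : Fin 3, lT A T i l w =
        (Jm (tc A i j) w).det ^ b * lT A T j l (tc A i j w) := by
      rw [eventually_all]
      intro l
      have := net_tr hT hxi hxj l
      rwa [hz1] at this
    have h2 : ∀ᶠ w in 𝓝 z, lT A T i 0 w ≠ 0 :=
      hani.continuousAt.eventually_ne hgd.1
    filter_upwards [h1, h2] with w hw hw0
    funext l
    have hJ : (Jm (tc A i j) w).det ^ b ≠ 0 := by
      intro h0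
      apply hw0
      rw [hw 0, h0, zero_mul]
    simp only [UU]
    rw [hw l.succ, hw 0, mul_div_mul_left _ _ hJ]
  have e1 : pcf A T c i z = Tr k (UU (lT A T i)) z (c ((A.ch i).symm z)) := by
    simp only [pcf, PC]
    rw [hz1]
  have e2 : pcf A T c j (tc A i j z) =
      Tr k (UU (lT A T j)) (tc A i j z) (c ((A.ch i).symm z)) := by
    simp only [pcf, PC]
    rw [hz2, hzj]
  rw [e1, e2, tr_comp hzan hG, tr_congr hUU]

end surf


end Pool.Agent.GG
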