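import Pool.Agent.Lib_helper82.GG.D.All

set_option autoImplicit false

namespace Pool.Agent.GG

theorem wt_fin (k m : ℕ) : {t : Fin 2 × Fin k →₀ ℕ | wt t = m}.Finite ∧
    ∀ t, t ∈ Ty k m ↔ wt t = m := by
  have h : ∀ t : Fin 2 × Fin k →₀ ℕ, t ∈ Ty k m ↔ wt t = m := by
    intro t
    simp only [Ty, Finset.mem_map, Finset.mem_filter, Fintype.mem_piFinset, Finset.mem_range]
    constructor
    · rintro ⟨s, ⟨-, hs⟩, rfl⟩
      simpa using hs
    · intro ht
      refine ⟨⇑t, ⟨fun v => ?_, ht⟩, by simp⟩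
      have h1 : ((v.2 : ℕ) + 1) * t v ≤ wt ⇑t :=
        Finset.single_le_sum (f := fun v : Fin 2 × Fin k => ((v.2 : ℕ) + 1) * t v)
          (fun _ _ => Nat.zero_le _) (Finset.mem_univ v)
      nlinarith
  refine ⟨(Finset.finite_toSet (Ty k m)).subset fun t ht => (h t).2 ht, h⟩


end Pool.Agent.GG
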