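import Pool.Agent.Lib_helper82.GG.D.All
import Pool.Agent.Lib_helper82.GG.P.B1
import Pool.Agent.Lib_helper82.GG.P.B2
import Pool.Agent.Lib_helper82.GG.P.J8

/-! # GG, block G7: the coefficients `cE` (helper16) -/

set_option autoImplicit false
set_option linter.unusedSectionVars false

open Filter Topology Metric Set
open scoped Nat

namespace Pool.Agent.GG

open Pool.Agent.BR

section surface

variable {X : Type} [MetricSpace X] [CompactSpace X] {A : Cha V2 X} {b D k m : ℕ}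
  {T : Fin 3 → A.ι → X → ℂ} {T₃ : A.ι → X → ℂ}

/-- the chosen chart contains the point -/
theorem g7_ci (A : Cha V2 X) (x : X) : x ∈ (A.ch (ci A x)).source :=
  A.W_sub _ (subset_closure (A.cover x).choose_spec)

/-- G7: the coefficients `cE` in any chart -/
theorem cE_loc (hT : Net A b T) (h₃ : IS.PS A b T₃) (w : (Fin 2 × Fin k →₀ ℕ) → (ℕ × ℕ × ℕ × ℕ) → ℂ)
    {i : A.ι} {x : X} (hi : x ∈ (A.ch i).source) (hx : x ∈ GX A T) :
    cE A b D T T₃ k m w x = ∑ t ∈ Ty k m, MvPolynomial.monomial t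
      ((∑ a ∈ Idx D ((6 * b + 1) * dg t), w t a * mo T T₃ a i x) *
        T 0 i x ^ dg t / dlt A T i x ^ (2 * b * dg t)) := by
  have hc := g7_ci A x
  have hD := dlt_ps hT.ps
  have hd0 : dlt A T (ci A x) x ≠ 0 := fun h => hx.2 ((zs_iff hD hc).2 h)
  have hJ := hD.tr (ci A x) i x hc hi
  have hJ0 : IS.jac A (ci A x) i x ≠ 0 := by
    intro h
    rw [h, zero_pow (by omega), zero_mul] at hJ
    exact hd0 hJ
  have hTj : ∀ j, T j (ci A x) x = IS.jac A (ci A x) i x ^ b * T j i x := fun j =>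
    (hT.ps j).tr (ci A x) i x hc hi
  have hT3 : T₃ (ci A x) x = IS.jac A (ci A x) i x ^ b * T₃ i x := h₃.tr (ci A x) i x hc hi
  unfold cE
  apply Finset.sum_congr rfl
  intro t _
  congr 1
  set J := IS.jac A (ci A x) i x with hJdef
  have hsum : ∑ a ∈ Idx D ((6 * b + 1) * dg t), w t a * mo T T₃ a (ci A x) x =
      J ^ (b * ((6 * b + 1) * dg t)) * ∑ a ∈ Idx D ((6 * b + 1) * dg t), w t a * mo T T₃ a i x := by
    rw [Finset.mul_sum]
    apply Finset.sum_congr rfl
    intro a ha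
    have hsum : a.1 + a.2.1 + a.2.2.1 + a.2.2.2 = (6 * b + 1) * dg t := by
      unfold Idx at ha
      exact (Finset.mem_filter.1 ha).2
    rw [← hsum]
    unfold mo
    rw [hT3, hTj, hTj, hTj]
    rw [mul_pow, mul_pow, mul_pow, mul_pow, mul_add, mul_add, mul_add, pow_add, pow_add, pow_add,
      ← pow_mul, ← pow_mul, ← pow_mul, ← pow_mul]
    ring
  rw [hsum, hTj, hJ]
  have hexp : J ^ (b * ((6 * b + 1) * dg t)) * (J ^ b) ^ dg t =
      (J ^ (3 * b + 1)) ^ (2 * b * dg t) := by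
    rw [← pow_mul, ← pow_add, ← pow_mul]
    congr 1
    ring
  have hne : (J ^ (3 * b + 1)) ^ (2 * b * dg t) ≠ 0 := pow_ne_zero _ (pow_ne_zero _ hJ0)
  rw [mul_pow, mul_pow]
  calc J ^ (b * ((6 * b + 1) * dg t)) *
        (∑ a ∈ Idx D ((6 * b + 1) * dg t), w t a * mo T T₃ a i x) *
        ((J ^ b) ^ dg t * T 0 i x ^ dg t) /
        ((J ^ (3 * b + 1)) ^ (2 * b * dg t) * dlt A T i x ^ (2 * b * dg t))
      = (J ^ (b * ((6 * b + 1) * dg t)) * (J ^ b) ^ dg t) *
        ((∑ a ∈ Idx D ((6 * b + 1) * dg t), w t a * mo T T₃ a i x) * T 0 i x ^ dg t) /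
        ((J ^ (3 * b + 1)) ^ (2 * b * dg t) * dlt A T i x ^ (2 * b * dg t)) := by ring
    _ = _ := by
      rw [hexp, mul_div_mul_left _ _ hne]

/-- the coefficients of a sum of monomials -/
theorem g7_coeff (f : (Fin 2 × Fin k →₀ ℕ) → ℂ) (t : Fin 2 × Fin k →₀ ℕ) :
    (∑ s ∈ Ty k m, MvPolynomial.monomial s (f s)).coeff t = if t ∈ Ty k m then f t else 0 := by
  classical
  rw [MvPolynomial.coeff_sum]
  simp only [MvPolynomial.coeff_monomial]
  rw [Finset.sum_ite_eq' (Ty k m) t]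

/-- G7: the orders of the coefficients `cE` -/
theorem cE_oo (hT : Net A b T) (h₃ : IS.PS A b T₃) (w : (Fin 2 × Fin k →₀ ℕ) → (ℕ × ℕ × ℕ × ℕ) → ℂ)
    {i : A.ι} {x : X} (hi : x ∈ (A.ch i).source) (t : Fin 2 × Fin k →₀ ℕ) :
    OO (lT A T i) (A.ch i x) (dg t) (-(2 * b * dg t))
      (fun z => (cE A b D T T₃ k m w ((A.ch i).symm z)).coeff t) := by
  classical
  have hzt : A.ch i x ∈ (A.ch i).target := (A.ch i).map_source hi
  have aT : ∀ j, AnalyticAt ℂ (lz A i (T j i)) (A.ch i x) := fun j => (hT.ps j).an i x hi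
  have a3 : AnalyticAt ℂ (lz A i (T₃ i)) (A.ch i x) := h₃.an i x hi
  refine ⟨fun z => if t ∈ Ty k m then
    ∑ a ∈ Idx D ((6 * b + 1) * dg t), w t a * mo T T₃ a i ((A.ch i).symm z) else 0, ?_, ?_⟩
  · by_cases ht : t ∈ Ty k m
    · simp only [if_pos ht]
      apply Finset.analyticAt_fun_sum
      intro a _
      refine analyticAt_const.mul ?_
      exact (((a3.pow a.1).mul ((aT 0).pow a.2.1)).mul ((aT 1).pow a.2.2.1)).mul
        ((aT 2).pow a.2.2.2)
    · simp only [if_neg ht]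
      exact analyticAt_const
  · filter_upwards [(A.ch i).open_target.mem_nhds hzt] with z hz hG
    have hsrc : (A.ch i).symm z ∈ (A.ch i).source := (A.ch i).map_target hz
    have hch : A.ch i ((A.ch i).symm z) = z := (A.ch i).right_inv hz
    have e0 : lT A T i 0 z = T 0 i ((A.ch i).symm z) := rfl
    have e1 : dlt A T i ((A.ch i).symm z) = dl (lT A T i) z := by
      unfold dlt
      rw [hch]
    have hx : (A.ch i).symm z ∈ GX A T := by
      refine ⟨fun h => hG.1 ?_, fun h => hG.2 ?_⟩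
      · rw [e0]
        exact (zs_iff (hT.ps 0) hsrc).1 h
      · rw [← e1]
        exact (zs_iff (dlt_ps hT.ps) hsrc).1 h
    rw [cE_loc hT h₃ w hsrc hx, g7_coeff, e0, e1]
    by_cases ht : t ∈ Ty k m
    · rw [if_pos ht, if_pos ht, zpow_natCast, zpow_neg, div_eq_mul_inv]
      have : dl (lT A T i) z ^ (2 * (b : ℤ) * (dg t : ℤ)) = dl (lT A T i) z ^ (2 * b * dg t) := by
        rw [← zpow_natCast]
        push_cast
        rfl
      rw [this]
      ring
    · rw [if_neg ht, if_neg ht, mul_zero]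

/-- G7 -/
theorem cE_wh (w : (Fin 2 × Fin k →₀ ℕ) → (ℕ × ℕ × ℕ × ℕ) → ℂ) (x : X) :
    Wh m (cE A b D T T₃ k m w x) := by
  classical
  intro t ht
  rw [← (wt_fin k m).2 t]
  by_contra h
  apply ht
  unfold cE
  rw [g7_coeff, if_neg h]

/-- G7: linearity -/
theorem cE_lin (w w' : (Fin 2 × Fin k →₀ ℕ) → (ℕ × ℕ × ℕ × ℕ) → ℂ) (a a' : ℂ) (x : X) :
    cE A b D T T₃ k m (fun t s => a * w t s + a' * w' t s) x =
      MvPolynomial.C a * cE A b D T T₃ k m w x + MvPolynomial.C a' * cE A b D T T₃ k m w' x := by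
  unfold cE
  rw [Finset.mul_sum, Finset.mul_sum, ← Finset.sum_add_distrib]
  apply Finset.sum_congr rfl
  intro t _
  rw [MvPolynomial.C_mul_monomial, MvPolynomial.C_mul_monomial, ← map_add]
  congr 1
  have : ∑ s ∈ Idx D ((6 * b + 1) * dg t), (a * w t s + a' * w' t s) * mo T T₃ s (ci A x) x =
      a * ∑ s ∈ Idx D ((6 * b + 1) * dg t), w t s * mo T T₃ s (ci A x) x +
      a' * ∑ s ∈ Idx D ((6 * b + 1) * dg t), w' t s * mo T T₃ s (ci A x) x := by
    rw [Finset.mul_sum, Finset.mul_sum, ← Finset.sum_add_distrib]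
    apply Finset.sum_congr rfl
    intro s _
    ring
  rw [this]
  ring

end surface


end Pool.Agent.GG
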