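import Pool.Agent.Lib_helper82.GG.D.All

/-! # Block J1 (project GG): degree and weight of the polynomials `bp` -/

set_option autoImplicit false

open Filter Topology Metric Set
open scoped Nat

namespace Pool.Agent.GG

open Pool.Agent.BR

section jets

variable {k : ℕ}

/-- all coefficients have degree `d` and the right weight -/
def j1_Q (d : ℕ) (p : Polynomial (JP k)) : Prop :=
  ∀ (l : ℕ) (t : Fin 2 × Fin k →₀ ℕ), (p.coeff l).coeff t ≠ 0 → dg t = d ∧ wt t = l

theorem j1_dg_add (s u : Fin 2 × Fin k →₀ ℕ) : dg ⇑(s + u) = dg ⇑s + dg ⇑u := by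
  simp [dg, Finset.sum_add_distrib]

theorem j1_wt_add (s u : Fin 2 × Fin k →₀ ℕ) : wt ⇑(s + u) = wt ⇑s + wt ⇑u := by
  simp [wt, Finset.sum_add_distrib, mul_add]

theorem j1_dg_single (v : Fin 2 × Fin k) : dg ⇑(Finsupp.single v 1) = 1 := by
  classical
  unfold dg
  rw [Finset.sum_eq_single v]
  · simp
  · intro w _ hw
    simp [Ne.symm hw]
  · intro h
    exact absurd (Finset.mem_univ _) h

theorem j1_wt_single (v : Fin 2 × Fin k) : wt ⇑(Finsupp.single v 1) = (v.2 : ℕ) + 1 := by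
  classical
  unfold wt
  rw [Finset.sum_eq_single v]
  · simp
  · intro w _ hw
    simp [Ne.symm hw]
  · intro h
    exact absurd (Finset.mem_univ _) h

theorem j1_Q_one : j1_Q 0 (1 : Polynomial (JP k)) := by
  intro l t h
  rw [Polynomial.coeff_one] at h
  split_ifs at h with h1
  · rw [MvPolynomial.coeff_one] at h
    split_ifs at h with h2
    · subst h1
      rw [← h2]
      simp [dg, wt]
    · exact absurd rfl h
  · exact absurd (by simp) h

theorem j1_Q_mul {d e : ℕ} {p q : Polynomial (JP k)} (hp : j1_Q d p) (hq : j1_Q e q) :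
    j1_Q (d + e) (p * q) := by
  classical
  intro l t h
  rw [Polynomial.coeff_mul, MvPolynomial.coeff_sum] at h
  obtain ⟨a, ha, h1⟩ := Finset.exists_ne_zero_of_sum_ne_zero h
  rw [MvPolynomial.coeff_mul] at h1
  obtain ⟨s, hs, h2⟩ := Finset.exists_ne_zero_of_sum_ne_zero h1
  rw [Finset.HasAntidiagonal.mem_antidiagonal] at ha hs
  obtain ⟨h3, h4⟩ := hp a.1 s.1 (left_ne_zero_of_mul h2)
  obtain ⟨h5, h6⟩ := hq a.2 s.2 (right_ne_zero_of_mul h2)
  rw [← hs, j1_dg_add, j1_wt_add, h3, h4, h5, h6]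
  exact ⟨rfl, ha⟩

theorem j1_Q_pow {d : ℕ} {p : Polynomial (JP k)} (hp : j1_Q d p) (n : ℕ) :
    j1_Q (n * d) (p ^ n) := by
  induction n with
  | zero => simpa using j1_Q_one
  | succ n ih =>
    rw [pow_succ, Nat.succ_mul]
    exact j1_Q_mul ih hp

theorem j1_coeff_gp (j : Fin 2) (m : ℕ) : (gp k j).coeff m = ∑ l : Fin k,
    if (l : ℕ) + 1 = m then
      (MvPolynomial.C ((((l : ℕ) + 1)! : ℕ) : ℂ)⁻¹ * MvPolynomial.X (j, l) : JP k) else 0 := by
  unfold gp
  rw [Polynomial.finsetSum_coeff]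
  refine Finset.sum_congr rfl fun l _ => ?_
  rw [Polynomial.coeff_monomial]

theorem j1_Q_gp (j : Fin 2) : j1_Q 1 (gp k j) := by
  classical
  intro m t h
  rw [j1_coeff_gp, MvPolynomial.coeff_sum] at h
  obtain ⟨l, -, h1⟩ := Finset.exists_ne_zero_of_sum_ne_zero h
  split_ifs at h1 with h2
  · rw [MvPolynomial.coeff_C_mul] at h1
    have h3 := right_ne_zero_of_mul h1
    rw [MvPolynomial.coeff_X] at h3
    split_ifs at h3 with h4
    · rw [← h4, j1_dg_single, j1_wt_single]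
      exact ⟨rfl, h2⟩
    · exact absurd rfl h3
  · exact absurd (by simp) h1

/-- J1: degree and weight of the polynomials `bp` -/
theorem bp_deg (α : ℕ × ℕ) (l : ℕ) (t : Fin 2 × Fin k →₀ ℕ) (h : (bp k α l).coeff t ≠ 0) :
    dg t = α.1 + α.2 ∧ wt t = l := by
  unfold bp at h
  rw [MvPolynomial.coeff_C_mul] at h
  have h1 := right_ne_zero_of_mul h
  have h2 := j1_Q_mul (j1_Q_pow (j1_Q_gp (k := k) 0) α.1) (j1_Q_pow (j1_Q_gp (k := k) 1) α.2) l t h1
  simpa using h2

/-- J1 -/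
theorem bp_one (j : Fin 2) (l : Fin k) :
    bp k (if j = 0 then (1, 0) else (0, 1)) ((l : ℕ) + 1) = MvPolynomial.X (j, l) := by
  classical
  have h1 : (gp k j).coeff ((l : ℕ) + 1) =
      MvPolynomial.C ((((l : ℕ) + 1)! : ℕ) : ℂ)⁻¹ * MvPolynomial.X (j, l) := by
    rw [j1_coeff_gp, Finset.sum_eq_single l]
    · rw [if_pos rfl]
    · intro l' _ hl'
      rw [if_neg]
      intro h
      exact hl' (Fin.ext (by omega))
    · intro h
      exact absurd (Finset.mem_univ _) h
  have h2 : (gp k 0 ^ (if j = 0 then ((1, 0) : ℕ × ℕ) else (0, 1)).1 *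
      gp k 1 ^ (if j = 0 then ((1, 0) : ℕ × ℕ) else (0, 1)).2) = gp k j := by
    by_cases hj : j = 0
    · subst hj
      simp
    · have hj1 : j = 1 := by omega
      subst hj1
      simp
  unfold bp
  rw [h2, h1, ← mul_assoc, ← MvPolynomial.C_mul, mul_inv_cancel₀, MvPolynomial.C_1, one_mul]
  exact_mod_cast Nat.factorial_ne_zero _

end jets


end Pool.Agent.GG
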