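import Pool.Agent.Lib_helper82.GG.D.All
import Pool.Agent.Lib_helper82.GG.P.J1

set_option autoImplicit false

open Filter Topology Metric Set
open scoped Nat

namespace Pool.Agent.GG

open Pool.Agent.BR

section jets

variable {k : ℕ}

/-- the weights of the variables -/
def j6a_w (k : ℕ) : Fin 2 × Fin k → ℕ := fun v => (v.2 : ℕ) + 1

theorem j6a_wt (t : Fin 2 × Fin k →₀ ℕ) : Finsupp.weight (j6a_w k) t = wt t := by
  rw [Finsupp.weight_apply, Finsupp.sum_fintype t (fun i c => c • j6a_w k i)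
    (fun i => zero_smul _ _)]
  unfold wt j6a_w
  refine Finset.sum_congr rfl fun v _ => ?_
  rw [smul_eq_mul, mul_comm]

theorem j6a_iff (m : ℕ) (P : JP k) : Wh m P ↔ P.IsWeightedHomogeneous (j6a_w k) m := by
  constructor
  · intro h t ht
    rw [j6a_wt]
    exact h t ht
  · intro h t ht
    rw [← j6a_wt]
    exact h ht

theorem j6a_jp_wh (D : ℕ × ℕ → ℂ) (l : ℕ) : (jp k D l).IsWeightedHomogeneous (j6a_w k) l := by
  rw [← j6a_iff]
  unfold jp
  rw [j6a_iff]
  refine MvPolynomial.IsWeightedHomogeneous.sum _ _ _ fun α hα => ?_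
  have h1 : (bp k α l).IsWeightedHomogeneous (j6a_w k) l := by
    rw [← j6a_iff]
    exact fun t ht => (bp_deg α l t ht).2
  have h2 := (MvPolynomial.isWeightedHomogeneous_C (j6a_w k)
    (D α / ((α.1 ! : ℕ) * (α.2 ! : ℕ) : ℂ))).mul h1
  rwa [zero_add] at h2

theorem tr_wh (F : V2 → V2) (z : V2) {m : ℕ} {P : JP k} (h : Wh m P) :
    Wh m (Tr k F z P) := by
  rw [j6a_iff]
  unfold Tr
  rw [MvPolynomial.aeval_def, MvPolynomial.eval₂_eq]
  refine MvPolynomial.IsWeightedHomogeneous.sum _ _ _ fun t ht => ?_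
  have h1 : wt t = m := h t (MvPolynomial.mem_support_iff.1 ht)
  have h2 : (∏ i ∈ t.support, (jp k (fun α => pdd α (fun w => F w i.1) z) ((i.2 : ℕ) + 1)) ^ t i)
      |>.IsWeightedHomogeneous (j6a_w k) (∑ i ∈ t.support, t i • (((i.2 : ℕ) + 1))) :=
    MvPolynomial.IsWeightedHomogeneous.prod _ _ _ fun i _ =>
      (j6a_jp_wh (fun α => pdd α (fun w => F w i.1) z) ((i.2 : ℕ) + 1)).pow (t i)
  have h3 : ∑ i ∈ t.support, t i • (((i.2 : ℕ) + 1)) = m := by
    rw [← h1, ← j6a_wt, Finsupp.weight_apply]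
    rfl
  rw [h3] at h2
  have h4 := (MvPolynomial.isWeightedHomogeneous_C (j6a_w k)
    (MvPolynomial.coeff t P)).mul h2
  rw [zero_add] at h4
  exact h4

theorem j6a_dg_add (s t : Fin 2 × Fin k →₀ ℕ) : dg (s + t : Fin 2 × Fin k →₀ ℕ) = dg s + dg t := by
  unfold dg
  rw [← Finset.sum_add_distrib]
  rfl

theorem j6a_lo_mul {a b : ℕ} {P Q : JP k} (hP : Lo a P) (hQ : Lo b Q) : Lo (a + b) (P * Q) := by
  classical
  intro t ht
  rw [MvPolynomial.coeff_mul] at ht
  obtain ⟨x, hx, hx'⟩ := Finset.exists_ne_zero_of_sum_ne_zero ht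
  rw [Finset.HasAntidiagonal.mem_antidiagonal] at hx
  have h1 := hP x.1 (left_ne_zero_of_mul hx')
  have h2 := hQ x.2 (right_ne_zero_of_mul hx')
  rw [← hx, j6a_dg_add]
  omega

theorem j6a_lo_zero (P : JP k) : Lo 0 P := fun _ _ => Nat.zero_le _

theorem j6a_lo_pow {a : ℕ} {P : JP k} (hP : Lo a P) (n : ℕ) : Lo (n * a) (P ^ n) := by
  induction n with
  | zero =>
    rw [Nat.zero_mul]
    exact j6a_lo_zero _
  | succ n ih =>
    rw [pow_succ, Nat.succ_mul]
    exact j6a_lo_mul ih hP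

theorem j6a_lo_prod {ι : Type} (S : Finset ι) (P : ι → JP k) (a : ι → ℕ)
    (h : ∀ i ∈ S, Lo (a i) (P i)) : Lo (∑ i ∈ S, a i) (∏ i ∈ S, P i) := by
  classical
  induction S using Finset.induction_on with
  | empty =>
    rw [Finset.sum_empty]
    exact j6a_lo_zero _
  | insert i S hi ih =>
    rw [Finset.sum_insert hi, Finset.prod_insert hi]
    exact j6a_lo_mul (h i (Finset.mem_insert_self _ _))
      (ih fun j hj => h j (Finset.mem_insert_of_mem hj))

theorem j6a_lo_sum {ι : Type} (S : Finset ι) (P : ι → JP k) (a : ℕ)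
    (h : ∀ i ∈ S, Lo a (P i)) : Lo a (∑ i ∈ S, P i) := by
  classical
  intro t ht
  rw [MvPolynomial.coeff_sum] at ht
  obtain ⟨i, hi, hi'⟩ := Finset.exists_ne_zero_of_sum_ne_zero ht
  exact h i hi t hi'

theorem j6a_jp_lo (D : ℕ × ℕ → ℂ) (l : ℕ) : Lo 1 (jp k D l) := by
  unfold jp
  refine j6a_lo_sum _ _ _ fun α hα => ?_
  rw [Finset.mem_filter] at hα
  have h1 : Lo 1 (bp k α l) := fun t ht => by
    rw [(bp_deg α l t ht).1]
    exact hα.2
  have h2 := j6a_lo_mul (j6a_lo_zero (MvPolynomial.C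
    (D α / ((α.1 ! : ℕ) * (α.2 ! : ℕ) : ℂ)) : JP k)) h1
  rwa [zero_add] at h2

theorem tr_lo (F : V2 → V2) (z : V2) {n : ℕ} {P : JP k} (h : Lo n P) :
    Lo n (Tr k F z P) := by
  unfold Tr
  rw [MvPolynomial.aeval_def, MvPolynomial.eval₂_eq]
  refine j6a_lo_sum _ _ _ fun t ht => ?_
  have h1 : n ≤ dg t := h t (MvPolynomial.mem_support_iff.1 ht)
  have h2 := j6a_lo_prod t.support
    (fun i => (jp k (fun α => pdd α (fun w => F w i.1) z) ((i.2 : ℕ) + 1)) ^ t i)
    (fun i => t i * 1) (fun i _ => j6a_lo_pow (j6a_jp_lo _ _) _)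
  have h3 : ∑ i ∈ t.support, t i * 1 = dg t := by
    unfold dg
    simp only [mul_one]
    exact Finset.sum_subset (Finset.subset_univ _) fun v _ hv => by
      rwa [Finsupp.mem_support_iff, not_not] at hv
  rw [h3] at h2
  have h4 := j6a_lo_mul (j6a_lo_zero (algebraMap ℂ (JP k) (MvPolynomial.coeff t P))) h2
  rw [zero_add] at h4
  exact fun s hs => h1.trans (h4 s hs)

end jets


end Pool.Agent.GG
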