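import Pool.Agent.Lib_helper82.GG.D.All
import Pool.Agent.Lib_helper82.GG.P.J8

set_option autoImplicit false

open Filter Topology Metric Set
open scoped Nat

namespace Pool.Agent.GG

open Pool.Agent.BR

section

variable {k : ℕ} {z₀ : V2}

/-- all coefficients are analytic -/
def j7_An (P : V2 → JP k) (z₀ : V2) : Prop := ∀ t, AnalyticAt ℂ (fun z => (P z).coeff t) z₀

theorem j7_C {f : V2 → ℂ} (hf : AnalyticAt ℂ f z₀) :
    j7_An (k := k) (fun z => MvPolynomial.C (f z)) z₀ := by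
  intro t
  simp only [MvPolynomial.coeff_C]
  split_ifs
  · exact hf
  · exact analyticAt_const

theorem j7_const (p : JP k) : j7_An (fun _ => p) z₀ := fun _ => analyticAt_const

theorem j7_mul {P Q : V2 → JP k} (hP : j7_An P z₀) (hQ : j7_An Q z₀) :
    j7_An (fun z => P z * Q z) z₀ := by
  intro t
  simp only [MvPolynomial.coeff_mul]
  exact Finset.analyticAt_fun_sum _ fun x _ => (hP x.1).mul (hQ x.2)

theorem j7_sum {ι : Type} (S : Finset ι) {P : ι → V2 → JP k} (hP : ∀ i ∈ S, j7_An (P i) z₀) :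
    j7_An (fun z => ∑ i ∈ S, P i z) z₀ := by
  intro t
  simp only [MvPolynomial.coeff_sum]
  exact Finset.analyticAt_fun_sum _ fun i hi => hP i hi t

theorem j7_pow {P : V2 → JP k} (hP : j7_An P z₀) (n : ℕ) : j7_An (fun z => P z ^ n) z₀ := by
  induction n with
  | zero => simpa using j7_const (z₀ := z₀) (1 : JP k)
  | succ n ih =>
    simp only [pow_succ]
    exact j7_mul ih hP

theorem j7_prod {ι : Type} (S : Finset ι) {P : ι → V2 → JP k} (hP : ∀ i ∈ S, j7_An (P i) z₀) :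
    j7_An (fun z => ∏ i ∈ S, P i z) z₀ := by
  classical
  induction S using Finset.induction_on with
  | empty => simpa using j7_const (z₀ := z₀) (1 : JP k)
  | insert a S ha ih =>
    simp only [Finset.prod_insert ha]
    exact j7_mul (hP a (Finset.mem_insert_self _ _))
      (ih fun i hi => hP i (Finset.mem_insert_of_mem hi))

theorem j7_expand {m : ℕ} {p : JP k} (h : Wh m p) :
    p = ∑ t ∈ Ty k m, MvPolynomial.monomial t (p.coeff t) := by
  conv_lhs => rw [← MvPolynomial.support_sum_monomial_coeff p]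
  apply Finset.sum_subset
  · intro t ht
    rw [(wt_fin k m).2]
    exact h t (MvPolynomial.mem_support_iff.1 ht)
  · intro t _ ht
    rw [MvPolynomial.notMem_support_iff.1 ht, MvPolynomial.monomial_zero]

theorem j7_aeval (q : V2 → Fin 2 × Fin k → JP k) (hq : ∀ v, j7_An (fun z => q z v) z₀) {m : ℕ}
    (P : V2 → JP k) (hP : j7_An P z₀) (hw : ∀ᶠ z in 𝓝 z₀, Wh m (P z)) :
    j7_An (fun z => MvPolynomial.aeval (R := ℂ) (q z) (P z)) z₀ := by
  have h1 : j7_An (fun z => ∑ t ∈ Ty k m, MvPolynomial.C ((P z).coeff t) *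
      ∏ v, q z v ^ t v) z₀ :=
    j7_sum _ fun t _ => j7_mul (j7_C (hP t)) (j7_prod _ fun v _ => j7_pow (hq v) _)
  intro t
  refine (h1 t).congr ?_
  filter_upwards [hw] with z hz
  congr 1
  conv_rhs => rw [j7_expand hz]
  rw [map_sum]
  apply Finset.sum_congr rfl
  intro s _
  rw [MvPolynomial.aeval_monomial, Finsupp.prod_fintype _ _ (fun _ => pow_zero _)]
  rfl

theorem j7_pd {f : V2 → ℂ} (hf : AnalyticAt ℂ f z₀) (j : Fin 2) : AnalyticAt ℂ (pd j f) z₀ := by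
  unfold pd
  exact ((ContinuousLinearMap.apply ℂ ℂ (Pi.single j (1 : ℂ) : V2)).analyticAt _).comp
    (AnalyticAt.fderiv hf)

theorem j7_iter (j : Fin 2) (n : ℕ) : ∀ {f : V2 → ℂ}, AnalyticAt ℂ f z₀ →
    AnalyticAt ℂ ((pd j)^[n] f) z₀ := by
  induction n with
  | zero => exact fun hf => hf
  | succ n ih =>
    intro f hf
    rw [Function.iterate_succ, Function.comp_apply]
    exact ih (j7_pd hf j)

theorem j7_pdd {f : V2 → ℂ} (hf : AnalyticAt ℂ f z₀) (α : ℕ × ℕ) : AnalyticAt ℂ (pdd α f) z₀ :=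
  j7_iter 0 α.1 (j7_iter 1 α.2 hf)

theorem tr_an {F : V2 → V2} {z₀ : V2} (hF : AnalyticAt ℂ F z₀) {m : ℕ} (P : V2 → JP k)
    (hP : ∀ t, AnalyticAt ℂ (fun z => (P z).coeff t) z₀) (hw : ∀ᶠ z in 𝓝 z₀, Wh m (P z))
    (t : Fin 2 × Fin k →₀ ℕ) : AnalyticAt ℂ (fun z => (Tr k F z (P z)).coeff t) z₀ := by
  unfold Tr
  refine j7_aeval _ ?_ P hP hw t
  intro v
  unfold jp
  refine j7_sum _ fun α _ => j7_mul (j7_C ?_) (j7_const _)
  have hFi : AnalyticAt ℂ (fun w => F w v.1) z₀ :=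
    ((ContinuousLinearMap.proj (R := ℂ) v.1 : (Fin 2 → ℂ) →L[ℂ] ℂ).analyticAt _).comp hF
  exact (j7_pdd hFi α).div_const

theorem ls_an {M : V2 → Matrix (Fin 2) (Fin 2) ℂ} {z₀ : V2}
    (hM : ∀ i j, AnalyticAt ℂ (fun z => M z i j) z₀) {m : ℕ} (P : V2 → JP k)
    (hP : ∀ t, AnalyticAt ℂ (fun z => (P z).coeff t) z₀) (hw : ∀ᶠ z in 𝓝 z₀, Wh m (P z))
    (t : Fin 2 × Fin k →₀ ℕ) : AnalyticAt ℂ (fun z => (Ls k (M z) (P z)).coeff t) z₀ := by
  unfold Ls
  refine j7_aeval _ ?_ P hP hw t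
  intro v
  exact j7_sum _ fun j _ => j7_mul (j7_C (hM v.1 j)) (j7_const _)

end


end Pool.Agent.GG
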