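import Pool.Agent.Lib_helper82.GG.D.All

set_option autoImplicit false

open Filter Topology Metric Set
open scoped Nat

namespace Pool.Agent.GG

open Pool.Agent.BR

theorem o2_pd {f : V2 → ℂ} {z₀ : V2} (hf : AnalyticAt ℂ f z₀) (j : Fin 2) :
    AnalyticAt ℂ (pd j f) z₀ := by
  unfold pd
  have h : AnalyticAt ℂ (fderiv ℂ f) z₀ := hf.fderiv
  exact ((ContinuousLinearMap.apply ℂ ℂ (Pi.single j 1 : V2)).analyticAt _).comp h

/-- O2: analyticity of `δ`; the good set is open near `z₀` -/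
theorem dl_an {T : Fin 3 → V2 → ℂ} {z₀ : V2} (hT : ∀ j, AnalyticAt ℂ (T j) z₀) :
    AnalyticAt ℂ (dl T) z₀ := by
  have h0 := hT 0
  have h1 := hT 1
  have h2 := hT 2
  have a0 := o2_pd h0 0
  have a1 := o2_pd h1 0
  have a2 := o2_pd h2 0
  have b0 := o2_pd h0 1
  have b1 := o2_pd h1 1
  have b2 := o2_pd h2 1
  have e : dl T = fun z => T 0 z * pd 0 (T 1) z * pd 1 (T 2) z - T 0 z * pd 1 (T 1) z * pd 0 (T 2) z
      - pd 0 (T 0) z * T 1 z * pd 1 (T 2) z + pd 0 (T 0) z * pd 1 (T 1) z * T 2 z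
      + pd 1 (T 0) z * T 1 z * pd 0 (T 2) z - pd 1 (T 0) z * pd 0 (T 1) z * T 2 z := by
    funext z
    unfold dl
    rw [Matrix.det_fin_three]
    simp
  rw [e]
  exact (((((((h0.mul a1).mul b2).sub ((h0.mul b1).mul a2)).sub ((a0.mul h1).mul b2)).add
    ((a0.mul b1).mul h2)).add ((b0.mul h1).mul a2)).sub ((b0.mul a1).mul h2))

/-- O2 -/
theorem gd_open {T : Fin 3 → V2 → ℂ} {z₀ : V2} (hT : ∀ j, AnalyticAt ℂ (T j) z₀) :
    ∀ᶠ z in 𝓝 z₀, z ∈ Gd T → ∀ᶠ w in 𝓝 z, w ∈ Gd T := by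
  filter_upwards [(hT 0).eventually_analyticAt, (dl_an hT).eventually_analyticAt]
    with z h1 h2 hz
  filter_upwards [h1.continuousAt.eventually_ne hz.1, h2.continuousAt.eventually_ne hz.2]
    with w h3 h4
  exact ⟨h3, h4⟩

end Pool.Agent.GG

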