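import Pool.Agent.Lib_helper82.GG.D.All
import Pool.Agent.Lib_helper82.GG.P.G3
import Pool.Agent.Lib_helper82.GG.P.J6a
import Pool.Agent.Lib_helper82.GG.P.J7
import Pool.Agent.Lib_helper82.GG.P.L0b
import Pool.Agent.Lib_helper82.GG.P.O2

set_option autoImplicit false
set_option linter.unusedVariables false
set_option linter.unusedSectionVars false

open Filter Topology Metric Set
open scoped Nat

namespace Pool.Agent.GG

open Pool.Agent.BR

section surf

variable {X : Type} [MetricSpace X] [CompactSpace X] {A : Cha V2 X} {b D k m n : ℕ}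
  {T : Fin 3 → A.ι → X → ℂ} {T₃ : A.ι → X → ℂ}

theorem co_good (hT : Net A b T) {c : X → JP k} (hc : CO A b T m c) {i : A.ι} {x : X}
    (hi : x ∈ (A.ch i).source) (hx : x ∈ GX A T) (t : Fin 2 × Fin k →₀ ℕ) :
    OO (lT A T i) (A.ch i x) 0 0 (fun z => (pcf A T c i z).coeff t) := by
  have han : ∀ j, AnalyticAt ℂ (lT A T i j) (A.ch i x) := fun j => net_an hT hi j
  have hgd : A.ch i x ∈ Gd (lT A T i) := (net_gd hT hi).1.1 hx
  have hdl : AnalyticAt ℂ (dl (lT A T i)) (A.ch i x) := dl_an han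
  have hnear : ∀ᶠ w in 𝓝 (A.ch i x), w ∈ Gd (lT A T i) :=
    (gd_open han).self_of_nhds hgd
  have hP : ∀ t' : Fin 2 × Fin k →₀ ℕ,
      AnalyticAt ℂ (fun z => (c ((A.ch i).symm z)).coeff t') (A.ch i x) := by
    intro t'
    obtain ⟨g, hg, hg'⟩ := hc.oo i x hi t'
    have h1 : AnalyticAt ℂ (fun z => lT A T i 0 z ^ (dg t' : ℤ) *
        dl (lT A T i) z ^ (-(2 * b * dg t') : ℤ) * g z) (A.ch i x) :=
      (((han 0).zpow hgd.1).mul (hdl.zpow hgd.2)).mul hg
    refine h1.congr ?_
    filter_upwards [hg', hnear] with z hz hz'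
    exact (hz hz').symm
  have hU : AnalyticAt ℂ (UU (lT A T i)) (A.ch i x) := (uu_inv han hgd).1
  have hmain := tr_an hU (fun z => c ((A.ch i).symm z)) hP (Eventually.of_forall fun z => hc.wh _) t
  refine ⟨_, hmain, ?_⟩
  have htgt : A.ch i x ∈ (A.ch i).target := (A.ch i).map_source hi
  filter_upwards [(A.ch i).open_target.mem_nhds htgt] with z hz _
  have e : A.ch i ((A.ch i).symm z) = z := (A.ch i).right_inv hz
  rw [zpow_zero, zpow_zero, one_mul, one_mul]
  unfold pcf PC
  rw [e]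

theorem co_wh {c : X → JP k} (hc : CO A b T m c) (i : A.ι) (z : V2) :
    Wh m (pcf A T c i z) := by
  unfold pcf PC
  exact tr_wh _ _ (hc.wh _)

end surf

end Pool.Agent.GG

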