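import Pool.Agent.Lib_helper82.GG.D.All
import Pool.Agent.Lib_helper82.GG.P.B1
import Pool.Agent.Lib_helper82.GG.P.B2

/-! # GG, block B3: the good set (helper16) -/

set_option autoImplicit false

open Filter Topology Metric Set

namespace Pool.Agent.GG

open Pool.Agent.BR

section surface

variable {X : Type} [MetricSpace X] [CompactSpace X] {A : Cha V2 X} {b D : ℕ}
  {T : Fin 3 → A.ι → X → ℂ}

/-- every point is in a chart -/
theorem b3_chart (A : Cha V2 X) (x : X) : ∃ i, x ∈ (A.ch i).source := by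
  obtain ⟨i, hi⟩ := A.cover x
  exact ⟨i, A.W_sub i (subset_closure hi)⟩

/-- the derivative of a section which vanishes near a point -/
theorem b3_ds_zero {s : A.ι → X → ℂ} {i : A.ι} {x : X} (hx : x ∈ (A.ch i).source)
    (h : ∀ᶠ y in 𝓝 x, s i y = 0) (j : Fin 2) : ds A s j i x = 0 := by
  have hc : Tendsto (A.ch i).symm (𝓝 (A.ch i x)) (𝓝 x) := by
    have h1 := (A.ch i).continuousAt_symm ((A.ch i).map_source hx)
    have h2 := h1.tendsto
    rwa [(A.ch i).left_inv hx] at h2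
  have h3 : lz A i (s i) =ᶠ[𝓝 (A.ch i x)] fun _ => 0 := hc.eventually h
  unfold ds pd
  rw [h3.fderiv_eq]
  simp

/-- B3: the good set in the charts -/
theorem gx_iff (hT : ∀ j, IS.PS A b (T j)) {i : A.ι} {x : X} (hx : x ∈ (A.ch i).source) :
    x ∈ GX A T ↔ A.ch i x ∈ Gd (lT A T i) := by
  unfold GX Gd
  simp only [mem_ofPred_eq]
  rw [zs_iff (hT 0) hx, zs_iff (dlt_ps hT) hx, (lT_an hT hx 0).2]
  rfl

/-- B3 -/
theorem gx_open_dense (hT : Net A b T) : IsOpen (GX A T) ∧ Dense (GX A T) := by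
  have hc0 : IsClosed (ZS A (T 0)) := zs_closed (hT.ps 0)
  have hc1 : IsClosed (ZS A (dlt A T)) := zs_closed (dlt_ps hT.ps)
  refine ⟨?_, ?_⟩
  · have : GX A T = (ZS A (T 0))ᶜ ∩ (ZS A (dlt A T))ᶜ := rfl
    rw [this]
    exact hc0.isOpen_compl.inter hc1.isOpen_compl
  · rw [dense_iff_inter_open]
    intro U hU hne
    by_contra hcon
    have hU2 : ∀ x ∈ U, x ∈ ZS A (T 0) ∨ x ∈ ZS A (dlt A T) := by
      intro x hx
      by_contra h
      push Not at h
      exact hcon ⟨x, hx, h.1, h.2⟩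
    -- a point where `T 0` does not vanish
    obtain ⟨y, hyU, hy0⟩ : ∃ y ∈ U, y ∉ ZS A (T 0) := by
      by_contra h
      push Not at h
      obtain ⟨x, hx⟩ := hne
      obtain ⟨i, hi⟩ := b3_chart A x
      have h1 : ∀ᶠ y in 𝓝 x, T 0 i y = 0 := by
        filter_upwards [hU.mem_nhds hx, (A.ch i).open_source.mem_nhds hi] with y hy1 hy2
        exact h y hy1 i hy2
      obtain ⟨j, hj⟩ := hT.g2 i x hi (h x hx i hi)
      exact hj (b3_ds_zero hi h1 j)
    obtain ⟨i, hi⟩ := b3_chart A y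
    have h1 : ∀ᶠ z in 𝓝 y, dlt A T i z = 0 := by
      filter_upwards [hU.mem_nhds hyU, (A.ch i).open_source.mem_nhds hi,
        hc0.isOpen_compl.mem_nhds hy0] with z hz1 hz2 hz3
      rcases hU2 z hz1 with h | h
      · exact absurd h hz3
      · exact h i hz2
    obtain ⟨j, hj⟩ := hT.g3 i y hi h1.self_of_nhds
    exact hj (b3_ds_zero hi h1 j)

end surface


end Pool.Agent.GG
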