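import Pool.Agent.Lib_helper82.GG.D.All
import Pool.Agent.Lib_helper82.GG.P.B1
import Pool.Agent.Lib_helper82.GG.P.B3
import Pool.Agent.Lib_helper82.GG.P.L0b

/-! # Block C2 (helper76): local sections of the cover of the plane -/

set_option autoImplicit false
set_option linter.unusedVariables false
set_option linter.unusedSectionVars false

open Filter Topology Metric Set

namespace Pool.Agent.GG

open Pool.Agent.BR

section surface

variable {X : Type} [MetricSpace X] [CompactSpace X] {A : Cha V2 X} {b D : ℕ}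
  {T : Fin 3 → A.ι → X → ℂ}

theorem c2_cont {w : ℕ} {s : A.ι → X → ℂ} (hs : IS.PS A w s) {i : A.ι} {x : X}
    (hx : x ∈ (A.ch i).source) : ContinuousAt (s i) x := by
  have h1 := (hs.an i x hx).continuousAt
  have h2 : ContinuousAt (fun x' => s i ((A.ch i).symm (A.ch i x'))) x :=
    ContinuousAt.comp (g := fun ξ => s i ((A.ch i).symm ξ)) h1 ((A.ch i).continuousAt hx)
  refine h2.congr ?_
  filter_upwards [(A.ch i).open_source.mem_nhds hx] with x' hx'
  rw [(A.ch i).left_inv hx']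

theorem c2_fib (hT : ∀ j, IS.PS A b (T j)) {i : A.ι} {x : X} (hx : x ∈ (A.ch i).source) (y : V2) :
    x ∈ Fib A T y ↔
      T 0 i x ≠ 0 ∧ T 1 i x = y 0 * T 0 i x ∧ T 2 i x = y 1 * T 0 i x := by
  constructor
  · intro h
    exact ⟨fun h0 => h.1 ((zs_iff (hT 0) hx).2 h0), h.2 i hx⟩
  · rintro ⟨h0, h1, h2⟩
    refine ⟨fun h => h0 ((zs_iff (hT 0) hx).1 h), fun i' hi' => ?_⟩
    rw [(hT 0).tr i' i x hi' hx, (hT 1).tr i' i x hi' hx, (hT 2).tr i' i x hi' hx, h1, h2]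
    constructor <;> ring

theorem c2_uu (hT : ∀ j, IS.PS A b (T j)) {i : A.ι} {x : X} (hx : x ∈ (A.ch i).source) (y : V2) :
    x ∈ Fib A T y ↔ T 0 i x ≠ 0 ∧ UU (lT A T i) (A.ch i x) = y := by
  have hl : ∀ j, lT A T i j (A.ch i x) = T j i x := by
    intro j
    unfold lT lz
    rw [(A.ch i).left_inv hx]
  rw [c2_fib hT hx y]
  refine and_congr_right fun h0 => ?_
  have e0 : UU (lT A T i) (A.ch i x) 0 = T 1 i x / T 0 i x := by
    show lT A T i (Fin.succ 0) (A.ch i x) / lT A T i 0 (A.ch i x) = _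
    rw [hl, hl]; rfl
  have e1 : UU (lT A T i) (A.ch i x) 1 = T 2 i x / T 0 i x := by
    show lT A T i (Fin.succ 1) (A.ch i x) / lT A T i 0 (A.ch i x) = _
    rw [hl, hl]; rfl
  constructor
  · rintro ⟨h1, h2⟩
    ext j
    fin_cases j
    · show UU (lT A T i) (A.ch i x) 0 = y 0
      rw [e0, h1, mul_div_assoc, div_self h0, mul_one]
    · show UU (lT A T i) (A.ch i x) 1 = y 1
      rw [e1, h2, mul_div_assoc, div_self h0, mul_one]
  · intro h
    rw [← h, e0, e1, div_mul_cancel₀ _ h0, div_mul_cancel₀ _ h0]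
    exact ⟨rfl, rfl⟩

/-- the section through a point of the fibre -/
theorem c2_loc (hT : Net A b T) {y : V2} (hy : y ∉ BrC A T) {x : X} (hx : x ∈ Fib A T y) :
    ∃ s : V2 → X, s y = x ∧ (∀ᶠ y' in 𝓝 y, s y' ∈ Fib A T y' ∧ ContinuousAt s y' ∧
      ∀ i, s y' ∈ (A.ch i).source → AnalyticAt ℂ (fun w => A.ch i (s w)) y') ∧
      ∀ᶠ x' in 𝓝 x, ∀ y', x' ∈ Fib A T y' → x' = s y' := by
  obtain ⟨i, hi⟩ := A.cover x
  have hxi : x ∈ (A.ch i).source := A.W_sub i (subset_closure hi)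
  have hxd : x ∉ ZS A (dlt A T) := fun h => hy ⟨x, hx, h⟩
  have hz : A.ch i x ∈ Gd (lT A T i) := (gx_iff hT.ps hxi).1 ⟨hx.1, hxd⟩
  obtain ⟨-, -, Θ, hΘ, h1, h2⟩ := uu_inv (fun j => (lT_an hT.ps hxi j).1) hz
  obtain ⟨h0, hUy⟩ := (c2_uu hT.ps hxi y).1 hx
  rw [hUy] at hΘ h2
  have hΘy : Θ y = A.ch i x := by
    have := h1.self_of_nhds
    rwa [hUy] at this
  refine ⟨fun y' => (A.ch i).symm (Θ y'), ?_, ?_, ?_⟩
  · show (A.ch i).symm (Θ y) = x
    rw [hΘy, (A.ch i).left_inv hxi]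
  · have e1 : ∀ᶠ y' in 𝓝 y, Θ y' ∈ (A.ch i).target := by
      refine hΘ.continuousAt.eventually_mem ?_
      rw [hΘy]
      exact (A.ch i).open_target.mem_nhds ((A.ch i).map_source hxi)
    have e2 : ∀ᶠ y' in 𝓝 y, T 0 i ((A.ch i).symm (Θ y')) ≠ 0 := by
      have c1 : ContinuousAt (fun ξ => T 0 i ((A.ch i).symm ξ)) (Θ y) := by
        rw [hΘy]
        exact ((hT.ps 0).an i x hxi).continuousAt
      have c2 : ContinuousAt (fun y' => T 0 i ((A.ch i).symm (Θ y'))) y :=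
        ContinuousAt.comp (g := fun ξ => T 0 i ((A.ch i).symm ξ)) c1 hΘ.continuousAt
      refine c2.eventually_ne ?_
      rw [hΘy, (A.ch i).left_inv hxi]
      exact h0
    filter_upwards [e1, e2, h2, hΘ.eventually_analyticAt] with y' a1 a2 a3 a4
    have hs : (A.ch i).symm (Θ y') ∈ (A.ch i).source := (A.ch i).map_target a1
    have hr : A.ch i ((A.ch i).symm (Θ y')) = Θ y' := (A.ch i).right_inv a1
    refine ⟨?_, ?_, ?_⟩
    · rw [c2_uu hT.ps hs, hr]
      exact ⟨a2, a3⟩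
    · exact ContinuousAt.comp (g := (A.ch i).symm) ((A.ch i).continuousAt_symm a1) a4.continuousAt
    · intro i' hi'
      have h3 := A.trans i i' _ hs hi'
      rw [hr] at h3
      exact AnalyticAt.comp (g := fun ξ => A.ch i' ((A.ch i).symm ξ)) h3 a4
  · have e1 : ∀ᶠ x' in 𝓝 x, Θ (UU (lT A T i) (A.ch i x')) = A.ch i x' :=
      ((A.ch i).continuousAt hxi).eventually h1
    filter_upwards [e1, (A.ch i).open_source.mem_nhds hxi] with x' a1 a2 y' hy'
    have h3 := ((c2_uu hT.ps a2 y').1 hy').2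
    show x' = (A.ch i).symm (Θ y')
    rw [← h3, a1, (A.ch i).left_inv a2]

/-- points outside of the fibre -/
theorem c2_out (hT : Net A b T) {y : V2} {x : X} (hx : x ∉ Fib A T y) :
    ∃ N ∈ 𝓝 x, ∀ᶠ y' in 𝓝 y, ∀ x' ∈ N, x' ∉ Fib A T y' := by
  have key : ∃ i, x ∈ (A.ch i).source ∧ ∃ j : Fin 2, T j.succ i x ≠ y j * T 0 i x := by
    by_cases h0 : x ∈ ZS A (T 0)
    · obtain ⟨i, hi⟩ := A.cover x
      have hxi : x ∈ (A.ch i).source := A.W_sub i (subset_closure hi)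
      obtain ⟨j, hj⟩ := hT.g1 x
      have hj0 : j ≠ 0 := by
        rintro rfl
        exact hj h0
      obtain ⟨j', rfl⟩ := Fin.exists_succ_eq_of_ne_zero hj0
      refine ⟨i, hxi, j', ?_⟩
      rw [h0 i hxi, mul_zero]
      exact fun h => hj ((zs_iff (hT.ps j'.succ) hxi).2 h)
    · by_contra hcon
      push Not at hcon
      refine hx ⟨h0, fun i hi => ⟨hcon i hi 0, hcon i hi 1⟩⟩
  obtain ⟨i, hxi, j, hj⟩ := key
  have hc : ContinuousAt (fun p : X × V2 => T j.succ i p.1 - p.2 j * T 0 i p.1) (x, y) := by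
    have c1 : ContinuousAt (fun p : X × V2 => T j.succ i p.1) (x, y) :=
      ContinuousAt.comp (g := T j.succ i) (c2_cont (hT.ps j.succ) hxi) continuousAt_fst
    have c2 : ContinuousAt (fun p : X × V2 => T 0 i p.1) (x, y) :=
      ContinuousAt.comp (g := T 0 i) (c2_cont (hT.ps 0) hxi) continuousAt_fst
    have c3 : ContinuousAt (fun p : X × V2 => p.2 j) (x, y) :=
      ((continuous_apply j).comp continuous_snd).continuousAt
    exact c1.sub (c3.mul c2)
  have he := hc.eventually_ne (y := (0 : ℂ)) (sub_ne_zero.2 hj)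
  rw [nhds_prod_eq, eventually_prod_iff] at he
  obtain ⟨p, hp, q, hq, hpq⟩ := he
  have hs : ∀ᶠ x' in 𝓝 x, x' ∈ (A.ch i).source := (A.ch i).open_source.mem_nhds hxi
  refine ⟨{x' | p x' ∧ x' ∈ (A.ch i).source}, hp.and hs, ?_⟩
  filter_upwards [hq] with y' hy' x' hx' hF
  have h3 := hpq hx'.1 hy'
  have h4 := (c2_fib hT.ps hx'.2 y').1 hF
  apply h3
  show T j.succ i x' - y' j * T 0 i x' = 0
  fin_cases j
  · exact sub_eq_zero.2 h4.2.1
  · exact sub_eq_zero.2 h4.2.2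

theorem fib_cov (hT : Net A b T) {y : V2} (hy : y ∉ BrC A T) : ∃ (n : ℕ) (s : Fin n → V2 → X),
    ∀ᶠ y' in 𝓝 y, (Function.Injective fun l => s l y') ∧ Fib A T y' = range (fun l => s l y') ∧
      ∀ l, ContinuousAt (s l) y' ∧ ∀ i, s l y' ∈ (A.ch i).source →
        AnalyticAt ℂ (fun w => A.ch i (s l w)) y' := by
  classical
  have key : ∀ x : X, ∃ N ∈ 𝓝 x, ∃ s : V2 → X,
      (x ∈ Fib A T y → s y = x ∧ (∀ᶠ y' in 𝓝 y, s y' ∈ Fib A T y' ∧ ContinuousAt s y' ∧
        ∀ i, s y' ∈ (A.ch i).source → AnalyticAt ℂ (fun w => A.ch i (s w)) y') ∧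
        ∀ x' ∈ N, ∀ y', x' ∈ Fib A T y' → x' = s y') ∧
      (x ∉ Fib A T y → ∀ᶠ y' in 𝓝 y, ∀ x' ∈ N, x' ∉ Fib A T y') := by
    intro x
    by_cases hx : x ∈ Fib A T y
    · obtain ⟨s, h1, h2, h3⟩ := c2_loc hT hy hx
      exact ⟨_, h3, s, fun _ => ⟨h1, h2, fun x' hx' => hx'⟩, fun h => absurd hx h⟩
    · obtain ⟨N, hN, h⟩ := c2_out hT hx
      exact ⟨N, hN, fun _ => x, fun h' => absurd h' hx, fun _ => h⟩
  choose N hN s hs1 hs2 using key
  obtain ⟨t, ht⟩ := CompactSpace.elim_nhds_subcover N hN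
  set F : Finset X := t.filter (fun x => x ∈ Fib A T y) with hF
  have hFm : ∀ x ∈ F, x ∈ Fib A T y := fun x hx => (Finset.mem_filter.1 hx).2
  set e : Fin F.card ≃ F := F.equivFin.symm with he
  have a1 : ∀ᶠ y' in 𝓝 y, ∀ x ∈ t, x ∉ Fib A T y → ∀ x' ∈ N x, x' ∉ Fib A T y' := by
    rw [Filter.eventually_all_finset]
    intro x _
    by_cases hx : x ∈ Fib A T y
    · exact Filter.Eventually.of_forall fun _ h => absurd hx h
    · filter_upwards [hs2 x hx] with y' h _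
      exact h
  have a2 : ∀ᶠ y' in 𝓝 y, ∀ x ∈ F, s x y' ∈ Fib A T y' ∧ ContinuousAt (s x) y' ∧
      ∀ i, s x y' ∈ (A.ch i).source → AnalyticAt ℂ (fun w => A.ch i (s x w)) y' := by
    rw [Filter.eventually_all_finset]
    intro x hx
    exact (hs1 x (hFm x hx)).2.1
  have a3 : ∀ᶠ y' in 𝓝 y, ∀ x ∈ F, ∀ x₂ ∈ F, x ≠ x₂ → s x y' ≠ s x₂ y' := by
    rw [Filter.eventually_all_finset]
    intro x hx
    rw [Filter.eventually_all_finset]
    intro x₂ hx₂
    by_cases hne : x = x₂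
    · exact Filter.Eventually.of_forall fun _ h => absurd hne h
    · have c1 : ContinuousAt (s x) y := (hs1 x (hFm x hx)).2.1.self_of_nhds.2.1
      have c2 : ContinuousAt (s x₂) y := (hs1 x₂ (hFm x₂ hx₂)).2.1.self_of_nhds.2.1
      have c3 : s x y ≠ s x₂ y := by
        rw [(hs1 x (hFm x hx)).1, (hs1 x₂ (hFm x₂ hx₂)).1]
        exact hne
      filter_upwards [(c1.ne_iff_eventually_ne c2).1 c3] with y' h _
      exact h
  refine ⟨F.card, fun l => s (e l), ?_⟩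
  filter_upwards [a1, a2, a3] with y' b1 b2 b3
  refine ⟨?_, ?_, fun l => (b2 _ (e l).2).2⟩
  · intro l l' h
    by_contra hne
    have h2 : ((e l : F) : X) ≠ e l' := fun h' => hne (e.injective (Subtype.ext h'))
    exact b3 _ (e l).2 _ (e l').2 h2 h
  · ext x'
    constructor
    · intro hx'
      have hmem : x' ∈ ⋃ x ∈ t, N x := by
        rw [ht]; trivial
      obtain ⟨x, hxt, hxN⟩ := Set.mem_iUnion₂.1 hmem
      by_cases hx : x ∈ Fib A T y
      · have hxF : x ∈ F := Finset.mem_filter.2 ⟨hxt, hx⟩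
        refine ⟨e.symm ⟨x, hxF⟩, ?_⟩
        show s (e (e.symm ⟨x, hxF⟩)) y' = x'
        rw [Equiv.apply_symm_apply]
        exact ((hs1 x hx).2.2 x' hxN y' hx').symm
      · exact absurd hx' (b1 x hxt hx x' hxN)
    · rintro ⟨l, rfl⟩
      exact (b2 _ (e l).2).1


end surface

end Pool.Agent.GG
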