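import Pool.Agent.Lib_helper82.GG.D.All
import Pool.Agent.Lib_helper82.GG.P.B1
import Pool.Agent.Lib_helper82.GG.P.C2

set_option autoImplicit false

open Filter Topology Metric Set

namespace Pool.Agent.GG

open Pool.Agent.BR

section

variable {X : Type} [MetricSpace X] [CompactSpace X] {A : Cha V2 X} {b D : ℕ}
  {T : Fin 3 → A.ι → X → ℂ} {T₃ : A.ι → X → ℂ}

theorem mon_ci (A : Cha V2 X) (x : X) : x ∈ (A.ch (ci A x)).source :=
  A.W_sub _ (subset_closure (A.cover x).choose_spec)

/-- the coefficient polynomial -/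
noncomputable def mon_p (D N : ℕ) (w : ℕ × ℕ × ℕ × ℕ → ℂ) (j : ℕ) : MvPolynomial (Fin 2) ℂ :=
  ∑ a ∈ Idx D N, if a.1 = j then
    MvPolynomial.C (w a) * (MvPolynomial.X 0 ^ a.2.2.1 * MvPolynomial.X 1 ^ a.2.2.2) else 0

theorem mon_key {N : ℕ} {w : ℕ × ℕ × ℕ × ℕ → ℂ} {x : X} {i : A.ι} (hi : x ∈ (A.ch i).source)
    {y : V2} (hx : x ∈ Fib A T y) (h0 : T 0 i x ≠ 0)
    (h : ∑ a ∈ Idx D N, w a * mo T T₃ a i x = 0) :
    ∑ j : Fin D, (T₃ i x / T 0 i x) ^ (j : ℕ) * MvPolynomial.eval y (mon_p D N w j) = 0 := by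
  classical
  have hT := hx.2 i hi
  have h1 : ∀ a ∈ Idx D N, w a * mo T T₃ a i x = T 0 i x ^ N *
      (w a * ((T₃ i x / T 0 i x) ^ a.1 * (y 0 ^ a.2.2.1 * y 1 ^ a.2.2.2))) := by
    intro a ha
    have hN : a.1 + a.2.1 + a.2.2.1 + a.2.2.2 = N := (Finset.mem_filter.1 ha).2
    have hT3 : T₃ i x = (T₃ i x / T 0 i x) * T 0 i x := by field_simp
    unfold mo
    rw [hT.1, hT.2, ← hN]
    conv_lhs => rw [hT3]
    ring
  rw [Finset.sum_congr rfl h1, ← Finset.mul_sum] at h
  have h2 := (mul_eq_zero.1 h).resolve_left (pow_ne_zero _ h0)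
  rw [← h2]
  simp only [mon_p, map_sum, Finset.mul_sum]
  rw [Finset.sum_comm]
  refine Finset.sum_congr rfl fun a ha => ?_
  have haD : a.1 < D := by
    have := (Finset.mem_filter.1 ha).1
    simp only [Finset.mem_product, Finset.mem_range] at this
    exact this.1
  rw [Finset.sum_eq_single (⟨a.1, haD⟩ : Fin D)]
  · simp
    ring
  · intro l _ hl
    rw [if_neg]
    · simp
    · intro h
      exact hl (Fin.ext h.symm)
  · simp

theorem mono_indep [Nonempty X] (hT : Net A b T) (hD : Shts A T D) (h₃ : Sep A b T T₃) (N : ℕ)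
    (w : ℕ × ℕ × ℕ × ℕ → ℂ)
    (h : ∀ i, ∀ x ∈ (A.ch i).source, ∑ a ∈ Idx D N, w a * mo T T₃ a i x = 0) :
    ∀ a ∈ Idx D N, w a = 0 := by
  classical
  obtain ⟨y, hy, hsep⟩ := h₃.sep
  obtain ⟨n, s, hs⟩ := fib_cov hT hy
  have hyy := hs.self_of_nhds
  have hnD : n = D := by
    have h1 := hD.card y hy
    rw [hyy.2.1, ← Set.image_univ, Set.ncard_image_of_injective _ hyy.1, Set.ncard_univ,
      Nat.card_eq_fintype_card, Fintype.card_fin] at h1
    exact h1
  subst hnD
  -- the values of the separating function on the sheets are different near `y`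
  have hq : ∀ l, ContinuousAt (fun y' => qt A T₃ (T 0) (s l y')) y := by
    intro l
    have hmem : s l y ∈ Fib A T y := by rw [hyy.2.1]; exact ⟨l, rfl⟩
    have hc : ContinuousAt (s l) y := (hyy.2.2 l).1
    have ha := qt_an h₃.ps (hT.ps 0) (mon_ci A (s l y)) hmem.1
    have hcc : ContinuousAt (qt A T₃ (T 0)) (s l y) := by
      have h1 : ContinuousAt (fun x => lz A (ci A (s l y)) (qt A T₃ (T 0)) (A.ch (ci A (s l y)) x))
          (s l y) := by
        refine ContinuousAt.comp (f := A.ch (ci A (s l y)))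
          (g := lz A (ci A (s l y)) (qt A T₃ (T 0))) ha.continuousAt ?_
        exact (A.ch _).continuousAt (mon_ci A _)
      refine h1.congr ?_
      filter_upwards [(A.ch (ci A (s l y))).open_source.mem_nhds (mon_ci A (s l y))] with x hx
      simp only [lz]
      rw [(A.ch _).left_inv hx]
    exact ContinuousAt.comp (f := s l) (g := qt A T₃ (T 0)) hcc hc
  have hqne : ∀ l l', l ≠ l' → qt A T₃ (T 0) (s l y) ≠ qt A T₃ (T 0) (s l' y) := by
    intro l l' hne heq
    have m1 : s l y ∈ Fib A T y := by rw [hyy.2.1]; exact ⟨l, rfl⟩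
    have m2 : s l' y ∈ Fib A T y := by rw [hyy.2.1]; exact ⟨l', rfl⟩
    have n1 : T 0 (ci A (s l y)) (s l y) ≠ 0 := fun h0 =>
      m1.1 ((zs_iff (hT.ps 0) (mon_ci A _)).2 h0)
    have n2 : T 0 (ci A (s l' y)) (s l' y) ≠ 0 := fun h0 =>
      m2.1 ((zs_iff (hT.ps 0) (mon_ci A _)).2 h0)
    apply hne
    apply hyy.1
    refine hsep _ m1 _ m2 _ _ (mon_ci A _) (mon_ci A _) ?_
    unfold qt at heq
    field_simp at heq
    linear_combination heq
  have hev : ∀ᶠ y' in 𝓝 y, Function.Injective fun l => qt A T₃ (T 0) (s l y') := by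
    have : ∀ᶠ y' in 𝓝 y, ∀ p : Fin n × Fin n, p.1 ≠ p.2 →
        qt A T₃ (T 0) (s p.1 y') ≠ qt A T₃ (T 0) (s p.2 y') := by
      rw [Filter.eventually_all]
      rintro ⟨l, l'⟩
      by_cases hne : l = l'
      · exact Eventually.of_forall fun _ h0 => absurd hne h0
      · have := (hq l).ne_iff_eventually_ne (hq l') |>.1 (hqne l l' hne)
        filter_upwards [this] with y' hy' _
        exact hy'
    filter_upwards [this] with y' hy' l l' hll
    by_contra hne
    exact hy' (l, l') hne hll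
  have hp0 : ∀ᶠ y' in 𝓝 y, ∀ j : Fin n, MvPolynomial.eval y' (mon_p n N w j) = 0 := by
    filter_upwards [hs, hev] with y' h1 h2
    have h3 := Matrix.eq_zero_of_forall_index_sum_pow_mul_eq_zero
      (f := fun l => qt A T₃ (T 0) (s l y'))
      (v := fun j : Fin n => MvPolynomial.eval y' (mon_p n N w j)) h2 (fun l => by
        have m1 : s l y' ∈ Fib A T y' := by rw [h1.2.1]; exact ⟨l, rfl⟩
        have n1 : T 0 (ci A (s l y')) (s l y') ≠ 0 := fun h0 =>
          m1.1 ((zs_iff (hT.ps 0) (mon_ci A _)).2 h0)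
        exact mon_key (mon_ci A _) m1 n1 (h _ _ (mon_ci A _)))
    intro j
    exact congrFun h3 j
  have hp : ∀ j : Fin n, mon_p n N w j = 0 := by
    intro j
    obtain ⟨r, hr, hball⟩ := Metric.eventually_nhds_iff_ball.1 hp0
    refine MvPolynomial.funext_set (fun l => ball (y l) r) (fun l => ?_) fun x hx => ?_
    · exact infinite_of_mem_nhds (y l) (ball_mem_nhds _ hr)
    · rw [map_zero]
      refine hball x ?_ j
      rw [mem_ball, dist_pi_lt_iff hr]
      exact fun l => hx l (mem_univ l)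
  intro a ha
  have haD : a.1 < n := by
    have := (Finset.mem_filter.1 ha).1
    simp only [Finset.mem_product, Finset.mem_range] at this
    exact this.1
  have haN : a.1 + a.2.1 + a.2.2.1 + a.2.2.2 = N := (Finset.mem_filter.1 ha).2
  have h1 := congrArg (MvPolynomial.coeff (Finsupp.single 0 a.2.2.1 + Finsupp.single 1 a.2.2.2))
    (hp ⟨a.1, haD⟩)
  simp only [mon_p, MvPolynomial.coeff_sum, MvPolynomial.coeff_zero] at h1
  rw [Finset.sum_eq_single a] at h1
  · rw [if_pos rfl, MvPolynomial.coeff_C_mul, MvPolynomial.X_pow_eq_monomial,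
      MvPolynomial.X_pow_eq_monomial, MvPolynomial.monomial_mul, MvPolynomial.coeff_monomial,
      if_pos rfl] at h1
    simpa using h1
  · intro a' ha' hne
    split_ifs with hj
    · rw [MvPolynomial.coeff_C_mul, MvPolynomial.X_pow_eq_monomial,
        MvPolynomial.X_pow_eq_monomial, MvPolynomial.monomial_mul, MvPolynomial.coeff_monomial,
        if_neg, mul_zero]
      intro heq
      apply hne
      have e0 := DFunLike.congr_fun heq 0
      have e1 := DFunLike.congr_fun heq 1
      simp at e0 e1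
      have haN' : a'.1 + a'.2.1 + a'.2.2.1 + a'.2.2.2 = N := (Finset.mem_filter.1 ha').2
      have e2 : a'.2.1 = a.2.1 := by omega
      exact Prod.ext hj (Prod.ext e2 (Prod.ext e0 e1))
    · simp
  · intro hno
    exact absurd ha hno


end

end Pool.Agent.GG
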