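import Pool.Agent.Lib_helper82.GG.D.All
import Pool.Agent.Lib_helper82.GG.P.F2
import Pool.Agent.Lib_helper82.GG.P.J7
import Pool.Agent.Lib_helper82.GG.P.J8

set_option autoImplicit false
set_option linter.unusedVariables false
set_option linter.unusedSectionVars false

open Filter Topology Metric Set
open scoped Nat

namespace Pool.Agent.GG

open Pool.Agent.BR

section

variable {k m n : ℕ} {T : Fin 3 → V2 → ℂ} {z₀ : V2}

/-- all coefficients are continuous at `z₀` -/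
def f7_Cn (Q : V2 → JP k) (z₀ : V2) : Prop := ∀ t, ContinuousAt (fun z => (Q z).coeff t) z₀

theorem f7_C {f : V2 → ℂ} (hf : ContinuousAt f z₀) :
    f7_Cn (k := k) (fun z => MvPolynomial.C (f z)) z₀ := by
  intro t
  simp only [MvPolynomial.coeff_C]
  split_ifs
  · exact hf
  · exact continuousAt_const

theorem f7_const (p : JP k) : f7_Cn (fun _ => p) z₀ := fun _ => continuousAt_const

theorem f7_mul {P Q : V2 → JP k} (hP : f7_Cn P z₀) (hQ : f7_Cn Q z₀) :
    f7_Cn (fun z => P z * Q z) z₀ := by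
  intro t
  simp only [MvPolynomial.coeff_mul]
  exact tendsto_finsetSum _ fun x _ => (hP x.1).mul (hQ x.2)

theorem f7_add {P Q : V2 → JP k} (hP : f7_Cn P z₀) (hQ : f7_Cn Q z₀) :
    f7_Cn (fun z => P z + Q z) z₀ := by
  intro t
  simp only [MvPolynomial.coeff_add]
  exact (hP t).add (hQ t)

theorem f7_sum {ι : Type} (S : Finset ι) {P : ι → V2 → JP k} (hP : ∀ i ∈ S, f7_Cn (P i) z₀) :
    f7_Cn (fun z => ∑ i ∈ S, P i z) z₀ := by
  intro t
  simp only [MvPolynomial.coeff_sum]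
  exact tendsto_finsetSum _ fun i hi => hP i hi t

theorem f7_ls {M : V2 → Matrix (Fin 2) (Fin 2) ℂ} (hM : ∀ i j, ContinuousAt (fun z => M z i j) z₀)
    (p : JP k) : f7_Cn (fun z => Ls k (M z) p) z₀ := by
  induction p using MvPolynomial.induction_on with
  | C a =>
    have : (fun z => Ls k (M z) (MvPolynomial.C a)) = fun _ => (MvPolynomial.C a : JP k) := by
      funext z
      unfold Ls
      rw [MvPolynomial.aeval_C]
      rfl
    rw [this]
    exact f7_const _
  | add p q hp hq =>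
    simp only [map_add]
    exact f7_add hp hq
  | mul_X p v hp =>
    have : (fun z => Ls k (M z) (p * MvPolynomial.X v)) = fun z => Ls k (M z) p *
        ∑ j, MvPolynomial.C (M z v.1 j) * MvPolynomial.X (j, v.2) := by
      funext z
      rw [map_mul]
      congr 1
      unfold Ls
      rw [MvPolynomial.aeval_X]
    rw [this]
    exact f7_mul hp (f7_sum _ fun j _ => f7_mul (f7_C (hM v.1 j)) (f7_const _))

theorem f7_ls_sum (N : Matrix (Fin 2) (Fin 2) ℂ) (S : Finset (Fin 2 × Fin k →₀ ℕ))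
    (a : (Fin 2 × Fin k →₀ ℕ) → ℂ) (t : Fin 2 × Fin k →₀ ℕ) :
    (Ls k N (∑ t' ∈ S, MvPolynomial.monomial t' (a t'))).coeff t =
      ∑ t' ∈ S, a t' * (Ls k N (MvPolynomial.monomial t' 1)).coeff t := by
  rw [map_sum, MvPolynomial.coeff_sum]
  apply Finset.sum_congr rfl
  intro t' _
  have : (MvPolynomial.monomial t' (a t') : JP k) = a t' • MvPolynomial.monomial t' 1 := by
    rw [MvPolynomial.smul_monomial, smul_eq_mul, mul_one]
  rw [this, map_smul, MvPolynomial.coeff_smul, smul_eq_mul]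

theorem f7_sum_coeff (S : Finset (Fin 2 × Fin k →₀ ℕ)) (a : (Fin 2 × Fin k →₀ ℕ) → ℂ)
    (t : Fin 2 × Fin k →₀ ℕ) :
    (∑ t' ∈ S, MvPolynomial.monomial t' (a t') : JP k).coeff t = if t ∈ S then a t else 0 := by
  rw [MvPolynomial.coeff_sum]
  simp only [MvPolynomial.coeff_monomial]
  rw [Finset.sum_ite_eq']

theorem f7_mem (t : Fin 2 × Fin k →₀ ℕ) :
    t ∈ (Ty k m).filter (fun t : Fin 2 × Fin k →₀ ℕ => dg t = n) ↔ wt t = m ∧ dg t = n := by
  rw [Finset.mem_filter, (wt_fin k m).2]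

theorem f7_hc {p : JP k} (h : Wh m p) : hc n p =
    ∑ t ∈ (Ty k m).filter (fun t : Fin 2 × Fin k →₀ ℕ => dg t = n),
      MvPolynomial.monomial t (p.coeff t) := by
  ext t
  rw [f7_sum_coeff]
  simp only [f7_mem]
  unfold hc
  rw [MvPolynomial.coeff_homogeneousComponent]
  have hdg : t.degree = dg t := by
    rw [Finsupp.degree_eq_sum]
    rfl
  rw [hdg]
  by_cases h1 : dg t = n
  · by_cases h2 : wt t = m
    · rw [if_pos h1, if_pos ⟨h2, h1⟩]
    · rw [if_pos h1, if_neg (fun h3 => h2 h3.1)]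
      by_contra h3
      exact h2 (h t h3)
  · rw [if_neg h1, if_neg (fun h3 => h1 h3.2)]

theorem vp_coeff (r s : ℤ) (P : V2 → JP k) (z : V2) (t : Fin 2 × Fin k →₀ ℕ) :
    (VP T n m r s P z).coeff t =
      if wt t = m ∧ dg t = n then vl T r s (fun w => (P w).coeff t) z else 0 := by
  unfold VP
  rw [f7_sum_coeff]
  simp only [f7_mem]

theorem vp_frame (hd : (𝓝[Gd T] z₀).NeBot) {r s : ℤ} {P : V2 → JP k}
    {M : V2 → Matrix (Fin 2) (Fin 2) ℂ} (hM : ∀ i j, ContinuousAt (fun z => M z i j) z₀)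
    (hw : ∀ᶠ z in 𝓝 z₀, z ∈ Gd T → Wh m (P z))
    (hP : ∀ t : Fin 2 × Fin k →₀ ℕ, dg t = n → OO T z₀ r s (fun z => (P z).coeff t))
    (t : Fin 2 × Fin k →₀ ℕ) :
    Tendsto (fun z => T 0 z ^ (-r) * dl T z ^ (-s) * (Ls k (M z) (hc n (P z))).coeff t)
      (𝓝[Gd T] z₀) (𝓝 ((Ls k (M z₀) (VP T n m r s P z₀)).coeff t)) := by
  have h1 : (Ls k (M z₀) (VP T n m r s P z₀)).coeff t =
      ∑ t' ∈ (Ty k m).filter (fun t : Fin 2 × Fin k →₀ ℕ => dg t = n),
        vl T r s (fun w => (P w).coeff t') z₀ *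
          (Ls k (M z₀) (MvPolynomial.monomial t' 1)).coeff t := by
    unfold VP
    exact f7_ls_sum _ _ _ _
  rw [h1]
  have h2 : Tendsto (fun z => ∑ t' ∈ (Ty k m).filter (fun t : Fin 2 × Fin k →₀ ℕ => dg t = n),
      (T 0 z ^ (-r) * dl T z ^ (-s) * (P z).coeff t') *
        (Ls k (M z) (MvPolynomial.monomial t' 1)).coeff t) (𝓝[Gd T] z₀)
      (𝓝 (∑ t' ∈ (Ty k m).filter (fun t : Fin 2 × Fin k →₀ ℕ => dg t = n),
        vl T r s (fun w => (P w).coeff t') z₀ *
          (Ls k (M z₀) (MvPolynomial.monomial t' 1)).coeff t)) := by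
    apply tendsto_finsetSum
    intro t' ht'
    rw [f7_mem] at ht'
    refine (vl_tendsto hd (hP t' ht'.2)).mul ?_
    exact (f7_ls hM (MvPolynomial.monomial t' 1) t).tendsto.mono_left nhdsWithin_le_nhds
  refine h2.congr' ?_
  rw [EventuallyEq, eventually_nhdsWithin_iff]
  filter_upwards [hw] with z hz hzG
  rw [f7_hc (hz hzG), f7_ls_sum, Finset.mul_sum]
  apply Finset.sum_congr rfl
  intro t' _
  ring

theorem vp_an (hd : ∀ᶠ z in 𝓝 z₀, (𝓝[Gd T] z).NeBot) {r s : ℤ} {P : V2 → JP k}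
    {M : V2 → Matrix (Fin 2) (Fin 2) ℂ} (hM : ∀ i j, AnalyticAt ℂ (fun z => M z i j) z₀)
    (hP : ∀ t : Fin 2 × Fin k →₀ ℕ, dg t = n → OO T z₀ r s (fun z => (P z).coeff t))
    (t : Fin 2 × Fin k →₀ ℕ) :
    AnalyticAt ℂ (fun z => (Ls k (M z) (VP T n m r s P z)).coeff t) z₀ := by
  apply ls_an (m := m) hM
  · intro t'
    simp only [vp_coeff]
    by_cases h : wt t' = m ∧ dg t' = n
    · simp only [if_pos h]
      obtain ⟨g, hg1, -, hg2⟩ := vl_an hd (hP t' h.2)
      exact hg1.congr (hg2.mono fun z hz => hz.symm)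
    · simp only [if_neg h]
      exact analyticAt_const
  · refine Eventually.of_forall fun z t' ht' => ?_
    rw [vp_coeff] at ht'
    by_contra h
    rw [if_neg (fun h2 => h h2.1)] at ht'
    exact ht' rfl

end


end Pool.Agent.GG
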