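import Pool.Agent.Lib_helper82.GG.D.All

/-! # GG, block J6c: linear substitutions (helper20) -/

set_option autoImplicit false

open Filter Topology Metric Set
open scoped Nat

namespace Pool.Agent.GG

open Pool.Agent.BR

section jets

variable {k : ℕ}

theorem j6c_X (M : Matrix (Fin 2) (Fin 2) ℂ) (v : Fin 2 × Fin k) :
    Ls k M (MvPolynomial.X v) =
      ∑ j, MvPolynomial.C (M v.1 j) * MvPolynomial.X (j, v.2) := by
  unfold Ls
  rw [MvPolynomial.aeval_X]

theorem ls_mul (M N : Matrix (Fin 2) (Fin 2) ℂ) (P : JP k) :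
    Ls k M (Ls k N P) = Ls k (N * M) P := by
  have h : (Ls k M).comp (Ls k N) = Ls k (N * M) := by
    apply MvPolynomial.algHom_ext
    intro v
    rw [AlgHom.comp_apply, j6c_X, j6c_X, map_sum]
    have e : ∀ j : Fin 2, Ls k M (MvPolynomial.C (N v.1 j) * MvPolynomial.X (j, v.2)) =
        ∑ i, MvPolynomial.C (N v.1 j) * (MvPolynomial.C (M j i) * MvPolynomial.X (i, v.2)) := by
      intro j
      rw [map_mul, j6c_X, Finset.mul_sum]
      congr 1
      funext i
      congr 1
      exact MvPolynomial.algHom_C _ _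
    rw [Finset.sum_congr rfl fun j _ => e j, Finset.sum_comm]
    refine Finset.sum_congr rfl fun i _ => ?_
    rw [Matrix.mul_apply, map_sum, Finset.sum_mul]
    refine Finset.sum_congr rfl fun j _ => ?_
    rw [MvPolynomial.C_mul, mul_assoc]
  rw [← h]
  rfl

theorem ls_one (P : JP k) : Ls k 1 P = P := by
  have h : Ls k (1 : Matrix (Fin 2) (Fin 2) ℂ) = AlgHom.id ℂ (JP k) := by
    apply MvPolynomial.algHom_ext
    intro v
    rw [j6c_X]
    rw [Finset.sum_eq_single v.1]
    · rw [Matrix.one_apply_eq, MvPolynomial.C_1, one_mul]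
      rfl
    · intro j _ hj
      rw [Matrix.one_apply_ne (Ne.symm hj), MvPolynomial.C_0, zero_mul]
    · intro h
      exact absurd (Finset.mem_univ _) h
  rw [h]
  rfl

/-- the weights -/
def j6c_w (k : ℕ) : Fin 2 × Fin k → ℕ := fun v => (v.2 : ℕ) + 1

theorem j6c_weight (t : Fin 2 × Fin k →₀ ℕ) : Finsupp.weight (j6c_w k) t = wt t := by
  rw [Finsupp.weight_apply, Finsupp.sum_fintype]
  · unfold wt j6c_w
    refine Finset.sum_congr rfl fun v _ => ?_
    rw [smul_eq_mul, mul_comm]
  · intro i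
    simp

theorem j6c_wh (m : ℕ) (P : JP k) : Wh m P ↔ MvPolynomial.IsWeightedHomogeneous (j6c_w k) P m := by
  constructor
  · intro h t ht
    rw [j6c_weight]
    exact h t ht
  · intro h t ht
    rw [← j6c_weight]
    exact h ht

theorem j6c_Xw (M : Matrix (Fin 2) (Fin 2) ℂ) (v : Fin 2 × Fin k) :
    MvPolynomial.IsWeightedHomogeneous (j6c_w k) (Ls k M (MvPolynomial.X v)) (j6c_w k v) := by
  rw [j6c_X]
  apply MvPolynomial.IsWeightedHomogeneous.sum
  intro j _
  apply MvPolynomial.IsWeightedHomogeneous.C_mul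
  exact MvPolynomial.isWeightedHomogeneous_X ℂ (j6c_w k) (j, v.2)

theorem ls_wh (M : Matrix (Fin 2) (Fin 2) ℂ) {m : ℕ} {P : JP k} (h : Wh m P) :
    Wh m (Ls k M P) := by
  rw [j6c_wh] at h ⊢
  rw [MvPolynomial.as_sum P, map_sum]
  apply MvPolynomial.IsWeightedHomogeneous.sum
  intro t ht
  rw [MvPolynomial.monomial_eq, map_mul, MvPolynomial.algHom_C, Finsupp.prod_pow, map_prod]
  have hwt : Finsupp.weight (j6c_w k) t = m := h (MvPolynomial.mem_support_iff.1 ht)
  have h1 : MvPolynomial.IsWeightedHomogeneous (j6c_w k)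
      (∏ v, Ls k M (MvPolynomial.X v ^ t v)) (∑ v, t v • j6c_w k v) := by
    apply MvPolynomial.IsWeightedHomogeneous.prod
    intro v _
    rw [map_pow]
    exact (j6c_Xw M v).pow _
  have h2 : ∑ v, t v • j6c_w k v = m := by
    rw [← hwt, Finsupp.weight_apply, Finsupp.sum_fintype]
    intro i
    simp
  rw [h2] at h1
  have h3 := h1.C_mul (MvPolynomial.coeff t P)
  exact h3

theorem j6c_hom (M : Matrix (Fin 2) (Fin 2) ℂ) {n : ℕ} {P : JP k} (h : P.IsHomogeneous n) :
    (Ls k M P).IsHomogeneous n := by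
  have h1 := h.aeval (fun v : Fin 2 × Fin k =>
    ∑ j, MvPolynomial.C (M v.1 j) * MvPolynomial.X (R := ℂ) (j, v.2)) (n := 1) (fun v => by
      apply MvPolynomial.IsHomogeneous.sum
      intro j _
      exact MvPolynomial.isHomogeneous_C_mul_X _ _)
  rw [one_mul] at h1
  exact h1

theorem ls_hc (M : Matrix (Fin 2) (Fin 2) ℂ) (n : ℕ) (P : JP k) :
    Ls k M (hc n P) = hc n (Ls k M P) := by
  unfold hc
  conv_rhs => rw [← MvPolynomial.sum_homogeneousComponent P]
  rw [map_sum, map_sum]
  have e : ∀ i, MvPolynomial.homogeneousComponent n (Ls k M (MvPolynomial.homogeneousComponent i P))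
      = if n = i then Ls k M (MvPolynomial.homogeneousComponent i P) else 0 := by
    intro i
    apply MvPolynomial.homogeneousComponent_of_mem
    rw [MvPolynomial.mem_homogeneousSubmodule]
    exact j6c_hom M (MvPolynomial.homogeneousComponent_isHomogeneous i P)
  rw [Finset.sum_congr rfl fun i _ => e i]
  rw [Finset.sum_ite_eq]
  split_ifs with h
  · rfl
  · rw [Finset.mem_range, not_lt] at h
    rw [MvPolynomial.homogeneousComponent_eq_zero _ _ (by omega), map_zero]

end jets


end Pool.Agent.GG
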