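import Pool.Agent.Lib_helper82.GG.D.All
import Pool.Agent.Lib_helper82.GG.P.F2
import Pool.Agent.Lib_helper82.GG.P.F7
import Pool.Agent.Lib_helper82.GG.P.G7
import Pool.Agent.Lib_helper82.GG.P.J6c

/-! # Existence of invariant jet differentials (MP_45e720_ag): the loops of the stages -/

set_option autoImplicit false
set_option linter.unusedVariables false
set_option linter.unusedSectionVars false

open Filter Topology Metric Set
open scoped Nat

namespace Pool.Agent.GG

open Pool.Agent.BR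

section loops

variable {W : Type} [AddCommGroup W] [Module ℂ W] [FiniteDimensional ℂ W]

theorem Ach.mono {S S' : W → Prop} {c c' : ℝ} (h : Ach S c) (hS : ∀ w, S w → S' w)
    (hc : c ≤ c') : Ach S' c' := by
  obtain ⟨V, h1, h2⟩ := h
  exact ⟨V, by linarith, fun w hw => hS w (h2 w hw)⟩

/-- the inner loop -/
theorem loop_in {β : Type} [DecidableEq β] (τ : Finset β) (ν : β → ℕ) (Act : β → Prop)
    [DecidablePred Act] (cost : β → ℝ) (Q : W → Prop) (Qv : ℕ → W → Prop) (N : ℕ)
    (hν : ∀ t ∈ τ, ν t < N) (h0 : ∀ w, Q w → Qv 0 w)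
    (hstep : ∀ p c, Ach (fun w => Q w ∧ Qv p w) c → Ach (fun w => Q w ∧ Qv (p + 1) w)
      (c + ∑ t ∈ τ.filter (fun t => ν t = p ∧ Act t), cost t))
    (c : ℝ) (h : Ach Q c) :
    Ach (fun w => Q w ∧ Qv N w) (c + ∑ t ∈ τ.filter (fun t => Act t), cost t) := by
  have key : ∀ p, Ach (fun w => Q w ∧ Qv p w)
      (c + ∑ t ∈ τ.filter (fun t => ν t < p ∧ Act t), cost t) := by
    intro p
    induction p with
    | zero =>
      refine h.mono (fun w hw => ⟨hw, h0 w hw⟩) ?_
      have h1 : τ.filter (fun t => ν t < 0 ∧ Act t) = ∅ := by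
        apply Finset.filter_false_of_mem
        intro t _ ht
        exact absurd ht.1 (Nat.not_lt_zero _)
      rw [h1, Finset.sum_empty, add_zero]
    | succ p ih =>
      refine (hstep p _ ih).mono (fun w hw => hw) ?_
      have h1 : τ.filter (fun t => ν t < p + 1 ∧ Act t) =
          τ.filter (fun t => ν t < p ∧ Act t) ∪ τ.filter (fun t => ν t = p ∧ Act t) := by
        ext t
        simp only [Finset.mem_filter, Finset.mem_union]
        constructor
        · rintro ⟨h2, h3, h4⟩
          rcases Nat.lt_succ_iff_lt_or_eq.1 h3 with h5 | h5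
          · exact Or.inl ⟨h2, h5, h4⟩
          · exact Or.inr ⟨h2, h5, h4⟩
        · rintro (⟨h2, h3, h4⟩ | ⟨h2, h3, h4⟩)
          · exact ⟨h2, by omega, h4⟩
          · exact ⟨h2, by omega, h4⟩
      rw [h1, Finset.sum_union]
      · linarith
      · rw [Finset.disjoint_left]
        intro t h2 h3
        rw [Finset.mem_filter] at h2 h3
        omega
  have h1 : τ.filter (fun t => ν t < N ∧ Act t) = τ.filter (fun t => Act t) := by
    apply Finset.filter_congr
    intro t ht
    exact ⟨fun h => h.2, fun h => ⟨hν t ht, h⟩⟩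
  have h2 := key N
  rwa [h1] at h2

/-- the double loop -/
theorem loop_out {β : Type} [DecidableEq β] (τ : Finset β) (ν : β → ℕ) (Act : β → ℕ → Prop)
    [∀ t r, Decidable (Act t r)] (cost : β → ℕ → ℝ) (Q : ℕ → W → Prop)
    (Qv : ℕ → ℕ → W → Prop) (N R : ℕ)
    (hν : ∀ t ∈ τ, ν t < N) (h0 : ∀ r w, Q r w → Qv r 0 w)
    (hstep : ∀ r p c, 0 < r → Ach (fun w => Q r w ∧ Qv r p w) c →
      Ach (fun w => Q r w ∧ Qv r (p + 1) w)
        (c + ∑ t ∈ τ.filter (fun t => ν t = p ∧ Act t r), cost t r))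
    (hdrop : ∀ r w, Q (r + 1) w → Qv (r + 1) N w → Q r w)
    (c : ℝ) (h : Ach (Q R) c) :
    Ach (Q 0) (c + ∑ t ∈ τ, ∑ r ∈ (Finset.Icc 1 R).filter (fun r => Act t r), cost t r) := by
  have key : ∀ j ≤ R, Ach (Q (R - j)) (c + ∑ t ∈ τ,
      ∑ r ∈ (Finset.Ioc (R - j) R).filter (fun r => Act t r), cost t r) := by
    intro j
    induction j with
    | zero =>
      intro _
      refine h.mono (fun w hw => hw) ?_
      simp
    | succ j ih =>
      intro hj
      have h1 := ih (by omega)
      obtain ⟨r, hr⟩ : ∃ r, R - j = r + 1 := ⟨R - j - 1, by omega⟩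
      have hr' : R - (j + 1) = r := by omega
      rw [hr] at h1
      rw [hr']
      have h2 := loop_in τ ν (fun t => Act t (r + 1)) (fun t => cost t (r + 1)) (Q (r + 1))
        (Qv (r + 1)) N hν (h0 (r + 1)) (fun p c hc => hstep (r + 1) p c (Nat.succ_pos r) hc) _ h1
      refine h2.mono (fun w hw => hdrop r w hw.1 hw.2) ?_
      have h3 : ∀ t ∈ τ, ∑ r' ∈ (Finset.Ioc r R).filter (fun r' => Act t r'), cost t r' =
          (if Act t (r + 1) then cost t (r + 1) else 0) +
          ∑ r' ∈ (Finset.Ioc (r + 1) R).filter (fun r' => Act t r'), cost t r' := by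
        intro t _
        have h4 : Finset.Ioc r R = insert (r + 1) (Finset.Ioc (r + 1) R) := by
          ext a
          simp only [Finset.mem_Ioc, Finset.mem_insert]
          omega
        rw [h4, Finset.filter_insert]
        split_ifs with h5
        · rw [Finset.sum_insert]
          simp
        · rw [zero_add]
      rw [Finset.sum_congr rfl h3, Finset.sum_add_distrib, Finset.sum_filter]
      linarith
  have h1 := key R le_rfl
  rw [Nat.sub_self] at h1
  refine h1.mono (fun w hw => hw) ?_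
  have h2 : Finset.Ioc 0 R = Finset.Icc 1 R := by
    ext a
    simp only [Finset.mem_Ioc, Finset.mem_Icc]
    omega
  rw [h2]

end loops

section stg

variable {X : Type} [MetricSpace X] [CompactSpace X] {A : Cha V2 X} {b D k m n : ℕ}
  {T : Fin 3 → A.ι → X → ℂ} {T₃ : A.ι → X → ℂ}

/-- the index set of the parameters -/
noncomputable def PI (b D k m : ℕ) : Finset (Σ _ : (Fin 2 × Fin k →₀ ℕ), ℕ × ℕ × ℕ × ℕ) :=
  (Ty k m).sigma (fun t => Idx D ((6 * b + 1) * dg t))

open Classical in
/-- extension of the parameters by zero -/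
noncomputable def ext (b D k m : ℕ) (w : PI b D k m → ℂ) (t : Fin 2 × Fin k →₀ ℕ)
    (a : ℕ × ℕ × ℕ × ℕ) : ℂ :=
  if h : (⟨t, a⟩ : Σ _ : (Fin 2 × Fin k →₀ ℕ), ℕ × ℕ × ℕ × ℕ) ∈ PI b D k m then w ⟨⟨t, a⟩, h⟩ else 0

/-- the family of the coefficients -/
noncomputable def cW (A : Cha V2 X) (b D : ℕ) (T : Fin 3 → A.ι → X → ℂ) (T₃ : A.ι → X → ℂ)
    (k m : ℕ) (w : PI b D k m → ℂ) : X → JP k :=
  cE A b D T T₃ k m (ext b D k m w)

theorem cW_add (w w' : PI b D k m → ℂ) (x : X) :
    cW A b D T T₃ k m (w + w') x = cW A b D T T₃ k m w x + cW A b D T T₃ k m w' x := by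
  have h := cE_lin (A := A) (b := b) (D := D) (T := T) (T₃ := T₃) (k := k) (m := m)
    (ext b D k m w) (ext b D k m w') 1 1 x
  unfold cW
  have h1 : (fun t s => 1 * ext b D k m w t s + 1 * ext b D k m w' t s) =
      ext b D k m (w + w') := by
    funext t s
    unfold ext
    split_ifs with h2
    · simp
    · simp
  rw [h1] at h
  rw [h]
  simp

theorem cW_smul (a : ℂ) (w : PI b D k m → ℂ) (x : X) :
    cW A b D T T₃ k m (a • w) x = MvPolynomial.C a * cW A b D T T₃ k m w x := by
  have h := cE_lin (A := A) (b := b) (D := D) (T := T) (T₃ := T₃) (k := k) (m := m)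
    (ext b D k m w) (ext b D k m w) a 0 x
  unfold cW
  have h1 : (fun t s => a * ext b D k m w t s + 0 * ext b D k m w t s) =
      ext b D k m (a • w) := by
    funext t s
    unfold ext
    split_ifs with h2
    · simp
    · simp
  rw [h1] at h
  rw [h]
  simp

theorem pcf_add (w w' : PI b D k m → ℂ) (i : A.ι) (z : V2) :
    pcf A T (cW A b D T T₃ k m (w + w')) i z =
      pcf A T (cW A b D T T₃ k m w) i z + pcf A T (cW A b D T T₃ k m w') i z := by
  unfold pcf PC
  rw [cW_add, map_add]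

theorem pcf_smul (a : ℂ) (w : PI b D k m → ℂ) (i : A.ι) (z : V2) :
    pcf A T (cW A b D T T₃ k m (a • w)) i z =
      MvPolynomial.C a * pcf A T (cW A b D T T₃ k m w) i z := by
  unfold pcf PC
  rw [cW_smul, map_mul, ← MvPolynomial.algebraMap_eq, AlgHom.commutes]

theorem co_cW (hT : Net A b T) (h₃ : IS.PS A b T₃) (w : PI b D k m → ℂ) :
    CO A b T m (cW A b D T T₃ k m w) :=
  ⟨fun i x hi t => cE_oo hT h₃ _ hi t, fun x => cE_wh _ x⟩

/-- additivity of the values -/
theorem vp_add {S : Fin 3 → V2 → ℂ} {z : V2} (hd : (𝓝[Gd S] z).NeBot) {r s : ℤ}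
    {P P' P'' : V2 → JP k} (h : ∀ z, P'' z = P z + P' z)
    (hP : ∀ t : Fin 2 × Fin k →₀ ℕ, dg t = n → OO S z r s (fun z => (P z).coeff t))
    (hP' : ∀ t : Fin 2 × Fin k →₀ ℕ, dg t = n → OO S z r s (fun z => (P' z).coeff t)) :
    VP S n m r s P'' z = VP S n m r s P z + VP S n m r s P' z := by
  ext t
  rw [MvPolynomial.coeff_add, vp_coeff, vp_coeff, vp_coeff]
  split_ifs with h1
  · have h2 : (fun w => (P'' w).coeff t) = fun w => (P w).coeff t + (P' w).coeff t := by
      funext w
      rw [h w, MvPolynomial.coeff_add]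
    rw [h2, vl_add hd (hP t h1.2) (hP' t h1.2)]
  · rw [add_zero]

theorem vp_smul {S : Fin 3 → V2 → ℂ} {z : V2} (hd : (𝓝[Gd S] z).NeBot) {r s : ℤ}
    {P P'' : V2 → JP k} (a : ℂ) (h : ∀ z, P'' z = MvPolynomial.C a * P z)
    (hP : ∀ t : Fin 2 × Fin k →₀ ℕ, dg t = n → OO S z r s (fun z => (P z).coeff t)) :
    VP S n m r s P'' z = MvPolynomial.C a * VP S n m r s P z := by
  ext t
  rw [MvPolynomial.coeff_C_mul, vp_coeff, vp_coeff]
  split_ifs with h1
  · have h2 : (fun w => (P'' w).coeff t) = fun w => a * (P w).coeff t := by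
      funext w
      rw [h w, MvPolynomial.coeff_C_mul]
    rw [h2, vl_smul hd (hP t h1.2)]
  · rw [mul_zero]

theorem ls_C_mul (M : Matrix (Fin 2) (Fin 2) ℂ) (a : ℂ) (P : JP k) :
    Ls k M (MvPolynomial.C a * P) = MvPolynomial.C a * Ls k M P := by
  rw [map_mul, ← MvPolynomial.algebraMap_eq, AlgHom.commutes]

theorem degree_dg (t : Fin 2 × Fin k →₀ ℕ) : Finsupp.degree t = dg t := by
  rw [Finsupp.degree_eq_sum]
  rfl

/-- the coefficients of wrong weight or degree of the values vanish -/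
theorem vp_ty {S : Fin 3 → V2 → ℂ} {z : V2} {r s : ℤ} {P : V2 → JP k}
    (M : Matrix (Fin 2) (Fin 2) ℂ) (t : Fin 2 × Fin k →₀ ℕ) (h : wt t ≠ m ∨ dg t ≠ n) :
    (Ls k M (VP S n m r s P z)).coeff t = 0 := by
  rcases h with h | h
  · have h1 : Wh m (VP S n m r s P z) := by
      intro t' ht'
      rw [vp_coeff] at ht'
      by_contra h2
      exact ht' (if_neg fun h3 => h2 h3.1)
    by_contra h2
    exact h (ls_wh M h1 t h2)
  · have h1 : hc n (VP S n m r s P z) = VP S n m r s P z := by
      unfold hc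
      ext t'
      rw [MvPolynomial.coeff_homogeneousComponent, vp_coeff]
      split_ifs with h2 h3 h3
      · rfl
      · rfl
      · exfalso
        apply h2
        rw [← h3.2, degree_dg]
      · rfl
    have h2 := ls_hc M n (VP S n m r s P z)
    rw [h1] at h2
    rw [h2]
    unfold hc
    rw [MvPolynomial.coeff_homogeneousComponent, if_neg]
    intro h3
    apply h
    rw [← h3, degree_dg]

end stg

end Pool.Agent.GG
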