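import Pool.Agent.Lib_helper82.GG.D.All
import Pool.Agent.Lib_helper82.GG.P.F2
import Pool.Agent.Lib_helper82.GG.P.G1
import Pool.Agent.Lib_helper82.GG.P.G3
import Pool.Agent.Lib_helper82.GG.P.G4
import Pool.Agent.Lib_helper82.GG.P.G5
import Pool.Agent.Lib_helper82.GG.P.G6
import Pool.Agent.Lib_helper82.GG.P.G7
import Pool.Agent.Lib_helper82.GG.P.G8
import Pool.Agent.Lib_helper82.GG.P.J5
import Pool.Agent.Lib_helper82.GG.P.J7
import Pool.Agent.Lib_helper82.GG.P.J8
import Pool.Agent.Lib_helper82.GG.P.L0b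
import Pool.Agent.Lib_helper82.GG.P.MON
import Pool.Agent.Lib_helper82.GG.P.ST

/-! # Existence of invariant jet differentials (MP_45e720_ag): regular coefficients give a jet
differential -/

set_option autoImplicit false
set_option linter.unusedVariables false
set_option linter.unusedSectionVars false

open Filter Topology Metric Set

namespace Pool.Agent.GG

open Pool.Agent.BR

section surf

variable {X : Type} [MetricSpace X] [CompactSpace X] {A : Cha V2 X} {b D k m n : ℕ}
  {T : Fin 3 → A.ι → X → ℂ} {T₃ : A.ι → X → ℂ}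

theorem ci_mem1 (A : Cha V2 X) (x : X) : x ∈ (A.ch (ci A x)).source :=
  A.W_sub _ (subset_closure (A.cover x).choose_spec)

/-- the polynomial of the values -/
noncomputable def PV (A : Cha V2 X) (T : Fin 3 → A.ι → X → ℂ) (m : ℕ) {k : ℕ} (c : X → JP k)
    (i : A.ι) (x : X) : JP k :=
  ∑ t ∈ Ty k m, MvPolynomial.monomial t
    (vl (lT A T i) 0 0 (fun z => (pcf A T c i z).coeff t) (A.ch i x))

theorem pv_coeff (c : X → JP k) (i : A.ι) (x : X) (t : Fin 2 × Fin k →₀ ℕ) :
    (PV A T m c i x).coeff t = if wt t = m then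
      vl (lT A T i) 0 0 (fun z => (pcf A T c i z).coeff t) (A.ch i x) else 0 := by
  classical
  unfold PV
  rw [MvPolynomial.coeff_sum]
  simp only [MvPolynomial.coeff_monomial]
  rw [Finset.sum_ite_eq' (Ty k m) t
    (fun t' => vl (lT A T i) 0 0 (fun z => (pcf A T c i z).coeff t') (A.ch i x))]
  simp only [(wt_fin k m).2 t]

/-- the analytic extension of all coefficients -/
theorem pv_ext (hT : Net A b T) {c : X → JP k} (hco : CO A b T m c) {i : A.ι} {x : X}
    (hi : x ∈ (A.ch i).source)
    (hr : ∀ t, OO (lT A T i) (A.ch i x) 0 0 (fun z => (pcf A T c i z).coeff t)) :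
    ∃ G : V2 → JP k, (∀ t, AnalyticAt ℂ (fun z => (G z).coeff t) (A.ch i x)) ∧
      (∀ z, Wh m (G z)) ∧
      (∀ᶠ z in 𝓝 (A.ch i x), z ∈ Gd (lT A T i) → pcf A T c i z = G z) ∧
      ∀ᶠ z in 𝓝 (A.ch i x), PV A T m c i ((A.ch i).symm z) = G z := by
  classical
  have hdense := net_dense hT hi
  have h1 := fun t => vl_an hdense (hr t)
  choose g hg hg1 hg2 using h1
  set G : V2 → JP k := fun z => ∑ t ∈ Ty k m, MvPolynomial.monomial t (g t z) with hG
  have hGc : ∀ z t, (G z).coeff t = if wt t = m then g t z else 0 := by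
    intro z t
    rw [hG]
    simp only
    rw [MvPolynomial.coeff_sum]
    simp only [MvPolynomial.coeff_monomial]
    rw [Finset.sum_ite_eq' (Ty k m) t (fun t' => g t' z)]
    simp only [(wt_fin k m).2 t]
  refine ⟨G, ?_, ?_, ?_, ?_⟩
  · intro t
    by_cases h : wt t = m
    · have h2 : (fun z => (G z).coeff t) = g t := by
        funext z
        rw [hGc, if_pos h]
      rw [h2]
      exact hg t
    · have h2 : (fun z => (G z).coeff t) = fun _ => 0 := by
        funext z
        rw [hGc, if_neg h]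
      rw [h2]
      exact analyticAt_const
  · intro z t ht
    rw [hGc] at ht
    by_contra h
    exact ht (if_neg h)
  · have h3 : ∀ᶠ z in 𝓝 (A.ch i x), ∀ t ∈ Ty k m, z ∈ Gd (lT A T i) →
        (pcf A T c i z).coeff t = g t z := by
      rw [Filter.eventually_all_finset]
      intro t _
      filter_upwards [hg1 t] with z hz hzG
      rw [hz hzG]
      simp
    filter_upwards [h3] with z hz hzG
    ext t
    rw [hGc]
    split_ifs with h
    · exact hz t (((wt_fin k m).2 t).2 h) hzG
    · by_contra h2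
      exact h (co_wh hco i z t h2)
  · have h3 : ∀ᶠ z in 𝓝 (A.ch i x), ∀ t ∈ Ty k m,
        vl (lT A T i) 0 0 (fun z => (pcf A T c i z).coeff t) z = g t z := by
      rw [Filter.eventually_all_finset]
      intro t _
      exact hg2 t
    have htgt : ∀ᶠ z in 𝓝 (A.ch i x), z ∈ (A.ch i).target :=
      (A.ch i).open_target.mem_nhds ((A.ch i).map_source hi)
    filter_upwards [h3, htgt] with z hz hz2
    ext t
    rw [hGc, pv_coeff, (A.ch i).right_inv hz2]
    split_ifs with h
    · exact hz t (((wt_fin k m).2 t).2 h)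
    · rfl

/-- F (helper58): regular coefficients give a jet differential -/
theorem exists_gj [Nonempty X] (hT : Net A b T) (hD : Shts A T D) (h₃ : Sep A b T T₃)
    {k m : ℕ} (w : (Fin 2 × Fin k →₀ ℕ) → (ℕ × ℕ × ℕ × ℕ) → ℂ)
    (hw : ∃ t ∈ Ty k m, ∃ a ∈ Idx D ((6 * b + 1) * dg t), w t a ≠ 0)
    (hr : ∀ i, ∀ x ∈ (A.ch i).source, ∀ t,
        RegX A (GX A T) (fun y => (PC A T (cE A b D T T₃ k m w) i y).coeff t) x) :
    ∃ P : A.ι → X → JP k, GJ A k m P ∧ ∃ i, ∃ x ∈ (A.ch i).source, P i x ≠ 0 := by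
  classical
  set c := cE A b D T T₃ k m w with hc
  have hco : CO A b T m c := ⟨fun i x hi t => cE_oo hT h₃.ps _ hi t, fun x => cE_wh _ x⟩
  have hreg : ∀ i, ∀ x ∈ (A.ch i).source, ∀ t,
      OO (lT A T i) (A.ch i x) 0 0 (fun z => (pcf A T c i z).coeff t) := by
    intro i x hi t
    exact (reg_oo hT hi _).1 (hr i x hi t)
  refine ⟨PV A T m c, ⟨?_, ?_, ?_⟩, ?_⟩
  · intro i x hi t
    obtain ⟨G, hG1, hG2, hG3, hG4⟩ := pv_ext hT hco hi (hreg i x hi)
    refine (hG1 t).congr ?_
    filter_upwards [hG4] with z hz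
    rw [hz]
  · intro i x hi t ht
    rw [pv_coeff] at ht
    by_contra h
    exact ht (if_neg h)
  · intro i j x hi hj
    obtain ⟨G, hG1, hG2, hG3, hG4⟩ := pv_ext hT hco hi (hreg i x hi)
    obtain ⟨G', hG1', hG2', hG3', hG4'⟩ := pv_ext hT hco hj (hreg j x hj)
    obtain ⟨htc1, htc2, htc3⟩ := tc_near hi hj
    have hdi := (net_dense hT hi).self_of_nhds
    -- the values at the point
    have hGi : PV A T m c i x = G (A.ch i x) := by
      have h := hG4.self_of_nhds
      rwa [(A.ch i).left_inv hi] at h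
    have hGj : PV A T m c j x = G' (A.ch j x) := by
      have h := hG4'.self_of_nhds
      rwa [(A.ch j).left_inv hj] at h
    -- the analytic function on the right
    have hcomp : ∀ t, AnalyticAt ℂ (fun z => (G' (tc A i j z)).coeff t) (A.ch i x) := by
      intro t
      have h1 : AnalyticAt ℂ (fun z => (G' z).coeff t) (tc A i j (A.ch i x)) := by
        rw [htc2]
        exact hG1' t
      exact AnalyticAt.comp (g := fun z => (G' z).coeff t) (f := tc A i j) (x := A.ch i x) h1 htc1
    have hRan := fun t => tr_an (k := k) htc1 (fun z => G' (tc A i j z)) hcomp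
      (Eventually.of_forall fun z => hG2' _) t
    -- the good set in the chart `j`
    have hgd : ∀ᶠ z in 𝓝 (A.ch i x), z ∈ Gd (lT A T i) → tc A i j z ∈ Gd (lT A T j) := by
      filter_upwards [(net_gd hT hi).2, htc3] with z hz hz2 hzG
      have h1 := hz.1 hzG
      have h2 := (net_gd hT hz2.2.2.1).1.1 h1
      exact h2
    have hG3'' : ∀ᶠ z in 𝓝 (A.ch i x), tc A i j z ∈ Gd (lT A T j) →
        pcf A T c j (tc A i j z) = G' (tc A i j z) := by
      have h1 : Tendsto (tc A i j) (𝓝 (A.ch i x)) (𝓝 (A.ch j x)) := by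
        have h2 := htc1.continuousAt.tendsto
        rwa [htc2] at h2
      exact h1.eventually hG3'
    have hEq : ∀ᶠ z in 𝓝[Gd (lT A T i)] (A.ch i x), G z = Tr k (tc A i j) z (G' (tc A i j z)) := by
      filter_upwards [self_mem_nhdsWithin, hG3.filter_mono nhdsWithin_le_nhds,
        hgd.filter_mono nhdsWithin_le_nhds, hG3''.filter_mono nhdsWithin_le_nhds,
        (pcf_tr hT c hi hj).filter_mono nhdsWithin_le_nhds] with z hz h1 h2 h3 h4
      rw [← h1 hz, h4 hz, h3 (h2 hz)]
    have hfin : G (A.ch i x) = Tr k (tc A i j) (A.ch i x) (G' (tc A i j (A.ch i x))) := by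
      ext t
      have h1 : Tendsto (fun z => (G z).coeff t) (𝓝[Gd (lT A T i)] (A.ch i x))
          (𝓝 ((G (A.ch i x)).coeff t)) :=
        (hG1 t).continuousAt.tendsto.mono_left nhdsWithin_le_nhds
      have h2 : Tendsto (fun z => (Tr k (tc A i j) z (G' (tc A i j z))).coeff t)
          (𝓝[Gd (lT A T i)] (A.ch i x))
          (𝓝 ((Tr k (tc A i j) (A.ch i x) (G' (tc A i j (A.ch i x)))).coeff t)) :=
        (hRan t).continuousAt.tendsto.mono_left nhdsWithin_le_nhds
      refine tendsto_nhds_unique h1 (h2.congr' ?_)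
      filter_upwards [hEq] with z hz
      rw [hz]
    rw [hGi, hGj, hfin, htc2]
    rfl
  · -- the jet differential is not zero
    by_contra hcon
    push Not at hcon
    obtain ⟨t₀, ht₀, a₀, ha₀, hw₀⟩ := hw
    -- on the good set `c = 0`
    have hc0 : ∀ x ∈ GX A T, c x = 0 := by
      intro x hx
      have hi := ci_mem1 A x
      set i := ci A x with hidef
      obtain ⟨G, hG1, hG2, hG3, hG4⟩ := pv_ext hT hco hi (hreg i x hi)
      have hxg : A.ch i x ∈ Gd (lT A T i) := (net_gd hT hi).1.1 hx
      have h1 : pcf A T c i (A.ch i x) = G (A.ch i x) := hG3.self_of_nhds hxg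
      have h2 : PV A T m c i x = G (A.ch i x) := by
        have h := hG4.self_of_nhds
        rwa [(A.ch i).left_inv hi] at h
      rw [← h2, hcon i x hi] at h1
      unfold pcf PC at h1
      rw [(A.ch i).left_inv hi] at h1
      obtain ⟨hU, -, Θ, hΘ, hΘ1, hΘ2⟩ := uu_inv (net_an hT hi) hxg
      have hΘx : Θ (UU (lT A T i) (A.ch i x)) = A.ch i x := hΘ1.self_of_nhds
      have h3 := tr_comp (k := k) (F := Θ) (G := UU (lT A T i))
        (z := UU (lT A T i) (A.ch i x)) hΘ (by rw [hΘx]; exact hU) (c x)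
      rw [hΘx, h1, map_zero] at h3
      have h4 : Tr k (fun w => UU (lT A T i) (Θ w)) (UU (lT A T i) (A.ch i x)) =
          Tr k (fun w => w) (UU (lT A T i) (A.ch i x)) := tr_congr hΘ2
      rw [h4, tr_id] at h3
      exact h3.symm
    -- the sums vanish on the good set
    have hsum : ∀ i, ∀ x ∈ (A.ch i).source, x ∈ GX A T →
        ∑ a ∈ Idx D ((6 * b + 1) * dg t₀), w t₀ a * mo T T₃ a i x = 0 := by
      intro i x hi hx
      have h1 := cE_loc (D := D) (k := k) (m := m) hT h₃.ps w hi hx
      have h2 : cE A b D T T₃ k m w x = 0 := hc0 x hx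
      rw [h2] at h1
      have h3 := congrArg (MvPolynomial.coeff t₀) h1
      rw [MvPolynomial.coeff_sum] at h3
      simp only [MvPolynomial.coeff_monomial, MvPolynomial.coeff_zero] at h3
      rw [Finset.sum_ite_eq' (Ty k m) t₀, if_pos ht₀] at h3
      have hv := net_val (T := T) hi
      have hxg : A.ch i x ∈ Gd (lT A T i) := (net_gd hT hi).1.1 hx
      have h4 : T 0 i x ≠ 0 := by
        rw [← hv.1]
        exact hxg.1
      have h5 : dlt A T i x ≠ 0 := by
        rw [← hv.2]
        exact hxg.2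
      have h6 := (div_eq_zero_iff.1 h3.symm).resolve_right (pow_ne_zero _ h5)
      exact (mul_eq_zero.1 h6).resolve_right (pow_ne_zero _ h4)
    -- and everywhere
    have hall : ∀ i, ∀ x ∈ (A.ch i).source,
        ∑ a ∈ Idx D ((6 * b + 1) * dg t₀), w t₀ a * mo T T₃ a i x = 0 := by
      intro i x hi
      have hlz : ∀ s : A.ι → X → ℂ, IS.PS A b s → ContinuousAt (s i) x := by
        intro s hs
        have h1 := (hs.an i x hi).continuousAt
        have h2 : ContinuousAt (fun y => s i ((A.ch i).symm (A.ch i y))) x :=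
          ContinuousAt.comp (g := fun ξ => s i ((A.ch i).symm ξ)) (f := A.ch i) h1
            ((A.ch i).continuousAt hi)
        refine h2.congr ?_
        have h3 : ∀ᶠ y in 𝓝 x, y ∈ (A.ch i).source := (A.ch i).open_source.mem_nhds hi
        filter_upwards [h3] with y hy
        rw [(A.ch i).left_inv hy]
      have hcont : ContinuousAt (fun y => ∑ a ∈ Idx D ((6 * b + 1) * dg t₀),
          w t₀ a * mo T T₃ a i y) x := by
        apply tendsto_finsetSum
        intro a _
        unfold mo
        exact (continuousAt_const.mul (((((hlz _ h₃.ps).pow _).mul ((hlz _ (hT.ps 0)).pow _)).mul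
          ((hlz _ (hT.ps 1)).pow _)).mul ((hlz _ (hT.ps 2)).pow _)))
      -- the good set is dense at `x`
      have hne : (𝓝[GX A T] x).NeBot := by
        have h1 := (net_dense hT hi).self_of_nhds
        rw [← mem_closure_iff_nhdsWithin_neBot, mem_closure_iff_frequently] at h1 ⊢
        have h7 : Tendsto (A.ch i).symm (𝓝 (A.ch i x)) (𝓝 x) := by
          have h8 := (A.ch i).continuousAt_symm ((A.ch i).map_source hi)
          have h9 := h8.tendsto
          rwa [(A.ch i).left_inv hi] at h9
        refine h7.frequently ?_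
        exact (h1.and_eventually (net_gd hT hi).2).mono fun z hz => hz.2.1 hz.1
      have h2 : Tendsto (fun y => ∑ a ∈ Idx D ((6 * b + 1) * dg t₀), w t₀ a * mo T T₃ a i y)
          (𝓝[GX A T] x) (𝓝 0) := by
        refine tendsto_const_nhds.congr' ?_
        have h3 : ∀ᶠ y in 𝓝 x, y ∈ (A.ch i).source := (A.ch i).open_source.mem_nhds hi
        filter_upwards [self_mem_nhdsWithin, h3.filter_mono nhdsWithin_le_nhds] with y hy hy2
        exact (hsum i y hy2 hy).symm
      exact tendsto_nhds_unique (hcont.tendsto.mono_left nhdsWithin_le_nhds) h2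
    exact hw₀ (mono_indep hT hD h₃ _ (w t₀) hall a₀ ha₀)

end surf

end Pool.Agent.GG
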