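import Pool.Agent.Lib_helper82.GG.D.All

/-! GG, block IFT: local coordinates in `ℂ²` -/

set_option autoImplicit false

open Filter Topology Metric Set

namespace Pool.Agent.GG

open Pool.Agent.BR

theorem ift_an {f g : V2 → ℂ} {z₀ : V2} (hf : AnalyticAt ℂ f z₀) (hg : AnalyticAt ℂ g z₀) :
    AnalyticAt ℂ (fun z => (![f z, g z] : V2)) z₀ := by
  rw [analyticAt_pi_iff]
  intro j
  fin_cases j
  · simpa using hf
  · simpa using hg

theorem ift_det {f g : V2 → ℂ} {z₀ : V2} (hf : AnalyticAt ℂ f z₀) (hg : AnalyticAt ℂ g z₀) :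
    (fderiv ℂ (fun z => (![f z, g z] : V2)) z₀).det =
      pd 0 f z₀ * pd 1 g z₀ - pd 1 f z₀ * pd 0 g z₀ := by
  have hF := (ift_an hf hg).differentiableAt.hasFDerivAt
  have h0 := ((hasFDerivAt_pi'.1 hF) 0).fderiv
  have h1 := ((hasFDerivAt_pi'.1 hF) 1).fderiv
  have e0 : ∀ v, fderiv ℂ f z₀ v = (fderiv ℂ (fun z => (![f z, g z] : V2)) z₀ v) 0 := by
    intro v
    have : (fun z => (![f z, g z] : V2) 0) = f := by
      funext z
      simp
    rw [this] at h0
    rw [h0]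
    rfl
  have e1 : ∀ v, fderiv ℂ g z₀ v = (fderiv ℂ (fun z => (![f z, g z] : V2)) z₀ v) 1 := by
    intro v
    have : (fun z => (![f z, g z] : V2) 1) = g := by
      funext z
      simp
    rw [this] at h1
    rw [h1]
    rfl
  rw [ContinuousLinearMap.det, ← LinearMap.det_toMatrix', Matrix.det_fin_two]
  simp only [LinearMap.toMatrix'_apply, pd, e0, e1]
  rfl

/-- IFT: local coordinates in `ℂ²` -/
theorem loc_coord {f g : V2 → ℂ} {z₀ : V2} (hf : AnalyticAt ℂ f z₀) (hg : AnalyticAt ℂ g z₀)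
    (hJ : pd 0 f z₀ * pd 1 g z₀ - pd 1 f z₀ * pd 0 g z₀ ≠ 0) :
    ∃ Θ : V2 → V2, AnalyticAt ℂ Θ ![f z₀, g z₀] ∧ Θ ![f z₀, g z₀] = z₀ ∧
      (∀ᶠ z in 𝓝 z₀, Θ ![f z, g z] = z) ∧
      ∀ᶠ y in 𝓝 (![f z₀, g z₀] : V2), f (Θ y) = y 0 ∧ g (Θ y) = y 1 := by
  have hF := ift_an hf hg
  have hdet : (fderiv ℂ (fun z => (![f z, g z] : V2)) z₀).det ≠ 0 := by
    rw [ift_det hf hg]
    exact hJ
  set L := (fderiv ℂ (fun z => (![f z, g z] : V2)) z₀).toContinuousLinearEquivOfDetNeZero hdet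
    with hL
  have hd : HasFDerivAt (fun z => (![f z, g z] : V2)) (L : V2 →L[ℂ] V2) z₀ := by
    rw [hL, ContinuousLinearMap.coe_toContinuousLinearEquivOfDetNeZero]
    exact hF.differentiableAt.hasFDerivAt
  have hs : HasStrictFDerivAt (fun z => (![f z, g z] : V2)) (L : V2 →L[ℂ] V2) z₀ := by
    rw [hL, ContinuousLinearMap.coe_toContinuousLinearEquivOfDetNeZero]
    exact hF.hasStrictFDerivAt
  have hc : ContDiffAt ℂ ⊤ (fun z => (![f z, g z] : V2)) z₀ := hF.contDiffAt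
  refine ⟨hs.localInverse _ _ _, ?_, hs.localInverse_apply_image, hs.eventually_left_inverse, ?_⟩
  · exact (hc.to_localInverse hd (by simp)).analyticAt
  · filter_upwards [hs.eventually_right_inverse] with y hy
    constructor
    · have := congrFun hy 0
      simpa using this
    · have := congrFun hy 1
      simpa using this

end Pool.Agent.GG

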