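import Pool.Agent.Lib_helper82.GG.D.All
import Pool.Agent.Lib_helper82.GG.P.B1
import Pool.Agent.Lib_helper82.GG.P.IFT

/-! # Existence of invariant jet differentials (MP_45e720_ag): block P1 -/

set_option autoImplicit false
set_option linter.unusedVariables false
set_option linter.unusedSectionVars false

open Filter Topology Metric Set

namespace Pool.Agent.GG

open Pool.Agent.BR

variable {X : Type} [MetricSpace X] [CompactSpace X] {A : Cha V2 X} {b D : ℕ}
  {T : Fin 3 → A.ι → X → ℂ}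
variable {e : ℕ} {σ S S' : A.ι → X → ℂ}

/-- the section `S' - c S` -/
lemma p1_ps (hP : Pen A e b σ S S') (c : ℂ) : IS.PS A b (fun i x => S' i x - c * S i x) where
  an i x hx := (hP.psT'.an i x hx).sub (analyticAt_const.mul (hP.psT.an i x hx))
  tr i j x hi hj := by rw [hP.psT'.tr i j x hi hj, hP.psT.tr i j x hi hj]; ring

lemma p1_mem (hP : Pen A e b σ S S') {c : ℂ} {i : A.ι} {x : X} (hx : x ∈ (A.ch i).source) :
    x ∈ Pf A σ S S' c ↔ σ i x = 0 ∧ S i x ≠ 0 ∧ S' i x = c * S i x := by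
  unfold Pf
  rw [mem_ofPred_eq, zs_iff hP.ps hx, zs_iff hP.psT hx]
  constructor
  · rintro ⟨h1, h2, h3⟩
    exact ⟨h1, h2, h3 i hx⟩
  · rintro ⟨h1, h2, h3⟩
    refine ⟨h1, h2, fun j hj => ?_⟩
    rw [hP.psT'.tr j i x hj hx, hP.psT.tr j i x hj hx, h3]
    ring

lemma p1_closed (hP : Pen A e b σ S S') (c : ℂ) : IsClosed (Pf A σ S S' c) := by
  have h : Pf A σ S S' c = ZS A σ ∩ ZS A (fun i x => S' i x - c * S i x) := by
    ext x
    constructor
    · rintro ⟨h1, h2, h3⟩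
      exact ⟨h1, fun i hi => by simp only [h3 i hi, sub_self]⟩
    · rintro ⟨h1, h2⟩
      have h3 : ∀ i, x ∈ (A.ch i).source → S' i x = c * S i x :=
        fun i hi => sub_eq_zero.mp (h2 i hi)
      refine ⟨h1, fun h4 => ?_, h3⟩
      rcases hP.nc x h1 with h | h
      · exact h h4
      · exact h fun i hi => by rw [h3 i hi, h4 i hi, mul_zero]
  rw [h]
  exact (zs_closed hP.ps).inter (zs_closed (p1_ps hP c))

lemma p1_pd_sub {f g : V2 → ℂ} {z : V2} (hf : DifferentiableAt ℂ f z)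
    (hg : DifferentiableAt ℂ g z) (c : ℂ) (j : Fin 2) :
    pd j (fun w => f w - c * g w) z = pd j f z - c * pd j g z := by
  unfold pd
  have h1 : HasFDerivAt (fun w => f w - c * g w) (fderiv ℂ f z - c • fderiv ℂ g z) z :=
    hf.hasFDerivAt.sub (hg.hasFDerivAt.const_mul c)
  rw [h1.fderiv]
  simp

/-- an accumulation point of a fibre is critical -/
lemma p1_crit (hP : Pen A e b σ S S') {c : ℂ} {x : X} (hx : x ∈ Pf A σ S S' c)
    (hacc : AccPt x (𝓟 (Pf A σ S S' c))) {i : A.ι} (hi : x ∈ (A.ch i).source) :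
    ds A σ 0 i x * (S i x * ds A S' 1 i x - S' i x * ds A S 1 i x) -
    ds A σ 1 i x * (S i x * ds A S' 0 i x - S' i x * ds A S 0 i x) = 0 := by
  by_contra hne
  obtain ⟨h1, h2, h3⟩ := (p1_mem hP hi).mp hx
  set z₀ : V2 := A.ch i x with hz₀
  set f : V2 → ℂ := lz A i (σ i) with hf
  set g : V2 → ℂ := fun w => lz A i (S' i) w - c * lz A i (S i) w with hg
  have hfan : AnalyticAt ℂ f z₀ := hP.ps.an i x hi
  have hS'an : AnalyticAt ℂ (lz A i (S' i)) z₀ := hP.psT'.an i x hi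
  have hSan : AnalyticAt ℂ (lz A i (S i)) z₀ := hP.psT.an i x hi
  have hgan : AnalyticAt ℂ g z₀ := hS'an.sub (analyticAt_const.mul hSan)
  have hpg : ∀ j, pd j g z₀ = ds A S' j i x - c * ds A S j i x := fun j =>
    p1_pd_sub hS'an.differentiableAt hSan.differentiableAt c j
  have hJ : pd 0 f z₀ * pd 1 g z₀ - pd 1 f z₀ * pd 0 g z₀ ≠ 0 := by
    intro h0
    apply hne
    rw [hpg, hpg] at h0
    have h4 : pd 0 f z₀ = ds A σ 0 i x := rfl
    have h5 : pd 1 f z₀ = ds A σ 1 i x := rfl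
    rw [h4, h5] at h0
    rw [h3]
    linear_combination S i x * h0
  obtain ⟨Θ, -, hΘ0, hΘ, -⟩ := loc_coord hfan hgan hJ
  have hcont : Tendsto (A.ch i) (𝓝 x) (𝓝 z₀) := (A.ch i).continuousAt hi
  have hev : ∀ᶠ y in 𝓝 x, y ∈ (A.ch i).source ∧ Θ ![f (A.ch i y), g (A.ch i y)] = A.ch i y :=
    ((A.ch i).open_source.eventually_mem hi).and (hcont.eventually hΘ)
  rw [accPt_iff_frequently] at hacc
  obtain ⟨y, ⟨hyx, hyP⟩, hys, hyΘ⟩ := (hacc.and_eventually hev).exists
  obtain ⟨k1, k2, k3⟩ := (p1_mem hP hys).mp hyP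
  have hfy : f (A.ch i y) = f z₀ := by
    have e1 : f (A.ch i y) = σ i y := by
      simp only [hf, lz, (A.ch i).left_inv hys]
    have e2 : f z₀ = σ i x := by
      simp only [hf, lz, hz₀, (A.ch i).left_inv hi]
    rw [e1, e2, k1, h1]
  have hgy : g (A.ch i y) = g z₀ := by
    have e1 : g (A.ch i y) = S' i y - c * S i y := by
      simp only [hg, lz, (A.ch i).left_inv hys]
    have e2 : g z₀ = S' i x - c * S i x := by
      simp only [hg, lz, hz₀, (A.ch i).left_inv hi]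
    rw [e1, e2, k3, h3]
    ring
  rw [hfy, hgy, hΘ0] at hyΘ
  exact hyx ((A.ch i).injOn hys hi hyΘ.symm)

/-- the coordinate -/
lemma p1_pd_coord (j k : Fin 2) (z : V2) : pd j (fun w : V2 => w k) z = if j = k then 1 else 0 := by
  unfold pd
  have h1 : HasFDerivAt (fun w : V2 => w k)
      (ContinuousLinearMap.proj (R := ℂ) (φ := fun _ : Fin 2 => ℂ) k) z :=
    (ContinuousLinearMap.proj (R := ℂ) (φ := fun _ : Fin 2 => ℂ) k).hasFDerivAt
  rw [h1.fderiv]
  simp [Pi.single_apply, eq_comm]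

theorem pen_fin (hP : Pen A e b σ S S') (c : ℂ) : (Pf A σ S S' c).Finite := by
  by_contra hinf
  obtain ⟨x, hxP, hacc⟩ := Set.Infinite.exists_accPt_of_subset_isCompact hinf
    (p1_closed hP c).isCompact Subset.rfl
  obtain ⟨i, hiW⟩ := A.cover x
  have hi : x ∈ (A.ch i).source := A.W_sub i (subset_closure hiW)
  obtain ⟨h1, h2, h3⟩ := (p1_mem hP hi).mp hxP
  obtain ⟨j, hj⟩ := hP.sm i x hi h1
  set z₀ : V2 := A.ch i x with hz₀
  set f : V2 → ℂ := lz A i (σ i) with hf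
  set k : Fin 2 := 1 - j with hk
  set g : V2 → ℂ := fun w => w k with hg
  have hfan : AnalyticAt ℂ f z₀ := hP.ps.an i x hi
  have hgan : AnalyticAt ℂ g z₀ :=
    (ContinuousLinearMap.proj (R := ℂ) (φ := fun _ : Fin 2 => ℂ) k).analyticAt z₀
  have hJ : pd 0 f z₀ * pd 1 g z₀ - pd 1 f z₀ * pd 0 g z₀ ≠ 0 := by
    rw [hg, p1_pd_coord, p1_pd_coord]
    have h4 : pd j f z₀ ≠ 0 := hj
    fin_cases j
    · simp [hk] at h4 ⊢
      exact h4
    · simp [hk] at h4 ⊢
      exact h4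
  obtain ⟨Θ, hΘan, hΘ0, hΘ, hΘ'⟩ := loc_coord hfan hgan hJ
  have hf0 : f z₀ = 0 := by
    have e2 : f z₀ = σ i x := by
      simp only [hf, lz, hz₀, (A.ch i).left_inv hi]
    rw [e2, h1]
  rw [hf0] at hΘan hΘ0 hΘ'
  -- the arc
  set a₀ : ℂ := g z₀ with ha₀
  set γ : ℂ → V2 := fun s => Θ ![0, s] with hγ
  have hv : AnalyticAt ℂ (fun s : ℂ => (![0, s] : V2)) a₀ := by
    rw [analyticAt_pi_iff]
    intro l
    fin_cases l
    · exact analyticAt_const
    · exact analyticAt_id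
  have hγan : AnalyticAt ℂ γ a₀ :=
    AnalyticAt.comp (g := Θ) (f := fun s : ℂ => (![0, s] : V2)) (x := a₀) hΘan hv
  have hγ0 : γ a₀ = z₀ := hΘ0
  have hγc : Tendsto γ (𝓝 a₀) (𝓝 z₀) := by
    rw [← hγ0]
    exact hγan.continuousAt
  have hvc : Tendsto (fun s : ℂ => (![0, s] : V2)) (𝓝 a₀) (𝓝 ![0, a₀]) := hv.continuousAt
  -- the function on the arc
  set h : ℂ → ℂ := fun s => lz A i (S' i) (γ s) - c * lz A i (S i) (γ s) with hh
  have hS'an : AnalyticAt ℂ (lz A i (S' i)) (γ a₀) := by rw [hγ0]; exact hP.psT'.an i x hi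
  have hSan : AnalyticAt ℂ (lz A i (S i)) (γ a₀) := by rw [hγ0]; exact hP.psT.an i x hi
  have hhan : AnalyticAt ℂ h a₀ :=
    (hS'an.comp hγan).sub (analyticAt_const.mul (hSan.comp hγan))
  have hcont : Tendsto (A.ch i) (𝓝 x) (𝓝 z₀) := (A.ch i).continuousAt hi
  have hgcont : Tendsto (fun y => g (A.ch i y)) (𝓝 x) (𝓝 a₀) :=
    (hgan.continuousAt.tendsto).comp hcont
  -- the zeros of `h` accumulate at `a₀`
  have hfreq : ∃ᶠ s in 𝓝[≠] a₀, h s = 0 := by
    rw [accPt_iff_frequently] at hacc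
    have hev : ∀ᶠ y in 𝓝 x, y ∈ (A.ch i).source ∧
        Θ ![f (A.ch i y), g (A.ch i y)] = A.ch i y :=
      ((A.ch i).open_source.eventually_mem hi).and (hcont.eventually hΘ)
    intro hcon
    rw [eventually_nhdsWithin_iff] at hcon
    have hcon' := hgcont.eventually hcon
    obtain ⟨y, ⟨hyx, hyP⟩, ⟨hys, hyΘ⟩, hyc⟩ := (hacc.and_eventually (hev.and hcon')).exists
    obtain ⟨k1, k2, k3⟩ := (p1_mem hP hys).mp hyP
    have hfy : f (A.ch i y) = 0 := by
      have e1 : f (A.ch i y) = σ i y := by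
        simp only [hf, lz, (A.ch i).left_inv hys]
      rw [e1, k1]
    rw [hfy] at hyΘ
    have hγy : γ (g (A.ch i y)) = A.ch i y := hyΘ
    have hne : g (A.ch i y) ≠ a₀ := by
      intro h5
      rw [h5, hγ0] at hγy
      exact hyx ((A.ch i).injOn hys hi hγy.symm)
    apply hyc hne
    simp only [hh]
    rw [hγy]
    simp only [lz, (A.ch i).left_inv hys]
    rw [k3]
    ring
  have hzero : ∀ᶠ s in 𝓝 a₀, h s = 0 := hhan.frequently_zero_iff_eventually_zero.mp hfreq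
  -- all points of the arc are in the fibre
  have htgt : ∀ᶠ s in 𝓝 a₀, γ s ∈ (A.ch i).target :=
    hγc.eventually ((A.ch i).open_target.eventually_mem ((A.ch i).map_source hi))
  have hSne : ∀ᶠ s in 𝓝 a₀, lz A i (S i) (γ s) ≠ 0 := by
    have h5 : Tendsto (fun s => lz A i (S i) (γ s)) (𝓝 a₀) (𝓝 (lz A i (S i) (γ a₀))) :=
      (hSan.comp hγan).continuousAt
    refine h5.eventually_ne ?_
    rw [hγ0]
    simp only [lz, hz₀, (A.ch i).left_inv hi]
    exact h2
  have hΘ'' := hvc.eventually hΘ'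
  have hall : ∀ᶠ s in 𝓝 a₀, γ s ∈ (A.ch i).target ∧ f (γ s) = 0 ∧ g (γ s) = s ∧
      (A.ch i).symm (γ s) ∈ Pf A σ S S' c := by
    filter_upwards [hzero, htgt, hSne, hΘ''] with s s1 s2 s3 s4
    have s5 : f (γ s) = 0 := by simpa using s4.1
    have s6 : g (γ s) = s := by simpa using s4.2
    refine ⟨s2, s5, s6, ?_⟩
    rw [p1_mem hP ((A.ch i).map_target s2)]
    refine ⟨s5, s3, ?_⟩
    simp only [hh, lz] at s1
    linear_combination s1
  -- the critical points are infinitely many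
  have hγcont : ∀ᶠ s in 𝓝 a₀, ContinuousAt γ s := by
    filter_upwards [hγan.eventually_analyticAt] with s hs
    exact hs.continuousAt
  have hcrit : ∀ᶠ s in 𝓝 a₀, γ s ∈ (A.ch i).target ∧ g (γ s) = s ∧
      (A.ch i).symm (γ s) ∈ {x | x ∈ ZS A σ ∧ x ∉ ZS A S ∧ ∀ i, x ∈ (A.ch i).source →
        ds A σ 0 i x * (S i x * ds A S' 1 i x - S' i x * ds A S 1 i x) -
        ds A σ 1 i x * (S i x * ds A S' 0 i x - S' i x * ds A S 0 i x) = 0} := by
    filter_upwards [hall, hall.eventually_nhds, hγcont] with s s1 s2 s3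
    obtain ⟨t1, t2, t3, t4⟩ := s1
    refine ⟨t1, t3, t4.1, t4.2.1, fun i' hi' => ?_⟩
    refine p1_crit hP t4 ?_ hi'
    rw [accPt_iff_frequently]
    -- the points of the arc near `s`
    have hφ : Tendsto (fun s' => (A.ch i).symm (γ s')) (𝓝[≠] s) (𝓝 ((A.ch i).symm (γ s))) :=
      (((A.ch i).continuousAt_symm t1).tendsto.comp s3.tendsto).mono_left nhdsWithin_le_nhds
    have hev : ∀ᶠ s' in 𝓝[≠] s, (A.ch i).symm (γ s') ≠ (A.ch i).symm (γ s) ∧
        (A.ch i).symm (γ s') ∈ Pf A σ S S' c := by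
      filter_upwards [s2.filter_mono nhdsWithin_le_nhds, self_mem_nhdsWithin] with s' r1 r2
      refine ⟨fun heq => r2 ?_, r1.2.2.2⟩
      have h5 : γ s' = γ s := (A.ch i).symm.injOn r1.1 t1 heq
      change s' = s
      rw [← r1.2.2.1, ← t3, h5]
    exact hφ.frequently hev.frequently
  -- conclusion
  obtain ⟨ε, hε, hball⟩ := Metric.eventually_nhds_iff_ball.mp hcrit
  have hinj : InjOn (fun s => (A.ch i).symm (γ s)) (ball a₀ ε) := by
    intro s hs s' hs' heq
    obtain ⟨r1, r2, -⟩ := hball s hs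
    obtain ⟨r1', r2', -⟩ := hball s' hs'
    have h5 : γ s = γ s' := (A.ch i).symm.injOn r1 r1' heq
    rw [← r2, ← r2', h5]
  have hinf' : (ball a₀ ε).Infinite := by
    have h6 : (𝓝[≠] a₀).NeBot := inferInstance
    exact infinite_of_mem_nhds a₀ (ball_mem_nhds a₀ hε)
  have h7 := (hinf'.image hinj)
  apply h7
  refine hP.cr.subset ?_
  rintro _ ⟨s, hs, rfl⟩
  exact (hball s hs).2.2


end Pool.Agent.GG
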