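import Pool.Agent.Lib_helper82.GG.D.All
import Pool.Agent.Lib_helper82.GG.P.B1
import Pool.Agent.Lib_helper82.GG.P.IFT
import Pool.Agent.Lib_helper82.GG.P.P1

/-! # GG, block P2: the local sections of a pencil (helper16) -/

set_option autoImplicit false
set_option linter.unusedSectionVars false

open Filter Topology Metric Set

namespace Pool.Agent.GG

open Pool.Agent.BR

section surface

variable {X : Type} [MetricSpace X] [CompactSpace X] {A : Cha V2 X} {b e : ℕ}
  {σ S S' : A.ι → X → ℂ}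

/-- every point is in a chart -/
theorem p2_chart (A : Cha V2 X) (x : X) : ∃ i, x ∈ (A.ch i).source := by
  obtain ⟨i, hi⟩ := A.cover x
  exact ⟨i, A.W_sub i (subset_closure hi)⟩

/-- a section is continuous in every chart -/
theorem p2_cont {w : ℕ} {s : A.ι → X → ℂ} (hs : IS.PS A w s) {i : A.ι} {x : X}
    (hx : x ∈ (A.ch i).source) : ContinuousAt (s i) x := by
  have h1 : ContinuousAt (fun ξ => s i ((A.ch i).symm ξ)) (A.ch i x) := (hs.an i x hx).continuousAt
  have h2 : ContinuousAt (A.ch i) x := (A.ch i).continuousAt hx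
  have h3 := ContinuousAt.comp (x := x) (f := A.ch i) (g := fun ξ => s i ((A.ch i).symm ξ)) h1 h2
  refine h3.congr ?_
  filter_upwards [(A.ch i).open_source.mem_nhds hx] with y hy
  show s i ((A.ch i).symm (A.ch i y)) = s i y
  rw [(A.ch i).left_inv hy]

/-- the points of the fibres, in one chart -/
theorem p2_mem (hP : Pen A e b σ S S') {c : ℂ} {x : X} {i : A.ι} (hx : x ∈ (A.ch i).source) :
    x ∈ Pf A σ S S' c ↔ σ i x = 0 ∧ S i x ≠ 0 ∧ S' i x = c * S i x := by
  unfold Pf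
  simp only [mem_ofPred_eq]
  rw [zs_iff hP.ps hx, zs_iff hP.psT hx]
  constructor
  · rintro ⟨h1, h2, h3⟩
    exact ⟨h1, h2, h3 i hx⟩
  · rintro ⟨h1, h2, h3⟩
    refine ⟨h1, h2, fun j hj => ?_⟩
    rw [hP.psT'.tr j i x hj hx, hP.psT.tr j i x hj hx, h3]
    ring

/-- the graph of the fibres is closed -/
theorem p2_closed (hP : Pen A e b σ S S') : IsClosed {p : ℂ × X | p.2 ∈ Pf A σ S S' p.1} := by
  rw [← isOpen_compl_iff, isOpen_iff_mem_nhds]
  rintro ⟨c, x⟩ hx
  simp only [mem_compl_iff, mem_ofPred_eq] at hx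
  obtain ⟨i, hi⟩ := p2_chart A x
  rw [p2_mem hP hi] at hx
  have hcont : ∀ {w : ℕ} {s : A.ι → X → ℂ}, IS.PS A w s →
      ContinuousAt (fun p : ℂ × X => s i p.2) (c, x) := fun {w s} hs =>
    (p2_cont hs hi).comp_of_eq continuousAt_snd rfl
  have hsrc : ∀ᶠ p : ℂ × X in 𝓝 (c, x), p.2 ∈ (A.ch i).source :=
    continuousAt_snd.eventually ((A.ch i).open_source.mem_nhds hi)
  by_cases h1 : σ i x = 0
  · by_cases h2 : S' i x = c * S i x
    · have h3 : S i x = 0 := by
        by_contra h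
        exact hx ⟨h1, h, h2⟩
      exfalso
      rcases hP.nc x ((zs_iff hP.ps hi).2 h1) with h | h
      · exact h ((zs_iff hP.psT hi).2 h3)
      · exact h ((zs_iff hP.psT' hi).2 (by rw [h2, h3, mul_zero]))
    · have hc : ContinuousAt (fun p : ℂ × X => S' i p.2 - p.1 * S i p.2) (c, x) :=
        (hcont hP.psT').sub (continuousAt_fst.mul (hcont hP.psT))
      filter_upwards [hc.eventually_ne (sub_ne_zero.2 h2), hsrc] with p hp1 hp2
      intro hp
      have := (p2_mem hP hp2).1 hp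
      exact hp1 (sub_eq_zero.2 this.2.2)
  · filter_upwards [(hcont hP.ps).eventually_ne h1, hsrc] with p hp1 hp2
    intro hp
    exact hp1 ((p2_mem hP hp2).1 hp).1

/-- the local section through one point -/
theorem p2_one (hP : Pen A e b σ S S') {c : ℂ} {x : X} (hx : x ∈ Pf A σ S S' c) {i : A.ι}
    (hi : x ∈ (A.ch i).source)
    (hJ : ds A σ 0 i x * (S i x * ds A S' 1 i x - S' i x * ds A S 1 i x) -
      ds A σ 1 i x * (S i x * ds A S' 0 i x - S' i x * ds A S 0 i x) ≠ 0) :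
    ∃ s : ℂ → X, s c = x ∧ (∀ᶠ c' in 𝓝 c, s c' ∈ Pf A σ S S' c' ∧ ContinuousAt s c' ∧
      ∀ i', s c' ∈ (A.ch i').source → AnalyticAt ℂ (fun w => A.ch i' (s w)) c') ∧
      ∀ᶠ y in 𝓝 x, ∀ c', y ∈ Pf A σ S S' c' → y = s c' := by
  obtain ⟨h1, h2, h3⟩ := (p2_mem hP hi).1 hx
  set z₀ : V2 := A.ch i x with hz₀
  have hzt : z₀ ∈ (A.ch i).target := (A.ch i).map_source hi
  have hsym : (A.ch i).symm z₀ = x := (A.ch i).left_inv hi
  have aσ : AnalyticAt ℂ (lz A i (σ i)) z₀ := hP.ps.an i x hi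
  have aS : AnalyticAt ℂ (lz A i (S i)) z₀ := hP.psT.an i x hi
  have aS' : AnalyticAt ℂ (lz A i (S' i)) z₀ := hP.psT'.an i x hi
  have vσ : lz A i (σ i) z₀ = 0 := by unfold lz; rw [hsym, h1]
  have vS : lz A i (S i) z₀ = S i x := by unfold lz; rw [hsym]
  have vS' : lz A i (S' i) z₀ = S' i x := by unfold lz; rw [hsym]
  set f : V2 → ℂ := lz A i (σ i) with hf
  set g : V2 → ℂ := fun z => lz A i (S' i) z / lz A i (S i) z with hg
  have hS0 : lz A i (S i) z₀ ≠ 0 := by rw [vS]; exact h2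
  have ag : AnalyticAt ℂ g z₀ := aS'.div aS hS0
  have vg : g z₀ = c := by
    show lz A i (S' i) z₀ / lz A i (S i) z₀ = c
    rw [vS, vS', h3]
    field_simp
  have hpg : ∀ j, pd j g z₀ = (S i x * ds A S' j i x - S' i x * ds A S j i x) / S i x ^ 2 := by
    intro j
    have d1 := ag.differentiableAt.hasFDerivAt
    have d2 := aS.differentiableAt.hasFDerivAt
    have d3 : HasFDerivAt (fun z => g z * lz A i (S i) z)
        (g z₀ • fderiv ℂ (lz A i (S i)) z₀ + lz A i (S i) z₀ • fderiv ℂ g z₀) z₀ := d1.mul d2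
    have hee : lz A i (S' i) =ᶠ[𝓝 z₀] fun z => g z * lz A i (S i) z := by
      filter_upwards [aS.continuousAt.eventually_ne hS0] with z hz
      show lz A i (S' i) z = lz A i (S' i) z / lz A i (S i) z * lz A i (S i) z
      field_simp
    have h4 : pd j (lz A i (S' i)) z₀ = c * pd j (lz A i (S i)) z₀ + S i x * pd j g z₀ := by
      unfold pd
      rw [hee.fderiv_eq, d3.fderiv]
      simp only [smul_apply, add_apply, smul_eq_mul, vS, vg]
    have e1 : ds A S' j i x = pd j (lz A i (S' i)) z₀ := rfl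
    have e2 : ds A S j i x = pd j (lz A i (S i)) z₀ := rfl
    rw [e1, e2, h4, h3]
    field_simp
    ring
  have hJ' : pd 0 f z₀ * pd 1 g z₀ - pd 1 f z₀ * pd 0 g z₀ ≠ 0 := by
    rw [hpg, hpg]
    have e1 : pd 0 f z₀ = ds A σ 0 i x := rfl
    have e2 : pd 1 f z₀ = ds A σ 1 i x := rfl
    rw [e1, e2]
    have : ds A σ 0 i x * ((S i x * ds A S' 1 i x - S' i x * ds A S 1 i x) / S i x ^ 2) -
        ds A σ 1 i x * ((S i x * ds A S' 0 i x - S' i x * ds A S 0 i x) / S i x ^ 2) =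
        (ds A σ 0 i x * (S i x * ds A S' 1 i x - S' i x * ds A S 1 i x) -
      ds A σ 1 i x * (S i x * ds A S' 0 i x - S' i x * ds A S 0 i x)) / S i x ^ 2 := by ring
    rw [this]
    exact div_ne_zero hJ (pow_ne_zero 2 h2)
  obtain ⟨Θ, t1, t2, t3, t4⟩ := loc_coord aσ ag hJ'
  rw [vσ, vg] at t1 t2 t4
  -- the curve in the chart
  set γ : ℂ → V2 := fun w => ![0, w] with hγ
  have aγ : ∀ w, AnalyticAt ℂ γ w := by
    intro w
    rw [analyticAt_pi_iff]
    intro j
    fin_cases j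
    · exact analyticAt_const
    · exact analyticAt_id
  have cγ : ContinuousAt γ c := (aγ c).continuousAt
  have hγc : γ c = ![0, c] := rfl
  have cΘ : ContinuousAt Θ (γ c) := t1.continuousAt
  have cΘγ : ContinuousAt (fun w => Θ (γ w)) c := cΘ.comp cγ
  have hΘc : Θ (γ c) = z₀ := t2
  set s : ℂ → X := fun w => (A.ch i).symm (Θ (γ w)) with hs
  have hsc : s c = x := by show (A.ch i).symm (Θ (γ c)) = x; rw [hΘc, hsym]
  refine ⟨s, hsc, ?_, ?_⟩
  · have ev1 : ∀ᶠ c' in 𝓝 c, Θ (γ c') ∈ (A.ch i).target := by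
      apply cΘγ.eventually
      show (A.ch i).target ∈ 𝓝 (Θ (γ c))
      rw [hΘc]
      exact (A.ch i).open_target.mem_nhds hzt
    have ev2 : ∀ᶠ c' in 𝓝 c, f (Θ (γ c')) = γ c' 0 ∧ g (Θ (γ c')) = γ c' 1 := cγ.eventually t4
    have ev3 : ∀ᶠ c' in 𝓝 c, AnalyticAt ℂ Θ (γ c') := cγ.eventually t1.eventually_analyticAt
    have ev4 : ∀ᶠ c' in 𝓝 c, lz A i (S i) (Θ (γ c')) ≠ 0 := by
      have : ContinuousAt (fun w => lz A i (S i) (Θ (γ w))) c := by
        exact ContinuousAt.comp_of_eq (g := lz A i (S i)) (f := fun w => Θ (γ w)) aS.continuousAt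
          cΘγ hΘc
      apply this.eventually_ne
      rw [hΘc]; exact hS0
    filter_upwards [ev1, ev2, ev3, ev4] with c' w1 w2 w3 w4
    have hsrc : s c' ∈ (A.ch i).source := (A.ch i).map_target w1
    have hch : A.ch i (s c') = Θ (γ c') := (A.ch i).right_inv w1
    refine ⟨?_, ?_, ?_⟩
    · rw [p2_mem hP hsrc]
      refine ⟨w2.1, w4, ?_⟩
      have h5 : lz A i (S' i) (Θ (γ c')) / lz A i (S i) (Θ (γ c')) = c' := w2.2
      rw [div_eq_iff w4] at h5
      exact h5
    · refine ContinuousAt.comp (x := c') (f := fun w => Θ (γ w)) (g := (A.ch i).symm) ?_ ?_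
      · exact (A.ch i).continuousAt_symm w1
      · exact ContinuousAt.comp (x := c') (f := γ) (g := Θ) w3.continuousAt (aγ c').continuousAt
    · intro i' hi'
      have h6 := A.trans i i' (s c') hsrc hi'
      rw [hch] at h6
      have h7 : AnalyticAt ℂ (fun w => Θ (γ w)) c' := w3.comp (aγ c')
      exact AnalyticAt.comp (g := fun ξ => A.ch i' ((A.ch i).symm ξ)) (f := fun w => Θ (γ w)) h6 h7
  · have cch : ContinuousAt (A.ch i) x := (A.ch i).continuousAt hi
    have ev1 : ∀ᶠ y in 𝓝 x, Θ ![f (A.ch i y), g (A.ch i y)] = A.ch i y := cch.eventually t3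
    filter_upwards [ev1, (A.ch i).open_source.mem_nhds hi] with y w1 w2 c' hc'
    obtain ⟨k1, k2, k3⟩ := (p2_mem hP w2).1 hc'
    have hsy : (A.ch i).symm (A.ch i y) = y := (A.ch i).left_inv w2
    have e1 : f (A.ch i y) = 0 := by
      show σ i ((A.ch i).symm (A.ch i y)) = 0
      rw [hsy, k1]
    have e2 : g (A.ch i y) = c' := by
      show S' i ((A.ch i).symm (A.ch i y)) / S i ((A.ch i).symm (A.ch i y)) = c'
      rw [hsy, k3]
      field_simp
    rw [e1, e2] at w1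
    show y = (A.ch i).symm (Θ ![0, c'])
    rw [w1, hsy]

/-- P2: the local sections of the pencil -/
theorem pen_cov (hP : Pen A e b σ S S') : ∃ B : Finset ℂ, ∀ c ∉ B, ∃ (n : ℕ) (s : Fin n → ℂ → X),
    ∀ᶠ c' in 𝓝 c, (Function.Injective fun l => s l c') ∧ Pf A σ S S' c' = range (fun l => s l c') ∧
      ∀ l, ContinuousAt (s l) c' ∧ ∀ i, s l c' ∈ (A.ch i).source →
        AnalyticAt ℂ (fun w => A.ch i (s l w)) c' := by
  classical
  refine ⟨hP.cr.toFinset.image (qt A S' S), fun c hc => ?_⟩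
  -- the points of the fibre are not critical
  have hcr : ∀ x ∈ Pf A σ S S' c, ∃ i, x ∈ (A.ch i).source ∧
      ds A σ 0 i x * (S i x * ds A S' 1 i x - S' i x * ds A S 1 i x) -
      ds A σ 1 i x * (S i x * ds A S' 0 i x - S' i x * ds A S 0 i x) ≠ 0 := by
    intro x hx
    by_contra hcon
    push Not at hcon
    apply hc
    rw [Finset.mem_image]
    refine ⟨x, ?_, ?_⟩
    · rw [Set.Finite.mem_toFinset]
      exact ⟨hx.1, hx.2.1, hcon⟩
    · have h1 : x ∈ (A.ch (ci A x)).source :=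
        A.W_sub _ (subset_closure (A.cover x).choose_spec)
      obtain ⟨-, h2, h3⟩ := (p2_mem hP h1).1 hx
      unfold qt
      rw [h3]
      field_simp
  have hsec : ∀ x : Pf A σ S S' c, ∃ s : ℂ → X, s c = x ∧ (∀ᶠ c' in 𝓝 c, s c' ∈ Pf A σ S S' c' ∧
      ContinuousAt s c' ∧
      ∀ i', s c' ∈ (A.ch i').source → AnalyticAt ℂ (fun w => A.ch i' (s w)) c') ∧
      ∀ᶠ y in 𝓝 (x : X), ∀ c', y ∈ Pf A σ S S' c' → y = s c' := by
    rintro ⟨x, hx⟩
    obtain ⟨i, hi, hJ⟩ := hcr x hx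
    exact p2_one hP hx hi hJ
  choose s0 hs1 hs2 hs3 using hsec
  have hfin : (Pf A σ S S' c).Finite := pen_fin hP c
  have : Finite (Pf A σ S S' c) := hfin
  obtain ⟨n, ⟨eq⟩⟩ := Finite.exists_equiv_fin (Pf A σ S S' c)
  refine ⟨n, fun l => s0 (eq.symm l), ?_⟩
  -- injectivity
  have hinj : ∀ᶠ c' in 𝓝 c, Function.Injective fun l => s0 (eq.symm l) c' := by
    have h1 : ∀ᶠ c' in 𝓝 c, ∀ l l' : Fin n, l ≠ l' → s0 (eq.symm l) c' ≠ s0 (eq.symm l') c' := by
      rw [eventually_all]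
      intro l
      rw [eventually_all]
      intro l'
      by_cases hll : l = l'
      · exact Eventually.of_forall fun c' h => absurd hll h
      · have hne : s0 (eq.symm l) c ≠ s0 (eq.symm l') c := by
          rw [hs1, hs1]
          intro h
          exact hll (eq.symm.injective (Subtype.ext h))
        have c1 : ContinuousAt (s0 (eq.symm l)) c := (hs2 (eq.symm l)).self_of_nhds.2.1
        have c2 : ContinuousAt (s0 (eq.symm l')) c := (hs2 (eq.symm l')).self_of_nhds.2.1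
        filter_upwards [c1.ne_iff_eventually_ne c2 |>.1 hne] with c' hc' _
        exact hc'
    filter_upwards [h1] with c' h l l' hll
    by_contra hne
    exact h l l' hne hll
  -- all points of the fibre are near the points of the central fibre
  have hcov : ∀ᶠ c' in 𝓝 c, ∀ y ∈ Pf A σ S S' c', ∃ l : Fin n, y = s0 (eq.symm l) c' := by
    set O : Set X := {y | ∃ x : Pf A σ S S' c, ∀ᶠ z in 𝓝 y, ∀ c', z ∈ Pf A σ S S' c' → z = s0 x c'}
      with hO
    have hOo : IsOpen O := by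
      rw [isOpen_iff_mem_nhds]
      rintro y ⟨x, hx⟩
      filter_upwards [hx.eventually_nhds] with z hz
      exact ⟨x, hz⟩
    have hcl : IsClosed ({p : ℂ × X | p.2 ∈ Pf A σ S S' p.1} ∩ (univ ×ˢ Oᶜ)) :=
      (p2_closed hP).inter (isClosed_univ.prod hOo.isClosed_compl)
    have himg := isClosedMap_fst_of_compactSpace (X := ℂ) (Y := X) _ hcl
    have hnot : c ∉ Prod.fst '' ({p : ℂ × X | p.2 ∈ Pf A σ S S' p.1} ∩ (univ ×ˢ Oᶜ)) := by
      rintro ⟨⟨c', y⟩, ⟨h1, h2⟩, h3⟩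
      simp only at h3
      subst h3
      exact h2.2 ⟨⟨y, h1⟩, hs3 ⟨y, h1⟩⟩
    filter_upwards [himg.isOpen_compl.mem_nhds hnot] with c' hc' y hy
    have hyO : y ∈ O := by
      by_contra h
      exact hc' ⟨(c', y), ⟨hy, mem_univ _, h⟩, rfl⟩
    obtain ⟨x, hx⟩ := hyO
    refine ⟨eq x, ?_⟩
    rw [eq.symm_apply_apply]
    exact hx.self_of_nhds c' hy
  have hall : ∀ᶠ c' in 𝓝 c, ∀ l : Fin n, s0 (eq.symm l) c' ∈ Pf A σ S S' c' ∧
      ContinuousAt (s0 (eq.symm l)) c' ∧ ∀ i', s0 (eq.symm l) c' ∈ (A.ch i').source →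
        AnalyticAt ℂ (fun w => A.ch i' (s0 (eq.symm l) w)) c' :=
    eventually_all.2 fun l => hs2 (eq.symm l)
  filter_upwards [hinj, hcov, hall] with c' w1 w2 w3
  refine ⟨w1, ?_, fun l => (w3 l).2⟩
  ext y
  constructor
  · intro hy
    obtain ⟨l, hl⟩ := w2 y hy
    exact ⟨l, hl.symm⟩
  · rintro ⟨l, rfl⟩
    exact (w3 l).1

end surface


end Pool.Agent.GG
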