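import Pool.Agent.Lib_helper82.GG.D.All
import Pool.Agent.Lib_helper82.GG.P.B1

/-! # Block P3 (project GG): growth of sections over the curve -/

set_option autoImplicit false
set_option linter.unusedVariables false
set_option linter.unusedSectionVars false

open Filter Topology Metric Set

namespace Pool.Agent.GG

open Pool.Agent.BR

section surface

variable {X : Type} [MetricSpace X] [CompactSpace X] {A : Cha V2 X} {b D : ℕ}
  {T : Fin 3 → A.ι → X → ℂ}
variable {e : ℕ} {σ S S' : A.ι → X → ℂ}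

theorem p3_cont {w : ℕ} {s : A.ι → X → ℂ} (hs : IS.PS A w s) {i : A.ι} {x : X}
    (hx : x ∈ (A.ch i).source) : ContinuousAt (s i) x := by
  have h1 : ContinuousAt (fun ξ => s i ((A.ch i).symm ξ)) (A.ch i x) := (hs.an i x hx).continuousAt
  have h2 : ContinuousAt (fun y => s i ((A.ch i).symm (A.ch i y))) x :=
    ContinuousAt.comp (f := A.ch i) (g := fun ξ => s i ((A.ch i).symm ξ)) h1
      ((A.ch i).continuousAt hx)
  refine h2.congr ?_
  filter_upwards [(A.ch i).open_source.mem_nhds hx] with y hy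
  rw [(A.ch i).left_inv hy]

/-- powers with integral exponents of numbers in an interval -/
theorem p3_pow {c C M : ℝ} (hc : 0 < c) (h1 : c ≤ M) (h2 : M ≤ C) (N : ℤ) :
    (M ^ N)⁻¹ ≤ (c ^ N)⁻¹ + (C ^ N)⁻¹ := by
  have hM : 0 < M := hc.trans_le h1
  have hC : 0 < C := hM.trans_le h2
  rcases le_or_gt 0 N with hN | hN
  · have h3 : c ^ N ≤ M ^ N := zpow_le_zpow_left₀ hN hc.le h1
    have h4 : (M ^ N)⁻¹ ≤ (c ^ N)⁻¹ := inv_anti₀ (zpow_pos hc N) h3
    have h5 : 0 < (C ^ N)⁻¹ := inv_pos.2 (zpow_pos hC N)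
    linarith
  · have h3 : M ^ (-N) ≤ C ^ (-N) := zpow_le_zpow_left₀ (by omega) hM.le h2
    rw [zpow_neg, zpow_neg] at h3
    have h5 : 0 < (c ^ N)⁻¹ := inv_pos.2 (zpow_pos hc N)
    linarith

/-- P3: the growth of the sections over the curve; `N` may be negative -/
theorem pen_growth (hP : Pen A e b σ S S') {N : ℤ} {F : A.ι → X → ℂ}
    (hF : CSec A (ZS A σ) N F) :
    ∃ C : ℝ, ∀ x ∈ ZS A σ, x ∉ ZS A S → ∀ i, x ∈ (A.ch i).source →
      ‖F i x ^ b / S i x ^ N‖ ≤ C * (1 + ‖qt A S' S x‖) ^ N := by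
  have key : ∃ C : ℝ, ∀ x ∈ (Set.univ : Set X), x ∈ ZS A σ → x ∉ ZS A S → ∀ i,
      x ∈ (A.ch i).source → ‖F i x ^ b / S i x ^ N‖ ≤ C * (1 + ‖qt A S' S x‖) ^ N := by
    refine isCompact_univ.induction_on (p := fun U => ∃ C : ℝ, ∀ x ∈ U, x ∈ ZS A σ →
      x ∉ ZS A S → ∀ i, x ∈ (A.ch i).source →
      ‖F i x ^ b / S i x ^ N‖ ≤ C * (1 + ‖qt A S' S x‖) ^ N) ?_ ?_ ?_ ?_
    · exact ⟨0, fun x hx => absurd hx (Set.notMem_empty x)⟩
    · rintro U U' hU ⟨C, hC⟩
      exact ⟨C, fun x hx => hC x (hU hx)⟩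
    · rintro U U' ⟨C, hC⟩ ⟨C', hC'⟩
      refine ⟨max C C', fun x hx h1 h2 i hi => ?_⟩
      have hpos : 0 ≤ (1 + ‖qt A S' S x‖) ^ N := zpow_nonneg (by positivity) N
      rcases hx with hx | hx
      · exact (hC x hx h1 h2 i hi).trans (mul_le_mul_of_nonneg_right (le_max_left _ _) hpos)
      · exact (hC' x hx h1 h2 i hi).trans (mul_le_mul_of_nonneg_right (le_max_right _ _) hpos)
    · intro x₀ _
      by_cases h0 : x₀ ∈ ZS A σ
      · obtain ⟨i₀, hi₀⟩ := A.cover x₀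
        have hs₀ : x₀ ∈ (A.ch i₀).source := A.W_sub i₀ (subset_closure hi₀)
        obtain ⟨g, hg, hgF⟩ := hF.an i₀ x₀ hs₀ h0
        -- bound for the section
        have hgc : ContinuousAt (fun y => g (A.ch i₀ y)) x₀ :=
          ContinuousAt.comp (f := A.ch i₀) (g := g) hg.continuousAt ((A.ch i₀).continuousAt hs₀)
        have hgb : ∀ᶠ y in 𝓝 x₀, ‖g (A.ch i₀ y)‖ < ‖g (A.ch i₀ x₀)‖ + 1 :=
          hgc.norm.eventually_lt continuousAt_const (by simp)
        -- bounds for `S`, `S'`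
        have hSc : ContinuousAt (fun y => ‖S i₀ y‖ + ‖S' i₀ y‖) x₀ :=
          (p3_cont hP.psT hs₀).norm.add (p3_cont hP.psT' hs₀).norm
        set m := ‖S i₀ x₀‖ + ‖S' i₀ x₀‖ with hm
        have hmpos : 0 < m := by
          rcases hP.nc x₀ h0 with h | h
          · have : S i₀ x₀ ≠ 0 := fun h' => h ((zs_iff hP.psT hs₀).2 h')
            have := norm_pos_iff.2 this
            have := norm_nonneg (S' i₀ x₀)
            linarith
          · have : S' i₀ x₀ ≠ 0 := fun h' => h ((zs_iff hP.psT' hs₀).2 h')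
            have := norm_pos_iff.2 this
            have := norm_nonneg (S i₀ x₀)
            linarith
        have hS1 : ∀ᶠ y in 𝓝 x₀, m / 2 < ‖S i₀ y‖ + ‖S' i₀ y‖ :=
          continuousAt_const.eventually_lt hSc (by rw [← hm]; linarith)
        have hS2 : ∀ᶠ y in 𝓝 x₀, ‖S i₀ y‖ + ‖S' i₀ y‖ < m + 1 :=
          hSc.eventually_lt continuousAt_const (by rw [← hm]; linarith)
        have hsrc : ∀ᶠ y in 𝓝 x₀, y ∈ (A.ch i₀).source := (A.ch i₀).open_source.mem_nhds hs₀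
        set C1 := ‖g (A.ch i₀ x₀)‖ + 1 with hC1
        set K := ((m / 2) ^ N)⁻¹ + ((m + 1) ^ N)⁻¹ with hK
        refine ⟨{y | (y ∈ ZS A σ → F i₀ y = g (A.ch i₀ y)) ∧ ‖g (A.ch i₀ y)‖ < C1 ∧
          m / 2 < ‖S i₀ y‖ + ‖S' i₀ y‖ ∧ ‖S i₀ y‖ + ‖S' i₀ y‖ < m + 1 ∧
          y ∈ (A.ch i₀).source}, ?_, C1 ^ b * K, ?_⟩
        · rw [nhdsWithin_univ]
          filter_upwards [hgF, hgb, hS1, hS2, hsrc] with y a1 a2 a3 a4 a5
          exact ⟨a1, a2, a3, a4, a5⟩
        · rintro y ⟨a1, a2, a3, a4, a5⟩ hyσ hyS i hi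
          have hSi : S i y ≠ 0 := fun h' => hyS ((zs_iff hP.psT hi).2 h')
          have hSi₀ : S i₀ y ≠ 0 := fun h' => hyS ((zs_iff hP.psT a5).2 h')
          have hJS := hP.psT.tr i i₀ y hi a5
          have hJF := hF.tr i i₀ y hi a5 hyσ
          set J := IS.jac A i i₀ y with hJ
          have hJ0 : J ≠ 0 := by
            intro h'
            rw [h', zero_pow (Nat.pos_iff_ne_zero.1 hP.b_pos), zero_mul] at hJS
            exact hSi hJS
          have hinv : F i y ^ b / S i y ^ N = F i₀ y ^ b / S i₀ y ^ N := by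
            rw [hJF, hJS, mul_pow, mul_zpow]
            have e1 : (J ^ N) ^ b = (J ^ b) ^ N := by
              rw [← zpow_natCast, ← zpow_natCast, ← zpow_mul, ← zpow_mul, mul_comm]
            rw [e1]
            exact mul_div_mul_left _ _ (zpow_ne_zero _ (pow_ne_zero _ hJ0))
          rw [hinv, norm_div, norm_pow, norm_zpow, a1 hyσ, qt_eq hP.psT' hP.psT a5, norm_div]
          have hn : 0 < ‖S i₀ y‖ := norm_pos_iff.2 hSi₀
          have e2 : 1 + ‖S' i₀ y‖ / ‖S i₀ y‖ = (‖S i₀ y‖ + ‖S' i₀ y‖) / ‖S i₀ y‖ := by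
            field_simp
          rw [e2, div_zpow]
          have hM := p3_pow (c := m / 2) (C := m + 1) (by linarith) a3.le a4.le N
          have hMpos : 0 < (‖S i₀ y‖ + ‖S' i₀ y‖) ^ N := zpow_pos (by linarith) N
          have hg0 : ‖g (A.ch i₀ y)‖ ^ b ≤ C1 ^ b := pow_le_pow_left₀ (norm_nonneg _) a2.le b
          have hC1pos : 0 ≤ C1 ^ b := by positivity
          have h3 : 1 ≤ K * (‖S i₀ y‖ + ‖S' i₀ y‖) ^ N := by
            have := mul_le_mul_of_nonneg_right hM hMpos.le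
            rwa [inv_mul_cancel₀ hMpos.ne'] at this
          calc ‖g (A.ch i₀ y)‖ ^ b / ‖S i₀ y‖ ^ N ≤ C1 ^ b / ‖S i₀ y‖ ^ N :=
                div_le_div_of_nonneg_right hg0 (zpow_nonneg hn.le N)
            _ = C1 ^ b * 1 / ‖S i₀ y‖ ^ N := by rw [mul_one]
            _ ≤ C1 ^ b * (K * (‖S i₀ y‖ + ‖S' i₀ y‖) ^ N) / ‖S i₀ y‖ ^ N :=
                div_le_div_of_nonneg_right (mul_le_mul_of_nonneg_left h3 hC1pos)
                  (zpow_nonneg hn.le N)
            _ = C1 ^ b * K * ((‖S i₀ y‖ + ‖S' i₀ y‖) ^ N / ‖S i₀ y‖ ^ N) := by ring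
      · refine ⟨(ZS A σ)ᶜ, ?_, 0, fun x hx h1 => absurd h1 hx⟩
        rw [nhdsWithin_univ]
        exact (zs_closed hP.ps).isOpen_compl.mem_nhds h0
  obtain ⟨C, hC⟩ := key
  exact ⟨C, fun x hx => hC x (Set.mem_univ x) hx⟩

end surface


end Pool.Agent.GG
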