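import Pool.Agent.Lib_helper82.GG.D.All

/-! # GG, block PS: if all power sums vanish then all numbers vanish -/

set_option autoImplicit false

open Filter Topology Metric Set

namespace Pool.Agent.GG

theorem power_sums {κ : Type} (S : Finset κ) (g : κ → ℂ)
    (h : ∀ j : ℕ, 1 ≤ j → ∑ x ∈ S, g x ^ j = 0) : ∀ x ∈ S, g x = 0 := by
  classical
  intro x₀ hx₀
  by_contra ha
  set T : Finset ℂ := (insert 0 (S.image g)).erase (g x₀) with hT
  set P : Polynomial ℂ := ∏ c ∈ T, (Polynomial.X - Polynomial.C c) with hP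
  have hev : ∀ z : ℂ, P.eval z = ∏ c ∈ T, (z - c) := by
    intro z
    rw [hP, Polynomial.eval_prod]
    simp
  have hPa : P.eval (g x₀) ≠ 0 := by
    rw [hev, Finset.prod_ne_zero_iff]
    intro c hc
    rw [hT, Finset.mem_erase] at hc
    exact sub_ne_zero.mpr (Ne.symm hc.1)
  have hP0 : P.coeff 0 = 0 := by
    rw [Polynomial.coeff_zero_eq_eval_zero, hev]
    refine Finset.prod_eq_zero (i := 0) ?_ (by simp)
    rw [hT, Finset.mem_erase]
    exact ⟨fun h0 => ha h0.symm, Finset.mem_insert_self _ _⟩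
  have hPx : ∀ x ∈ S, g x ≠ g x₀ → P.eval (g x) = 0 := by
    intro x hx hne
    rw [hev]
    refine Finset.prod_eq_zero (i := g x) ?_ (by simp)
    rw [hT, Finset.mem_erase]
    exact ⟨hne, Finset.mem_insert_of_mem (Finset.mem_image_of_mem g hx)⟩
  have hsum : ∑ x ∈ S, P.eval (g x) = 0 := by
    have h1 : ∀ x ∈ S, P.eval (g x) = ∑ j ∈ Finset.range (P.natDegree + 1), P.coeff j * g x ^ j := by
      intro x hx
      rw [Polynomial.eval_eq_sum_range]
    rw [Finset.sum_congr rfl h1, Finset.sum_comm]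
    refine Finset.sum_eq_zero fun j hj => ?_
    rw [← Finset.mul_sum]
    rcases Nat.eq_zero_or_pos j with hj0 | hj0
    · rw [hj0, hP0, zero_mul]
    · rw [h j hj0, mul_zero]
  have hsum2 : ∑ x ∈ S, P.eval (g x)
      = ((S.filter fun x => g x = g x₀).card : ℂ) * P.eval (g x₀) := by
    rw [← Finset.sum_filter_add_sum_filter_not S (fun x => g x = g x₀)]
    have h2 : ∑ x ∈ S.filter (fun x => ¬ g x = g x₀), P.eval (g x) = 0 := by
      refine Finset.sum_eq_zero fun x hx => ?_
      rw [Finset.mem_filter] at hx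
      exact hPx x hx.1 hx.2
    have h3 : ∑ x ∈ S.filter (fun x => g x = g x₀), P.eval (g x)
        = ∑ x ∈ S.filter (fun x => g x = g x₀), P.eval (g x₀) := by
      refine Finset.sum_congr rfl fun x hx => ?_
      rw [Finset.mem_filter] at hx
      rw [hx.2]
    rw [h2, h3, add_zero, Finset.sum_const, nsmul_eq_mul]
  rw [hsum2] at hsum
  rcases mul_eq_zero.mp hsum with h4 | h4
  · have h5 : (S.filter fun x => g x = g x₀).card = 0 := by exact_mod_cast h4
    rw [Finset.card_eq_zero] at h5
    have h6 : x₀ ∈ S.filter fun x => g x = g x₀ := by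
      rw [Finset.mem_filter]
      exact ⟨hx₀, rfl⟩
    rw [h5] at h6
    exact absurd h6 (Finset.notMem_empty _)
  · exact hPa h4


end Pool.Agent.GG
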