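import Pool.Agent.Lib_helper82.GG.D.All

/-! Block ZC: a function with finitely many singularities, polynomial growth and many zeros. -/

set_option autoImplicit false
set_option linter.unusedVariables false
set_option linter.unusedSectionVars false

open Filter Topology Metric Set

namespace Pool.Agent.GG

open Pool.Agent.BR

theorem zc_ev (B : Finset ℂ) (c : ℂ) : ∀ᶠ z in 𝓝[≠] c, z ∉ B := by
  have h1 : ((B.erase c : Finset ℂ) : Set ℂ)ᶜ ∈ 𝓝 c :=
    (B.erase c).finite_toSet.isClosed.isOpen_compl.mem_nhds (by simp)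
  filter_upwards [nhdsWithin_le_nhds h1, self_mem_nhdsWithin] with z h2 h3 h4
  exact h2 (by rw [Finset.mem_coe, Finset.mem_erase]; exact ⟨h3, h4⟩)

theorem zc_rem (f : ℂ → ℂ) (B : Finset ℂ) (hf : ∀ c ∉ B, AnalyticAt ℂ f c)
    (hb : ∀ c ∈ B, ∃ M : ℝ, ∀ᶠ z in 𝓝[≠] c, ‖f z‖ ≤ M) :
    ∃ Q : ℂ → ℂ, Differentiable ℂ Q ∧ ∀ c ∉ B, Q c = f c := by
  have h1 : ∀ c ∉ B, limUnder (𝓝[≠] c) f = f c := fun c hc =>
    ((hf c hc).continuousAt.tendsto.mono_left nhdsWithin_le_nhds).limUnder_eq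
  have hoff : ∀ c ∉ B, AnalyticAt ℂ (fun z => limUnder (𝓝[≠] z) f) c := by
    intro c hc
    refine (hf c hc).congr ?_
    have h2 : ((B : Finset ℂ) : Set ℂ)ᶜ ∈ 𝓝 c :=
      B.finite_toSet.isClosed.isOpen_compl.mem_nhds (by simpa using hc)
    filter_upwards [h2] with z hz
    exact (h1 z (by simpa using hz)).symm
  refine ⟨fun z => limUnder (𝓝[≠] z) f, ?_, h1⟩
  intro c
  by_cases hc : c ∈ B
  · have h2 : ∀ᶠ z in 𝓝[≠] c, DifferentiableAt ℂ f z := by
      filter_upwards [zc_ev B c] with z hz using (hf z hz).differentiableAt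
    have h3 : Tendsto f (𝓝[≠] c) (𝓝 (limUnder (𝓝[≠] c) f)) := by
      refine Complex.tendsto_limUnder_of_differentiable_on_punctured_nhds_of_bounded_under h2 ?_
      obtain ⟨M, hM⟩ := hb c hc
      refine ⟨M + ‖f c‖, ?_⟩
      rw [eventually_map]
      filter_upwards [hM] with z hz
      exact (norm_sub_le _ _).trans (by gcongr)
    refine (Complex.analyticAt_of_differentiable_on_punctured_nhds_of_continuousAt ?_
      ?_).differentiableAt
    · filter_upwards [zc_ev B c] with z hz using (hoff z hz).differentiableAt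
    · rw [continuousAt_iff_punctured_nhds]
      refine h3.congr' ?_
      filter_upwards [zc_ev B c] with z hz using (h1 z hz).symm
  · exact (hoff c hc).differentiableAt

section pure

/-- ZC: a function with finitely many singularities, with polynomial growth and with too many
zeros -/
theorem zeros_count (B : Finset ℂ) (p : ℂ → ℂ) (hp : ∀ c ∉ B, AnalyticAt ℂ p c) (d : ℤ) (C : ℝ)
    (hg : ∀ c ∉ B, ‖p c‖ ≤ C * (1 + ‖c‖) ^ d) (S : Finset ℂ) (h : ℂ → ℕ)
    (hS : ∀ c ∈ S, ∃ C' : ℝ, ∀ᶠ z in 𝓝[≠] c, ‖p z‖ ≤ C' * ‖z - c‖ ^ h c)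
    (hd : d < ∑ c ∈ S, (h c : ℤ)) : ∀ c ∉ B, p c = 0 := by
  classical
  set P : ℂ → ℂ := fun z => ∏ c ∈ S, (z - c) ^ h c with hP
  have hPd : Differentiable ℂ P := by
    rw [hP]
    fun_prop
  have hP0 : ∀ z ∉ S, P z ≠ 0 := by
    intro z hz
    rw [hP]
    refine Finset.prod_ne_zero_iff.2 fun c hc => pow_ne_zero _ (sub_ne_zero.2 ?_)
    rintro rfl
    exact hz hc
  have hPf : ∀ c ∈ S, ∃ R : ℂ → ℂ, Continuous R ∧ R c ≠ 0 ∧ ∀ z, P z = (z - c) ^ h c * R z := by
    intro c hc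
    refine ⟨fun z => ∏ x ∈ S.erase c, (z - x) ^ h x, by fun_prop, ?_, ?_⟩
    · refine Finset.prod_ne_zero_iff.2 fun x hx => pow_ne_zero _ (sub_ne_zero.2 ?_)
      exact (Finset.ne_of_mem_erase hx).symm
    · intro z
      exact (Finset.mul_prod_erase S (fun x => (z - x) ^ h x) hc).symm
  have hpB : ∀ c, ∃ M : ℝ, ∀ᶠ z in 𝓝[≠] c, ‖p z‖ ≤ M := by
    intro c
    have h1 : ContinuousAt (fun z : ℂ => C * (1 + ‖z‖) ^ d) c := by
      refine ContinuousAt.mul continuousAt_const ?_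
      refine ContinuousAt.zpow₀ (by fun_prop) _ (Or.inl ?_)
      positivity
    have h2 : ∀ᶠ z in 𝓝 c, C * (1 + ‖z‖) ^ d < C * (1 + ‖c‖) ^ d + 1 :=
      h1.eventually (gt_mem_nhds (lt_add_one _))
    refine ⟨C * (1 + ‖c‖) ^ d + 1, ?_⟩
    filter_upwards [h2.filter_mono nhdsWithin_le_nhds, zc_ev B c] with z hz hzB
    exact (hg z hzB).trans hz.le
  -- the entire function
  obtain ⟨Q, hQ, hQ'⟩ := zc_rem (fun z => p z / P z) (B ∪ S) (by
      intro c hc
      rw [Finset.mem_union, not_or] at hc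
      exact (hp c hc.1).div (hPd.analyticAt c) (hP0 c hc.2)) (by
      intro c hc
      by_cases hcS : c ∈ S
      · obtain ⟨R, hR, hR0, hPR⟩ := hPf c hcS
        obtain ⟨C', hC'⟩ := hS c hcS
        have h1 : ContinuousAt (fun z => C' * ‖R z‖⁻¹) c :=
          continuousAt_const.mul (hR.continuousAt.norm.inv₀ (norm_ne_zero_iff.2 hR0))
        have h2 : ∀ᶠ z in 𝓝 c, C' * ‖R z‖⁻¹ < C' * ‖R c‖⁻¹ + 1 :=
          h1.eventually (gt_mem_nhds (lt_add_one _))
        refine ⟨C' * ‖R c‖⁻¹ + 1, ?_⟩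
        filter_upwards [hC', h2.filter_mono nhdsWithin_le_nhds, self_mem_nhdsWithin] with z hz1 hz2
          hz3
        refine le_trans ?_ hz2.le
        have h3 : 0 < ‖z - c‖ ^ h c := pow_pos (norm_pos_iff.2 (sub_ne_zero.2 hz3)) _
        rw [hPR z, norm_div, norm_mul, norm_pow]
        rw [div_eq_mul_inv, mul_inv, ← mul_assoc]
        refine mul_le_mul_of_nonneg_right ?_ (inv_nonneg.2 (norm_nonneg _))
        rw [← div_eq_mul_inv, div_le_iff₀ h3]
        exact hz1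
      · obtain ⟨M, hM⟩ := hpB c
        have h1 : ContinuousAt (fun z => M * ‖P z‖⁻¹) c :=
          continuousAt_const.mul (hPd.continuous.continuousAt.norm.inv₀
            (norm_ne_zero_iff.2 (hP0 c hcS)))
        have h2 : ∀ᶠ z in 𝓝 c, M * ‖P z‖⁻¹ < M * ‖P c‖⁻¹ + 1 :=
          h1.eventually (gt_mem_nhds (lt_add_one _))
        refine ⟨M * ‖P c‖⁻¹ + 1, ?_⟩
        filter_upwards [hM, h2.filter_mono nhdsWithin_le_nhds] with z hz1 hz2
        refine le_trans ?_ hz2.le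
        rw [norm_div, div_eq_mul_inv]
        gcongr)
  -- the limit at infinity
  have hlim : Tendsto Q (cocompact ℂ) (𝓝 0) := by
    set H : ℕ := ∑ c ∈ S, h c with hH
    have hdH : d - H < 0 := by
      have : (H : ℤ) = ∑ c ∈ S, (h c : ℤ) := by rw [hH]; push_cast; rfl
      omega
    have hnorm : Tendsto (fun z : ℂ => ‖z‖) (cocompact ℂ) atTop := tendsto_norm_cocompact_atTop
    have h1 : Tendsto (fun z : ℂ => C * 2 ^ H * (1 + ‖z‖) ^ (d - H)) (cocompact ℂ) (𝓝 0) := by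
      have h2 : Tendsto (fun x : ℝ => x ^ (d - H)) atTop (𝓝 0) := by
        obtain ⟨n, hn⟩ : ∃ n : ℕ, d - H = -((n + 1 : ℕ) : ℤ) := by
          refine ⟨(-(d - H) - 1).toNat, ?_⟩
          omega
        rw [hn]
        exact tendsto_pow_neg_atTop (Nat.succ_ne_zero n)
      have h3 : Tendsto (fun z : ℂ => 1 + ‖z‖) (cocompact ℂ) atTop :=
        tendsto_atTop_add_const_left _ _ hnorm
      have h4 := (h2.comp h3).const_mul (C * 2 ^ H)
      simpa using h4
    refine squeeze_zero_norm' ?_ h1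
    have h2 : ∀ᶠ z in cocompact ℂ, z ∉ B ∪ S := by
      have : ((B ∪ S : Finset ℂ) : Set ℂ)ᶜ ∈ cocompact ℂ :=
        (B ∪ S).finite_toSet.isCompact.compl_mem_cocompact
      filter_upwards [this] with z hz
      simpa using hz
    have h3 : ∀ᶠ z in cocompact ℂ, ∀ c ∈ S, (1 + ‖z‖) / 2 ≤ ‖z - c‖ := by
      rw [Filter.eventually_all_finset]
      intro c hc
      filter_upwards [hnorm.eventually (eventually_ge_atTop (1 + 2 * ‖c‖))] with z hz
      have := norm_sub_norm_le z c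
      linarith
    filter_upwards [h2, h3] with z hz1 hz2
    have hz1' := hz1
    rw [Finset.mem_union, not_or] at hz1'
    have hpos : 0 < (1 + ‖z‖) := by positivity
    have h4 : ((1 + ‖z‖) / 2) ^ H ≤ ‖P z‖ := by
      rw [hP, hH]
      simp only [norm_prod, norm_pow]
      rw [← Finset.prod_pow_eq_pow_sum]
      exact Finset.prod_le_prod (fun c hc => by positivity) fun c hc =>
        pow_le_pow_left₀ (by positivity) (hz2 c hc) _
    have h5 : 0 < ((1 + ‖z‖) / 2) ^ H := by positivity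
    rw [hQ' z hz1, norm_div, div_le_iff₀ (lt_of_lt_of_le h5 h4)]
    have h6 := hg z hz1'.1
    have h7 : 0 ≤ C * (1 + ‖z‖) ^ d := (norm_nonneg _).trans h6
    have hC : 0 ≤ C := by
      have h8 : 0 < (1 + ‖z‖) ^ d := zpow_pos hpos _
      by_contra hC
      push Not at hC
      nlinarith
    have h8 : C * (1 + ‖z‖) ^ d = C * 2 ^ H * (1 + ‖z‖) ^ (d - H) * ((1 + ‖z‖) / 2) ^ H := by
      rw [zpow_sub₀ hpos.ne', div_pow, zpow_natCast]
      field_simp
    calc ‖p z‖ ≤ C * (1 + ‖z‖) ^ d := h6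
      _ = C * 2 ^ H * (1 + ‖z‖) ^ (d - H) * ((1 + ‖z‖) / 2) ^ H := h8
      _ ≤ C * 2 ^ H * (1 + ‖z‖) ^ (d - H) * ‖P z‖ := by gcongr
  have hQ0 : ∀ z, Q z = 0 := by
    intro z
    exact hQ.apply_eq_of_tendsto_cocompact z hlim
  have hoff : ∀ z, z ∉ B ∪ S → p z = 0 := by
    intro z hz
    have h1 := hQ' z hz
    rw [hQ0 z] at h1
    have hz' := hz
    rw [Finset.mem_union, not_or] at hz'
    exact (div_eq_zero_iff.1 h1.symm).resolve_right (hP0 z hz'.2)
  intro c hc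
  have h1 : Tendsto p (𝓝[≠] c) (𝓝 (p c)) :=
    (hp c hc).continuousAt.tendsto.mono_left nhdsWithin_le_nhds
  have h2 : Tendsto p (𝓝[≠] c) (𝓝 0) := by
    refine tendsto_const_nhds.congr' ?_
    filter_upwards [zc_ev (B ∪ S) c] with z hz using (hoff z hz).symm
  exact tendsto_nhds_unique h1 h2


end pure

end Pool.Agent.GG
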