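import Pool.Agent.Lib_helper82.GG.D.All
import Pool.Agent.Lib_helper82.GG.P.B1
import Pool.Agent.Lib_helper82.GG.P.IFT
import Pool.Agent.Lib_helper82.GG.P.P1
import Pool.Agent.Lib_helper82.GG.P.P2
import Pool.Agent.Lib_helper82.GG.P.P3
import Pool.Agent.Lib_helper82.GG.P.PS
import Pool.Agent.Lib_helper82.GG.P.ZC

set_option autoImplicit false
set_option linter.unusedVariables false
set_option linter.unusedSectionVars false

open Filter Topology Metric Set

namespace Pool.Agent.GG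

open Pool.Agent.BR

section surface

variable {X : Type} [MetricSpace X] [CompactSpace X] {A : Cha V2 X} {b D : ℕ}
  {T : Fin 3 → A.ι → X → ℂ}

variable {e : ℕ} {σ S S' : A.ι → X → ℂ}

theorem p4_ci (A : Cha V2 X) (x : X) : x ∈ (A.ch (ci A x)).source :=
  A.W_sub _ (subset_closure (A.cover x).choose_spec)

/-- the function on the curve -/
noncomputable def p4g (A : Cha V2 X) (b : ℕ) (S : A.ι → X → ℂ) (N : ℤ) (F : A.ι → X → ℂ) (x : X) :
    ℂ := F (ci A x) x ^ b / S (ci A x) x ^ N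

theorem p4_g (hP : Pen A e b σ S S') {N : ℤ} {F : A.ι → X → ℂ} (hF : CSec A (ZS A σ) N F) {x : X}
    (hx : x ∈ ZS A σ) (hS : x ∉ ZS A S) {i : A.ι} (hi : x ∈ (A.ch i).source) :
    p4g A b S N F x = F i x ^ b / S i x ^ N := by
  have h0 : S (ci A x) x ≠ 0 := fun h => hS ((zs_iff hP.psT (p4_ci A x)).2 h)
  have h1 := hF.tr (ci A x) i x (p4_ci A x) hi hx
  have h2 := hP.psT.tr (ci A x) i x (p4_ci A x) hi
  set J := IS.jac A (ci A x) i x with hJ
  have hJ0 : J ≠ 0 := by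
    intro h
    rw [h, zero_pow hP.b_pos.ne', zero_mul] at h2
    exact h0 h2
  unfold p4g
  rw [h1, h2, mul_pow, mul_zpow, ← zpow_natCast (J ^ N), ← zpow_mul, ← zpow_natCast J b,
    ← zpow_mul, mul_comm (b : ℤ) N]
  exact mul_div_mul_left _ _ (zpow_ne_zero _ hJ0)

theorem p4_qt (hP : Pen A e b σ S S') {c : ℂ} {x : X} (hx : x ∈ Pf A σ S S' c) :
    qt A S' S x = c := by
  have h0 : S (ci A x) x ≠ 0 := fun h => hx.2.1 ((zs_iff hP.psT (p4_ci A x)).2 h)
  rw [qt_eq hP.psT' hP.psT (p4_ci A x), hx.2.2 _ (p4_ci A x), mul_div_cancel_right₀ _ h0]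

theorem p4_mem (hP : Pen A e b σ S S') {x : X} (hx : x ∈ ZS A σ) (hS : x ∉ ZS A S) :
    x ∈ Pf A σ S S' (qt A S' S x) := by
  refine ⟨hx, hS, fun i hi => ?_⟩
  have h0 : S i x ≠ 0 := fun h => hS ((zs_iff hP.psT hi).2 h)
  rw [qt_eq hP.psT' hP.psT hi, div_mul_cancel₀ _ h0]

/-- the function along a local section -/
theorem p4_sec (hP : Pen A e b σ S S') {N : ℤ} {F : A.ι → X → ℂ} (hF : CSec A (ZS A σ) N F)
    {c : ℂ} {s : ℂ → X} (hs : ContinuousAt s c) (hσ : ∀ᶠ w in 𝓝 c, s w ∈ ZS A σ)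
    (hS : s c ∉ ZS A S) {i : A.ι} (hi : s c ∈ (A.ch i).source)
    (han : AnalyticAt ℂ (fun w => A.ch i (s w)) c) :
    AnalyticAt ℂ (fun w => p4g A b S N F (s w)) c ∧
      (F i (s c) = 0 → (fun w => p4g A b S N F (s w)) =O[𝓝 c] fun w => (w - c) ^ b) := by
  have hσc : s c ∈ ZS A σ := hσ.self_of_nhds
  obtain ⟨G, hG, hG'⟩ := hF.an i (s c) hi hσc
  have hsrc : ∀ᶠ w in 𝓝 c, s w ∈ (A.ch i).source :=
    hs.eventually ((A.ch i).open_source.mem_nhds hi)
  have hL : AnalyticAt ℂ (lz A i (S i)) (A.ch i (s c)) := hP.psT.an i (s c) hi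
  have hL0 : lz A i (S i) (A.ch i (s c)) ≠ 0 := by
    unfold lz
    rw [(A.ch i).left_inv hi]
    exact fun h => hS ((zs_iff hP.psT hi).2 h)
  have hLφ : AnalyticAt ℂ (fun w => lz A i (S i) (A.ch i (s w))) c :=
    AnalyticAt.fun_comp (g := lz A i (S i)) (f := fun w => A.ch i (s w)) hL han
  have hGφ : AnalyticAt ℂ (fun w => G (A.ch i (s w))) c :=
    AnalyticAt.fun_comp (g := G) (f := fun w => A.ch i (s w)) hG han
  have hne : ∀ᶠ w in 𝓝 c, lz A i (S i) (A.ch i (s w)) ≠ 0 :=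
    hLφ.continuousAt.eventually_ne hL0
  have heq : (fun w => p4g A b S N F (s w)) =ᶠ[𝓝 c]
      fun w => G (A.ch i (s w)) ^ b / lz A i (S i) (A.ch i (s w)) ^ N := by
    filter_upwards [hσ, hsrc, hne, hs.eventually hG'] with w h1 h2 h3 h4
    have h5 : lz A i (S i) (A.ch i (s w)) = S i (s w) := by
      unfold lz
      rw [(A.ch i).left_inv h2]
    rw [h5] at h3 ⊢
    rw [p4_g hP hF h1 (fun h => h3 ((zs_iff hP.psT h2).1 h)) h2, h4 h1]
  have hLN : AnalyticAt ℂ (fun w => lz A i (S i) (A.ch i (s w)) ^ N) c := hLφ.zpow hL0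
  have hLN0 : lz A i (S i) (A.ch i (s c)) ^ N ≠ 0 := zpow_ne_zero _ hL0
  refine ⟨((hGφ.pow b).div hLN hLN0).congr heq.symm, fun hF0 => ?_⟩
  have hG0 : G (A.ch i (s c)) = 0 := by
    rw [← hG'.self_of_nhds hσc]
    exact hF0
  have h1 : (fun w => G (A.ch i (s w))) =O[𝓝 c] fun w => w - c := by
    have := hGφ.differentiableAt.isBigO_sub
    simpa [hG0] using this
  have h2 : (fun w => (lz A i (S i) (A.ch i (s w)) ^ N)⁻¹) =O[𝓝 c] fun _ => (1 : ℂ) :=
    (hLN.continuousAt.inv₀ hLN0).isBigO_one ℂ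
  have h3 := (h1.pow b).mul h2
  refine heq.trans_isBigO ?_
  simpa [div_eq_mul_inv] using h3

/-- the curve has no isolated points -/
theorem p4_dense (hP : Pen A e b σ S S') {N : ℤ} {F : A.ι → X → ℂ} (hF : CSec A (ZS A σ) N F)
    {Ex : Set X} (hEx : Ex.Finite)
    (h0 : ∀ x ∈ ZS A σ, x ∉ Ex → ∀ i, x ∈ (A.ch i).source → F i x = 0) {x : X} (hx : x ∈ ZS A σ)
    {i : A.ι} (hi : x ∈ (A.ch i).source) : F i x = 0 := by
  set z₀ : V2 := A.ch i x with hz₀
  have hf : AnalyticAt ℂ (lz A i (σ i)) z₀ := hP.ps.an i x hi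
  have hf0 : lz A i (σ i) z₀ = 0 := by
    unfold lz
    rw [hz₀, (A.ch i).left_inv hi]
    exact (zs_iff hP.ps hi).1 hx
  have hpd : ∀ a l : Fin 2, pd l (fun z : V2 => z a) z₀ = if a = l then 1 else 0 := by
    intro a l
    unfold pd
    have : (fun z : V2 => z a) = (ContinuousLinearMap.proj (R := ℂ) (φ := fun _ : Fin 2 => ℂ) a) := by
      ext z
      rfl
    rw [this, ContinuousLinearMap.fderiv]
    simp [Pi.single_apply]
  -- the second coordinate
  obtain ⟨a, ha⟩ : ∃ a : Fin 2, pd 0 (lz A i (σ i)) z₀ * pd 1 (fun z : V2 => z a) z₀ -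
      pd 1 (lz A i (σ i)) z₀ * pd 0 (fun z : V2 => z a) z₀ ≠ 0 := by
    obtain ⟨j, hj⟩ := hP.sm i x hi ((zs_iff hP.ps hi).1 hx)
    have hj' : pd j (lz A i (σ i)) z₀ ≠ 0 := hj
    fin_cases j
    · refine ⟨1, ?_⟩
      rw [hpd, hpd]
      simpa using hj'
    · refine ⟨0, ?_⟩
      rw [hpd, hpd]
      simpa using hj'
  have hga : AnalyticAt ℂ (fun z : V2 => z a) z₀ :=
    (ContinuousLinearMap.proj (R := ℂ) (φ := fun _ : Fin 2 => ℂ) a).analyticAt z₀
  obtain ⟨Θ, hΘ, hΘ0, hΘ1, hΘ2⟩ := loc_coord hf hga ha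
  rw [hf0] at hΘ hΘ0 hΘ2
  set τ₀ : ℂ := z₀ a with hτ₀
  -- the curve
  have hu : ContinuousAt (fun τ : ℂ => (![0, τ] : V2)) τ₀ := by
    refine continuousAt_pi.2 fun l => ?_
    fin_cases l
    · exact continuousAt_const
    · exact continuousAt_id
  have hu1 : ∀ᶠ τ in 𝓝 τ₀, lz A i (σ i) (Θ ![0, τ]) = 0 ∧ (Θ ![0, τ]) a = τ := by
    filter_upwards [hu.eventually hΘ2] with τ hτ
    exact ⟨by simpa using hτ.1, by simpa using hτ.2⟩
  have hΘu : ContinuousAt (fun τ : ℂ => Θ ![0, τ]) τ₀ :=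
    ContinuousAt.comp (g := Θ) (f := fun τ : ℂ => (![0, τ] : V2)) hΘ.continuousAt hu
  have hΘu0 : Θ ![0, τ₀] = z₀ := hΘ0
  have htar : ∀ᶠ τ in 𝓝 τ₀, Θ ![0, τ] ∈ (A.ch i).target := by
    refine hΘu.eventually ?_
    show ∀ᶠ y in 𝓝 (Θ ![0, τ₀]), y ∈ (A.ch i).target
    rw [hΘu0]
    exact (A.ch i).open_target.mem_nhds ((A.ch i).map_source hi)
  set r : ℂ → X := fun τ => (A.ch i).symm (Θ ![0, τ]) with hr
  have hr0 : r τ₀ = x := by
    simp only [hr]
    rw [hΘu0, hz₀, (A.ch i).left_inv hi]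
  have hrc : ContinuousAt r τ₀ := by
    refine ContinuousAt.comp (g := (A.ch i).symm) (f := fun τ : ℂ => Θ ![0, τ]) ?_ hΘu
    rw [hΘu0]
    exact (A.ch i).continuousAt_symm ((A.ch i).map_source hi)
  have hrσ : ∀ᶠ τ in 𝓝 τ₀, r τ ∈ ZS A σ ∧ r τ ∈ (A.ch i).source := by
    filter_upwards [hu1, htar] with τ h1 h2
    have h3 : r τ ∈ (A.ch i).source := (A.ch i).map_target h2
    exact ⟨(zs_iff hP.ps h3).2 h1.1, h3⟩
  have hrne : ∀ᶠ τ in 𝓝[≠] τ₀, r τ ∉ Ex := by
    have hcl : (Ex \ {x})ᶜ ∈ 𝓝 (r τ₀) := by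
      rw [hr0]
      exact ((hEx.subset sdiff_subset).isClosed.isOpen_compl).mem_nhds (by simp)
    have h1 : ∀ᶠ τ in 𝓝[≠] τ₀, r τ ∈ (Ex \ {x})ᶜ := (hrc.eventually hcl).filter_mono nhdsWithin_le_nhds
    have h2 : ∀ᶠ τ in 𝓝[≠] τ₀, τ ≠ τ₀ := eventually_mem_nhdsWithin
    filter_upwards [h1, h2, htar.filter_mono nhdsWithin_le_nhds,
      hu1.filter_mono nhdsWithin_le_nhds] with τ h1 h2 h3 h4 h5
    refine h1 ⟨h5, fun h6 => h2 ?_⟩
    have h7 : A.ch i (r τ) = Θ ![0, τ] := (A.ch i).right_inv h3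
    rw [mem_singleton_iff] at h6
    rw [h6] at h7
    rw [← h4.2, ← h7]
  obtain ⟨G, hG, hG'⟩ := hF.an i x hi hx
  have hG'' : ∀ᶠ τ in 𝓝 τ₀, r τ ∈ ZS A σ → F i (r τ) = G (A.ch i (r τ)) := by
    have : ∀ᶠ y in 𝓝 (r τ₀), y ∈ ZS A σ → F i y = G (A.ch i y) := by
      rw [hr0]
      exact hG'
    exact hrc.eventually this
  have hlim : Tendsto (fun τ => G (Θ ![0, τ])) (𝓝[≠] τ₀) (𝓝 (G z₀)) := by
    have : ContinuousAt (fun τ : ℂ => G (Θ ![0, τ])) τ₀ := by
      refine ContinuousAt.comp (g := G) (f := fun τ : ℂ => Θ ![0, τ]) ?_ hΘu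
      rw [hΘu0]
      exact hG.continuousAt
    have h1 := this.tendsto
    rw [hΘu0] at h1
    exact h1.mono_left nhdsWithin_le_nhds
  have hz : ∀ᶠ τ in 𝓝[≠] τ₀, G (Θ ![0, τ]) = 0 := by
    filter_upwards [hrne, hrσ.filter_mono nhdsWithin_le_nhds,
      htar.filter_mono nhdsWithin_le_nhds, hG''.filter_mono nhdsWithin_le_nhds] with τ h1 h2 h3 h4
    have h7 : A.ch i (r τ) = Θ ![0, τ] := (A.ch i).right_inv h3
    rw [← h7, ← h4 h2.1]
    exact h0 _ h2.1 h1 i h2.2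
  have hlim0 : Tendsto (fun τ => G (Θ ![0, τ])) (𝓝[≠] τ₀) (𝓝 0) :=
    (tendsto_congr' hz).2 tendsto_const_nhds
  have hG0 : G z₀ = 0 := tendsto_nhds_unique hlim hlim0
  rw [hG'.self_of_nhds hx]
  exact hG0

/-- P4: the norm lemma for a pencil -/
theorem pen_norm (hP : Pen A e b σ S S') {lam : ℕ}
    (hlam : ∃ B : Finset ℂ, ∀ c ∉ B, (Pf A σ S S' c).ncard ≤ lam) {Q : Set X} (hQ : Q.Finite)
    (N : ℤ) : ∃ Z : Finset X, (∀ x ∈ Z, x ∈ ZS A σ ∧ x ∉ ZS A S ∧ x ∉ Q) ∧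
      (Z.card : ℝ) ≤ (max (N : ℝ) 0 / b + 1) * lam ∧
      ∀ F : A.ι → X → ℂ, CSec A (ZS A σ) N F →
        (∀ x ∈ Z, ∀ i, x ∈ (A.ch i).source → F i x = 0) →
        ∀ x ∈ ZS A σ, ∀ i, x ∈ (A.ch i).source → F i x = 0 := by
  classical
  obtain ⟨B₀, hB₀⟩ := hlam
  obtain ⟨B₁, hB₁⟩ := pen_cov hP
  set B : Finset ℂ := B₀ ∪ B₁ ∪ hQ.toFinset.image (qt A S' S) with hB
  have hb0 : 0 < b := hP.b_pos
  have hbZ : (0 : ℤ) < b := by exact_mod_cast hb0
  have hbR : (0 : ℝ) < b := by exact_mod_cast hb0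
  set M : ℕ := (N / b + 1).toNat with hM
  have hMN : N < M * b := by
    rcases le_or_gt 0 (N / b + 1) with h | h
    · have h1 : (M : ℤ) = N / b + 1 := by rw [hM, Int.toNat_of_nonneg h]
      rw [h1]
      exact Int.lt_ediv_add_one_mul_self N hbZ
    · have h1 : (M : ℤ) = 0 := by rw [hM, Int.toNat_of_nonpos h.le]; rfl
      have h2 : N < (N / b + 1) * b := Int.lt_ediv_add_one_mul_self N hbZ
      have h3 : (N / b + 1) * b ≤ 0 := mul_nonpos_of_nonpos_of_nonneg h.le hbZ.le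
      rw [h1]
      linarith
  have hMle : (M : ℝ) ≤ max (N : ℝ) 0 / b + 1 := by
    rcases le_or_gt 0 (N / b + 1) with h | h
    · have h1 : (M : ℤ) = N / b + 1 := by rw [hM, Int.toNat_of_nonneg h]
      have h2 : (M : ℝ) = ((N / b : ℤ) : ℝ) + 1 := by exact_mod_cast congrArg (fun t : ℤ => (t : ℝ)) h1
      have h3 : ((N / b : ℤ) : ℝ) * b ≤ N := by exact_mod_cast Int.ediv_mul_le N hbZ.ne'
      have h4 : ((N / b : ℤ) : ℝ) ≤ max (N : ℝ) 0 / b := by
        rw [le_div_iff₀ hbR]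
        exact h3.trans (le_max_left _ _)
      linarith
    · have h1 : M = 0 := by rw [hM, Int.toNat_of_nonpos h.le]
      rw [h1]
      have : 0 ≤ max (N : ℝ) 0 / b := div_nonneg (le_max_right _ _) hbR.le
      push_cast
      linarith
  obtain ⟨Cs, hCsB, hCsM⟩ : ∃ Cs : Finset ℂ, (∀ c ∈ Cs, c ∉ B) ∧ Cs.card = M := by
    obtain ⟨Cs, h1, h2⟩ := (B.finite_toSet.infinite_compl).exists_subset_card_eq M
    exact ⟨Cs, fun c hc h => h1 hc h, h2⟩
  have hfin : ∀ c, (Pf A σ S S' c).Finite := fun c => pen_fin hP c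
  refine ⟨Cs.biUnion (fun c => (hfin c).toFinset), ?_, ?_, ?_⟩
  · intro x hx
    rw [Finset.mem_biUnion] at hx
    obtain ⟨c, hc, hx⟩ := hx
    rw [Set.Finite.mem_toFinset] at hx
    refine ⟨hx.1, hx.2.1, fun hxQ => hCsB c hc ?_⟩
    rw [hB, Finset.mem_union]
    right
    rw [Finset.mem_image]
    exact ⟨x, hQ.mem_toFinset.2 hxQ, p4_qt hP hx⟩
  · have h1 : ∀ c ∈ Cs, ((hfin c).toFinset).card ≤ lam := by
      intro c hc
      rw [← Set.ncard_eq_toFinset_card _ (hfin c)]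
      refine hB₀ c fun h => hCsB c hc ?_
      rw [hB, Finset.mem_union, Finset.mem_union]
      exact Or.inl (Or.inl h)
    have h2 : (Cs.biUnion (fun c => (hfin c).toFinset)).card ≤ M * lam := by
      rw [← hCsM]
      exact Finset.card_biUnion_le_card_mul _ _ _ h1
    calc ((Cs.biUnion (fun c => (hfin c).toFinset)).card : ℝ) ≤ (M * lam : ℕ) := by
          exact_mod_cast h2
      _ = (M : ℝ) * lam := by push_cast; ring
      _ ≤ _ := mul_le_mul_of_nonneg_right hMle (by positivity)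
  · intro F hF hFZ
    set g : X → ℂ := p4g A b S N F with hg
    obtain ⟨C, hC⟩ := pen_growth hP hF
    -- the power sums
    have key : ∀ j : ℕ, 1 ≤ j → ∀ c ∉ B, ∑ x ∈ (hfin c).toFinset, g x ^ j = 0 := by
      intro j hj
      -- local form
      have hloc : ∀ c ∉ B, ∃ (n : ℕ) (s : Fin n → ℂ → X),
          (∀ᶠ c' in 𝓝 c, ∑ x ∈ (hfin c').toFinset, g x ^ j = ∑ l, g (s l c') ^ j) ∧
          (∀ l, ContinuousAt (s l) c ∧ (∀ᶠ c' in 𝓝 c, s l c' ∈ Pf A σ S S' c') ∧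
            ∀ i, s l c ∈ (A.ch i).source → AnalyticAt ℂ (fun w => A.ch i (s l w)) c) := by
        intro c hc
        obtain ⟨n, s, hs⟩ := hB₁ c (fun h => hc (by
          rw [hB, Finset.mem_union, Finset.mem_union]
          exact Or.inl (Or.inr h)))
        refine ⟨n, s, ?_, fun l => ⟨(hs.self_of_nhds.2.2 l).1, ?_, (hs.self_of_nhds.2.2 l).2⟩⟩
        · filter_upwards [hs] with c' hc'
          have h1 : (hfin c').toFinset = Finset.univ.image (fun l => s l c') := by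
            ext x
            rw [Set.Finite.mem_toFinset, hc'.2.1]
            simp
          rw [h1, Finset.sum_image (fun a _ a' _ h => hc'.1 h)]
        · filter_upwards [hs] with c' hc'
          rw [hc'.2.1]
          exact mem_range_self l
      refine zeros_count B (fun c => ∑ x ∈ (hfin c).toFinset, g x ^ j) ?_ (j * N)
        (lam * (max C 0) ^ j) ?_ Cs (fun _ => j * b) ?_ ?_
      · intro c hc
        obtain ⟨n, s, hs1, hs2⟩ := hloc c hc
        refine AnalyticAt.congr (f := fun c' => ∑ l, g (s l c') ^ j) ?_ (hs1.mono fun c' h => h.symm)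
        have : ∀ l ∈ (Finset.univ : Finset (Fin n)), AnalyticAt ℂ (fun c' => g (s l c') ^ j) c := by
          intro l _
          obtain ⟨h1, h2, h3⟩ := hs2 l
          have h4 := h2.self_of_nhds
          exact ((p4_sec hP hF h1 (h2.mono fun c' h => h.1) h4.2.1 (p4_ci A (s l c))
            (h3 _ (p4_ci A (s l c)))).1).pow j
        exact Finset.analyticAt_fun_sum _ this
      · intro c hc
        have hcB₀ : c ∉ B₀ := fun h => hc (by
          rw [hB, Finset.mem_union, Finset.mem_union]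
          exact Or.inl (Or.inl h))
        have h1 : ∀ x ∈ (hfin c).toFinset, ‖g x ^ j‖ ≤ ((max C 0) * (1 + ‖c‖) ^ N) ^ j := by
          intro x hx
          rw [Set.Finite.mem_toFinset] at hx
          rw [norm_pow]
          refine pow_le_pow_left₀ (norm_nonneg _) ?_ j
          have h2 := hC x hx.1 hx.2.1 (ci A x) (p4_ci A x)
          rw [p4_qt hP hx] at h2
          refine h2.trans (mul_le_mul_of_nonneg_right (le_max_left _ _) ?_)
          exact zpow_nonneg (by positivity) _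
        refine (norm_sum_le _ _).trans ((Finset.sum_le_card_nsmul _ _ _ h1).trans ?_)
        rw [nsmul_eq_mul, mul_pow, ← zpow_natCast ((1 + ‖c‖) ^ N) j, ← zpow_mul, mul_comm N (j : ℤ),
          ← mul_assoc]
        refine mul_le_mul_of_nonneg_right ?_ (zpow_nonneg (by positivity) _)
        refine mul_le_mul_of_nonneg_right ?_ (by positivity)
        have h3 := hB₀ c hcB₀
        rw [Set.ncard_eq_toFinset_card _ (hfin c)] at h3
        exact_mod_cast h3
      · intro c hc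
        obtain ⟨n, s, hs1, hs2⟩ := hloc c (hCsB c hc)
        have h1 : (fun c' => ∑ l, g (s l c') ^ j) =O[𝓝 c] fun c' => (c' - c) ^ (j * b) := by
          refine Asymptotics.IsBigO.fun_sum fun l _ => ?_
          obtain ⟨h1, h2, h3⟩ := hs2 l
          have h4 := h2.self_of_nhds
          have h5 := (p4_sec hP hF h1 (h2.mono fun c' h => h.1) h4.2.1 (p4_ci A (s l c))
            (h3 _ (p4_ci A (s l c)))).2 (hFZ (s l c) (by
              rw [Finset.mem_biUnion]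
              exact ⟨c, hc, by rw [Set.Finite.mem_toFinset]; exact h4⟩) _ (p4_ci A (s l c)))
          have h6 := h5.pow j
          simpa only [← pow_mul, mul_comm b j] using h6
        have h2 : (fun c' => ∑ x ∈ (hfin c').toFinset, g x ^ j) =O[𝓝 c]
            fun c' => (c' - c) ^ (j * b) := (show (fun c' => ∑ x ∈ (hfin c').toFinset, g x ^ j) =ᶠ[𝓝 c]
              (fun c' => ∑ l, g (s l c') ^ j) from hs1).trans_isBigO h1
        obtain ⟨C', hC'⟩ := h2.bound
        refine ⟨C', ?_⟩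
        filter_upwards [hC'.filter_mono nhdsWithin_le_nhds] with c' hc'
        rwa [norm_pow] at hc'
      · rw [Finset.sum_const, nsmul_eq_mul, hCsM]
        push_cast
        have hj' : (0 : ℤ) < j := by exact_mod_cast hj
        have : (j : ℤ) * N < j * (M * b) := mul_lt_mul_of_pos_left hMN hj'
        linarith [this, show (j : ℤ) * (M * b) = M * (j * b) by ring]
    -- zero on the good fibres
    have hgood : ∀ x ∈ ZS A σ, x ∉ ZS A S → qt A S' S x ∉ B → ∀ i, x ∈ (A.ch i).source →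
        F i x = 0 := by
      intro x hx hxS hxB i hi
      have h1 := power_sums (hfin (qt A S' S x)).toFinset g (fun j hj => key j hj _ hxB) x (by
        rw [Set.Finite.mem_toFinset]
        exact p4_mem hP hx hxS)
      rw [hg, p4_g hP hF hx hxS hi] at h1
      have h0 : S i x ≠ 0 := fun h => hxS ((zs_iff hP.psT hi).2 h)
      rw [div_eq_zero_iff] at h1
      rcases h1 with h1 | h1
      · exact pow_eq_zero_iff hb0.ne' |>.1 h1
      · exact absurd h1 (zpow_ne_zero _ h0)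
    intro x hx i hi
    refine p4_dense hP hF (Ex := (ZS A σ ∩ ZS A S) ∪ ⋃ c ∈ B, Pf A σ S S' c)
      (hP.zf.union (B.finite_toSet.biUnion fun c _ => hfin c)) ?_ hx hi
    intro y hy hyE j hj
    have hyS : y ∉ ZS A S := fun h => hyE (Or.inl ⟨hy, h⟩)
    refine hgood y hy hyS (fun hB' => hyE (Or.inr ?_)) j hj
    rw [Set.mem_iUnion₂]
    exact ⟨_, hB', p4_mem hP hy hyS⟩


end surface

end Pool.Agent.GG
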