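import Pool.Agent.Lib_helper82.GG.D.All
import Pool.Agent.Lib_helper82.GG.P.B1
import Pool.Agent.Lib_helper82.GG.P.B2
import Pool.Agent.Lib_helper82.GG.P.IFT

/-! GG, block PE: the two pencils of a net -/

set_option autoImplicit false

open Filter Topology Metric Set

namespace Pool.Agent.GG

open Pool.Agent.BR

section surface

variable {X : Type} [MetricSpace X] [CompactSpace X] {A : Cha V2 X} {b D : ℕ}
  {T : Fin 3 → A.ι → X → ℂ}

theorem pe_lT {i : A.ι} {x : X} (hx : x ∈ (A.ch i).source) (j : Fin 3) :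
    lT A T i j (A.ch i x) = T j i x := by
  unfold lT lz
  rw [(A.ch i).left_inv hx]

theorem pe_dlt {i : A.ι} {x : X} (hx : x ∈ (A.ch i).source) :
    dlt A T i x =
      T 0 i x * (ds A (T 1) 0 i x * ds A (T 2) 1 i x - ds A (T 1) 1 i x * ds A (T 2) 0 i x) -
      ds A (T 0) 0 i x * (T 1 i x * ds A (T 2) 1 i x - T 2 i x * ds A (T 1) 1 i x) +
      ds A (T 0) 1 i x * (T 1 i x * ds A (T 2) 0 i x - T 2 i x * ds A (T 1) 0 i x) := by
  have h0 := pe_lT (T := T) hx 0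
  have h1 := pe_lT (T := T) hx 1
  have h2 := pe_lT (T := T) hx 2
  have e : ∀ (j : Fin 3) (k : Fin 2), pd k (lT A T i j) (A.ch i x) = ds A (T j) k i x :=
    fun j k => rfl
  unfold dlt dl
  rw [Matrix.det_fin_three]
  simp only [Matrix.of_apply, Matrix.cons_val_zero, Matrix.cons_val_one, Matrix.cons_val]
  rw [h0, h1, h2]
  simp only [e]
  ring

theorem pe_chart (A : Cha V2 X) (x : X) : ∃ i, x ∈ (A.ch i).source := by
  obtain ⟨i, hi⟩ := A.cover x
  exact ⟨i, A.W_sub i (subset_closure hi)⟩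

theorem pen_R (hT : Net A b T) : Pen A (3 * b + 1) b (dlt A T) (T 0) (T 1) where
  b_pos := hT.b_pos
  ps := dlt_ps hT.ps
  psT := hT.ps 0
  psT' := hT.ps 1
  sm := hT.g3
  nc := by
    intro x hx
    by_cases h : x ∈ ZS A (T 0)
    · exact Or.inr (hT.g4' x ⟨h, hx⟩)
    · exact Or.inl h
  zf := by
    rw [inter_comm]
    exact hT.g4
  cr := hT.g5

theorem pe_zf (hT : Net A b T) : (ZS A (T 0) ∩ ZS A (T 1)).Finite := by
  by_contra hinf
  obtain ⟨z, hz⟩ := Set.Infinite.exists_accPt_principal (hinf : (ZS A (T 0) ∩ ZS A (T 1)).Infinite)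
  have hcl : IsClosed (ZS A (T 0) ∩ ZS A (T 1)) := (zs_closed (hT.ps 0)).inter (zs_closed (hT.ps 1))
  have hzK : z ∈ ZS A (T 0) ∩ ZS A (T 1) := by
    have := mem_closure_iff_clusterPt.2 hz.clusterPt
    rwa [hcl.closure_eq] at this
  have hzd : z ∉ ZS A (dlt A T) := fun h => hT.g4' z ⟨hzK.1, h⟩ hzK.2
  obtain ⟨i, hi⟩ := pe_chart A z
  have h0 : T 0 i z = 0 := hzK.1 i hi
  have h1 : T 1 i z = 0 := hzK.2 i hi
  have hd : dlt A T i z ≠ 0 := fun h => hzd ((zs_iff (dlt_ps hT.ps) hi).2 h)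
  rw [pe_dlt hi, h0, h1] at hd
  have hJ : pd 0 (lT A T i 0) (A.ch i z) * pd 1 (lT A T i 1) (A.ch i z) -
      pd 1 (lT A T i 0) (A.ch i z) * pd 0 (lT A T i 1) (A.ch i z) ≠ 0 := by
    intro h
    apply hd
    have e : ∀ (j : Fin 3) (k : Fin 2), pd k (lT A T i j) (A.ch i z) = ds A (T j) k i z :=
      fun j k => rfl
    simp only [e] at h
    linear_combination T 2 i z * h
  have hf : AnalyticAt ℂ (lT A T i 0) (A.ch i z) := (hT.ps 0).an i z hi
  have hg : AnalyticAt ℂ (lT A T i 1) (A.ch i z) := (hT.ps 1).an i z hi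
  obtain ⟨Θ, -, hΘ0, hΘ, -⟩ := loc_coord hf hg hJ
  have hcont : ContinuousAt (A.ch i) z := (A.ch i).continuousAt hi
  have h3 : ∀ᶠ y in 𝓝 z, y ∈ (A.ch i).source := (A.ch i).open_source.mem_nhds hi
  have h4 := hcont.eventually hΘ
  rw [accPt_iff_frequently] at hz
  obtain ⟨y, ⟨hyz, hyK⟩, hyi, hyΘ⟩ := (hz.and_eventually (h3.and h4)).exists
  apply hyz
  have e0 : lT A T i 0 (A.ch i y) = 0 := by rw [pe_lT hyi]; exact hyK.1 i hyi
  have e1 : lT A T i 1 (A.ch i y) = 0 := by rw [pe_lT hyi]; exact hyK.2 i hyi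
  have f0 : lT A T i 0 (A.ch i z) = 0 := by rw [pe_lT hi]; exact h0
  have f1 : lT A T i 1 (A.ch i z) = 0 := by rw [pe_lT hi]; exact h1
  rw [e0, e1] at hyΘ
  rw [f0, f1] at hΘ0
  exact (A.ch i).injOn hyi hi (hyΘ.symm.trans hΘ0)

theorem pen_H (hT : Net A b T) : Pen A b b (T 0) (T 1) (T 2) where
  b_pos := hT.b_pos
  ps := hT.ps 0
  psT := hT.ps 1
  psT' := hT.ps 2
  sm := hT.g2
  nc := by
    intro x hx
    obtain ⟨j, hj⟩ := hT.g1 x
    fin_cases j
    · exact absurd hx hj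
    · exact Or.inl hj
    · exact Or.inr hj
  zf := pe_zf hT
  cr := by
    refine hT.g4.subset ?_
    rintro x ⟨h0, h1, h2⟩
    refine ⟨h0, fun i hi => ?_⟩
    have h3 := h2 i hi
    have h4 : T 0 i x = 0 := h0 i hi
    rw [pe_dlt hi, h4]
    linear_combination -h3


end surface

end Pool.Agent.GG
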