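import Pool.Agent.Lib_helper82.GG.D.All
import Pool.Agent.Lib_helper82.GG.P.B1
import Pool.Agent.Lib_helper82.GG.P.P1
import Pool.Agent.Lib_helper82.GG.P.PE

/-! # GG, block C1: the branch curve -/

set_option autoImplicit false

open Filter Topology Metric Set

namespace Pool.Agent.GG

open Pool.Agent.BR

section surface

variable {X : Type} [MetricSpace X] {A : Cha V2 X}

theorem c1_ci (A : Cha V2 X) (x : X) : x ∈ (A.ch (ci A x)).source :=
  A.W_sub _ (subset_closure (A.cover x).choose_spec)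

theorem c1_cont {w : ℕ} {s : A.ι → X → ℂ} (hs : IS.PS A w s) {i : A.ι} {x : X}
    (hx : x ∈ (A.ch i).source) : ContinuousAt (s i) x := by
  have h1 : ContinuousAt (fun ξ => s i ((A.ch i).symm ξ)) (A.ch i x) := (hs.an i x hx).continuousAt
  have h2 : ContinuousAt (A.ch i) x := (A.ch i).continuousAt hx
  have h3 : ContinuousAt (fun y => s i ((A.ch i).symm (A.ch i y))) x := h1.comp h2
  refine h3.congr ?_
  filter_upwards [(A.ch i).open_source.mem_nhds hx] with y hy
  rw [(A.ch i).left_inv hy]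

end surface

variable {X : Type} [MetricSpace X] [CompactSpace X] {A : Cha V2 X} {b : ℕ}
  {T : Fin 3 → A.ι → X → ℂ}

theorem brc_closed (hT : Net A b T) : IsClosed (BrC A T) ∧
    ∀ c : ℂ, {τ : ℂ | (![c, τ] : V2) ∈ BrC A T}.Finite := by
  constructor
  · -- the incidence set
    set S : Set (V2 × X) := {p | p.2 ∈ ZS A (dlt A T) ∧ ∀ i, p.2 ∈ (A.ch i).source →
      T 1 i p.2 = p.1 0 * T 0 i p.2 ∧ T 2 i p.2 = p.1 1 * T 0 i p.2} with hS
    have hSc : IsClosed S := by
      have h1 : IsClosed {p : V2 × X | p.2 ∈ ZS A (dlt A T)} :=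
        (zs_closed (pen_R hT).ps).preimage continuous_snd
      have h2 : IsClosed {p : V2 × X | ∀ i, p.2 ∈ (A.ch i).source →
          T 1 i p.2 = p.1 0 * T 0 i p.2 ∧ T 2 i p.2 = p.1 1 * T 0 i p.2} := ?_
      · exact h1.inter h2
      rw [← isOpen_compl_iff, isOpen_iff_mem_nhds]
      rintro ⟨y, x⟩ hp
      simp only [mem_compl_iff, mem_ofPred_eq, not_forall] at hp
      obtain ⟨i, hx, hne⟩ := hp
      have hc : ∀ j, ContinuousAt (fun p : V2 × X => T j i p.2) (y, x) := fun j =>
        ContinuousAt.comp (f := Prod.snd) (g := T j i) (c1_cont (hT.ps j) hx) continuousAt_snd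
      have hf : ∀ j : Fin 2, ContinuousAt (fun p : V2 × X => p.1 j) (y, x) := fun j =>
        ((continuous_apply j).comp continuous_fst).continuousAt
      have hsrc : ∀ᶠ p : V2 × X in 𝓝 (y, x), p.2 ∈ (A.ch i).source :=
        continuousAt_snd.eventually ((A.ch i).open_source.mem_nhds hx)
      rw [not_and_or] at hne
      rcases hne with hne | hne
      · have h2 : ∀ᶠ p : V2 × X in 𝓝 (y, x), T 1 i p.2 - p.1 0 * T 0 i p.2 ≠ 0 :=
          ContinuousAt.eventually_ne (g := fun p : V2 × X => T 1 i p.2 - p.1 0 * T 0 i p.2)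
            ((hc 1).sub ((hf 0).mul (hc 0))) (sub_ne_zero.2 hne)
        filter_upwards [h2, hsrc] with p hp1 hp2 hp3
        exact hp1 (sub_eq_zero.2 (hp3 i hp2).1)
      · have h2 : ∀ᶠ p : V2 × X in 𝓝 (y, x), T 2 i p.2 - p.1 1 * T 0 i p.2 ≠ 0 :=
          ContinuousAt.eventually_ne (g := fun p : V2 × X => T 2 i p.2 - p.1 1 * T 0 i p.2)
            ((hc 2).sub ((hf 1).mul (hc 0))) (sub_ne_zero.2 hne)
        filter_upwards [h2, hsrc] with p hp1 hp2 hp3
        exact hp1 (sub_eq_zero.2 (hp3 i hp2).2)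
    have himg : BrC A T = Prod.fst '' S := by
      ext y
      constructor
      · rintro ⟨x, hx1, hx2⟩
        exact ⟨(y, x), ⟨hx2, hx1.2⟩, rfl⟩
      · rintro ⟨⟨y', x⟩, ⟨hx1, hx2⟩, rfl⟩
        refine ⟨x, ⟨fun h0 => ?_, hx2⟩, hx1⟩
        obtain ⟨j, hj⟩ := hT.g1 x
        apply hj
        intro i hi
        have h00 : T 0 i x = 0 := h0 i hi
        have h3 := hx2 i hi
        simp only [h00, mul_zero] at h3
        fin_cases j
        · exact h00
        · exact h3.1
        · exact h3.2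
    rw [himg]
    exact isClosedMap_fst_of_compactSpace _ hSc
  · intro c
    refine ((pen_fin (pen_R hT) c).image (qt A (T 2) (T 0))).subset ?_
    rintro τ ⟨x, ⟨hx0, hx1⟩, hx2⟩
    refine ⟨x, ⟨hx2, hx0, fun i hi => ?_⟩, ?_⟩
    · have := (hx1 i hi).1
      simpa using this
    · have h1 := (hx1 (ci A x) (c1_ci A x)).2
      have h2 : T 0 (ci A x) x ≠ 0 := fun h => hx0 ((zs_iff (hT.ps 0) (c1_ci A x)).2 h)
      unfold qt
      rw [h1]
      simp only [Matrix.cons_val_one, Matrix.cons_val_fin_one]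
      exact mul_div_cancel_right₀ _ h2


end Pool.Agent.GG
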