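import Pool.Agent.Lib_helper82.GG.D.All
import Pool.Agent.Lib_helper80.IS.L.V2
import Pool.Agent.Lib_helper82.GG.P.B1
import Pool.Agent.Lib_helper82.GG.P.C1

set_option autoImplicit false

open Filter Topology Metric Set

namespace Pool.Agent.GG

open Pool.Agent.BR

section

variable {X : Type} [MetricSpace X] [CompactSpace X] {A : Cha V2 X} {b D : ℕ}
  {T : Fin 3 → A.ι → X → ℂ} {T₃ : A.ι → X → ℂ}

theorem sep_ci (A : Cha V2 X) (x : X) : x ∈ (A.ch (ci A x)).source :=
  A.W_sub _ (subset_closure (A.cover x).choose_spec)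

theorem sep_sum {w M : ℕ} {a : Fin M → A.ι → X → ℂ} (ha : ∀ j, IS.PS A w (a j)) (c : Fin M → ℂ) :
    IS.PS A w (fun i x => ∑ j, c j * a j i x) := by
  refine ⟨fun i x hx => ?_, fun i j x hi hj => ?_⟩
  · refine Finset.analyticAt_fun_sum _ fun l _ => ?_
    exact analyticAt_const.mul ((ha l).an i x hx)
  · rw [Finset.mul_sum]
    refine Finset.sum_congr rfl fun l _ => ?_
    rw [(ha l).tr i j x hi hj]; ring

theorem exists_sep [Nonempty X] {M : ℕ} {a : Fin M → A.ι → X → ℂ} (ha : VV A b M a)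
    (hT : Net A b T) (hD : Shts A T D) : ∃ T₃, Sep A b T T₃ := by
  classical
  -- a good point of the plane
  obtain ⟨y, hy⟩ : ∃ y, y ∉ BrC A T := by
    have hfin := (brc_closed hT).2 0
    obtain ⟨τ, hτ⟩ := hfin.infinite_compl.nonempty
    exact ⟨_, hτ⟩
  have hF := hD.fin y hy
  -- the coefficients of the functionals
  let μ : X → X → Fin M → ℂ := fun x x' j =>
    a j (ci A x) x * T 0 (ci A x') x' - a j (ci A x') x' * T 0 (ci A x) x
  have h0 : ∀ x ∈ Fib A T y, T 0 (ci A x) x ≠ 0 := fun x hx h =>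
    hx.1 ((zs_iff (hT.ps 0) (sep_ci A x)).2 h)
  have hμ : ∀ x ∈ Fib A T y, ∀ x' ∈ Fib A T y, x ≠ x' → ∃ j, μ x x' j ≠ 0 := by
    intro x hx x' hx' hne
    by_contra hno
    push Not at hno
    obtain ⟨p, q, hpq⟩ := ha.sep x x' hne (ci A x) (ci A x') (sep_ci A x) (sep_ci A x')
    have hp := sub_eq_zero.1 (hno p)
    have hq := sub_eq_zero.1 (hno q)
    apply hpq
    have t1 := h0 x hx
    have t2 := h0 x' hx'
    have : (a p (ci A x) x * a q (ci A x') x') * (T 0 (ci A x') x' * T 0 (ci A x) x) =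
        (a q (ci A x) x * a p (ci A x') x') * (T 0 (ci A x') x' * T 0 (ci A x) x) := by
      calc (a p (ci A x) x * a q (ci A x') x') * (T 0 (ci A x') x' * T 0 (ci A x) x)
          = (a p (ci A x) x * T 0 (ci A x') x') * (a q (ci A x') x' * T 0 (ci A x) x) := by ring
        _ = (a p (ci A x') x' * T 0 (ci A x) x) * (a q (ci A x) x * T 0 (ci A x') x') := by
            rw [hp, hq]
        _ = _ := by ring
    exact mul_right_cancel₀ (mul_ne_zero t2 t1) this
  let pl : X → X → Polynomial ℂ := fun x x' => ∑ j : Fin M, Polynomial.monomial (j : ℕ) (μ x x' j)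
  have hpl : ∀ x ∈ Fib A T y, ∀ x' ∈ Fib A T y, x ≠ x' → pl x x' ≠ 0 := by
    intro x hx x' hx' hne h
    obtain ⟨j, hj⟩ := hμ x hx x' hx' hne
    apply hj
    have := congrArg (fun p => p.coeff (j : ℕ)) h
    simp only [pl, Polynomial.finset_sum_coeff, Polynomial.coeff_monomial, Polynomial.coeff_zero]
      at this
    rw [Finset.sum_eq_single j] at this
    · simpa using this
    · intro l _ hl
      rw [if_neg]
      exact fun h => hl (Fin.ext h)
    · simp
  -- choose the parameter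
  let R : Set ℂ := ⋃ x ∈ hF.toFinset, ⋃ x' ∈ hF.toFinset, {t | x ≠ x' ∧ (pl x x').IsRoot t}
  have hR : R.Finite := by
    refine Set.Finite.biUnion (Finset.finite_toSet _) fun x hx => ?_
    refine Set.Finite.biUnion (Finset.finite_toSet _) fun x' hx' => ?_
    by_cases hne : x = x'
    · simp [hne]
    · have h1 := hpl x (hF.mem_toFinset.1 hx) x' (hF.mem_toFinset.1 hx') hne
      refine (Polynomial.finite_setOf_isRoot h1).subset ?_
      rintro t ⟨-, ht⟩
      exact ht
  obtain ⟨t, ht⟩ := hR.infinite_compl.nonempty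
  let c : Fin M → ℂ := fun j => t ^ (j : ℕ)
  have hps := sep_sum ha.ps c
  refine ⟨fun i x => ∑ j, c j * a j i x, hps, y, hy, ?_⟩
  intro x hx x' hx' i i' hi hi' heq
  by_contra hne
  apply ht
  refine Set.mem_biUnion (hF.mem_toFinset.2 hx) (Set.mem_biUnion (hF.mem_toFinset.2 hx') ?_)
  refine ⟨hne, ?_⟩
  have e1 := hps.tr i (ci A x) x hi (sep_ci A x)
  have e2 := hps.tr i' (ci A x') x' hi' (sep_ci A x')
  have e3 := (hT.ps 0).tr i (ci A x) x hi (sep_ci A x)
  have e4 := (hT.ps 0).tr i' (ci A x') x' hi' (sep_ci A x')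
  have j1 : IS.jac A i (ci A x) x ≠ 0 := IS.jac_ne hi (sep_ci A x)
  have j2 : IS.jac A i' (ci A x') x' ≠ 0 := IS.jac_ne hi' (sep_ci A x')
  rw [e1, e2, e3, e4] at heq
  have heq' : (∑ j, c j * a j (ci A x) x) * T 0 (ci A x') x' =
      (∑ j, c j * a j (ci A x') x') * T 0 (ci A x) x := by
    have hJ : IS.jac A i (ci A x) x ^ b * IS.jac A i' (ci A x') x' ^ b ≠ 0 :=
      mul_ne_zero (pow_ne_zero _ j1) (pow_ne_zero _ j2)
    refine mul_left_cancel₀ hJ ?_
    linear_combination heq
  have : Polynomial.eval t (pl x x') = (∑ j, c j * a j (ci A x) x) * T 0 (ci A x') x' -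
      (∑ j, c j * a j (ci A x') x') * T 0 (ci A x) x := by
    simp only [pl, Polynomial.eval_finset_sum, Polynomial.eval_monomial, μ, c, Finset.sum_mul]
    rw [← Finset.sum_sub_distrib]
    refine Finset.sum_congr rfl fun j _ => ?_
    ring
  rw [Polynomial.IsRoot, this, heq', sub_self]


end

end Pool.Agent.GG
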