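import Pool.Agent.Lib_helper82.GG.D.All

/-! GG, block F4: admissible frames at a point -/

set_option autoImplicit false

open Filter Topology Metric Set

namespace Pool.Agent.GG

open Pool.Agent.BR

/-- F4 -/
theorem exists_adm {σ : V2 → ℂ} {z : V2} (hd : ∃ j, pd j σ z ≠ 0) : ∃ M, Adm σ z M := by
  by_cases h0 : pd 0 σ z = 0
  · have h1 : pd 1 σ z ≠ 0 := by
      obtain ⟨j, hj⟩ := hd
      fin_cases j
      · exact absurd h0 hj
      · exact hj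
    refine ⟨!![0, - pd 1 σ z; (pd 1 σ z)⁻¹, pd 0 σ z], ?_, ?_, ?_⟩
    · rw [Matrix.det_fin_two_of]
      field_simp
      ring
    · simp
    · simp
  · refine ⟨!![(pd 0 σ z)⁻¹, - pd 1 σ z; 0, pd 0 σ z], ?_, ?_, ?_⟩
    · rw [Matrix.det_fin_two_of]
      field_simp
      ring
    · simp
    · simp

/-- F4: two admissible frames differ by a shear -/
theorem adm_shear {σ : V2 → ℂ} {z : V2} {M M' : Matrix (Fin 2) (Fin 2) ℂ} (h : Adm σ z M)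
    (h' : Adm σ z M') : ∃ s : ℂ, M' = M * !![1, 0; s, 1] := by
  have e1 := h.det
  have e2 := h'.det
  rw [Matrix.det_fin_two] at e1 e2
  have e3 : M' 0 1 = M 0 1 := by rw [h.c0, h'.c0]
  have e4 : M' 1 1 = M 1 1 := by rw [h.c1, h'.c1]
  rw [e3, e4] at e2
  refine ⟨M 0 0 * M' 1 0 - M 1 0 * M' 0 0, ?_⟩
  ext i j
  fin_cases i <;> fin_cases j <;> simp [Matrix.mul_apply, Fin.sum_univ_two, e3, e4]
  · linear_combination M' 0 0 * (-e1) + M 0 0 * e2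
  · linear_combination M' 1 0 * (-e1) + M 1 0 * e2

theorem f4_comp {τ : V2 → ℂ} {Φ : V2 → V2} {z : V2} (hΦ : AnalyticAt ℂ Φ z)
    (hτ : AnalyticAt ℂ τ (Φ z)) (l : Fin 2) : pd l (fun w => τ (Φ w)) z =
      pd 0 τ (Φ z) * Jm Φ z 0 l + pd 1 τ (Φ z) * Jm Φ z 1 l := by
  have h1 : HasFDerivAt (fun w => τ (Φ w)) ((fderiv ℂ τ (Φ z)).comp (fderiv ℂ Φ z)) z :=
    hτ.differentiableAt.hasFDerivAt.comp z hΦ.differentiableAt.hasFDerivAt
  have hF := hΦ.differentiableAt.hasFDerivAt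
  have e0 : ∀ i : Fin 2, ∀ v, fderiv ℂ (fun w => Φ w i) z v = (fderiv ℂ Φ z v) i := by
    intro i v
    rw [((hasFDerivAt_pi'.1 hF) i).fderiv]
    rfl
  have h2 : fderiv ℂ Φ z (Pi.single l (1 : ℂ)) =
      (Jm Φ z 0 l) • (Pi.single 0 (1 : ℂ) : V2) + (Jm Φ z 1 l) • (Pi.single 1 (1 : ℂ) : V2) := by
    ext i
    fin_cases i
    · simp [Jm, pd, e0]
    · simp [Jm, pd, e0]
  have h3 : pd l (fun w => τ (Φ w)) z =
      fderiv ℂ τ (Φ z) (fderiv ℂ Φ z (Pi.single l (1 : ℂ))) := by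
    unfold pd
    rw [h1.fderiv]
    rfl
  rw [h3, h2, map_add, map_smul, map_smul]
  simp only [pd, smul_eq_mul]
  ring

theorem f4_pd_an {f : V2 → ℂ} {z : V2} (hf : AnalyticAt ℂ f z) (j : Fin 2) :
    AnalyticAt ℂ (pd j f) z := by
  unfold pd
  exact (ContinuousLinearMap.apply ℂ ℂ (Pi.single j (1 : ℂ) : V2)).analyticAt _ |>.comp hf.fderiv

theorem f4_det_an {Φ : V2 → V2} {z : V2} (hΦ : AnalyticAt ℂ Φ z) :
    AnalyticAt ℂ (fun w => (Jm Φ w).det) z := by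
  have h : ∀ i j : Fin 2, AnalyticAt ℂ (fun w => Jm Φ w i j) z := by
    intro i j
    exact f4_pd_an (analyticAt_pi_iff.1 hΦ i) j
  have e : (fun w => (Jm Φ w).det) = fun w => Jm Φ w 0 0 * Jm Φ w 1 1 - Jm Φ w 0 1 * Jm Φ w 1 0 := by
    funext w
    rw [Matrix.det_fin_two]
  rw [e]
  exact ((h 0 0).mul (h 1 1)).sub ((h 0 1).mul (h 1 0))

theorem f4_pd {σ τ : V2 → ℂ} {Φ : V2 → V2} {z : V2} {e : ℕ} (hΦ : AnalyticAt ℂ Φ z)
    (hJ : (Jm Φ z).det ≠ 0) (hτ : AnalyticAt ℂ τ (Φ z))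
    (h : ∀ᶠ w in 𝓝 z, σ w = (Jm Φ w).det ^ e * τ (Φ w)) (h0 : σ z = 0) (l : Fin 2) :
    pd l σ z = (Jm Φ z).det ^ e *
      (pd 0 τ (Φ z) * Jm Φ z 0 l + pd 1 τ (Φ z) * Jm Φ z 1 l) := by
  have h1 : τ (Φ z) = 0 := by
    have := h.self_of_nhds
    rw [h0] at this
    rcases mul_eq_zero.1 this.symm with h2 | h2
    · exact absurd h2 (pow_ne_zero _ hJ)
    · exact h2
  have ha : HasFDerivAt (fun w => (Jm Φ w).det ^ e) (fderiv ℂ (fun w => (Jm Φ w).det ^ e) z) z :=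
    ((f4_det_an hΦ).pow e).differentiableAt.hasFDerivAt
  have hb : HasFDerivAt (fun w => τ (Φ w)) (fderiv ℂ (fun w => τ (Φ w)) z) z :=
    (hτ.comp hΦ).differentiableAt.hasFDerivAt
  have hm := ha.mul hb
  have h2 : fderiv ℂ σ z = (Jm Φ z).det ^ e • fderiv ℂ (fun w => τ (Φ w)) z +
      τ (Φ z) • fderiv ℂ (fun w => (Jm Φ w).det ^ e) z := by
    have h3 : σ =ᶠ[𝓝 z] fun w => (Jm Φ w).det ^ e * τ (Φ w) := h
    rw [h3.fderiv_eq]
    exact hm.fderiv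
  rw [← f4_comp hΦ hτ l]
  unfold pd
  rw [h2, h1]
  simp

/-- F4: the change of coordinates -/
theorem adm_tr {σ τ : V2 → ℂ} {Φ : V2 → V2} {z : V2} {e : ℕ} (hΦ : AnalyticAt ℂ Φ z)
    (hJ : (Jm Φ z).det ≠ 0) (hτ : AnalyticAt ℂ τ (Φ z))
    (h : ∀ᶠ w in 𝓝 z, σ w = (Jm Φ w).det ^ e * τ (Φ w)) (h0 : σ z = 0)
    {M N : Matrix (Fin 2) (Fin 2) ℂ} (hM : Adm σ z M) (hN : Adm τ (Φ z) N) :
    ∃ s : ℂ, Jm Φ z * M =
      N * !![((Jm Φ z).det ^ e)⁻¹, 0; s, (Jm Φ z).det ^ (e + 1)] := by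
  have p0 := f4_pd hΦ hJ hτ h h0 0
  have p1 := f4_pd hΦ hJ hτ h h0 1
  have dM := hM.det
  have dN := hN.det
  rw [Matrix.det_fin_two] at dM dN
  have m0 := hM.c0
  have m1 := hM.c1
  have n0 := hN.c0
  have n1 := hN.c1
  rw [p1] at m0
  rw [p0] at m1
  set A := Jm Φ z with hA
  set J := A.det with hJd
  have dA : J = A 0 0 * A 1 1 - A 0 1 * A 1 0 := by rw [hJd, Matrix.det_fin_two]
  set a := pd 0 τ (Φ z) with ha
  set b := pd 1 τ (Φ z) with hb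
  set q := J ^ e with hq
  have hq0 : q ≠ 0 := pow_ne_zero _ hJ
  have hJq : J ^ (e + 1) = J * q := by rw [pow_succ, mul_comm]
  -- the first column of the product
  set X0 := A 0 0 * M 0 0 + A 0 1 * M 1 0 with hX0
  set X1 := A 1 0 * M 0 0 + A 1 1 * M 1 0 with hX1
  have k1 : q * (X0 * N 1 1 - X1 * N 0 1) = 1 := by
    have e1 : J * (q * (X0 * N 1 1 - X1 * N 0 1)) = J * 1 := by
      rw [n0, n1, hX0, hX1]
      rw [m0, m1] at dM
      rw [dA] at *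
      linear_combination (A 0 0 * A 1 1 - A 0 1 * A 1 0) * dM
    exact mul_left_cancel₀ hJ e1
  have k2 : X0 * N 1 1 - X1 * N 0 1 = q⁻¹ := by
    field_simp
    linear_combination k1
  refine ⟨N 0 0 * X1 - N 1 0 * X0, ?_⟩
  rw [hJq]
  ext i j
  fin_cases i <;> fin_cases j <;> simp [Matrix.mul_apply, Fin.sum_univ_two]
  · rw [← k2]
    linear_combination X0 * (-dN)
  · rw [m0, m1, n0, dA]
    ring
  · rw [← k2]
    linear_combination X1 * (-dN)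
  · rw [m0, m1, n1, dA]
    ring

end Pool.Agent.GG

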