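import Pool.Agent.Lib_helper82.GG.D.All
import Pool.Agent.Lib_helper64.SS.B.OSG

/-! Block DIV: division by the equation of a smooth curve. -/

set_option autoImplicit false
set_option linter.unusedVariables false
set_option linter.unusedSectionVars false

open Filter Topology Metric Set
open scoped Nat

namespace Pool.Agent.GG

open Pool.Agent.BR

theorem div_pd_an {f : V2 → ℂ} {z : V2} (j : Fin 2) (hf : AnalyticAt ℂ f z) :
    AnalyticAt ℂ (pd j f) z := by
  have h1 : AnalyticAt ℂ (fderiv ℂ f) z := hf.fderiv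
  have h2 := (ContinuousLinearMap.apply ℂ ℂ (Pi.single j (1 : ℂ) : V2)).analyticAt (fderiv ℂ f z)
  exact h2.comp h1

/-- the map `w ↦ update w j (σ w)` is open at a point where the partial derivative of `σ` does not
vanish -/
theorem div_near {σ : V2 → ℂ} {z : V2} {j : Fin 2} (hσ : AnalyticAt ℂ σ z)
    (hd : pd j σ z ≠ 0) {W : Set V2} (hW : W ∈ 𝓝 z) :
    ∀ᶠ w in 𝓝 (Function.update z j (σ z)), ∃ w' ∈ W, Function.update w' j (σ w') = w := by
  classical
  set D : V2 →L[ℂ] V2 := ContinuousLinearMap.pi fun i =>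
    if i = j then fderiv ℂ σ z else ContinuousLinearMap.proj i with hD
  have h1 : HasStrictFDerivAt (fun w : V2 => (Function.update w j (σ w) : V2)) D z := by
    rw [hasStrictFDerivAt_pi']
    intro i
    by_cases hi : i = j
    · subst hi
      have h2 : (ContinuousLinearMap.proj i).comp D = fderiv ℂ σ z := by
        ext v
        simp [hD]
      rw [h2]
      simpa using hσ.hasStrictFDerivAt
    · have h2 : (ContinuousLinearMap.proj i).comp D = ContinuousLinearMap.proj i := by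
        ext v
        simp [hD, hi]
      rw [h2]
      have h3 : (fun w : V2 => (Function.update w j (σ w) : V2) i) = fun w => w i := by
        funext w
        simp [hi]
      rw [h3]
      exact hasStrictFDerivAt_apply i z
  have h2 : (D : V2 →ₗ[ℂ] V2).range = ⊤ := by
    rw [LinearMap.range_eq_top]
    intro w
    set u : V2 := Function.update w j 0 with hu
    refine ⟨u + ((w j - fderiv ℂ σ z u) / pd j σ z) • (Pi.single j (1 : ℂ) : V2), ?_⟩
    funext i
    by_cases hi : i = j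
    · subst hi
      have h3 : fderiv ℂ σ z (Pi.single i (1 : ℂ)) = pd i σ z := rfl
      have h4 : ∀ x : V2, D x i = fderiv ℂ σ z x := fun x => by simp [hD]
      rw [ContinuousLinearMap.coe_coe, h4, map_add, map_smul, h3, smul_eq_mul]
      field_simp
      ring
    · simp [hD, hi, hu]
  have h3 := h1.map_nhds_eq_of_surj h2
  have h4 : (fun w : V2 => (Function.update w j (σ w) : V2)) '' W ∈
      𝓝 (Function.update z j (σ z) : V2) := by
    rw [← h3]
    exact image_mem_map hW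
  filter_upwards [h4] with w hw
  obtain ⟨w', h5, h6⟩ := hw
  exact ⟨w', h5, h6⟩

/-- the projection on the curve -/
theorem div_proj {σ : V2 → ℂ} {z : V2} {j : Fin 2} (hσ : AnalyticAt ℂ σ z) (h0 : σ z = 0)
    (hd : pd j σ z ≠ 0) {W : Set V2} (hW : W ∈ 𝓝 z) :
    ∀ᶠ z' in 𝓝 z, ∃ w ∈ W, σ w = 0 ∧ ∃ t : ℂ, z' = w + t • (Pi.single j (1 : ℂ) : V2) := by
  have h1 := div_near hσ hd hW
  rw [h0] at h1
  have h2 : Tendsto (fun z' : V2 => (Function.update z' j 0 : V2)) (𝓝 z)
      (𝓝 (Function.update z j 0)) := by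
    have : Continuous fun z' : V2 => (Function.update z' j 0 : V2) :=
      continuous_id.update j continuous_const
    exact this.continuousAt
  filter_upwards [h2.eventually h1] with z' hz
  obtain ⟨w, h3, h4⟩ := hz
  refine ⟨w, h3, ?_, z' j - w j, ?_⟩
  · have := congrFun h4 j
    simpa using this
  · funext i
    by_cases hi : i = j
    · subst hi
      simp
    · have := congrFun h4 i
      simp only [ne_eq, hi, not_false_eq_true, Function.update_of_ne] at this
      simp [hi, this]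

/-- the comparison -/
theorem div_lit {σ g : V2 → ℂ} {z : V2} {j : Fin 2} (hσ : AnalyticAt ℂ σ z) (h0 : σ z = 0)
    (hd : pd j σ z ≠ 0) (hg : AnalyticAt ℂ g z) (h : ∀ᶠ w in 𝓝 z, σ w = 0 → g w = 0)
    {ε : ℝ} (hε : 0 < ε) :
    ∀ᶠ w in 𝓝 z, ‖g w - pd j g z / pd j σ z * σ w‖ ≤ ε * ‖σ w‖ := by
  set c : ℂ := pd j g z / pd j σ z with hc
  set k : V2 → ℂ := fun w => g w - c * σ w with hk
  have hka : AnalyticAt ℂ k z := hg.sub (analyticAt_const.mul hσ)
  have hk0 : fderiv ℂ k z (Pi.single j (1 : ℂ)) = 0 := by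
    have h1 : fderiv ℂ k z = fderiv ℂ g z - c • fderiv ℂ σ z := by
      rw [hk]
      rw [fderiv_fun_sub hg.differentiableAt (hσ.differentiableAt.const_mul c),
        fderiv_const_mul hσ.differentiableAt]
    rw [h1]
    have h2 : fderiv ℂ σ z (Pi.single j (1 : ℂ)) = pd j σ z := rfl
    have h3 : fderiv ℂ g z (Pi.single j (1 : ℂ)) = pd j g z := rfl
    simp only [_root_.sub_apply, _root_.smul_apply, h2, h3, smul_eq_mul, hc]
    field_simp
    ring
  have hb : 0 < ‖pd j σ z‖ := norm_pos_iff.2 hd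
  have hη : 0 < ε * (‖pd j σ z‖ / 2) := by positivity
  obtain ⟨s, hs, hs'⟩ := hka.hasStrictFDerivAt.approximates_deriv_on_nhds
    (c := ⟨ε * (‖pd j σ z‖ / 2), hη.le⟩) (Or.inr hη)
  obtain ⟨t, ht, ht'⟩ := hσ.hasStrictFDerivAt.approximates_deriv_on_nhds
    (c := ⟨‖pd j σ z‖ / 2, (by positivity)⟩) (Or.inr (show (0 : ℝ) < ‖pd j σ z‖ / 2 by positivity))
  have hW : s ∩ t ∩ {w | σ w = 0 → g w = 0} ∈ 𝓝 z := inter_mem (inter_mem hs ht) h
  filter_upwards [div_proj hσ h0 hd hW, hs, ht] with z' hz hzs hzt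
  obtain ⟨w, ⟨⟨hws, hwt⟩, hw⟩, hσw, a, ha⟩ := hz
  have hgw : g w = 0 := hw hσw
  have hkw : k w = 0 := by simp [hk, hgw, hσw]
  have hzw : z' - w = a • (Pi.single j (1 : ℂ) : V2) := by
    rw [ha]; abel
  have hnorm : ‖z' - w‖ = ‖a‖ := by
    rw [hzw, norm_smul, Pi.norm_single]
    simp
  have h1 := hs' z' hzs w hws
  have h2 := ht' z' hzt w hwt
  rw [hkw, sub_zero, hzw, map_smul, hk0, smul_zero, sub_zero, ← hzw, hnorm] at h1
  have h3 : fderiv ℂ σ z (Pi.single j (1 : ℂ)) = pd j σ z := rfl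
  rw [hσw, sub_zero, hzw, map_smul, h3, ← hzw, hnorm] at h2
  have h1' : ‖k z'‖ ≤ ε * (‖pd j σ z‖ / 2) * ‖a‖ := h1
  have h2' : ‖σ z' - a • pd j σ z‖ ≤ ‖pd j σ z‖ / 2 * ‖a‖ := h2
  have h4 : ‖a • pd j σ z‖ ≤ ‖σ z'‖ + ‖pd j σ z‖ / 2 * ‖a‖ := by
    have h5 : a • pd j σ z = σ z' - (σ z' - a • pd j σ z) := by ring
    rw [h5]
    exact (norm_sub_le _ _).trans (by gcongr)
  rw [norm_smul] at h4
  have h6 : ‖pd j σ z‖ / 2 * ‖a‖ ≤ ‖σ z'‖ := by linarith
  calc ‖g z' - c * σ z'‖ = ‖k z'‖ := rfl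
    _ ≤ ε * (‖pd j σ z‖ / 2) * ‖a‖ := h1'
    _ = ε * (‖pd j σ z‖ / 2 * ‖a‖) := by ring
    _ ≤ ε * ‖σ z'‖ := by gcongr

/-- the quotient -/
noncomputable def div_q (j : Fin 2) (σ g : V2 → ℂ) (z : V2) : ℂ :=
  open Classical in if σ z = 0 then pd j g z / pd j σ z else g z / σ z

theorem div_q_cont {σ g : V2 → ℂ} {z : V2} {j : Fin 2} (hσ : AnalyticAt ℂ σ z)
    (hd : pd j σ z ≠ 0) (hg : AnalyticAt ℂ g z) (h : ∀ᶠ w in 𝓝 z, σ w = 0 → g w = 0) :
    ContinuousAt (div_q j σ g) z := by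
  by_cases h0 : σ z = 0
  · rw [Metric.continuousAt_iff']
    intro ε hε
    have h1 : ContinuousAt (fun w => pd j g w / pd j σ w) z :=
      (div_pd_an j hg).continuousAt.div (div_pd_an j hσ).continuousAt hd
    have h2 := Metric.continuousAt_iff'.1 h1 ε hε
    have h3 := div_lit hσ h0 hd hg h (half_pos hε)
    have h4 : div_q j σ g z = pd j g z / pd j σ z := by simp [div_q, h0]
    filter_upwards [h2, h3] with w hw1 hw2
    rw [h4]
    by_cases hw : σ w = 0
    · rw [div_q, if_pos hw]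
      exact hw1
    · rw [div_q, if_neg hw, dist_eq_norm]
      have h5 : 0 < ‖σ w‖ := norm_pos_iff.2 hw
      have h6 : g w / σ w - pd j g z / pd j σ z = (g w - pd j g z / pd j σ z * σ w) / σ w := by
        field_simp
      rw [h6, norm_div, div_lt_iff₀ h5]
      have : ε / 2 * ‖σ w‖ < ε * ‖σ w‖ := by
        apply mul_lt_mul_of_pos_right _ h5
        linarith
      exact lt_of_le_of_lt hw2 this
  · have h1 : ∀ᶠ w in 𝓝 z, σ w ≠ 0 := hσ.continuousAt.eventually_ne h0
    have h2 : (fun w => g w / σ w) =ᶠ[𝓝 z] div_q j σ g := by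
      filter_upwards [h1] with w hw
      rw [div_q, if_neg hw]
    exact (hg.continuousAt.div hσ.continuousAt h0).congr h2

theorem div_q_an {σ g : V2 → ℂ} {z : V2} {j : Fin 2} (hσ : AnalyticAt ℂ σ z)
    (h0 : σ z ≠ 0) (hg : AnalyticAt ℂ g z) : AnalyticAt ℂ (div_q j σ g) z := by
  have h1 : ∀ᶠ w in 𝓝 z, σ w ≠ 0 := hσ.continuousAt.eventually_ne h0
  have h2 : (fun w => g w / σ w) =ᶠ[𝓝 z] div_q j σ g := by
    filter_upwards [h1] with w hw
    rw [div_q, if_neg hw]
  exact (hg.div hσ h0).congr h2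

theorem div_q_line {σ g : V2 → ℂ} {U : Set V2} {j : Fin 2} (hU : IsOpen U)
    (hσ : ∀ z ∈ U, AnalyticAt ℂ σ z) (hd : ∀ z ∈ U, pd j σ z ≠ 0)
    (hg : ∀ z ∈ U, AnalyticAt ℂ g z) (h : ∀ w ∈ U, σ w = 0 → g w = 0) (x : V2) (hx : x ∈ U)
    (v : V2) : DifferentiableAt ℂ (fun t : ℂ => div_q j σ g (x + t • v)) 0 := by
  have hl : ∀ t : ℂ, AnalyticAt ℂ (fun t : ℂ => x + t • v) t := fun t =>
    analyticAt_const.add (analyticAt_id.smul analyticAt_const)
  have hx0 : x + (0 : ℂ) • v = x := by simp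
  have hUev : ∀ᶠ t in 𝓝 (0 : ℂ), x + t • v ∈ U := by
    have h1 : ContinuousAt (fun t : ℂ => x + t • v) 0 := (hl 0).continuousAt
    have h2 : U ∈ 𝓝 (x + (0 : ℂ) • v) := by rw [hx0]; exact hU.mem_nhds hx
    exact h1 h2
  have hcomp : ∀ {f : V2 → ℂ} {t : ℂ}, AnalyticAt ℂ f (x + t • v) →
      AnalyticAt ℂ (fun t : ℂ => f (x + t • v)) t := fun {f t} hf =>
    AnalyticAt.comp (g := f) (f := fun t : ℂ => x + t • v) (x := t) hf (hl t)
  by_cases h0 : σ x = 0
  · have hs : AnalyticAt ℂ (fun t : ℂ => σ (x + t • v)) 0 := hcomp (by rw [hx0]; exact hσ x hx)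
    rcases hs.eventually_eq_zero_or_eventually_ne_zero with h1 | h1
    · have h2 : AnalyticAt ℂ (fun t : ℂ => pd j g (x + t • v) / pd j σ (x + t • v)) 0 := by
        apply AnalyticAt.div
        · exact hcomp (by rw [hx0]; exact div_pd_an j (hg x hx))
        · exact hcomp (by rw [hx0]; exact div_pd_an j (hσ x hx))
        · rw [hx0]; exact hd x hx
      refine h2.differentiableAt.congr_of_eventuallyEq ?_
      filter_upwards [h1] with t ht
      rw [div_q, if_pos ht]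
    · refine (Complex.analyticAt_of_differentiable_on_punctured_nhds_of_continuousAt ?_
        ?_).differentiableAt
      · filter_upwards [h1, hUev.filter_mono nhdsWithin_le_nhds] with t ht htU
        exact (hcomp (div_q_an (hσ _ htU) ht (hg _ htU))).differentiableAt
      · have h2 : ContinuousAt (div_q j σ g) x :=
          div_q_cont (hσ x hx) (hd x hx) (hg x hx) (by
            filter_upwards [hU.mem_nhds hx] with w hw using h w hw)
        have h3 : ContinuousAt (fun t : ℂ => x + t • v) 0 := (hl 0).continuousAt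
        refine ContinuousAt.comp (f := fun t : ℂ => x + t • v) (g := div_q j σ g) (x := (0 : ℂ)) ?_
          h3
        simpa using h2
  · exact (hcomp (div_q_an (by rw [hx0]; exact hσ x hx) (by rw [hx0]; exact h0)
      (by rw [hx0]; exact hg x hx))).differentiableAt

section div

variable {T : Fin 3 → V2 → ℂ} {z₀ : V2}

/-- DIV: division by the equation of a smooth curve -/
theorem div_smooth {σ g : V2 → ℂ} (hσ : AnalyticAt ℂ σ z₀) (h0 : σ z₀ = 0)
    (hd : ∃ j, pd j σ z₀ ≠ 0) (hg : AnalyticAt ℂ g z₀)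
    (h : ∀ᶠ z in 𝓝[≠] z₀, σ z = 0 → g z = 0) :
    ∃ g' : V2 → ℂ, AnalyticAt ℂ g' z₀ ∧ ∀ᶠ z in 𝓝 z₀, g z = σ z * g' z := by
  obtain ⟨j, hj⟩ := hd
  -- `g` vanishes at `z₀`
  have hgz : g z₀ = 0 := by
    by_contra hne
    have h1 : ∀ᶠ z in 𝓝 z₀, g z ≠ 0 := hg.continuousAt.eventually_ne hne
    rw [eventually_nhdsWithin_iff] at h
    have hW : {z | (z ∈ ({z₀}ᶜ : Set V2) → σ z = 0 → g z = 0) ∧ g z ≠ 0} ∈ 𝓝 z₀ := h.and h1
    have h2 := div_proj hσ h0 hj hW
    -- the other coordinate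
    obtain ⟨i, hi⟩ : ∃ i : Fin 2, i ≠ j := by
      fin_cases j
      · exact ⟨1, by decide⟩
      · exact ⟨0, by decide⟩
    have h3 : Tendsto (fun t : ℂ => z₀ + t • (Pi.single i (1 : ℂ) : V2)) (𝓝[≠] 0) (𝓝 z₀) := by
      have h4 : ContinuousAt (fun t : ℂ => z₀ + t • (Pi.single i (1 : ℂ) : V2)) 0 := by fun_prop
      have h5 : Tendsto (fun t : ℂ => z₀ + t • (Pi.single i (1 : ℂ) : V2)) (𝓝 0)
          (𝓝 (z₀ + (0 : ℂ) • (Pi.single i (1 : ℂ) : V2))) := h4
      rw [zero_smul, add_zero] at h5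
      exact h5.mono_left nhdsWithin_le_nhds
    have h4 := (h3.eventually h2).and self_mem_nhdsWithin
    obtain ⟨t, ⟨w, ⟨hw1, hw2⟩, hσw, a, ha⟩, ht⟩ := h4.exists
    have hwz : w ≠ z₀ := by
      intro hwz
      have h5 := congrFun ha i
      rw [hwz] at h5
      have h6 : (Pi.single j (1 : ℂ) : V2) i = 0 := Pi.single_eq_of_ne hi _
      simp only [Pi.add_apply, Pi.smul_apply, Pi.single_eq_same, smul_eq_mul, mul_one, h6,
        mul_zero, add_zero] at h5
      exact ht (by simpa using h5)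
    exact hw2 (hw1 hwz hσw)
  have h' : ∀ᶠ z in 𝓝 z₀, σ z = 0 → g z = 0 := by
    rw [eventually_nhdsWithin_iff] at h
    filter_upwards [h] with z hz hσz
    by_cases hzz : z = z₀
    · rw [hzz]; exact hgz
    · exact hz hzz hσz
  have h1 : ∀ᶠ z in 𝓝 z₀, AnalyticAt ℂ σ z := hσ.eventually_analyticAt
  have h2 : ∀ᶠ z in 𝓝 z₀, AnalyticAt ℂ g z := hg.eventually_analyticAt
  have h3 : ∀ᶠ z in 𝓝 z₀, pd j σ z ≠ 0 := (div_pd_an j hσ).continuousAt.eventually_ne hj
  obtain ⟨U, hUsub, hU, hzU⟩ :=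
    _root_.eventually_nhds_iff.1 (((h1.and h2).and h3).and h')
  have hAn : AnalyticOnNhd ℂ (div_q j σ g) U := by
    refine Pool.Agent.SS.osgood hU ?_ ?_
    · intro x hx
      refine ContinuousAt.continuousWithinAt ?_
      refine div_q_cont (hUsub x hx).1.1.1 (hUsub x hx).1.2 (hUsub x hx).1.1.2 ?_
      filter_upwards [hU.mem_nhds hx] with w hw using (hUsub w hw).2
    · intro x hx v
      exact div_q_line hU (fun z hz => (hUsub z hz).1.1.1) (fun z hz => (hUsub z hz).1.2)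
        (fun z hz => (hUsub z hz).1.1.2) (fun z hz => (hUsub z hz).2) x hx v
  refine ⟨div_q j σ g, hAn z₀ hzU, ?_⟩
  filter_upwards [hU.mem_nhds hzU] with z hz
  by_cases hz0 : σ z = 0
  · rw [hz0, zero_mul]
    exact (hUsub z hz).2 hz0
  · rw [div_q, if_neg hz0]
    field_simp


end div

end Pool.Agent.GG
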