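import Pool.Agent.Lib_helper82.GG.D.All
import Pool.Agent.Lib_helper82.GG.P.DIV
import Pool.Agent.Lib_helper82.GG.P.F2
import Pool.Agent.Lib_helper82.GG.P.O2

set_option autoImplicit false
set_option linter.unusedVariables false
set_option linter.unusedSectionVars false

open Filter Topology Metric Set
open scoped Nat

namespace Pool.Agent.GG

open Pool.Agent.BR

variable {T : Fin 3 → V2 → ℂ} {z₀ : V2}

/-- F3: the orders along `T 0 = 0` and `δ = 0` are local: the other section is a unit -/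
theorem oo_unit_dl (hT : ∀ j, AnalyticAt ℂ (T j) z₀) (h : dl T z₀ ≠ 0) {r s s' : ℤ}
    {f : V2 → ℂ} (hf : OO T z₀ r s f) : OO T z₀ r s' f := by
  obtain ⟨g, hg, he⟩ := hf
  have h0 : AnalyticAt ℂ (fun z => dl T z ^ (s - s')) z₀ := (dl_an hT).zpow h
  refine ⟨fun z => dl T z ^ (s - s') * g z, h0.mul hg, ?_⟩
  filter_upwards [he] with z hz hG
  rw [hz hG]
  have h1 : dl T z ≠ 0 := hG.2
  have h2 : dl T z ^ s = dl T z ^ s' * dl T z ^ (s - s') := by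
    rw [← zpow_add₀ h1]
    congr 1
    ring
  rw [h2]
  ring

/-- F3 -/
theorem oo_unit_T (hT : ∀ j, AnalyticAt ℂ (T j) z₀) (h : T 0 z₀ ≠ 0) {r r' s : ℤ}
    {f : V2 → ℂ} (hf : OO T z₀ r s f) : OO T z₀ r' s f := by
  obtain ⟨g, hg, he⟩ := hf
  have h0 : AnalyticAt ℂ (fun z => T 0 z ^ (r - r')) z₀ := (hT 0).zpow h
  refine ⟨fun z => T 0 z ^ (r - r') * g z, h0.mul hg, ?_⟩
  filter_upwards [he] with z hz hG
  rw [hz hG]
  have h1 : T 0 z ≠ 0 := hG.1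
  have h2 : T 0 z ^ r = T 0 z ^ r' * T 0 z ^ (r - r') := by
    rw [← zpow_add₀ h1]
    congr 1
    ring
  rw [h2]
  ring

/-- F3: propagation to the nearby points -/
theorem oo_near {r s : ℤ} {f : V2 → ℂ} (hf : OO T z₀ r s f) :
    ∀ᶠ z in 𝓝 z₀, OO T z r s f := by
  obtain ⟨g, hg, he⟩ := hf
  filter_upwards [hg.eventually_analyticAt, he.eventually_nhds] with z h1 h2
  exact ⟨g, h1, h2⟩

/-- F3: division: if the values vanish along `T 0 = 0` then the pole order drops -/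
theorem oo_div_T (hT : ∀ j, AnalyticAt ℂ (T j) z₀) (h0 : T 0 z₀ = 0)
    (hp : ∃ j, pd j (T 0) z₀ ≠ 0) (hd : ∀ᶠ z in 𝓝 z₀, (𝓝[Gd T] z).NeBot) {r s : ℤ} {f : V2 → ℂ}
    (hf : OO T z₀ r s f) (h : ∀ᶠ z in 𝓝[≠] z₀, T 0 z = 0 → vl T r s f z = 0) :
    OO T z₀ (r + 1) s f := by
  obtain ⟨g, hg, he, hv⟩ := vl_an hd hf
  obtain ⟨g', hg', hd'⟩ := div_smooth (hT 0) h0 hp hg (by
    filter_upwards [h, hv.filter_mono nhdsWithin_le_nhds] with z h1 h2 h3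
    rw [← h2]
    exact h1 h3)
  refine ⟨g', hg', ?_⟩
  filter_upwards [he, hd'] with z h1 h2 h3
  rw [h1 h3, h2, zpow_add_one₀ h3.1]
  ring

/-- F3 -/
theorem oo_div_dl (hT : ∀ j, AnalyticAt ℂ (T j) z₀) (h0 : dl T z₀ = 0)
    (hp : ∃ j, pd j (dl T) z₀ ≠ 0) (hd : ∀ᶠ z in 𝓝 z₀, (𝓝[Gd T] z).NeBot) {r s : ℤ} {f : V2 → ℂ}
    (hf : OO T z₀ r s f) (h : ∀ᶠ z in 𝓝[≠] z₀, dl T z = 0 → vl T r s f z = 0) :
    OO T z₀ r (s + 1) f := by
  obtain ⟨g, hg, he, hv⟩ := vl_an hd hf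
  obtain ⟨g', hg', hd'⟩ := div_smooth (dl_an hT) h0 hp hg (by
    filter_upwards [h, hv.filter_mono nhdsWithin_le_nhds] with z h1 h2 h3
    rw [← h2]
    exact h1 h3)
  refine ⟨g', hg', ?_⟩
  filter_upwards [he, hd'] with z h1 h2 h3
  rw [h1 h3, h2, zpow_add_one₀ h3.2]
  ring

end Pool.Agent.GG

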