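import Pool.Agent.Lib_helper82.GG.D.All
import Pool.Agent.Lib_helper82.GG.P.J6c

set_option autoImplicit false

open Filter Topology Metric Set

namespace Pool.Agent.GG

variable {k : ℕ}

theorem j6d_diag (g : Fin 2 → ℂ) (Q : JP k) (t : Fin 2 × Fin k →₀ ℕ) :
    (Ls k (Matrix.diagonal g) Q).coeff t = (∏ v, g v.1 ^ t v) * Q.coeff t := by
  classical
  have hX : ∀ v : Fin 2 × Fin k, (∑ j, MvPolynomial.C (Matrix.diagonal g v.1 j) *
      MvPolynomial.X (j, v.2) : JP k) = MvPolynomial.C (g v.1) * MvPolynomial.X v := by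
    intro v
    rw [Finset.sum_eq_single v.1]
    · rw [Matrix.diagonal_apply_eq]
    · intro j _ hj
      rw [Matrix.diagonal_apply_ne _ (Ne.symm hj)]
      simp
    · simp
  have hm : ∀ (s : Fin 2 × Fin k →₀ ℕ) (c : ℂ), Ls k (Matrix.diagonal g)
      (MvPolynomial.monomial s c) = MvPolynomial.C (∏ v, g v.1 ^ s v) * MvPolynomial.monomial s c := by
    intro s c
    unfold Ls
    rw [MvPolynomial.aeval_monomial, MvPolynomial.monomial_eq, MvPolynomial.algebraMap_eq]
    simp only [hX]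
    rw [Finsupp.prod_fintype _ _ (by simp), Finsupp.prod_fintype _ _ (by simp)]
    simp only [mul_pow, Finset.prod_mul_distrib, map_prod, map_pow]
    ring
  conv_lhs => rw [Q.as_sum]
  rw [map_sum, MvPolynomial.coeff_sum]
  simp only [hm, MvPolynomial.coeff_C_mul, MvPolynomial.coeff_monomial]
  rw [Finset.sum_eq_single t]
  · simp
  · intro s _ hs
    simp [hs]
  · intro ht
    rw [MvPolynomial.notMem_support_iff.1 ht]
    simp

theorem ls_scale (M : Matrix (Fin 2) (Fin 2) ℂ) (g₁ g₂ : ℂ) (P : JP k)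
    (t : Fin 2 × Fin k →₀ ℕ) :
    (Ls k (M * Matrix.diagonal ![g₁, g₂]) P).coeff t =
      g₁ ^ nj 0 t * g₂ ^ nj 1 t * (Ls k M P).coeff t := by
  rw [← ls_mul, j6d_diag]
  congr 1
  rw [Fintype.prod_prod_type, Fin.prod_univ_two]
  simp only [Matrix.cons_val_zero, Matrix.cons_val_one, Finset.prod_pow_eq_pow_sum]
  rfl

/-- the polynomials of degree `d` with more than `p` variables of the first component -/
def j6d_S (d p : ℕ) (Q : JP k) : Prop := ∀ t, Q.coeff t ≠ 0 → dg (⇑t) = d ∧ p < nj 0 (⇑t)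

theorem j6d_add {d p : ℕ} {P Q : JP k} (hP : j6d_S d p P) (hQ : j6d_S d p Q) :
    j6d_S d p (P + Q) := by
  intro t ht
  rw [MvPolynomial.coeff_add] at ht
  by_cases h : P.coeff t = 0
  · exact hQ t (by rwa [h, zero_add] at ht)
  · exact hP t h

theorem j6d_dg (t : Fin 2 × Fin k →₀ ℕ) (v : Fin 2 × Fin k) :
    dg (⇑(t + Finsupp.single v 1 : Fin 2 × Fin k →₀ ℕ)) = dg ⇑t + 1 := by
  classical
  simp only [dg, Finsupp.coe_add, Pi.add_apply, Finset.sum_add_distrib, Finsupp.single_apply]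
  rw [Finset.sum_ite_eq Finset.univ v (fun _ => 1)]
  simp

theorem j6d_nj (t : Fin 2 × Fin k →₀ ℕ) (v : Fin 2 × Fin k) :
    nj 0 (⇑(t + Finsupp.single v 1 : Fin 2 × Fin k →₀ ℕ)) = nj 0 ⇑t + (if v.1 = 0 then 1 else 0) := by
  classical
  simp only [nj, Finsupp.coe_add, Pi.add_apply, Finset.sum_add_distrib, Finsupp.single_apply]
  congr 1
  by_cases h : v.1 = 0
  · rw [if_pos h, Finset.sum_eq_single v.2]
    · rw [if_pos]
      exact Prod.ext h rfl
    · intro l _ hl
      rw [if_neg]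
      intro h'
      exact hl (congrArg Prod.snd h').symm
    · simp
  · rw [if_neg h]
    refine Finset.sum_eq_zero fun l _ => ?_
    rw [if_neg]
    intro h'
    exact h (congrArg Prod.fst h')

theorem j6d_mulX {d p : ℕ} {Q : JP k} (hQ : j6d_S d p Q) (v : Fin 2 × Fin k) :
    j6d_S (d + 1) (p + if v.1 = 0 then 1 else 0) (Q * MvPolynomial.X v) := by
  classical
  intro t ht
  rw [MvPolynomial.coeff_mul_X'] at ht
  split_ifs at ht with hv
  · obtain ⟨h1, h2⟩ := hQ _ ht
    have hle : Finsupp.single v 1 ≤ t := by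
      rw [Finsupp.single_le_iff]
      exact Nat.one_le_iff_ne_zero.2 (Finsupp.mem_support_iff.1 hv)
    have ht' : t - Finsupp.single v 1 + Finsupp.single v 1 = t := tsub_add_cancel_of_le hle
    have e1 := j6d_dg (t - Finsupp.single v 1) v
    have e2 := j6d_nj (t - Finsupp.single v 1) v
    rw [ht'] at e1 e2
    refine ⟨by omega, ?_⟩
    split_ifs at e2 ⊢ <;> omega
  · exact absurd rfl ht

theorem j6d_mono {d p p' : ℕ} (h : p' ≤ p) {Q : JP k} (hQ : j6d_S d p Q) : j6d_S d p' Q :=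
  fun t ht => ⟨(hQ t ht).1, lt_of_le_of_lt h (hQ t ht).2⟩

theorem j6d_C {d p : ℕ} (c : ℂ) {Q : JP k} (hQ : j6d_S d p Q) :
    j6d_S d p (MvPolynomial.C c * Q) := by
  intro t ht
  rw [MvPolynomial.coeff_C_mul] at ht
  exact hQ t (right_ne_zero_of_mul ht)

theorem j6d_main (s : ℂ) (n : ℕ) : ∀ t : Fin 2 × Fin k →₀ ℕ, dg ⇑t = n →
    ∃ E : JP k, Ls k !![1, 0; s, 1] (MvPolynomial.monomial t 1) = MvPolynomial.monomial t 1 + E ∧
      j6d_S (dg ⇑t) (nj 0 ⇑t) E := by
  classical
  induction n with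
  | zero =>
    intro t ht
    have ht0 : t = 0 := by
      ext v
      have : t v ≤ dg ⇑t := Finset.single_le_sum (f := fun v => t v)
        (fun _ _ => Nat.zero_le _) (Finset.mem_univ v)
      simp only [Finsupp.coe_zero, Pi.zero_apply]
      omega
    subst ht0
    refine ⟨0, ?_, fun t ht => absurd (MvPolynomial.coeff_zero t) ht⟩
    have : (MvPolynomial.monomial (0 : Fin 2 × Fin k →₀ ℕ) (1 : ℂ)) = 1 := rfl
    rw [this, map_one, add_zero]
  | succ n ih =>
    intro t ht
    obtain ⟨v, hv⟩ : ∃ v, t v ≠ 0 := by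
      by_contra hno
      push Not at hno
      have : dg ⇑t = 0 := Finset.sum_eq_zero fun v _ => hno v
      omega
    have hle : Finsupp.single v 1 ≤ t := by
      rw [Finsupp.single_le_iff]
      exact Nat.one_le_iff_ne_zero.2 hv
    set t₀ : Fin 2 × Fin k →₀ ℕ := t - Finsupp.single v 1 with ht₀
    have ht' : t₀ + Finsupp.single v 1 = t := tsub_add_cancel_of_le hle
    have e1 := j6d_dg t₀ v
    have e2 := j6d_nj t₀ v
    rw [ht'] at e1 e2
    obtain ⟨E, hE, hES⟩ := ih t₀ (by omega)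
    have hmon : (MvPolynomial.monomial t (1 : ℂ)) = MvPolynomial.monomial t₀ 1 * MvPolynomial.X v := by
      rw [MvPolynomial.X, MvPolynomial.monomial_mul, ht', one_mul]
    rw [e1, e2]
    rcases v with ⟨j, l⟩
    have hX : Ls k !![1, 0; s, 1] (MvPolynomial.X (j, l)) =
        ∑ i, MvPolynomial.C (!![1, 0; s, 1] j i) * MvPolynomial.X (i, l) := by
      simp [Ls]
    rw [Fin.sum_univ_two] at hX
    have hsing : j6d_S (dg ⇑t₀ + 1) (nj 0 ⇑t₀)
        (MvPolynomial.monomial t₀ (1 : ℂ) * MvPolynomial.X ((0 : Fin 2), l)) := by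
      intro t' ht'
      rw [MvPolynomial.X, MvPolynomial.monomial_mul, MvPolynomial.coeff_monomial] at ht'
      split_ifs at ht' with h
      · rw [← h]
        refine ⟨j6d_dg _ _, ?_⟩
        rw [j6d_nj]
        simp
      · exact absurd rfl ht'
    fin_cases j
    · refine ⟨E * MvPolynomial.X (0, l), ?_, ?_⟩
      · rw [hmon, map_mul, hE, hX]
        simp
        ring
      · have := j6d_mulX hES ((0 : Fin 2), l)
        exact this
    · refine ⟨E * MvPolynomial.X (1, l) + MvPolynomial.C s * (E * MvPolynomial.X (0, l) +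
        MvPolynomial.monomial t₀ (1 : ℂ) * MvPolynomial.X (0, l)), ?_, ?_⟩
      · rw [hmon, map_mul, hE, hX]
        simp
        ring
      · have h1 := j6d_mulX hES ((1 : Fin 2), l)
        have h2 := j6d_mulX hES ((0 : Fin 2), l)
        simp only [one_ne_zero, if_false, add_zero, if_true] at h1 h2
        have h3 := j6d_add h1 (j6d_C s (j6d_add (j6d_mono (Nat.le_succ _) h2) hsing))
        exact h3

theorem ls_shear (s : ℂ) (P : JP k) (t : Fin 2 × Fin k →₀ ℕ)
    (h : ∀ t' : Fin 2 × Fin k →₀ ℕ, dg t' = dg t → nj 0 t' < nj 0 t → P.coeff t' = 0) :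
    (Ls k !![1, 0; s, 1] P).coeff t = P.coeff t := by
  classical
  choose E hE hES using fun t' : Fin 2 × Fin k →₀ ℕ => j6d_main s _ t' rfl
  have hm : ∀ (t' : Fin 2 × Fin k →₀ ℕ) (c : ℂ), Ls k !![1, 0; s, 1] (MvPolynomial.monomial t' c) =
      MvPolynomial.monomial t' c + MvPolynomial.C c * E t' := by
    intro t' c
    have : MvPolynomial.monomial t' c = MvPolynomial.C c * MvPolynomial.monomial t' 1 := by
      rw [MvPolynomial.C_mul_monomial, mul_one]
    rw [this, map_mul, hE, MvPolynomial.algHom_C, MvPolynomial.algebraMap_eq]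
    ring
  conv_lhs => rw [P.as_sum]
  conv_rhs => rw [P.as_sum]
  rw [map_sum, MvPolynomial.coeff_sum, MvPolynomial.coeff_sum]
  refine Finset.sum_congr rfl fun t' ht' => ?_
  rw [hm, MvPolynomial.coeff_add, MvPolynomial.coeff_C_mul]
  have : P.coeff t' * (E t').coeff t = 0 := by
    by_cases h0 : (E t').coeff t = 0
    · rw [h0, mul_zero]
    · obtain ⟨h1, h2⟩ := hES t' t h0
      rw [h t' h1.symm h2, zero_mul]
  rw [this, add_zero]


end Pool.Agent.GG
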