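import Pool.Agent.Lib_helper82.GG.D.All
import Pool.Agent.Lib_helper82.GG.P.F4
import Pool.Agent.Lib_helper82.GG.P.J6c
import Pool.Agent.Lib_helper82.GG.P.J6d

/-! GG block F5: triangular substitutions -/

set_option autoImplicit false

open Filter Topology Metric Set
open scoped Nat

namespace Pool.Agent.GG

open Pool.Agent.BR

section loc

variable {k m n : ℕ} {T : Fin 3 → V2 → ℂ} {z₀ : V2}

theorem f5_mat {α β s : ℂ} (hα : α ≠ 0) :
    (!![α, 0; s, β] : Matrix (Fin 2) (Fin 2) ℂ) =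
      !![1, 0; s / α, 1] * Matrix.diagonal ![α, β] := by
  ext i j
  fin_cases i <;> fin_cases j <;> simp [Matrix.mul_apply, Matrix.diagonal, hα]

theorem f5_shear (s : ℂ) (M : Matrix (Fin 2) (Fin 2) ℂ) (P : JP k) (t : Fin 2 × Fin k →₀ ℕ)
    (h : ∀ t' : Fin 2 × Fin k →₀ ℕ, dg t' = dg t → nj 0 t' < nj 0 t →
      (Ls k M P).coeff t' = 0) :
    (Ls k (M * !![1, 0; s, 1]) P).coeff t = (Ls k M P).coeff t := by
  rw [← ls_mul]
  exact ls_shear s (Ls k M P) t h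

theorem ls_tri {α β s : ℂ} (hα : α ≠ 0) (M : Matrix (Fin 2) (Fin 2) ℂ) (P : JP k)
    (t : Fin 2 × Fin k →₀ ℕ) (h : ∀ t' : Fin 2 × Fin k →₀ ℕ, dg t' = dg t → nj 0 t' < nj 0 t →
      (Ls k M P).coeff t' = 0) :
    (Ls k (M * !![α, 0; s, β]) P).coeff t =
      α ^ nj 0 t * β ^ nj 1 t * (Ls k M P).coeff t := by
  rw [f5_mat hα, ← Matrix.mul_assoc, ls_scale, f5_shear (s / α) M P t h]

theorem adm_indep {σ : V2 → ℂ} {z : V2} {M M' : Matrix (Fin 2) (Fin 2) ℂ} (h : Adm σ z M)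
    (h' : Adm σ z M') (P : JP k) (n p : ℕ)
    (h0 : ∀ t : Fin 2 × Fin k →₀ ℕ, dg t = n → nj 0 t < p → (Ls k M P).coeff t = 0) :
    (∀ t : Fin 2 × Fin k →₀ ℕ, dg t = n → nj 0 t < p → (Ls k M' P).coeff t = 0) ∧
    ∀ t : Fin 2 × Fin k →₀ ℕ, dg t = n → nj 0 t = p →
      (Ls k M' P).coeff t = (Ls k M P).coeff t := by
  obtain ⟨s, rfl⟩ := adm_shear h h'
  constructor
  · intro t ht htp
    rw [f5_shear s M P t fun t' h1 h2 => h0 t' (h1.trans ht) (h2.trans htp)]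
    exact h0 t ht htp
  · intro t ht htp
    exact f5_shear s M P t fun t' h1 h2 => h0 t' (h1.trans ht) (htp ▸ h2)

theorem adm_zero {σ : V2 → ℂ} {z : V2} {M : Matrix (Fin 2) (Fin 2) ℂ} (h : Adm σ z M) (P : JP k)
    (hP : ∀ t : Fin 2 × Fin k →₀ ℕ, (Ls k M P).coeff t = 0) : P = 0 := by
  have h0 : Ls k M P = 0 := MvPolynomial.ext _ _ fun t => by rw [hP t, MvPolynomial.coeff_zero]
  have hu : IsUnit M.det := by rw [h.det]; exact isUnit_one
  calc P = Ls k 1 P := (ls_one P).symm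
    _ = Ls k (M * M⁻¹) P := by rw [Matrix.mul_nonsing_inv M hu]
    _ = Ls k M⁻¹ (Ls k M P) := (ls_mul _ _ _).symm
    _ = 0 := by rw [h0, map_zero]

end loc


end Pool.Agent.GG
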