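import Pool.Agent.Lib_helper82.GG.D.All
import Pool.Agent.Lib_helper82.GG.P.J1

set_option autoImplicit false

open Filter Topology Metric Set
open scoped Nat

namespace Pool.Agent.GG

open Pool.Agent.BR

section jets

variable {k : ℕ}

theorem j6b_dg_add (s t : Fin 2 × Fin k →₀ ℕ) : dg (s + t : Fin 2 × Fin k →₀ ℕ) = dg s + dg t := by
  unfold dg
  rw [← Finset.sum_add_distrib]
  rfl

theorem j6b_dg (t : Fin 2 × Fin k →₀ ℕ) : t.degree = dg t := by
  rw [Finsupp.degree_eq_sum]
  rfl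

theorem j6b_lo_mul {a b : ℕ} {P Q : JP k} (hP : Lo a P) (hQ : Lo b Q) : Lo (a + b) (P * Q) := by
  classical
  intro t ht
  rw [MvPolynomial.coeff_mul] at ht
  obtain ⟨x, hx, hx'⟩ := Finset.exists_ne_zero_of_sum_ne_zero ht
  rw [Finset.HasAntidiagonal.mem_antidiagonal] at hx
  have h1 := hP x.1 (left_ne_zero_of_mul hx')
  have h2 := hQ x.2 (right_ne_zero_of_mul hx')
  rw [← hx, j6b_dg_add]
  omega

theorem j6b_lo_add {a : ℕ} {P Q : JP k} (hP : Lo a P) (hQ : Lo a Q) : Lo a (P + Q) := by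
  intro t ht
  rw [MvPolynomial.coeff_add] at ht
  by_cases h : P.coeff t = 0
  · rw [h, zero_add] at ht
    exact hQ t ht
  · exact hP t h

theorem j6b_lo_zero (P : JP k) : Lo 0 P := fun _ _ => Nat.zero_le _

theorem j6b_lo_sum {ι : Type} (S : Finset ι) (P : ι → JP k) (a : ℕ)
    (h : ∀ i ∈ S, Lo a (P i)) : Lo a (∑ i ∈ S, P i) := by
  classical
  intro t ht
  rw [MvPolynomial.coeff_sum] at ht
  obtain ⟨i, hi, hi'⟩ := Finset.exists_ne_zero_of_sum_ne_zero ht
  exact h i hi t hi'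

theorem j6b_lo_hom {a : ℕ} {P : JP k} (h : P.IsHomogeneous a) : Lo a P := by
  intro t ht
  have h1 : t.degree = a := by
    rw [Finsupp.degree_eq_weight_one]
    exact h ht
  rw [← j6b_dg, h1]

/-- `A` and `B` agree in the degree `n` -/
structure j6b_E (n : ℕ) (A B : JP k) : Prop where
  lo : Lo n A
  hom : B.IsHomogeneous n
  eq : Lo (n + 1) (A - B)

theorem j6b_E_mul {a b : ℕ} {A B A' B' : JP k} (h : j6b_E a A B) (h' : j6b_E b A' B') :
    j6b_E (a + b) (A * A') (B * B') := by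
  refine ⟨j6b_lo_mul h.lo h'.lo, h.hom.mul h'.hom, ?_⟩
  have e : A * A' - B * B' = (A - B) * A' + B * (A' - B') := by ring
  rw [e]
  refine j6b_lo_add ?_ ?_
  · have := j6b_lo_mul h.eq h'.lo
    rwa [show a + 1 + b = a + b + 1 by omega] at this
  · exact j6b_lo_mul (a := a) (b := b + 1) (j6b_lo_hom h.hom) h'.eq

theorem j6b_E_C (c : ℂ) : j6b_E 0 (MvPolynomial.C c : JP k) (MvPolynomial.C c) := by
  refine ⟨j6b_lo_zero _, MvPolynomial.isHomogeneous_C _ c, ?_⟩
  rw [sub_self]
  intro t ht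
  simp at ht

theorem j6b_E_pow {a : ℕ} {A B : JP k} (h : j6b_E a A B) (n : ℕ) :
    j6b_E (n * a) (A ^ n) (B ^ n) := by
  induction n with
  | zero =>
    rw [Nat.zero_mul, pow_zero, pow_zero]
    exact j6b_E_C 1
  | succ n ih =>
    rw [pow_succ, pow_succ, Nat.succ_mul]
    exact j6b_E_mul ih h

theorem j6b_E_prod {ι : Type} (S : Finset ι) (A B : ι → JP k) (a : ι → ℕ)
    (h : ∀ i ∈ S, j6b_E (a i) (A i) (B i)) :
    j6b_E (∑ i ∈ S, a i) (∏ i ∈ S, A i) (∏ i ∈ S, B i) := by
  classical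
  induction S using Finset.induction_on with
  | empty =>
    rw [Finset.sum_empty, Finset.prod_empty, Finset.prod_empty]
    exact j6b_E_C 1
  | insert i S hi ih =>
    rw [Finset.sum_insert hi, Finset.prod_insert hi, Finset.prod_insert hi]
    exact j6b_E_mul (h i (Finset.mem_insert_self _ _))
      (ih fun j hj => h j (Finset.mem_insert_of_mem hj))

theorem j6b_hc {n : ℕ} {A B : JP k} (h : j6b_E n A B) : hc n A = B := by
  unfold hc
  refine MvPolynomial.ext _ _ fun t => ?_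
  rw [MvPolynomial.coeff_homogeneousComponent, j6b_dg]
  split_ifs with h1
  · by_contra h2
    have h3 : (A - B).coeff t ≠ 0 := by
      rw [MvPolynomial.coeff_sub]
      exact sub_ne_zero.2 h2
    have := h.eq t h3
    omega
  · by_contra h2
    have h3 : t.degree = n := by
      rw [Finsupp.degree_eq_weight_one]
      exact h.hom (Ne.symm h2)
    rw [j6b_dg] at h3
    exact h1 h3

theorem j6b_hc_lo {n : ℕ} {A : JP k} (h : Lo (n + 1) A) : hc n A = 0 := by
  refine j6b_hc ⟨fun t ht => (Nat.le_succ n).trans (h t ht), MvPolynomial.isHomogeneous_zero _ _ _,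
    ?_⟩
  rwa [sub_zero]

/-- the linear part of the image of a variable -/
theorem j6b_var (F : V2 → V2) (z : V2) (v : Fin 2 × Fin k) :
    j6b_E 1 (jp k (fun α => pdd α (fun w => F w v.1) z) ((v.2 : ℕ) + 1))
      (∑ j, MvPolynomial.C (Jm F z v.1 j) * MvPolynomial.X (j, v.2)) := by
  classical
  have hlin : (∑ j, MvPolynomial.C (Jm F z v.1 j) * MvPolynomial.X (j, v.2) : JP k).IsHomogeneous 1 := by
    refine MvPolynomial.IsHomogeneous.sum _ _ _ fun j _ => ?_
    have := (MvPolynomial.isHomogeneous_C (Fin 2 × Fin k) (Jm F z v.1 j)).mul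
      (MvPolynomial.isHomogeneous_X ℂ (j, v.2))
    rwa [zero_add] at this
  set D : ℕ × ℕ → ℂ := fun α => pdd α (fun w => F w v.1) z with hD
  set S := (Finset.range ((v.2 : ℕ) + 1 + 1) ×ˢ Finset.range ((v.2 : ℕ) + 1 + 1)).filter
    (fun α => 1 ≤ α.1 + α.2) with hS
  set f : ℕ × ℕ → JP k := fun α =>
    MvPolynomial.C (D α / ((α.1 ! : ℕ) * (α.2 ! : ℕ) : ℂ)) * bp k α ((v.2 : ℕ) + 1) with hf
  have hjp : jp k D ((v.2 : ℕ) + 1) = ∑ α ∈ S, f α := rfl
  have hlo : ∀ α, Lo (α.1 + α.2) (f α) := fun α => by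
    have h1 : Lo (α.1 + α.2) (bp k α ((v.2 : ℕ) + 1)) := fun t ht => by
      rw [(bp_deg α _ t ht).1]
    have h2 := j6b_lo_mul (j6b_lo_zero (MvPolynomial.C
      (D α / ((α.1 ! : ℕ) * (α.2 ! : ℕ) : ℂ)) : JP k)) h1
    rwa [zero_add] at h2
  have h10 : ((1, 0) : ℕ × ℕ) ∈ S := by
    rw [hS, Finset.mem_filter, Finset.mem_product, Finset.mem_range, Finset.mem_range]
    omega
  have h01 : ((0, 1) : ℕ × ℕ) ∈ S.erase (1, 0) := by
    rw [Finset.mem_erase, hS, Finset.mem_filter, Finset.mem_product, Finset.mem_range,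
      Finset.mem_range]
    refine ⟨by simp, ?_⟩
    omega
  have hsplit : ∑ α ∈ S, f α = f (1, 0) + (f (0, 1) + ∑ α ∈ (S.erase (1, 0)).erase (0, 1), f α) := by
    rw [← Finset.add_sum_erase S f h10, ← Finset.add_sum_erase _ f h01]
  have hf0 : f (1, 0) = MvPolynomial.C (Jm F z v.1 0) * MvPolynomial.X (0, v.2) := by
    have h1 := bp_one (k := k) 0 v.2
    rw [if_pos rfl] at h1
    rw [hf]
    show MvPolynomial.C (D (1, 0) / ((1 ! : ℕ) * (0 ! : ℕ) : ℂ)) * bp k (1, 0) ((v.2 : ℕ) + 1) = _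
    rw [h1]
    congr 2
    simp [hD, pdd, Jm]
  have hf1 : f (0, 1) = MvPolynomial.C (Jm F z v.1 1) * MvPolynomial.X (1, v.2) := by
    have h1 := bp_one (k := k) 1 v.2
    rw [if_neg (by decide)] at h1
    rw [hf]
    show MvPolynomial.C (D (0, 1) / ((0 ! : ℕ) * (1 ! : ℕ) : ℂ)) * bp k (0, 1) ((v.2 : ℕ) + 1) = _
    rw [h1]
    congr 2
    simp [hD, pdd, Jm]
  refine ⟨?_, hlin, ?_⟩
  · rw [hjp]
    refine j6b_lo_sum _ _ _ fun α hα => ?_
    have h1 : 1 ≤ α.1 + α.2 := (Finset.mem_filter.1 hα).2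
    exact fun t ht => h1.trans (hlo α t ht)
  · have e : jp k D ((v.2 : ℕ) + 1) -
        (∑ j, MvPolynomial.C (Jm F z v.1 j) * MvPolynomial.X (j, v.2)) =
        ∑ α ∈ (S.erase (1, 0)).erase (0, 1), f α := by
      rw [hjp, hsplit, Fin.sum_univ_two, hf0, hf1]
      ring
    rw [e]
    refine j6b_lo_sum _ _ _ fun α hα => ?_
    rw [Finset.mem_erase, Finset.mem_erase, hS, Finset.mem_filter] at hα
    obtain ⟨h1, h2, _, h3⟩ := hα
    have h4 : 2 ≤ α.1 + α.2 := by
      obtain ⟨a, b⟩ := α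
      simp only [ne_eq, Prod.mk.injEq, not_and] at h1 h2 h3 ⊢
      rcases a with _ | _ | a <;> rcases b with _ | _ | b <;> simp_all <;> omega
    exact fun t ht => h4.trans (hlo α t ht)

theorem j6b_mono (F : V2 → V2) (z : V2) (t : Fin 2 × Fin k →₀ ℕ) (c : ℂ) :
    j6b_E (dg t) (Tr k F z (MvPolynomial.monomial t c))
      (Ls k (Jm F z) (MvPolynomial.monomial t c)) := by
  unfold Tr Ls
  rw [MvPolynomial.aeval_monomial, MvPolynomial.aeval_monomial]
  have h1 := j6b_E_prod t.support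
    (fun v => (jp k (fun α => pdd α (fun w => F w v.1) z) ((v.2 : ℕ) + 1)) ^ t v)
    (fun v => (∑ j, MvPolynomial.C (Jm F z v.1 j) * MvPolynomial.X (j, v.2) : JP k) ^ t v)
    (fun v => t v * 1) (fun v _ => j6b_E_pow (j6b_var F z v) (t v))
  have h3 : ∑ i ∈ t.support, t i * 1 = dg t := by
    unfold dg
    simp only [mul_one]
    exact Finset.sum_subset (Finset.subset_univ _) fun v _ hv => by
      rwa [Finsupp.mem_support_iff, not_not] at hv
  rw [h3] at h1
  have h2 := j6b_E_mul (j6b_E_C (k := k) c) h1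
  rw [zero_add] at h2
  exact h2

theorem tr_hc (F : V2 → V2) (z : V2) {n : ℕ} {P : JP k} (h : Lo n P) :
    hc n (Tr k F z P) = Ls k (Jm F z) (hc n P) := by
  classical
  have key : ∀ S : Finset (Fin 2 × Fin k →₀ ℕ), (∀ t ∈ S, n ≤ dg t) →
      hc n (Tr k F z (∑ t ∈ S, MvPolynomial.monomial t (P.coeff t))) =
      Ls k (Jm F z) (hc n (∑ t ∈ S, MvPolynomial.monomial t (P.coeff t))) := by
    intro S hS
    unfold hc
    rw [map_sum, map_sum, map_sum, map_sum]
    refine Finset.sum_congr rfl fun t ht => ?_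
    have h1 := hS t ht
    have h2 := j6b_mono F z t (P.coeff t)
    rcases h1.eq_or_lt with h3 | h3
    · have h4 : MvPolynomial.homogeneousComponent n (MvPolynomial.monomial t (P.coeff t)) =
          MvPolynomial.monomial t (P.coeff t) := by
        refine MvPolynomial.ext _ _ fun s => ?_
        rw [MvPolynomial.coeff_homogeneousComponent, MvPolynomial.coeff_monomial]
        split_ifs with h5 h6 h6
        · rfl
        · rfl
        · rw [← h6, j6b_dg] at h5
          exact absurd h3.symm h5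
        · rfl
      rw [h4]
      rw [← h3] at h2
      exact j6b_hc h2
    · have h4 : hc n (MvPolynomial.monomial t (P.coeff t)) = 0 := by
        refine j6b_hc_lo fun s hs => ?_
        rw [MvPolynomial.coeff_monomial] at hs
        split_ifs at hs with h6
        · rw [← h6]
          omega
        · exact absurd rfl hs
      have h5 : hc n (Tr k F z (MvPolynomial.monomial t (P.coeff t))) = 0 :=
        j6b_hc_lo fun s hs => (Nat.succ_le_of_lt h3).trans (h2.lo s hs)
      unfold hc at h4 h5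
      rw [h4, h5, map_zero]
  have h1 := key P.support fun t ht => h t (MvPolynomial.mem_support_iff.1 ht)
  rwa [← MvPolynomial.as_sum P] at h1

end jets


end Pool.Agent.GG
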