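import Pool.Agent.Lib_helper82.GG.D.All
import Pool.Agent.Lib_helper82.GG.P.O2

/-! # GG, block O1: the classes `OO` (helper16) -/

set_option autoImplicit false

open Filter Topology Metric Set
open scoped Nat

namespace Pool.Agent.GG

open Pool.Agent.BR

section div

variable {T : Fin 3 → V2 → ℂ} {z₀ : V2}

/-- O1: `OO` is closed under sums -/
theorem oo_add {r s : ℤ} {f g : V2 → ℂ} (hf : OO T z₀ r s f) (hg : OO T z₀ r s g) :
    OO T z₀ r s (fun z => f z + g z) := by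
  obtain ⟨g1, ha1, h1⟩ := hf
  obtain ⟨g2, ha2, h2⟩ := hg
  refine ⟨fun z => g1 z + g2 z, ha1.add ha2, ?_⟩
  filter_upwards [h1, h2] with z hz1 hz2 hz
  rw [hz1 hz, hz2 hz]
  ring

/-- O1 -/
theorem oo_sum {r s : ℤ} {ι : Type} (S : Finset ι) {f : ι → V2 → ℂ}
    (hf : ∀ i ∈ S, OO T z₀ r s (f i)) : OO T z₀ r s (fun z => ∑ i ∈ S, f i z) := by
  classical
  induction S using Finset.induction_on with
  | empty =>
    refine ⟨fun _ => 0, analyticAt_const, ?_⟩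
    filter_upwards with z hz
    simp
  | insert a S ha ih =>
    have h1 := oo_add (hf a (Finset.mem_insert_self a S))
      (ih fun i hi => hf i (Finset.mem_insert_of_mem hi))
    have e : (fun z => ∑ i ∈ insert a S, f i z) = fun z => f a z + ∑ i ∈ S, f i z := by
      funext z
      rw [Finset.sum_insert ha]
    rw [e]
    exact h1

/-- O1 -/
theorem oo_mul {r s r' s' : ℤ} {f g : V2 → ℂ} (hf : OO T z₀ r s f) (hg : OO T z₀ r' s' g) :
    OO T z₀ (r + r') (s + s') (fun z => f z * g z) := by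
  obtain ⟨g1, ha1, h1⟩ := hf
  obtain ⟨g2, ha2, h2⟩ := hg
  refine ⟨fun z => g1 z * g2 z, ha1.mul ha2, ?_⟩
  filter_upwards [h1, h2] with z hz1 hz2 hz
  rw [hz1 hz, hz2 hz, zpow_add₀ hz.1, zpow_add₀ hz.2]
  ring

/-- O1 -/
theorem oo_an {f : V2 → ℂ} (hf : AnalyticAt ℂ f z₀) : OO T z₀ 0 0 f := by
  refine ⟨f, hf, ?_⟩
  filter_upwards with z hz
  simp

/-- O1 -/
theorem oo_mono (hT : ∀ j, AnalyticAt ℂ (T j) z₀) {r s r' s' : ℤ} {f : V2 → ℂ}
    (hf : OO T z₀ r s f) (hr : r' ≤ r) (hs : s' ≤ s) : OO T z₀ r' s' f := by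
  obtain ⟨g, ha, h⟩ := hf
  refine ⟨fun z => g z * T 0 z ^ (r - r').toNat * dl T z ^ (s - s').toNat,
    (ha.mul ((hT 0).pow _)).mul ((dl_an hT).pow _), ?_⟩
  filter_upwards [h] with z hz1 hz
  rw [hz1 hz]
  have e1 : T 0 z ^ r = T 0 z ^ r' * T 0 z ^ (r - r').toNat := by
    rw [← zpow_natCast, ← zpow_add₀ hz.1]
    congr 1
    rw [Int.toNat_of_nonneg (by omega)]
    ring
  have e2 : dl T z ^ s = dl T z ^ s' * dl T z ^ (s - s').toNat := by
    rw [← zpow_natCast, ← zpow_add₀ hz.2]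
    congr 1
    rw [Int.toNat_of_nonneg (by omega)]
    ring
  rw [e1, e2]
  ring

/-- O1 -/
theorem oo_congr {r s : ℤ} {f g : V2 → ℂ} (hf : OO T z₀ r s f)
    (h : ∀ᶠ z in 𝓝 z₀, z ∈ Gd T → f z = g z) : OO T z₀ r s g := by
  obtain ⟨g1, ha1, h1⟩ := hf
  refine ⟨g1, ha1, ?_⟩
  filter_upwards [h, h1] with z hz1 hz2 hz
  rw [← hz1 hz, hz2 hz]

end div


end Pool.Agent.GG
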