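import Pool.Agent.Lib_helper82.GG.D.All
import Pool.Agent.Lib_helper82.GG.P.O1
import Pool.Agent.Lib_helper82.GG.P.O2

set_option autoImplicit false

open Filter Topology Metric Set

namespace Pool.Agent.GG

variable {T : Fin 3 → V2 → ℂ} {z₀ : V2}

theorem l0a_pd_an {f : V2 → ℂ} {z : V2} (hf : AnalyticAt ℂ f z) (j : Fin 2) :
    AnalyticAt ℂ (pd j f) z := by
  have h := hf.fderiv
  exact ((ContinuousLinearMap.apply ℂ ℂ (Pi.single j (1 : ℂ) : V2)).analyticAt _).comp h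

theorem l0a_pd (hT : ∀ j, AnalyticAt ℂ (T j) z₀) (hz : z₀ ∈ Gd T) {r s : ℤ} {g : V2 → ℂ}
    (hg : AnalyticAt ℂ g z₀) (i : Fin 2) :
    pd i (fun z => T 0 z ^ r * dl T z ^ s * g z) z₀ =
      (r * T 0 z₀ ^ (r - 1) * pd i (T 0) z₀) * dl T z₀ ^ s * g z₀ +
      T 0 z₀ ^ r * (s * dl T z₀ ^ (s - 1) * pd i (dl T) z₀) * g z₀ +
      T 0 z₀ ^ r * dl T z₀ ^ s * pd i g z₀ := by
  have h0 : T 0 z₀ ≠ 0 := hz.1
  have h1 : dl T z₀ ≠ 0 := hz.2
  have d0 := (hT 0).differentiableAt.hasFDerivAt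
  have d1 := (dl_an hT).differentiableAt.hasFDerivAt
  have d2 := hg.differentiableAt.hasFDerivAt
  have e0 := (hasDerivAt_zpow r (T 0 z₀) (Or.inl h0)).comp_hasFDerivAt z₀ d0
  have e1 := (hasDerivAt_zpow s (dl T z₀) (Or.inl h1)).comp_hasFDerivAt z₀ d1
  have e2 := (e0.mul e1).mul d2
  have e3 : HasFDerivAt (fun z => T 0 z ^ r * dl T z ^ s * g z) _ z₀ := e2
  unfold pd
  rw [e3.fderiv]
  simp only [Pi.mul_apply, Function.comp, smul_eq_mul, FunLike.coe_add, FunLike.coe_smul,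
    Pi.add_apply, Pi.smul_apply, ContinuousLinearMap.add_apply, ContinuousLinearMap.smul_apply]
  ring

theorem dU_oo (hT : ∀ j, AnalyticAt ℂ (T j) z₀) (j : Fin 2) {r s : ℤ} {h : V2 → ℂ}
    (hh : OO T z₀ r s h) : OO T z₀ (r + 1) (s - 2) (dU T j h) := by
  obtain ⟨g, hg, hgh⟩ := hh
  set T' : V2 → ℂ := T (1 - j).succ with hT'
  set ε : ℂ := if j = 0 then 1 else -1 with hε
  let B : Fin 2 → V2 → ℂ := fun i z => T 0 z * pd i T' z - T' z * pd i (T 0) z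
  have aT0 := hT 0
  have aT' : AnalyticAt ℂ T' z₀ := hT _
  have adl := dl_an hT
  have aB : ∀ i, AnalyticAt ℂ (B i) z₀ := fun i =>
    (aT0.mul (l0a_pd_an aT' i)).sub (aT'.mul (l0a_pd_an aT0 i))
  refine ⟨fun z => ε * (r * dl T z * g z * (pd 0 (T 0) z * pd 1 T' z - pd 1 (T 0) z * pd 0 T' z) +
    s * g z * (pd 0 (dl T) z * B 1 z - pd 1 (dl T) z * B 0 z) +
    dl T z * (pd 0 g z * B 1 z - pd 1 g z * B 0 z)), ?_, ?_⟩
  · refine analyticAt_const.mul (AnalyticAt.add (AnalyticAt.add ?_ ?_) ?_)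
    · exact ((analyticAt_const.mul adl).mul hg).mul
        (((l0a_pd_an aT0 0).mul (l0a_pd_an aT' 1)).sub ((l0a_pd_an aT0 1).mul (l0a_pd_an aT' 0)))
    · exact (analyticAt_const.mul hg).mul
        (((l0a_pd_an adl 0).mul (aB 1)).sub ((l0a_pd_an adl 1).mul (aB 0)))
    · exact adl.mul (((l0a_pd_an hg 0).mul (aB 1)).sub ((l0a_pd_an hg 1).mul (aB 0)))
  · have hTe : ∀ᶠ z in 𝓝 z₀, ∀ j, AnalyticAt ℂ (T j) z :=
      eventually_all.2 fun j => (hT j).eventually_analyticAt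
    filter_upwards [hTe, gd_open hT, hgh.eventually_nhds, hg.eventually_analyticAt]
      with z z1 z2 z3 z4 hG
    have hev : h =ᶠ[𝓝 z] fun z => T 0 z ^ r * dl T z ^ s * g z := by
      filter_upwards [z2 hG, z3] with w w1 w2
      exact w2 w1
    have hpd : ∀ i, pd i h z = pd i (fun z => T 0 z ^ r * dl T z ^ s * g z) z := by
      intro i
      unfold pd
      rw [hev.fderiv_eq]
    have h0 : T 0 z ≠ 0 := hG.1
    have h1 : dl T z ≠ 0 := hG.2
    have hdU : dU T j h z = ε * T 0 z * (pd 0 h z * B 1 z - pd 1 h z * B 0 z) / dl T z := rfl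
    rw [hdU, hpd 0, hpd 1, l0a_pd z1 hG z4 0, l0a_pd z1 hG z4 1]
    have p1 : T 0 z ^ (r + 1) = T 0 z ^ (r - 1) * T 0 z * T 0 z := by
      rw [← zpow_add_one₀ h0, ← zpow_add_one₀ h0]
      congr 1; ring
    have p2 : T 0 z ^ r = T 0 z ^ (r - 1) * T 0 z := by
      rw [← zpow_add_one₀ h0]
      congr 1; ring
    have p3 : dl T z ^ (s - 1) = dl T z ^ (s - 2) * dl T z := by
      rw [← zpow_add_one₀ h1]
      congr 1; ring
    have p4 : dl T z ^ s = dl T z ^ (s - 2) * dl T z * dl T z := by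
      rw [← zpow_add_one₀ h1, ← zpow_add_one₀ h1]
      congr 1; ring
    rw [p1, p2, p4, p3]
    simp only [B]
    field_simp
    ring

theorem dU_iter_oo (hT : ∀ j, AnalyticAt ℂ (T j) z₀) {h : V2 → ℂ} (hh : AnalyticAt ℂ h z₀)
    (α : ℕ × ℕ) : OO T z₀ (α.1 + α.2) (-(2 * (α.1 + α.2))) ((dU T 0)^[α.1] ((dU T 1)^[α.2] h)) := by
  have key : ∀ (j : Fin 2) (n : ℕ) {r s : ℤ} {f : V2 → ℂ}, OO T z₀ r s f →
      OO T z₀ (r + n) (s - 2 * n) ((dU T j)^[n] f) := by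
    intro j n
    induction n with
    | zero => intro r s f hf; simpa using hf
    | succ n ih =>
      intro r s f hf
      rw [Function.iterate_succ_apply']
      have h1 := dU_oo hT j (ih hf)
      have e1 : r + ((n + 1 : ℕ) : ℤ) = r + n + 1 := by push_cast; ring
      have e2 : s - 2 * ((n + 1 : ℕ) : ℤ) = s - 2 * n - 2 := by push_cast; ring
      rw [e1, e2]
      exact h1
  have h1 := key 0 α.1 (key 1 α.2 (oo_an (T := T) hh))
  have e1 : (0 : ℤ) + (α.2 : ℕ) + (α.1 : ℕ) = (α.1 : ℕ) + (α.2 : ℕ) := by ring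
  have e2 : (0 : ℤ) - 2 * (α.2 : ℕ) - 2 * (α.1 : ℕ) = -(2 * ((α.1 : ℕ) + (α.2 : ℕ))) := by ring
  rw [e1, e2] at h1
  exact h1


end Pool.Agent.GG
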