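import Pool.Agent.Lib_helper82.GG.D.All
import Pool.Agent.Lib_helper82.GG.P.L0b

/-! GG, block L0c (helper4): `dU` is the derivative with respect to the coordinates `UU T`. -/

set_option autoImplicit false

open Filter Topology Metric Set
open scoped Nat

namespace Pool.Agent.GG

open Pool.Agent.BR

theorem l0c_pd_an {f : V2 → ℂ} {z : V2} (hf : AnalyticAt ℂ f z) (j : Fin 2) :
    AnalyticAt ℂ (pd j f) z :=
  ((ContinuousLinearMap.apply ℂ ℂ (Pi.single j (1 : ℂ) : V2)).analyticAt _).comp hf.fderiv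

theorem l0c_dl {T : Fin 3 → V2 → ℂ} {z : V2} (hT : ∀ j, AnalyticAt ℂ (T j) z) :
    AnalyticAt ℂ (dl T) z := by
  have e : dl T = fun z => T 0 z * pd 0 (T 1) z * pd 1 (T 2) z -
      T 0 z * pd 1 (T 1) z * pd 0 (T 2) z - pd 0 (T 0) z * T 1 z * pd 1 (T 2) z +
      pd 0 (T 0) z * pd 1 (T 1) z * T 2 z + pd 1 (T 0) z * T 1 z * pd 0 (T 2) z -
      pd 1 (T 0) z * pd 0 (T 1) z * T 2 z := by
    funext w
    unfold dl
    rw [Matrix.det_fin_three]
    simp
  rw [e]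
  have h0 := hT 0
  have h1 := hT 1
  have h2 := hT 2
  have a0 := l0c_pd_an h0 0
  have a1 := l0c_pd_an h1 0
  have a2 := l0c_pd_an h2 0
  have b0 := l0c_pd_an h0 1
  have b1 := l0c_pd_an h1 1
  have b2 := l0c_pd_an h2 1
  exact (((((h0.mul a1).mul b2).sub ((h0.mul b1).mul a2)).sub ((a0.mul h1).mul b2)).add
    ((a0.mul b1).mul h2)).add ((b0.mul h1).mul a2) |>.sub ((b0.mul a1).mul h2)

theorem l0c_lin (L : V2 →L[ℂ] ℂ) (v : V2) :
    L v = v 0 * L (Pi.single 0 1) + v 1 * L (Pi.single 1 1) := by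
  have e : v = v 0 • (Pi.single 0 1 : V2) + v 1 • (Pi.single 1 1 : V2) := by
    ext i
    fin_cases i <;> simp
  conv_lhs => rw [e]
  rw [map_add, map_smul, map_smul, smul_eq_mul, smul_eq_mul]

theorem l0c_quot {T : Fin 3 → V2 → ℂ} {w : V2} (hT : ∀ j, AnalyticAt ℂ (T j) w)
    (hw : w ∈ Gd T) (hU : AnalyticAt ℂ (UU T) w) (i j : Fin 2) :
    T 0 w ^ 2 * pd i (fun y => UU T y j) w =
      T 0 w * pd i (T j.succ) w - T j.succ w * pd i (T 0) w := by
  have hj : DifferentiableAt ℂ (fun y => UU T y j) w :=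
    (differentiableAt_pi.1 hU.differentiableAt) j
  have h0 := (hT 0).differentiableAt
  have e : T j.succ =ᶠ[𝓝 w] fun y => UU T y j * T 0 y := by
    filter_upwards [(hT 0).continuousAt.eventually_ne hw.1] with y hy
    unfold UU
    field_simp
  have e1 : pd i (T j.succ) w = UU T w j * pd i (T 0) w + T 0 w * pd i (fun y => UU T y j) w := by
    unfold pd
    rw [e.fderiv_eq, fderiv_fun_mul hj h0]
    simp
  have e2 : T j.succ w = UU T w j * T 0 w := e.self_of_nhds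
  rw [e1, e2]
  ring

theorem l0c_step {T : Fin 3 → V2 → ℂ} {z : V2} (hT : ∀ j, AnalyticAt ℂ (T j) z)
    (hz : z ∈ Gd T) {F G : V2 → ℂ} (hF : AnalyticAt ℂ F (UU T z))
    (hFG : ∀ᶠ w in 𝓝 z, F (UU T w) = G w) (j : Fin 2) :
    AnalyticAt ℂ (pd j F) (UU T z) ∧ ∀ᶠ w in 𝓝 z, pd j F (UU T w) = dU T j G w := by
  refine ⟨l0c_pd_an hF j, ?_⟩
  have hTw : ∀ᶠ w in 𝓝 z, ∀ j, AnalyticAt ℂ (T j) w :=
    eventually_all.2 fun j => (hT j).eventually_analyticAt
  have hGw : ∀ᶠ w in 𝓝 z, w ∈ Gd T := by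
    filter_upwards [(hT 0).continuousAt.eventually_ne hz.1,
      (l0c_dl hT).continuousAt.eventually_ne hz.2] with w h1 h2 using ⟨h1, h2⟩
  have hUz : AnalyticAt ℂ (UU T) z := (uu_inv hT hz).1
  filter_upwards [hFG.eventually_nhds, hTw, hGw,
    hUz.continuousAt.eventually hF.eventually_analyticAt] with w a1 a2 a3 a4
  obtain ⟨hU, hdet, -⟩ := uu_inv a2 a3
  have hG : HasFDerivAt G ((fderiv ℂ F (UU T w)).comp (fderiv ℂ (UU T) w)) w := by
    refine HasFDerivAt.congr_of_eventuallyEq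
      (a4.differentiableAt.hasFDerivAt.comp w hU.differentiableAt.hasFDerivAt) ?_
    filter_upwards [a1] with y hy using hy.symm
  have hcol : ∀ i, pd i G w = pd i (fun y => UU T y 0) w * pd 0 F (UU T w) +
      pd i (fun y => UU T y 1) w * pd 1 F (UU T w) := by
    intro i
    have e : fderiv ℂ (UU T) w (Pi.single i 1) = fun k => pd i (fun y => UU T y k) w := by
      have h := differentiableAt_pi.1 hU.differentiableAt
      have e1 : fderiv ℂ (UU T) w = ContinuousLinearMap.pi fun k =>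
          fderiv ℂ (fun y => UU T y k) w := fderiv_pi h
      rw [e1]
      rfl
    unfold pd at e ⊢
    rw [hG.fderiv, ContinuousLinearMap.comp_apply, e, l0c_lin]
  have q := l0c_quot a2 a3 hU
  have q00 := q 0 0
  have q01 := q 0 1
  have q10 := q 1 0
  have q11 := q 1 1
  have c0 := hcol 0
  have c1 := hcol 1
  have hd : pd 0 (fun y => UU T y 0) w * pd 1 (fun y => UU T y 1) w -
      pd 1 (fun y => UU T y 0) w * pd 0 (fun y => UU T y 1) w = dl T w / T 0 w ^ 3 := by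
    rw [← hdet, Matrix.det_fin_two]
    rfl
  have t0 : T 0 w ≠ 0 := a3.1
  have d0 : dl T w ≠ 0 := a3.2
  have hd' : dl T w = T 0 w ^ 3 * (pd 0 (fun y => UU T y 0) w * pd 1 (fun y => UU T y 1) w -
      pd 1 (fun y => UU T y 0) w * pd 0 (fun y => UU T y 1) w) := by
    rw [hd]
    field_simp
  fin_cases j
  · show pd 0 F (UU T w) = dU T 0 G w
    unfold dU
    rw [eq_div_iff d0]
    simp only [if_true, sub_zero]
    rw [hd', c0, c1]
    have s : ((1 : Fin 2) - 0).succ = (1 : Fin 2).succ := rfl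
    rw [← q01, ← q11]
    ring
  · show pd 1 F (UU T w) = dU T 1 G w
    unfold dU
    rw [eq_div_iff d0]
    have s : ((1 : Fin 2) - 1).succ = (0 : Fin 2).succ := rfl
    rw [if_neg (by decide), s, hd', c0, c1, ← q00, ← q10]
    ring

theorem dU_eq {T : Fin 3 → V2 → ℂ} {z : V2} (hT : ∀ j, AnalyticAt ℂ (T j) z) (hz : z ∈ Gd T)
    {Θ : V2 → V2}
    (hΘ : AnalyticAt ℂ Θ (UU T z)) (h1 : ∀ᶠ w in 𝓝 z, Θ (UU T w) = w) {h : V2 → ℂ}
    (hh : AnalyticAt ℂ h z) (α : ℕ × ℕ) :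
    pdd α (fun y => h (Θ y)) (UU T z) = ((dU T 0)^[α.1] ((dU T 1)^[α.2] h)) z := by
  have hz1 : Θ (UU T z) = z := h1.self_of_nhds
  have b0 : AnalyticAt ℂ (fun y => h (Θ y)) (UU T z) := by
    have h2 : AnalyticAt ℂ h (Θ (UU T z)) := by rw [hz1]; exact hh
    exact h2.comp hΘ
  have b1 : ∀ᶠ w in 𝓝 z, (fun y => h (Θ y)) (UU T w) = h w := by
    filter_upwards [h1] with w hw
    show h (Θ (UU T w)) = h w
    rw [hw]
  have it : ∀ (j : Fin 2) (n : ℕ) (F G : V2 → ℂ), AnalyticAt ℂ F (UU T z) →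
      (∀ᶠ w in 𝓝 z, F (UU T w) = G w) → AnalyticAt ℂ ((pd j)^[n] F) (UU T z) ∧
      ∀ᶠ w in 𝓝 z, ((pd j)^[n] F) (UU T w) = ((dU T j)^[n] G) w := by
    intro j n
    induction n with
    | zero => intro F G hF hFG; exact ⟨hF, hFG⟩
    | succ n ih =>
      intro F G hF hFG
      obtain ⟨i1, i2⟩ := ih F G hF hFG
      rw [Function.iterate_succ_apply', Function.iterate_succ_apply']
      exact l0c_step hT hz i1 i2 j
  obtain ⟨c1, c2⟩ := it 1 α.2 _ _ b0 b1
  obtain ⟨d1, d2⟩ := it 0 α.1 _ _ c1 c2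
  exact d2.self_of_nhds


end Pool.Agent.GG
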