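import Pool.Agent.Lib_helper82.GG.D.All
import Pool.Agent.Lib_helper82.GG.P.J1
import Pool.Agent.Lib_helper82.GG.P.J5
import Pool.Agent.Lib_helper82.GG.P.J6a
import Pool.Agent.Lib_helper82.GG.P.J8
import Pool.Agent.Lib_helper82.GG.P.L0a
import Pool.Agent.Lib_helper82.GG.P.L0b
import Pool.Agent.Lib_helper82.GG.P.L0c
import Pool.Agent.Lib_helper82.GG.P.O1

set_option autoImplicit false

open Filter Topology Metric Set
open scoped Nat

namespace Pool.Agent.GG

open Pool.Agent.BR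

section

variable {T : Fin 3 → V2 → ℂ} {z₀ : V2} {k m : ℕ}

/-- the families of polynomials with the orders of L1 -/
def l1_G (T : Fin 3 → V2 → ℂ) (z₀ : V2) (Q : V2 → JP k) : Prop :=
  ∀ t : Fin 2 × Fin k →₀ ℕ, OO T z₀ (dg t) (-(2 * dg t)) (fun z => (Q z).coeff t)

theorem l1_zero (r s : ℤ) : OO T z₀ r s (fun _ => 0) :=
  ⟨fun _ => 0, analyticAt_const, Eventually.of_forall fun z _ => by simp⟩

theorem l1_const (r s : ℤ) (c : ℂ) {f : V2 → ℂ} (hf : OO T z₀ r s f) :
    OO T z₀ r s (fun z => c * f z) := by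
  obtain ⟨g, hg, h⟩ := hf
  refine ⟨fun z => c * g z, analyticAt_const.mul hg, ?_⟩
  filter_upwards [h] with z hz hG
  rw [hz hG]; ring

theorem l1_dg_add (a b : Fin 2 × Fin k →₀ ℕ) : dg (⇑(a + b)) = dg ⇑a + dg ⇑b := by
  simp [dg, Finset.sum_add_distrib]

theorem l1_G_mul {P Q : V2 → JP k} (hP : l1_G T z₀ P) (hQ : l1_G T z₀ Q) :
    l1_G T z₀ (fun z => P z * Q z) := by
  intro t
  simp only [MvPolynomial.coeff_mul]
  refine oo_sum _ fun x hx => ?_
  have hx' := Finset.HasAntidiagonal.mem_antidiagonal.1 hx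
  have h := oo_mul (hP x.1) (hQ x.2)
  have e1 : ((dg ⇑x.1 : ℕ) : ℤ) + ((dg ⇑x.2 : ℕ) : ℤ) = ((dg ⇑t : ℕ) : ℤ) := by
    rw [← hx', l1_dg_add]; push_cast; ring
  have e2 : -(2 * ((dg ⇑x.1 : ℕ) : ℤ)) + -(2 * ((dg ⇑x.2 : ℕ) : ℤ)) = -(2 * ((dg ⇑t : ℕ) : ℤ)) := by
    rw [← e1]; ring
  rw [e1, e2] at h
  exact h

theorem l1_G_one : l1_G (k := k) T z₀ (fun _ => 1) := by
  intro t
  by_cases ht : t = 0
  · subst ht
    simp only [MvPolynomial.coeff_zero_one]
    have : dg (⇑(0 : Fin 2 × Fin k →₀ ℕ)) = 0 := by simp [dg]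
    rw [this]
    have h := oo_an (T := T) (z₀ := z₀) (f := fun _ => (1 : ℂ)) analyticAt_const
    simpa using h
  · have : (fun _ : V2 => (1 : JP k).coeff t) = fun _ => 0 := by
      funext z
      rw [MvPolynomial.coeff_one, if_neg (fun h => ht h.symm)]
    rw [this]
    exact l1_zero _ _

theorem l1_G_pow {P : V2 → JP k} (hP : l1_G T z₀ P) (n : ℕ) : l1_G T z₀ (fun z => P z ^ n) := by
  induction n with
  | zero => simpa using l1_G_one
  | succ n ih =>
    have := l1_G_mul ih hP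
    simpa [pow_succ] using this

theorem l1_G_prod {ι : Type} (S : Finset ι) {P : ι → V2 → JP k} (hP : ∀ i ∈ S, l1_G T z₀ (P i)) :
    l1_G T z₀ (fun z => ∏ i ∈ S, P i z) := by
  classical
  induction S using Finset.induction_on with
  | empty => simpa using l1_G_one
  | insert a S ha ih =>
    have h := l1_G_mul (hP a (Finset.mem_insert_self a S))
      (ih fun i hi => hP i (Finset.mem_insert_of_mem hi))
    simpa [Finset.prod_insert ha] using h

theorem l1_G_sum {ι : Type} (S : Finset ι) {P : ι → V2 → JP k} (hP : ∀ i ∈ S, l1_G T z₀ (P i)) :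
    l1_G T z₀ (fun z => ∑ i ∈ S, P i z) := by
  intro t
  simp only [MvPolynomial.coeff_sum]
  exact oo_sum _ fun i hi => hP i hi t

theorem l1_G_an {f : V2 → ℂ} (hf : AnalyticAt ℂ f z₀) {P : V2 → JP k} (hP : l1_G T z₀ P) :
    l1_G T z₀ (fun z => MvPolynomial.C (f z) * P z) := by
  intro t
  simp only [MvPolynomial.coeff_C_mul]
  have := oo_mul (oo_an (T := T) hf) (hP t)
  simpa using this

/-- the family of the derivatives -/
noncomputable def l1_g (T : Fin 3 → V2 → ℂ) (k : ℕ) (z : V2) (v : Fin 2 × Fin k) : JP k :=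
  jp k (fun α => ((dU T 0)^[α.1] ((dU T 1)^[α.2] (fun w => w v.1))) z) ((v.2 : ℕ) + 1)

theorem l1_coord (j : Fin 2) (z : V2) : AnalyticAt ℂ (fun w : V2 => w j) z :=
  (ContinuousLinearMap.proj (R := ℂ) j : V2 →L[ℂ] ℂ).analyticAt z

theorem l1_g_G (hT : ∀ j, AnalyticAt ℂ (T j) z₀) (v : Fin 2 × Fin k) :
    l1_G T z₀ (fun z => l1_g T k z v) := by
  unfold l1_g jp
  refine l1_G_sum _ fun α _ => ?_
  intro t
  simp only [MvPolynomial.coeff_C_mul]
  by_cases hb : (bp k α ((v.2 : ℕ) + 1)).coeff t = 0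
  · simp only [hb, mul_zero]
    exact l1_zero _ _
  · have h1 := (bp_deg α _ t hb).1
    have h2 := dU_iter_oo hT (l1_coord v.1 z₀) α
    have e1 : ((α.1 : ℕ) : ℤ) + ((α.2 : ℕ) : ℤ) = ((dg ⇑t : ℕ) : ℤ) := by rw [h1]; push_cast; ring
    rw [e1] at h2
    have h3 := l1_const _ _ ((bp k α ((v.2 : ℕ) + 1)).coeff t / ((α.1 ! : ℕ) * (α.2 ! : ℕ) : ℂ)) h2
    refine oo_congr h3 (Eventually.of_forall fun z _ => ?_)
    ring

theorem reg_coeff (hT : ∀ j, AnalyticAt ℂ (T j) z₀) (e : V2 → JP k)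
    (he : ∀ t, AnalyticAt ℂ (fun z => (e z).coeff t) z₀) (hw : ∀ᶠ z in 𝓝 z₀, Wh m (e z)) :
    ∃ c : V2 → JP k,
      (∀ t : Fin 2 × Fin k →₀ ℕ, OO T z₀ (dg t) (-(2 * dg t)) (fun z => (c z).coeff t)) ∧
      ∀ᶠ z in 𝓝 z₀, z ∈ Gd T → Wh m (c z) ∧ Tr k (UU T) z (c z) = e z := by
  classical
  let e' : V2 → JP k := fun z => ∑ t ∈ Ty k m, MvPolynomial.monomial t ((e z).coeff t)
  have hee : ∀ z, Wh m (e z) → e' z = e z := by
    intro z hz
    have hsub : (e z).support ⊆ Ty k m := by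
      intro t ht
      rw [(wt_fin k m).2]
      exact hz t (MvPolynomial.mem_support_iff.1 ht)
    conv_rhs => rw [(e z).as_sum]
    refine (Finset.sum_subset hsub fun t _ ht => ?_).symm
    rw [MvPolynomial.notMem_support_iff.1 ht, MvPolynomial.monomial_zero]
  refine ⟨fun z => MvPolynomial.aeval (l1_g T k z) (e' z), ?_, ?_⟩
  · have hmain : l1_G T z₀ (fun z => MvPolynomial.aeval (l1_g T k z) (e' z)) := by
      have hrw : (fun z => MvPolynomial.aeval (l1_g T k z) (e' z)) = fun z => ∑ t ∈ Ty k m,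
          MvPolynomial.C ((e z).coeff t) * ∏ v, l1_g T k z v ^ t v := by
        funext z
        simp only [e', map_sum, MvPolynomial.aeval_monomial]
        refine Finset.sum_congr rfl fun t _ => ?_
        rw [MvPolynomial.algebraMap_eq, Finsupp.prod_fintype]
        intro v; simp
      rw [hrw]
      refine l1_G_sum _ fun t _ => ?_
      refine l1_G_an (he t) ?_
      exact l1_G_prod _ fun v _ => l1_G_pow (l1_g_G hT v) _
    exact hmain
  · have hTe : ∀ᶠ z in 𝓝 z₀, ∀ j, AnalyticAt ℂ (T j) z :=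
      eventually_all.2 fun j => (hT j).eventually_analyticAt
    filter_upwards [hTe, hw] with z hz hwz hG
    obtain ⟨hU, -, Θ, hΘ, h1, h2⟩ := uu_inv hz hG
    have hTr : MvPolynomial.aeval (l1_g T k z) = Tr k Θ (UU T z) := by
      unfold Tr l1_g
      congr 1
      funext v
      congr 1
      funext α
      exact (dU_eq hz hG hΘ h1 (l1_coord v.1 z) α).symm
    rw [hTr]
    refine ⟨?_, ?_⟩
    · refine tr_wh _ _ ?_
      rw [hee z hwz]
      exact hwz
    · rw [tr_comp hU hΘ, tr_congr (G := fun w => w) h1, tr_id, hee z hwz]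


end

end Pool.Agent.GG
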