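import Pool.Agent.Lib_helper82.GG.D.All
import Pool.Agent.Lib_helper82.GG.P.J5
import Pool.Agent.Lib_helper82.GG.P.J6a
import Pool.Agent.Lib_helper82.GG.P.J6b
import Pool.Agent.Lib_helper82.GG.P.J8
import Pool.Agent.Lib_helper82.GG.P.L0b
import Pool.Agent.Lib_helper82.GG.P.L1
import Pool.Agent.Lib_helper82.GG.P.O1

set_option autoImplicit false

open Filter Topology Metric Set
open scoped Nat

namespace Pool.Agent.GG

open Pool.Agent.BR

section

variable {T : Fin 3 → V2 → ℂ} {z₀ : V2} {k m n b : ℕ}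

theorem l2_coeff_hc (n : ℕ) (P : JP k) (t : Fin 2 × Fin k →₀ ℕ) :
    (hc n P).coeff t = if dg (⇑t) = n then P.coeff t else 0 := by
  classical
  unfold hc
  rw [MvPolynomial.coeff_homogeneousComponent]
  have : Finsupp.degree t = dg (⇑t) := by
    rw [Finsupp.degree_eq_sum]; rfl
  rw [this]

theorem l2_hc_sub (n : ℕ) (P Q : JP k) : hc n (P - Q) = hc n P - hc n Q := by
  ext t
  simp only [l2_coeff_hc, MvPolynomial.coeff_sub]
  split_ifs <;> simp

theorem l2_sub {r s : ℤ} {f g : V2 → ℂ} (hf : OO T z₀ r s f) (hg : OO T z₀ r s g) :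
    OO T z₀ r s (fun z => f z - g z) := by
  obtain ⟨f', hf', h1⟩ := hf
  obtain ⟨g', hg', h2⟩ := hg
  refine ⟨fun z => f' z - g' z, hf'.sub hg', ?_⟩
  filter_upwards [h1, h2] with z a1 a2 hG
  rw [a1 hG, a2 hG]; ring

theorem lead_part (hb : 0 < b) (hT : ∀ j, AnalyticAt ℂ (T j) z₀) (c : V2 → JP k)
    (hc0 : ∀ t : Fin 2 × Fin k →₀ ℕ, OO T z₀ (dg t) (-(2 * b * dg t)) (fun z => (c z).coeff t))
    (hw : ∀ᶠ z in 𝓝 z₀, z ∈ Gd T → Wh m (c z)) (n : ℕ)
    (hr : ∀ t : Fin 2 × Fin k →₀ ℕ, dg t < n →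
      OO T z₀ 0 0 (fun z => (Tr k (UU T) z (c z)).coeff t)) :
    ∃ c' : V2 → JP k, (∀ t, OO T z₀ n (-(2 * b * n)) (fun z => (c' z).coeff t)) ∧
      ∀ᶠ z in 𝓝 z₀, z ∈ Gd T → hc n (c' z) = c' z ∧ Wh m (c' z) ∧
        hc n (Tr k (UU T) z (c z)) = Ls k (Jm (UU T) z) (c' z) := by
  classical
  choose! g hg hgz using hr
  let S : Finset (Fin 2 × Fin k →₀ ℕ) := (Ty k m).filter fun t => dg (⇑t) < n
  let e : V2 → JP k := fun z => ∑ t ∈ S, MvPolynomial.monomial t (g t z)
  have hcoe : ∀ z t, (e z).coeff t = if t ∈ S then g t z else 0 := by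
    intro z t
    simp only [e, MvPolynomial.coeff_sum, MvPolynomial.coeff_monomial]
    rw [Finset.sum_ite_eq' S t (fun i => g i z)]
  have he : ∀ t, AnalyticAt ℂ (fun z => (e z).coeff t) z₀ := by
    intro t
    simp only [hcoe]
    by_cases ht : t ∈ S
    · simp only [ht, if_true]
      exact hg t (Finset.mem_filter.1 ht).2
    · simp only [ht, if_false]
      exact analyticAt_const
  have hwe : ∀ z, Wh m (e z) := by
    intro z t ht
    rw [hcoe] at ht
    have hS : t ∈ S := by
      by_contra hno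
      simp [hno] at ht
    exact ((wt_fin k m).2 t).1 (Finset.mem_filter.1 hS).1
  obtain ⟨c₁, hc₁, hc₁e⟩ := reg_coeff hT e he (Eventually.of_forall hwe)
  refine ⟨fun z => hc n (c z - c₁ z), ?_, ?_⟩
  · intro t
    simp only [l2_coeff_hc, MvPolynomial.coeff_sub]
    by_cases ht : dg (⇑t) = n
    · simp only [ht, if_true]
      have h1 := hc0 t
      have h2 := hc₁ t
      rw [ht] at h1 h2
      refine l2_sub h1 (oo_mono hT h2 le_rfl ?_)
      have : (1 : ℤ) ≤ b := by exact_mod_cast hb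
      have hn : (0 : ℤ) ≤ n := by positivity
      nlinarith
    · simp only [ht, if_false]
      exact ⟨fun _ => 0, analyticAt_const, Eventually.of_forall fun z _ => by simp⟩
  · have hTe : ∀ᶠ z in 𝓝 z₀, ∀ j, AnalyticAt ℂ (T j) z :=
      eventually_all.2 fun j => (hT j).eventually_analyticAt
    have hgS : ∀ᶠ z in 𝓝 z₀, ∀ t ∈ S, z ∈ Gd T → (Tr k (UU T) z (c z)).coeff t =
        T 0 z ^ (0 : ℤ) * dl T z ^ (0 : ℤ) * g t z := by
      rw [Filter.eventually_all_finset]
      intro t ht
      exact hgz t (Finset.mem_filter.1 ht).2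
    filter_upwards [hTe, hw, hc₁e, hgS] with z hz hwz hcz hgz' hG
    obtain ⟨hw1, he1⟩ := hcz hG
    obtain ⟨hU, -, Θ, hΘ, h1, h2⟩ := uu_inv hz hG
    have hinv : ∀ P : JP k, Tr k Θ (UU T z) (Tr k (UU T) z P) = P := by
      intro P
      have hΘz : Θ (UU T z) = z := h1.self_of_nhds
      have h3 := tr_comp (k := k) (F := Θ) (G := UU T) (z := UU T z) hΘ (by rw [hΘz]; exact hU) P
      rw [hΘz] at h3
      rw [h3, tr_congr (G := fun w => w) h2, tr_id]
    have hwh : Wh m (c z - c₁ z) := by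
      intro t ht
      by_contra hne
      apply ht
      rw [MvPolynomial.coeff_sub]
      have a1 : (c z).coeff t = 0 := by
        by_contra h; exact hne (hwz hG t h)
      have a2 : (c₁ z).coeff t = 0 := by
        by_contra h; exact hne (hw1 t h)
      rw [a1, a2, sub_zero]
    have hlo1 : Lo n (Tr k (UU T) z (c z - c₁ z)) := by
      intro t ht
      by_contra hlt
      push Not at hlt
      apply ht
      rw [map_sub, he1, MvPolynomial.coeff_sub, hcoe]
      by_cases hm : t ∈ Ty k m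
      · have htS : t ∈ S := Finset.mem_filter.2 ⟨hm, hlt⟩
        rw [if_pos htS, hgz' t htS hG]
        simp
      · have htS : t ∉ S := fun h => hm (Finset.mem_filter.1 h).1
        rw [if_neg htS, sub_zero]
        by_contra hne
        exact hm (((wt_fin k m).2 t).2 (tr_wh (UU T) z (hwz hG) t hne))
    have hlo2 : Lo n (c z - c₁ z) := by
      have := tr_lo Θ (UU T z) hlo1
      rwa [hinv] at this
    refine ⟨?_, ?_, ?_⟩
    · ext t
      simp only [l2_coeff_hc]
      split_ifs <;> rfl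
    · intro t ht
      apply hwh t
      intro h0
      apply ht
      rw [l2_coeff_hc, h0]
      split_ifs <;> rfl
    · have h4 := tr_hc (UU T) z hlo2
      rw [← h4, map_sub, he1, l2_hc_sub]
      have : hc n (e z) = 0 := by
        ext t
        rw [l2_coeff_hc, hcoe, MvPolynomial.coeff_zero]
        by_cases h : dg (⇑t) = n
        · rw [if_pos h, if_neg]
          intro hS
          have := (Finset.mem_filter.1 hS).2
          omega
        · rw [if_neg h]
      rw [this, sub_zero]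


end

end Pool.Agent.GG
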