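import Pool.Agent.Lib_helper82.GG.D.All
import Pool.Agent.Lib_helper82.GG.P.F3
import Pool.Agent.Lib_helper82.GG.P.F5
import Pool.Agent.Lib_helper82.GG.P.F7
import Pool.Agent.Lib_helper82.GG.P.G1
import Pool.Agent.Lib_helper82.GG.P.G3
import Pool.Agent.Lib_helper82.GG.P.G4
import Pool.Agent.Lib_helper82.GG.P.G8
import Pool.Agent.Lib_helper82.GG.P.J6c
import Pool.Agent.Lib_helper82.GG.P.J7
import Pool.Agent.Lib_helper82.GG.P.J8
import Pool.Agent.Lib_helper82.GG.P.L2
import Pool.Agent.Lib_helper82.GG.P.LH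
import Pool.Agent.Lib_helper82.GG.P.O1

set_option autoImplicit false
set_option linter.unusedVariables false
set_option linter.unusedSectionVars false

open Filter Topology Metric Set
open scoped Nat

namespace Pool.Agent.GG

open Pool.Agent.BR

section k1loc

variable {k : ℕ}

theorem k1_deg (t : Fin 2 × Fin k →₀ ℕ) : t.degree = dg t := by
  rw [Finsupp.degree_eq_sum]
  rfl

theorem k1_dg (t : Fin 2 × Fin k → ℕ) : dg t = nj 0 t + nj 1 t := by
  unfold dg nj
  rw [Fintype.sum_prod_type, Fin.sum_univ_two]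

theorem k1_hc_coeff (n : ℕ) (P : JP k) (t : Fin 2 × Fin k →₀ ℕ) :
    (hc n P).coeff t = if dg t = n then P.coeff t else 0 := by
  unfold hc
  rw [MvPolynomial.coeff_homogeneousComponent, k1_deg]

theorem k1_hc_idem (n : ℕ) (P : JP k) : hc n (hc n P) = hc n P := by
  ext t
  rw [k1_hc_coeff, k1_hc_coeff]
  split_ifs <;> rfl

theorem k1_hc_wh {n m : ℕ} {P : JP k} (h : Wh m P) : Wh m (hc n P) := by
  intro t ht
  rw [k1_hc_coeff] at ht
  split_ifs at ht with h1
  · exact h t ht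
  · exact absurd rfl ht

theorem k1_oo_zero {T : Fin 3 → V2 → ℂ} {z₀ : V2} {r s : ℤ} {f : V2 → ℂ}
    (h : ∀ᶠ z in 𝓝 z₀, z ∈ Gd T → f z = 0) : OO T z₀ r s f :=
  ⟨fun _ => 0, analyticAt_const, by
    filter_upwards [h] with z hz hz'
    rw [hz hz', mul_zero]⟩

/-- linear substitutions with analytic coefficients do not change the orders -/
theorem k1_ls_oo {T : Fin 3 → V2 → ℂ} {z₀ : V2} {r s : ℤ} {m : ℕ} {Q : V2 → JP k}
    {N : V2 → Matrix (Fin 2) (Fin 2) ℂ} (hN : ∀ i j, AnalyticAt ℂ (fun z => N z i j) z₀)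
    (hw : ∀ᶠ z in 𝓝 z₀, z ∈ Gd T → Wh m (Q z))
    (hQ : ∀ t : Fin 2 × Fin k →₀ ℕ, OO T z₀ r s (fun z => (Q z).coeff t))
    (t : Fin 2 × Fin k →₀ ℕ) : OO T z₀ r s (fun z => (Ls k (N z) (Q z)).coeff t) := by
  classical
  choose g hg1 hg2 using hQ
  obtain ⟨G, hG⟩ : ∃ G : V2 → JP k, G = fun z =>
    ∑ t ∈ Ty k m, MvPolynomial.monomial t (g t z) := ⟨_, rfl⟩
  have hGc : ∀ z (t' : Fin 2 × Fin k →₀ ℕ), (G z).coeff t' = if wt t' = m then g t' z else 0 := by
    intro z t'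
    rw [hG]
    simp only [MvPolynomial.coeff_sum, MvPolynomial.coeff_monomial]
    rw [Finset.sum_ite_eq' (Ty k m) t' (fun t'' => g t'' z)]
    by_cases h : wt t' = m
    · rw [if_pos (((wt_fin k m).2 t').2 h), if_pos h]
    · rw [if_neg (fun h' => h (((wt_fin k m).2 t').1 h')), if_neg h]
  have hGan : ∀ t' : Fin 2 × Fin k →₀ ℕ, AnalyticAt ℂ (fun z => (G z).coeff t') z₀ := by
    intro t'
    by_cases h : wt t' = m
    · have : (fun z => (G z).coeff t') = g t' := by
        ext z; rw [hGc, if_pos h]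
      rw [this]; exact hg1 t'
    · have : (fun z => (G z).coeff t') = fun _ => 0 := by
        ext z; rw [hGc, if_neg h]
      rw [this]; exact analyticAt_const
  have hGw : ∀ᶠ z in 𝓝 z₀, Wh m (G z) := by
    refine Filter.Eventually.of_forall fun z t' ht' => ?_
    rw [hGc] at ht'
    by_contra h
    exact ht' (if_neg h)
  have h1 := ls_an (k := k) hN G hGan hGw t
  refine ⟨_, h1, ?_⟩
  have h2 : ∀ᶠ z in 𝓝 z₀, ∀ t' ∈ Ty k m, z ∈ Gd T →
      (Q z).coeff t' = T 0 z ^ r * dl T z ^ s * g t' z := by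
    rw [Filter.eventually_all_finset]
    exact fun t' _ => hg2 t'
  filter_upwards [h2, hw] with z hz hwz hzG
  have h3 : Q z = MvPolynomial.C (T 0 z ^ r * dl T z ^ s) * G z := by
    ext t'
    rw [MvPolynomial.coeff_C_mul, hGc]
    by_cases h : wt t' = m
    · rw [if_pos h, hz t' (((wt_fin k m).2 t').2 h) hzG]
    · rw [if_neg h, mul_zero]
      by_contra hne
      exact h (hwz hzG t' hne)
  rw [h3]
  have h4 : Ls k (N z) (MvPolynomial.C (T 0 z ^ r * dl T z ^ s) * G z) =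
      MvPolynomial.C (T 0 z ^ r * dl T z ^ s) * Ls k (N z) (G z) := by
    rw [map_mul]
    congr 1
    unfold Ls
    rw [MvPolynomial.aeval_C]
    rfl
  rw [h4, MvPolynomial.coeff_C_mul]

end k1loc

section surf

variable {X : Type} [MetricSpace X] [CompactSpace X] {A : Cha V2 X} {b D k m n : ℕ}
  {T : Fin 3 → A.ι → X → ℂ} {T₃ : A.ι → X → ℂ}

theorem k1_frame (hT : Net A b T) {c : X → JP k} (hc' : CO A b T m c) (hL : SL A T n c)
    {i : A.ι} {x : X} (hi : x ∈ (A.ch i).source) (h0 : T 0 i x = 0) (hdl : dlt A T i x ≠ 0) :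
    ∃ M : V2 → Matrix (Fin 2) (Fin 2) ℂ, AFr (lT A T i 0) (A.ch i x) M ∧
      ∀ t : Fin 2 × Fin k →₀ ℕ, dg t = n → OO (lT A T i) (A.ch i x) (-(nj 0 t : ℤ)) 0
        (fun z => (Ls k (M z) (hc n (pcf A T c i z))).coeff t) := by
  have hTa : ∀ j, AnalyticAt ℂ (lT A T i j) (A.ch i x) := fun j => net_an hT hi j
  have h0' : lT A T i 0 (A.ch i x) = 0 := by rw [(net_val hi).1 0, h0]
  have hdl' : dl (lT A T i) (A.ch i x) ≠ 0 := by rw [(net_val hi).2]; exact hdl
  obtain ⟨hp, h12⟩ := (net_loc hT hi).1 h0'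
  obtain ⟨ch, hch⟩ : ∃ ch : V2 → JP k, ch = fun z => c ((A.ch i).symm z) := ⟨_, rfl⟩
  have hnear : ∀ᶠ z in 𝓝 (A.ch i x), Tr k (UU (lT A T i)) z (ch z) = pcf A T c i z := by
    filter_upwards [(tc_near hi hi).2.2] with z hz
    rw [hch]
    unfold pcf PC
    dsimp only
    rw [hz.2.2.2.1]
  have hoo : ∀ t : Fin 2 × Fin k →₀ ℕ,
      OO (lT A T i) (A.ch i x) (dg t) (-(2 * b * dg t)) (fun z => (ch z).coeff t) := by
    rw [hch]
    exact hc'.oo i x hi
  have hw : ∀ᶠ z in 𝓝 (A.ch i x), z ∈ Gd (lT A T i) → Wh m (ch z) := by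
    rw [hch]
    exact Filter.Eventually.of_forall fun z _ => hc'.wh _
  obtain ⟨c', h1, h2⟩ := lead_part hT.b_pos hTa ch hoo hw n (fun t ht => by
    refine oo_congr (hL i x hi t ht) ?_
    filter_upwards [hnear] with z hz _
    rw [hz])
  obtain ⟨M, hM, hM2⟩ := frame_H hTa h0' hp h12
  refine ⟨M, hM, fun t ht => ?_⟩
  have h3 := hM2 k m n b c' h1 (h2.mono fun z hz hz' => (hz hz').2.1) t ht
  refine oo_congr (oo_unit_dl hTa hdl' h3) ?_
  filter_upwards [h2, hnear] with z hz hzn hzG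
  rw [← (hz hzG).2.2, hzn]

theorem start_H (hT : Net A b T) {c : X → JP k} (hc : CO A b T m c) (hL : SL A T n c) :
    SH A T n n c := by
  intro i x hi h0 hdl t ht
  have hTa : ∀ j, AnalyticAt ℂ (lT A T i j) (A.ch i x) := fun j => net_an hT hi j
  obtain ⟨M, hM, hM2⟩ := k1_frame hT hc hL hi h0 hdl
  -- the part of degree `n` in the frame
  have h1 : ∀ t' : Fin 2 × Fin k →₀ ℕ, OO (lT A T i) (A.ch i x) (-(n : ℤ)) 0
      (fun z => (Ls k (M z) (GG.hc n (pcf A T c i z))).coeff t') := by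
    intro t'
    by_cases ht' : dg t' = n
    · refine oo_mono hTa (hM2 t' ht') ?_ le_rfl
      have := k1_dg t'
      omega
    · refine k1_oo_zero (Filter.Eventually.of_forall fun z _ => ?_)
      rw [ls_hc, k1_hc_coeff, if_neg ht']
  have h2 := k1_ls_oo (m := m) (N := fun z => (M z).adjugate) (Q := fun z =>
    Ls k (M z) (GG.hc n (pcf A T c i z))) (z₀ := A.ch i x) (T := lT A T i) (by
      intro a a'
      have e : (fun z => (M z).adjugate a a') = fun z =>
          !![M z 1 1, -M z 0 1; -M z 1 0, M z 0 0] a a' := by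
        ext z
        rw [Matrix.adjugate_fin_two]
      rw [e]
      fin_cases a <;> fin_cases a'
      · exact hM.an 1 1
      · exact (hM.an 0 1).neg
      · exact (hM.an 1 0).neg
      · exact hM.an 0 0)
    (Filter.Eventually.of_forall fun z _ => ls_wh _ (k1_hc_wh (co_wh hc i z))) h1 t
  refine oo_congr h2 ?_
  filter_upwards [hM.det] with z hz _
  rw [ls_mul, Matrix.mul_adjugate, hz, one_smul, ls_one, k1_hc_coeff, if_pos ht]

theorem start_Hv (hT : Net A b T) {c : X → JP k} (hc : CO A b T m c) (hL : SL A T n c) {r : ℕ}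
    (hr : 0 < r) (hH : SH A T n r c) : SHv A T m n r r c := by
  intro i x hi h0 hdl M' hM' t ht htr
  have hTa : ∀ j, AnalyticAt ℂ (lT A T i j) (A.ch i x) := fun j => net_an hT hi j
  have h0' : lT A T i 0 (A.ch i x) = 0 := by rw [(net_val hi).1 0, h0]
  have hd := (net_dense hT hi).self_of_nhds
  obtain ⟨M, hM, hM2⟩ := k1_frame hT hc hL hi h0 hdl
  have hadm : Adm (lT A T i 0) (A.ch i x) (M (A.ch i x)) := by
    obtain ⟨h1, h2⟩ := hM.tg.self_of_nhds h0'
    exact ⟨hM.det.self_of_nhds, h1, h2⟩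
  refine (adm_indep hadm hM' _ n r (fun t' ht' htr' => ?_)).1 t ht htr
  have h1 := vp_frame (n := n) (m := m) hd (r := -(r : ℤ)) (s := 0) (P := pcf A T c i) (M := M)
    (fun a a' => (hM.an a a').continuousAt)
    (Filter.Eventually.of_forall fun z _ => co_wh hc i z)
    (fun t'' ht'' => hH i x hi h0 hdl t'' ht'') t'
  obtain ⟨g, hg1, hg2⟩ := hM2 t' ht'
  have h2 : Tendsto (fun z => lT A T i 0 z ^ (-(-(r : ℤ))) * dl (lT A T i) z ^ (-(0 : ℤ)) *
      (Ls k (M z) (GG.hc n (pcf A T c i z))).coeff t') (𝓝[Gd (lT A T i)] (A.ch i x)) (𝓝 0) := by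
    have h3 : Tendsto (fun z => lT A T i 0 z ^ (r - nj 0 t') * g z) (𝓝[Gd (lT A T i)] (A.ch i x))
        (𝓝 0) := by
      have h4 : ContinuousAt (fun z => lT A T i 0 z ^ (r - nj 0 t') * g z) (A.ch i x) :=
        ((hTa 0).continuousAt.pow _).mul hg1.continuousAt
      have h5 := h4.tendsto
      rw [h0', zero_pow (by omega), zero_mul] at h5
      exact h5.mono_left nhdsWithin_le_nhds
    refine h3.congr' ?_
    filter_upwards [self_mem_nhdsWithin, hg2.filter_mono nhdsWithin_le_nhds] with z hzG hz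
    rw [hz hzG]
    have hz0 : lT A T i 0 z ≠ 0 := hzG.1
    rw [neg_neg, neg_zero, zpow_zero, mul_one, mul_one, ← mul_assoc, ← zpow_add₀ hz0,
      ← zpow_natCast]
    congr 2
    omega
  exact tendsto_nhds_unique h1 h2


end surf

end Pool.Agent.GG
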