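import Pool.Agent.Lib_helper82.GG.D.All
import Pool.Agent.Lib_helper82.GG.P.DIV

set_option autoImplicit false

open Filter Topology Metric Set
open scoped Nat

namespace Pool.Agent.GG

open Pool.Agent.BR

/-- F1: a smooth curve has no isolated points -/
theorem curve_acc {z₀ : V2} {σ : V2 → ℂ} (hσ : AnalyticAt ℂ σ z₀) (h0 : σ z₀ = 0)
    (hd : ∃ j, pd j σ z₀ ≠ 0) : ∃ᶠ z in 𝓝[≠] z₀, σ z = 0 := by
  intro h
  obtain ⟨g', _, h2⟩ := div_smooth (g := fun _ => (1 : ℂ)) hσ h0 hd analyticAt_const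
    (h.mono fun z hz hz' => absurd hz' hz)
  have h3 := h2.self_of_nhds
  rw [h0, zero_mul] at h3
  exact one_ne_zero h3


end Pool.Agent.GG
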