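import Pool.Agent.Lib_helper82.GG.D.All

set_option autoImplicit false

open Filter Topology Metric Set

namespace Pool.Agent.GG

open Pool.Agent.BR

/-- a coordinate of an analytic map -/
theorem f6_coord {Φ : V2 → V2} {z : V2} (hΦ : AnalyticAt ℂ Φ z) (i : Fin 2) :
    AnalyticAt ℂ (fun w => Φ w i) z :=
  (ContinuousLinearMap.proj (R := ℂ) (φ := fun _ : Fin 2 => ℂ) i).analyticAt (Φ z) |>.comp hΦ

theorem f6_pd_an {f : V2 → ℂ} {z : V2} (hf : AnalyticAt ℂ f z) (l : Fin 2) :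
    AnalyticAt ℂ (pd l f) z := by
  unfold pd
  exact ((ContinuousLinearMap.apply ℂ ℂ (Pi.single l (1 : ℂ) : V2)).analyticAt
    (fderiv ℂ f z)).comp hf.fderiv

theorem f6_det_an {Φ : V2 → V2} {z : V2} (hΦ : AnalyticAt ℂ Φ z) :
    AnalyticAt ℂ (fun w => (Jm Φ w).det) z := by
  have h : ∀ i l, AnalyticAt ℂ (fun w => Jm Φ w i l) z := fun i l =>
    f6_pd_an (f6_coord hΦ i) l
  have he : (fun w => (Jm Φ w).det) =
      fun w => Jm Φ w 0 0 * Jm Φ w 1 1 - Jm Φ w 0 1 * Jm Φ w 1 0 := by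
    funext w
    rw [Matrix.det_fin_two]
  rw [he]
  exact ((h 0 0).mul (h 1 1)).sub ((h 0 1).mul (h 1 0))

theorem f6_fderiv {Φ : V2 → V2} {z : V2} (hΦ : AnalyticAt ℂ Φ z) (l : Fin 2) :
    fderiv ℂ Φ z (Pi.single l (1 : ℂ)) =
      Jm Φ z 0 l • (Pi.single 0 (1 : ℂ) : V2) + Jm Φ z 1 l • (Pi.single 1 (1 : ℂ) : V2) := by
  have h : ∀ i, fderiv ℂ Φ z (Pi.single l (1 : ℂ)) i = Jm Φ z i l := by
    intro i
    have h1 := hasFDerivAt_pi'.mp hΦ.differentiableAt.hasFDerivAt i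
    show _ = fderiv ℂ (fun w => Φ w i) z (Pi.single l (1 : ℂ))
    rw [h1.fderiv]
    rfl
  ext i
  rw [h i]
  fin_cases i <;> simp

theorem f6_chain {Φ : V2 → V2} {z : V2} (hΦ : AnalyticAt ℂ Φ z) {f : V2 → ℂ}
    (hf : AnalyticAt ℂ f (Φ z)) (l : Fin 2) :
    fderiv ℂ (fun w => f (Φ w)) z (Pi.single l (1 : ℂ)) =
      pd 0 f (Φ z) * Jm Φ z 0 l + pd 1 f (Φ z) * Jm Φ z 1 l := by
  have h1 : HasFDerivAt (fun w => f (Φ w)) ((fderiv ℂ f (Φ z)).comp (fderiv ℂ Φ z)) z :=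
    hf.differentiableAt.hasFDerivAt.comp z hΦ.differentiableAt.hasFDerivAt
  rw [h1.fderiv, ContinuousLinearMap.comp_apply, f6_fderiv hΦ l, map_add, map_smul, map_smul,
    smul_eq_mul, smul_eq_mul]
  unfold pd
  ring

/-- F6: the jacobian of the sections under a change of coordinates -/
theorem dl_comp {b : ℕ} {T T' : Fin 3 → V2 → ℂ} {Φ : V2 → V2} {z : V2}
    (hΦ : AnalyticAt ℂ Φ z)
    (hT' : ∀ j, AnalyticAt ℂ (T' j) (Φ z))
    (h : ∀ j, ∀ᶠ w in 𝓝 z, T j w = (Jm Φ w).det ^ b * T' j (Φ w)) :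
    dl T z = (Jm Φ z).det ^ (3 * b + 1) * dl T' (Φ z) := by
  have hJ : DifferentiableAt ℂ (fun w => (Jm Φ w).det ^ b) z :=
    ((f6_det_an hΦ).pow b).differentiableAt
  have hv : ∀ j, T j z = (Jm Φ z).det ^ b * T' j (Φ z) := fun j => (h j).self_of_nhds
  have hd : ∀ j l, pd l (T j) z = pd l (fun w => (Jm Φ w).det ^ b) z * T' j (Φ z) +
      (Jm Φ z).det ^ b * (pd 0 (T' j) (Φ z) * Jm Φ z 0 l + pd 1 (T' j) (Φ z) * Jm Φ z 1 l) := by
    intro j l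
    have h1 : T j =ᶠ[𝓝 z] fun w => (Jm Φ w).det ^ b * T' j (Φ w) := h j
    have h2 : DifferentiableAt ℂ (fun w => T' j (Φ w)) z :=
      (hT' j).differentiableAt.comp z hΦ.differentiableAt
    have h3 : HasFDerivAt (fun w => (Jm Φ w).det ^ b * T' j (Φ w))
        ((Jm Φ z).det ^ b • fderiv ℂ (fun w => T' j (Φ w)) z +
          T' j (Φ z) • fderiv ℂ (fun w => (Jm Φ w).det ^ b) z) z :=
      hJ.hasFDerivAt.mul h2.hasFDerivAt
    have h4 : pd l (T j) z = fderiv ℂ (fun w => (Jm Φ w).det ^ b * T' j (Φ w)) z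
        (Pi.single l (1 : ℂ)) := by
      unfold pd
      rw [h1.fderiv_eq]
    rw [h4, h3.fderiv, ContinuousLinearMap.add_apply, ContinuousLinearMap.smul_apply,
      ContinuousLinearMap.smul_apply, f6_chain hΦ (hT' j) l, smul_eq_mul, smul_eq_mul]
    show _ = fderiv ℂ (fun w => (Jm Φ w).det ^ b) z (Pi.single l (1 : ℂ)) * _ + _
    ring
  have e : ∀ x : ℂ, x ^ (3 * b + 1) = x ^ b * x ^ b * x ^ b * x := by
    intro x; ring
  rw [e, Matrix.det_fin_two (Jm Φ z)]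
  unfold dl
  rw [Matrix.det_fin_three, Matrix.det_fin_three]
  simp only [Matrix.of_apply, Matrix.cons_val_zero, Matrix.cons_val_one, Matrix.cons_val]
  rw [hv 0, hv 1, hv 2, hd 0 0, hd 0 1, hd 1 0, hd 1 1, hd 2 0, hd 2 1,
    Matrix.det_fin_two (Jm Φ z)]
  ring


end Pool.Agent.GG
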