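import Pool.Agent.Lib_helper82.GG.D.All
import Pool.Agent.Lib_helper82.GG.P.F2
import Pool.Agent.Lib_helper82.GG.P.F6
import Pool.Agent.Lib_helper82.GG.P.F7
import Pool.Agent.Lib_helper82.GG.P.J6b
import Pool.Agent.Lib_helper82.GG.P.J6c
import Pool.Agent.Lib_helper82.GG.P.J7
import Pool.Agent.Lib_helper82.GG.P.J8
import Pool.Agent.Lib_helper82.GG.P.O2

set_option autoImplicit false

open Filter Topology Metric Set

namespace Pool.Agent.GG

open Pool.Agent.BR

section loc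

variable {k m n : ℕ} {T : Fin 3 → V2 → ℂ} {z₀ : V2}

theorem f8_pd_an {f : V2 → ℂ} {z : V2} (hf : AnalyticAt ℂ f z) (j : Fin 2) :
    AnalyticAt ℂ (pd j f) z :=
  ((ContinuousLinearMap.apply ℂ ℂ (Pi.single j (1 : ℂ) : V2)).analyticAt _).comp hf.fderiv

theorem f8_jm_an {Φ : V2 → V2} {z : V2} (hΦ : AnalyticAt ℂ Φ z) (i j : Fin 2) :
    AnalyticAt ℂ (fun w => Jm Φ w i j) z := by
  have h1 : AnalyticAt ℂ (fun w => Φ w i) z :=
    ((ContinuousLinearMap.proj (R := ℂ) (φ := fun _ : Fin 2 => ℂ) i).analyticAt _).comp hΦ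
  exact f8_pd_an h1 j

theorem f8_det_an {Φ : V2 → V2} {z : V2} (hΦ : AnalyticAt ℂ Φ z) :
    AnalyticAt ℂ (fun w => (Jm Φ w).det) z := by
  have : (fun w => (Jm Φ w).det) = fun w => Jm Φ w 0 0 * Jm Φ w 1 1 - Jm Φ w 0 1 * Jm Φ w 1 0 := by
    funext w
    rw [Matrix.det_fin_two]
  rw [this]
  exact ((f8_jm_an hΦ 0 0).mul (f8_jm_an hΦ 1 1)).sub ((f8_jm_an hΦ 0 1).mul (f8_jm_an hΦ 1 0))

theorem f8_hc_coeff (n : ℕ) (P : JP k) (t : Fin 2 × Fin k →₀ ℕ) :
    (hc n P).coeff t = if dg t = n then P.coeff t else 0 := by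
  unfold hc dg
  rw [MvPolynomial.coeff_homogeneousComponent, Finsupp.degree_eq_sum]

theorem f8_sum_coeff (S : Finset (Fin 2 × Fin k →₀ ℕ)) (a : (Fin 2 × Fin k →₀ ℕ) → ℂ)
    (t : Fin 2 × Fin k →₀ ℕ) :
    (∑ t' ∈ S, MvPolynomial.monomial t' (a t') : JP k).coeff t = if t ∈ S then a t else 0 := by
  classical
  rw [MvPolynomial.coeff_sum]
  simp only [MvPolynomial.coeff_monomial]
  rw [Finset.sum_ite_eq' S t a]

theorem f8_ls_sum (M : Matrix (Fin 2) (Fin 2) ℂ) (S : Finset (Fin 2 × Fin k →₀ ℕ))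
    (a : (Fin 2 × Fin k →₀ ℕ) → ℂ) (t : Fin 2 × Fin k →₀ ℕ) :
    (Ls k M (∑ t' ∈ S, MvPolynomial.monomial t' (a t'))).coeff t =
      ∑ t' ∈ S, a t' * (Ls k M (MvPolynomial.monomial t' 1)).coeff t := by
  rw [map_sum, MvPolynomial.coeff_sum]
  refine Finset.sum_congr rfl fun t' _ => ?_
  have : (MvPolynomial.monomial t' (a t') : JP k) = a t' • MvPolynomial.monomial t' 1 := by
    rw [MvPolynomial.smul_monomial, smul_eq_mul, mul_one]
  rw [this, map_smul, MvPolynomial.coeff_smul, smul_eq_mul]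

/-- F8: the values of the leading part under a change of coordinates; on the curve the parts of
lower degree do not contribute -/
theorem vp_tr {b : ℕ} {T T' : Fin 3 → V2 → ℂ} {Φ : V2 → V2} (hd : (𝓝[Gd T] z₀).NeBot)
    (hΦ : AnalyticAt ℂ Φ z₀) (hJ : (Jm Φ z₀).det ≠ 0) (hT : ∀ j, AnalyticAt ℂ (T j) z₀)
    (hT' : ∀ j, AnalyticAt ℂ (T' j) (Φ z₀))
    (h : ∀ j, ∀ᶠ w in 𝓝 z₀, T j w = (Jm Φ w).det ^ b * T' j (Φ w))
    {P P' : V2 → JP k} (hPP : ∀ᶠ z in 𝓝 z₀, z ∈ Gd T → P z = Tr k Φ z (P' (Φ z)))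
    (hw : ∀ᶠ z in 𝓝 (Φ z₀), z ∈ Gd T' → Wh m (P' z))
    (hlow : ∀ t : Fin 2 × Fin k →₀ ℕ, dg t < n → OO T' (Φ z₀) 0 0 (fun z => (P' z).coeff t))
    {r s : ℕ} (hrs : (r ≠ 0 ∧ T 0 z₀ = 0) ∨ (s ≠ 0 ∧ dl T z₀ = 0))
    (hP : ∀ t : Fin 2 × Fin k →₀ ℕ, dg t = n → OO T z₀ (-r) (-s) (fun z => (P z).coeff t))
    (hP' : ∀ t : Fin 2 × Fin k →₀ ℕ, dg t = n →
      OO T' (Φ z₀) (-r) (-s) (fun z => (P' z).coeff t)) :
    VP T n m (-r) (-s) P z₀ = MvPolynomial.C ((Jm Φ z₀).det ^ (b * r + (3 * b + 1) * s)) *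
      Ls k (Jm Φ z₀) (VP T' n m (-r) (-s) P' (Φ z₀)) := by
  classical
  have hΦc : Tendsto Φ (𝓝 z₀) (𝓝 (Φ z₀)) := hΦ.continuousAt.tendsto
  -- the jacobian section near `z₀`
  have hdl : ∀ᶠ w in 𝓝 z₀, dl T w = (Jm Φ w).det ^ (3 * b + 1) * dl T' (Φ w) := by
    have e2 : ∀ᶠ w in 𝓝 z₀, ∀ j, AnalyticAt ℂ (T' j) (Φ w) :=
      hΦc.eventually (eventually_all.2 fun j => (hT' j).eventually_analyticAt)
    have e3 : ∀ᶠ w in 𝓝 z₀, ∀ j, ∀ᶠ v in 𝓝 w, T j v = (Jm Φ v).det ^ b * T' j (Φ v) :=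
      eventually_all.2 fun j => (h j).eventually_nhds
    filter_upwards [hΦ.eventually_analyticAt, e2, e3] with w a1 a2 a3
    exact dl_comp a1 a2 a3
  have hΦt : Tendsto Φ (𝓝[Gd T] z₀) (𝓝[Gd T'] (Φ z₀)) := by
    refine tendsto_nhdsWithin_iff.2 ⟨hΦc.mono_left nhdsWithin_le_nhds, ?_⟩
    filter_upwards [nhdsWithin_le_nhds hdl, nhdsWithin_le_nhds (h 0), self_mem_nhdsWithin] with
      w a1 a2 a3
    refine ⟨fun h0 => a3.1 ?_, fun h0 => a3.2 ?_⟩
    · rw [a2, h0, mul_zero]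
    · rw [a1, h0, mul_zero]
  have := hd
  have hd' : (𝓝[Gd T'] (Φ z₀)).NeBot := hΦt.neBot
  -- the part of lower degree
  have hlow' : ∀ t : Fin 2 × Fin k →₀ ℕ, ∃ g : V2 → ℂ, dg t < n → AnalyticAt ℂ g (Φ z₀) ∧
      ∀ᶠ z in 𝓝 (Φ z₀), z ∈ Gd T' → (P' z).coeff t = g z := by
    intro t
    by_cases ht : dg t < n
    · obtain ⟨g, hg, hg'⟩ := hlow t ht
      refine ⟨g, fun _ => ⟨hg, hg'.mono fun z hz hzg => ?_⟩⟩
      simpa using hz hzg
    · exact ⟨0, fun h => absurd h ht⟩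
  choose g hg using hlow'
  set SL := (Ty k m).filter (fun t : Fin 2 × Fin k →₀ ℕ => dg t < n) with hSL
  set SH := (Ty k m).filter (fun t : Fin 2 × Fin k →₀ ℕ => ¬ dg t < n) with hSH
  set SN := (Ty k m).filter (fun t : Fin 2 × Fin k →₀ ℕ => dg t = n) with hSN
  set low : V2 → JP k := fun y => ∑ t ∈ SL, MvPolynomial.monomial t (g t y) with hlowdef
  set rest : V2 → JP k := fun y => ∑ t ∈ SH, MvPolynomial.monomial t ((P' y).coeff t) with hrestdef
  have hlow_an : ∀ t, AnalyticAt ℂ (fun w => (Tr k Φ w (low (Φ w))).coeff t) z₀ := by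
    refine tr_an (m := m) hΦ (fun w => low (Φ w)) ?_ ?_
    · intro t
      have h1 : (fun w => (low (Φ w)).coeff t) = fun w => if t ∈ SL then g t (Φ w) else 0 := by
        funext w
        exact f8_sum_coeff SL (fun t => g t (Φ w)) t
      rw [h1]
      split_ifs with ht
      · exact AnalyticAt.comp (g := g t) (f := Φ) (hg t (Finset.mem_filter.1 ht).2).1 hΦ
      · exact analyticAt_const
    · refine Eventually.of_forall fun w t ht => ?_
      rw [show (low (Φ w)).coeff t = if t ∈ SL then g t (Φ w) else 0 from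
        f8_sum_coeff SL (fun t => g t (Φ w)) t] at ht
      split_ifs at ht with h1
      · exact ((wt_fin k m).2 t).1 (Finset.mem_filter.1 h1).1
      · exact absurd rfl ht
  have hdec : ∀ᶠ y in 𝓝[Gd T'] (Φ z₀), P' y = low y + rest y := by
    have e1 : ∀ᶠ y in 𝓝 (Φ z₀), ∀ t ∈ SL, y ∈ Gd T' → (P' y).coeff t = g t y := by
      rw [Finset.eventually_all]
      exact fun t ht => (hg t (Finset.mem_filter.1 ht).2).2
    filter_upwards [nhdsWithin_le_nhds e1, nhdsWithin_le_nhds hw, self_mem_nhdsWithin] with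
      y a1 a2 a3
    ext t
    rw [MvPolynomial.coeff_add]
    rw [show (low y).coeff t = if t ∈ SL then g t y else 0 from
        f8_sum_coeff SL (fun t => g t y) t,
      show (rest y).coeff t = if t ∈ SH then (P' y).coeff t else 0 from
        f8_sum_coeff SH (fun t => (P' y).coeff t) t]
    by_cases hm : wt t = m
    · have hTy : t ∈ Ty k m := ((wt_fin k m).2 t).2 hm
      by_cases hn : dg t < n
      · have h1 : t ∈ SL := Finset.mem_filter.2 ⟨hTy, hn⟩
        have h2 : t ∉ SH := fun h => (Finset.mem_filter.1 h).2 hn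
        rw [if_pos h1, if_neg h2, add_zero, a1 t h1 a3]
      · have h1 : t ∉ SL := fun h => hn (Finset.mem_filter.1 h).2
        have h2 : t ∈ SH := Finset.mem_filter.2 ⟨hTy, hn⟩
        rw [if_neg h1, if_pos h2, zero_add]
    · have h0 : (P' y).coeff t = 0 := by
        by_contra hc
        exact hm (a2 a3 t hc)
      have h1 : t ∉ SL := fun h => hm (((wt_fin k m).2 t).1 (Finset.mem_filter.1 h).1)
      have h2 : t ∉ SH := fun h => hm (((wt_fin k m).2 t).1 (Finset.mem_filter.1 h).1)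
      rw [if_neg h1, if_neg h2, h0, add_zero]
  have hrest_lo : ∀ y, Lo n (rest y) := by
    intro y t ht
    rw [show (rest y).coeff t = if t ∈ SH then (P' y).coeff t else 0 from
        f8_sum_coeff SH (fun t => (P' y).coeff t) t] at ht
    split_ifs at ht with h1
    · exact not_lt.1 (Finset.mem_filter.1 h1).2
    · exact absurd rfl ht
  have hrest_hc : ∀ y, hc n (rest y) = ∑ t ∈ SN, MvPolynomial.monomial t ((P' y).coeff t) := by
    intro y
    ext t
    rw [f8_hc_coeff, f8_sum_coeff SN (fun t => (P' y).coeff t) t,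
      show (rest y).coeff t = if t ∈ SH then (P' y).coeff t else 0 from
        f8_sum_coeff SH (fun t => (P' y).coeff t) t]
    by_cases hn : dg t = n
    · rw [if_pos hn]
      by_cases hTy : t ∈ Ty k m
      · rw [if_pos (Finset.mem_filter.2 ⟨hTy, by omega⟩), if_pos (Finset.mem_filter.2 ⟨hTy, hn⟩)]
      · rw [if_neg (fun h : t ∈ SH => hTy (Finset.mem_filter.1 h).1),
          if_neg (fun h : t ∈ SN => hTy (Finset.mem_filter.1 h).1)]
    · rw [if_neg hn, if_neg (fun h : t ∈ SN => hn (Finset.mem_filter.1 h).2)]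
  -- the right side
  ext t
  rw [MvPolynomial.coeff_C_mul]
  rw [show VP T' n m (-r) (-s) P' (Φ z₀) = ∑ t ∈ SN,
    MvPolynomial.monomial t (vl T' (-r) (-s) (fun w => (P' w).coeff t) (Φ z₀)) from rfl]
  rw [vp_coeff]
  split_ifs with ht
  · obtain ⟨htm, htn⟩ := ht
    rw [f8_ls_sum (Jm Φ z₀) SN
      (fun t => vl T' (-r) (-s) (fun w => (P' w).coeff t) (Φ z₀)) t]
    have hlim := vl_tendsto hd (hP t htn)
    refine tendsto_nhds_unique hlim ?_
    have c1 : Tendsto (fun w => T 0 w ^ r * dl T w ^ s * (Tr k Φ w (low (Φ w))).coeff t)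
        (𝓝[Gd T] z₀) (𝓝 0) := by
      have d1 : ContinuousAt (fun w => T 0 w ^ r * dl T w ^ s * (Tr k Φ w (low (Φ w))).coeff t)
          z₀ :=
        (((hT 0).continuousAt.pow r).mul ((dl_an hT).continuousAt.pow s)).mul
          (hlow_an t).continuousAt
      have d2 : T 0 z₀ ^ r * dl T z₀ ^ s * (Tr k Φ z₀ (low (Φ z₀))).coeff t = 0 := by
        rcases hrs with ⟨h1, h2⟩ | ⟨h1, h2⟩
        · rw [h2, zero_pow h1]
          ring
        · rw [h2, zero_pow h1]
          ring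
      have d3 := d1.tendsto
      rw [d2] at d3
      exact d3.mono_left nhdsWithin_le_nhds
    have c2 : Tendsto (fun w => ∑ t' ∈ SN, (Jm Φ w).det ^ (b * r + (3 * b + 1) * s) *
        ((T' 0 (Φ w) ^ (-(-(r : ℤ))) * dl T' (Φ w) ^ (-(-(s : ℤ))) * (P' (Φ w)).coeff t') *
        (Ls k (Jm Φ w) (MvPolynomial.monomial t' 1)).coeff t)) (𝓝[Gd T] z₀)
        (𝓝 (∑ t' ∈ SN, (Jm Φ z₀).det ^ (b * r + (3 * b + 1) * s) *
          (vl T' (-r) (-s) (fun w => (P' w).coeff t') (Φ z₀) *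
          (Ls k (Jm Φ z₀) (MvPolynomial.monomial t' 1)).coeff t))) := by
      refine tendsto_finsetSum SN fun t' ht' => ?_
      refine Tendsto.mul ?_ (Tendsto.mul ?_ ?_)
      · exact ((f8_det_an hΦ).continuousAt.pow _).tendsto.mono_left nhdsWithin_le_nhds
      · exact (vl_tendsto hd' (hP' t' (Finset.mem_filter.1 ht').2)).comp hΦt
      · have d1 := ls_an (m := wt t') (z₀ := z₀) (fun i j => f8_jm_an hΦ i j)
          (fun _ => (MvPolynomial.monomial t' 1 : JP k)) (fun t => analyticAt_const)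
          (Eventually.of_forall fun w u hu => by
            rw [MvPolynomial.coeff_monomial] at hu
            split_ifs at hu with h1
            · rw [h1]
            · exact absurd rfl hu) t
        exact d1.continuousAt.tendsto.mono_left nhdsWithin_le_nhds
    have c3 := c1.add c2
    rw [zero_add] at c3
    rw [Finset.mul_sum]
    refine c3.congr' ?_
    filter_upwards [nhdsWithin_le_nhds hdl, nhdsWithin_le_nhds (h 0), self_mem_nhdsWithin,
      nhdsWithin_le_nhds hPP, hΦt.eventually hdec] with w a1 a2 a3 a4 a5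
    simp only [neg_neg, zpow_natCast]
    rw [a4 a3, a5, map_add, MvPolynomial.coeff_add, mul_add]
    congr 1
    have b1 : (Tr k Φ w (rest (Φ w))).coeff t =
        (Ls k (Jm Φ w) (∑ t ∈ SN, MvPolynomial.monomial t ((P' (Φ w)).coeff t))).coeff t := by
      rw [← hrest_hc, ← tr_hc Φ w (hrest_lo (Φ w)), f8_hc_coeff, if_pos htn]
    rw [b1, f8_ls_sum (Jm Φ w) SN (fun t => (P' (Φ w)).coeff t) t, Finset.mul_sum]
    refine Finset.sum_congr rfl fun t' _ => ?_
    rw [← a5, a1, a2]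
    ring
  · symm
    rw [mul_eq_zero]
    right
    by_contra hne
    refine ht ⟨?_, ?_⟩
    · refine ls_wh (Jm Φ z₀) ?_ t hne
      intro u hu
      rw [f8_sum_coeff SN
        (fun t => vl T' (-r) (-s) (fun w => (P' w).coeff t) (Φ z₀)) u] at hu
      split_ifs at hu with h1
      · exact ((wt_fin k m).2 u).1 (Finset.mem_filter.1 h1).1
      · exact absurd rfl hu
    · have h1 : hc n (∑ t ∈ SN, MvPolynomial.monomial t
          (vl T' (-r) (-s) (fun w => (P' w).coeff t) (Φ z₀)) : JP k) =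
          ∑ t ∈ SN, MvPolynomial.monomial t
          (vl T' (-r) (-s) (fun w => (P' w).coeff t) (Φ z₀)) := by
        ext u
        rw [f8_hc_coeff, f8_sum_coeff SN
          (fun t => vl T' (-r) (-s) (fun w => (P' w).coeff t) (Φ z₀)) u]
        by_cases hu : u ∈ SN
        · rw [if_pos hu, if_pos (Finset.mem_filter.1 hu).2]
        · rw [if_neg hu, ite_self]
      rw [← h1, ls_hc, f8_hc_coeff] at hne
      by_contra h2
      exact hne (if_neg h2)

end loc

end Pool.Agent.GG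

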