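import Pool.Agent.Lib_helper82.GG.D.All
import Pool.Agent.Lib_helper82.GG.P.F4
import Pool.Agent.Lib_helper82.GG.P.F5
import Pool.Agent.Lib_helper82.GG.P.J6c

/-! # GG, block F9 (helper69): the transformation of the first nonvanishing coefficients -/

set_option autoImplicit false
set_option linter.unusedVariables false
set_option linter.unusedSectionVars false

open Filter Topology Metric Set
open scoped Nat

namespace Pool.Agent.GG

open Pool.Agent.BR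

section loc

variable {k m n : ℕ} {T : Fin 3 → V2 → ℂ} {z₀ : V2}

theorem f9_pow {J : ℂ} (hJ : J ≠ 0) (e r p a : ℕ) :
    J ^ (e * r) * (((J ^ e)⁻¹) ^ p * (J ^ (e + 1)) ^ a) =
      J ^ ((e : ℤ) * (r - p + a) + a) := by
  have h1 : J ^ (e * r) = J ^ ((e : ℤ) * r) := by
    rw [← zpow_natCast]; push_cast; rfl
  have h2 : ((J ^ e)⁻¹) ^ p = J ^ (-((e : ℤ) * p)) := by
    rw [zpow_neg, inv_pow, ← pow_mul, ← zpow_natCast]; push_cast; rfl
  have h3 : (J ^ (e + 1)) ^ a = J ^ (((e : ℤ) + 1) * a) := by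
    rw [← pow_mul, ← zpow_natCast]; push_cast; rfl
  rw [h1, h2, h3, ← zpow_add₀ hJ, ← zpow_add₀ hJ]
  congr 1
  ring

theorem ft_tr {b e r : ℕ} {σ τ : V2 → ℂ} {Φ : V2 → V2} {z : V2} (hΦ : AnalyticAt ℂ Φ z)
    (hJ : (Jm Φ z).det ≠ 0) (hτ : AnalyticAt ℂ τ (Φ z))
    (h : ∀ᶠ w in 𝓝 z, σ w = (Jm Φ w).det ^ e * τ (Φ w)) (h0 : σ z = 0)
    {M N : Matrix (Fin 2) (Fin 2) ℂ} (hM : Adm σ z M) (hN : Adm τ (Φ z) N) {G G' : JP k}
    (hG : G = MvPolynomial.C ((Jm Φ z).det ^ (e * r)) * Ls k (Jm Φ z) G')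
    (t : Fin 2 × Fin k →₀ ℕ) (ht : ∀ t' : Fin 2 × Fin k →₀ ℕ, dg t' = dg t → nj 0 t' < nj 0 t →
      (Ls k N G').coeff t' = 0) :
    (Ls k M G).coeff t =
      (Jm Φ z).det ^ ((e : ℤ) * (r - nj 0 t + nj 1 t) + nj 1 t) * (Ls k N G').coeff t := by
  obtain ⟨s, hs⟩ := adm_tr hΦ hJ hτ h h0 hM hN
  have hα : ((Jm Φ z).det ^ e)⁻¹ ≠ 0 := inv_ne_zero (pow_ne_zero _ hJ)
  have h1 : Ls k M G = MvPolynomial.C ((Jm Φ z).det ^ (e * r)) * Ls k (Jm Φ z * M) G' := by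
    rw [hG, map_mul, ls_mul]
    congr 1
    exact (Ls k M).commutes _
  rw [h1, MvPolynomial.coeff_C_mul, hs, ls_tri hα N G' t ht, ← f9_pow hJ]
  ring


end loc

end Pool.Agent.GG
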