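import Pool.Agent.Lib_helper82.GG.D.All
import Pool.Agent.Lib_helper82.GG.P.J6c
import Pool.Agent.Lib_helper82.GG.P.J6d
import Pool.Agent.Lib_helper82.GG.P.J7
import Pool.Agent.Lib_helper82.GG.P.J8

set_option autoImplicit false

open Filter Topology Metric Set

namespace Pool.Agent.GG

variable {T : Fin 3 → V2 → ℂ} {z₀ : V2}
variable {k m n b : ℕ}

theorem frame_oo {r₁ s₁ r₂ s₂ r s : ℤ} (M : V2 → Matrix (Fin 2) (Fin 2) ℂ)
    (h1 : ∀ i, OO T z₀ r₁ s₁ (fun z => (Jm (UU T) z * M z) i 0))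
    (h2 : ∀ i, OO T z₀ r₂ s₂ (fun z => (Jm (UU T) z * M z) i 1)) (c' : V2 → JP k)
    (hc' : ∀ t, OO T z₀ r s (fun z => (c' z).coeff t))
    (hw : ∀ᶠ z in 𝓝 z₀, z ∈ Gd T → Wh m (c' z)) (t : Fin 2 × Fin k →₀ ℕ) :
    OO T z₀ (r₁ * nj 0 t + r₂ * nj 1 t + r) (s₁ * nj 0 t + s₂ * nj 1 t + s)
      (fun z => (Ls k (M z) (Ls k (Jm (UU T) z) (c' z))).coeff t) := by
  classical
  choose g hg hgz using h1
  choose g' hg' hgz' using h2
  choose a ha haz using hc'
  let N : V2 → Matrix (Fin 2) (Fin 2) ℂ := fun z => Matrix.of fun i => ![g i z, g' i z]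
  let e : V2 → JP k := fun z => ∑ t ∈ Ty k m, MvPolynomial.monomial t (a t z)
  have hcoe : ∀ z t, (e z).coeff t = if t ∈ Ty k m then a t z else 0 := by
    intro z t
    simp only [e, MvPolynomial.coeff_sum, MvPolynomial.coeff_monomial]
    rw [Finset.sum_ite_eq' (Ty k m) t (fun i => a i z)]
  have hNan : ∀ i j, AnalyticAt ℂ (fun z => N z i j) z₀ := by
    intro i j
    fin_cases j
    · exact hg i
    · exact hg' i
  have hean : ∀ t, AnalyticAt ℂ (fun z => (e z).coeff t) z₀ := by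
    intro t
    simp only [hcoe]
    by_cases ht : t ∈ Ty k m
    · simp only [ht, if_true]; exact ha t
    · simp only [ht, if_false]; exact analyticAt_const
  have hew : ∀ z, Wh m (e z) := by
    intro z t ht
    rw [hcoe] at ht
    by_contra hno
    exact ht (if_neg fun h => hno (((wt_fin k m).2 t).1 h))
  refine ⟨fun z => (Ls k (N z) (e z)).coeff t,
    ls_an hNan e hean (Eventually.of_forall hew) t, ?_⟩
  have haS : ∀ᶠ z in 𝓝 z₀, ∀ t ∈ Ty k m, z ∈ Gd T → (c' z).coeff t =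
      T 0 z ^ r * dl T z ^ s * a t z := by
    rw [Filter.eventually_all_finset]
    exact fun t _ => haz t
  filter_upwards [haS, hw, eventually_all.2 hgz, eventually_all.2 hgz'] with z z1 z2 z3 z4 hG
  have h0 : T 0 z ≠ 0 := hG.1
  have h1 : dl T z ≠ 0 := hG.2
  have hc : c' z = MvPolynomial.C (T 0 z ^ r * dl T z ^ s) * e z := by
    ext t'
    rw [MvPolynomial.coeff_C_mul, hcoe]
    by_cases ht : t' ∈ Ty k m
    · rw [if_pos ht, z1 t' ht hG]
    · rw [if_neg ht, mul_zero]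
      by_contra hne
      exact ht (((wt_fin k m).2 t').2 (z2 hG t' hne))
  have hM : Jm (UU T) z * M z = N z * Matrix.diagonal ![T 0 z ^ r₁ * dl T z ^ s₁,
      T 0 z ^ r₂ * dl T z ^ s₂] := by
    ext i j
    rw [Matrix.mul_diagonal]
    fin_cases j
    · have := z3 i hG
      simp only [N, Matrix.of_apply, Fin.zero_eta, Matrix.cons_val_zero]
      rw [this]; ring
    · have := z4 i hG
      simp only [N, Matrix.of_apply, Fin.mk_one, Matrix.cons_val_one, Matrix.cons_val_fin_one]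
      rw [this]; ring
  show (Ls k (M z) (Ls k (Jm (UU T) z) (c' z))).coeff t = _
  rw [ls_mul, hM, ls_scale, hc, map_mul, MvPolynomial.algHom_C, MvPolynomial.algebraMap_eq,
    MvPolynomial.coeff_C_mul, zpow_add₀ h0, zpow_add₀ h0, zpow_add₀ h1, zpow_add₀ h1, mul_pow,
    mul_pow, ← zpow_natCast, ← zpow_natCast, ← zpow_natCast, ← zpow_natCast, ← zpow_mul,
    ← zpow_mul, ← zpow_mul, ← zpow_mul]
  ring


end Pool.Agent.GG
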