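import Pool.Agent.Lib_helper82.GG.D.All
import Pool.Agent.Lib_helper82.GG.P.L3

/-! # GG, block LH: the frame along `T 0 = 0` -/

set_option autoImplicit false

open Filter Topology Metric Set
open scoped Nat

namespace Pool.Agent.GG

open Pool.Agent.BR

theorem lh_line {h : V2 → ℂ} {z : V2} (hh : DifferentiableAt ℂ h z) (j : Fin 2) :
    HasDerivAt (fun t : ℂ => h (z + t • Pi.single j (1 : ℂ))) (pd j h z) 0 :=
  hh.hasFDerivAt.hasLineDerivAt _

theorem lh_pd_div {f g : V2 → ℂ} {z : V2} (hf : DifferentiableAt ℂ f z)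
    (hg : DifferentiableAt ℂ g z) (h0 : g z ≠ 0) (j : Fin 2) :
    pd j (fun w => f w / g w) z = (pd j f z * g z - f z * pd j g z) / g z ^ 2 := by
  have h1 := (lh_line hf j).fun_div (lh_line hg j) (by simpa using h0)
  have hd : DifferentiableAt ℂ (fun w => f w / g w) z := by
    simp only [div_eq_mul_inv]
    exact hf.mul ((differentiableAt_inv h0).comp z hg)
  have h2 := lh_line hd j
  have := h2.unique h1
  simpa using this

theorem lh_jm {T : Fin 3 → V2 → ℂ} {z : V2} (hT : ∀ j, AnalyticAt ℂ (T j) z) (h0 : T 0 z ≠ 0)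
    (i j : Fin 2) : Jm (UU T) z i j =
      (pd j (T i.succ) z * T 0 z - T i.succ z * pd j (T 0) z) / T 0 z ^ 2 :=
  lh_pd_div (hT i.succ).differentiableAt (hT 0).differentiableAt h0 j

theorem lh_pd_an {f : V2 → ℂ} {z : V2} (hf : AnalyticAt ℂ f z) (j : Fin 2) :
    AnalyticAt ℂ (pd j f) z := by
  have h1 : AnalyticAt ℂ (fderiv ℂ f) z := hf.fderiv
  exact ((ContinuousLinearMap.apply ℂ ℂ (Pi.single j (1 : ℂ) : V2)).analyticAt _).comp h1

/-- the first vector of the frame -/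
theorem lh_first {X₀ X₁ : V2 → ℂ} {z₀ : V2} (h0 : AnalyticAt ℂ X₀ z₀) (h1 : AnalyticAt ℂ X₁ z₀)
    (h : X₀ z₀ ≠ 0 ∨ X₁ z₀ ≠ 0) : ∃ E₀ E₁ : V2 → ℂ, AnalyticAt ℂ E₀ z₀ ∧ AnalyticAt ℂ E₁ z₀ ∧
      ∀ᶠ z in 𝓝 z₀, E₀ z * X₀ z + E₁ z * X₁ z = 1 := by
  rcases h with h | h
  · refine ⟨fun z => (X₀ z)⁻¹, fun _ => 0, h0.inv h, analyticAt_const, ?_⟩
    filter_upwards [h0.continuousAt.eventually_ne h] with z hz
    rw [inv_mul_cancel₀ hz, zero_mul, add_zero]
  · refine ⟨fun _ => 0, fun z => (X₁ z)⁻¹, analyticAt_const, h1.inv h, ?_⟩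
    filter_upwards [h1.continuousAt.eventually_ne h] with z hz
    rw [inv_mul_cancel₀ hz, zero_mul, zero_add]

theorem frame_H {T : Fin 3 → V2 → ℂ} {z₀ : V2} (hT : ∀ j, AnalyticAt ℂ (T j) z₀)
    (h0 : T 0 z₀ = 0) (hd : ∃ j, pd j (T 0) z₀ ≠ 0)
    (h12 : T 1 z₀ ≠ 0 ∨ T 2 z₀ ≠ 0) :
    ∃ M, AFr (T 0) z₀ M ∧ ∀ (k m n b : ℕ) (c' : V2 → JP k),
      (∀ t, OO T z₀ n (-(2 * b * n)) (fun z => (c' z).coeff t)) →
      (∀ᶠ z in 𝓝 z₀, z ∈ Gd T → Wh m (c' z)) →
      ∀ t : Fin 2 × Fin k →₀ ℕ, dg t = n →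
        OO T z₀ (-(nj 0 t)) (-(2 * b * n) + nj 1 t)
          (fun z => (Ls k (M z) (Ls k (Jm (UU T) z) (c' z))).coeff t) := by
  obtain ⟨i, hi⟩ : ∃ i : Fin 2, T i.succ z₀ ≠ 0 := by
    rcases h12 with h | h
    · exact ⟨0, h⟩
    · exact ⟨1, h⟩
  -- the components of `T_i d (T_0 / T_i)`
  set X : Fin 2 → V2 → ℂ := fun l z =>
    (pd l (T 0) z * T i.succ z - T 0 z * pd l (T i.succ) z) / T i.succ z with hX
  have hXan : ∀ l, AnalyticAt ℂ (X l) z₀ := fun l =>
    (((lh_pd_an (hT 0) l).mul (hT i.succ)).sub ((hT 0).mul (lh_pd_an (hT i.succ) l))).div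
      (hT i.succ) hi
  have hX0 : ∀ l, X l z₀ = pd l (T 0) z₀ := by
    intro l
    simp only [hX, h0]
    field_simp
    ring
  have hXne : X 0 z₀ ≠ 0 ∨ X 1 z₀ ≠ 0 := by
    rw [hX0, hX0]
    obtain ⟨j, hj⟩ := hd
    fin_cases j
    · exact Or.inl hj
    · exact Or.inr hj
  obtain ⟨E₀, E₁, hE0, hE1, hE⟩ := lh_first (hXan 0) (hXan 1) hXne
  set M : V2 → Matrix (Fin 2) (Fin 2) ℂ := fun z => !![E₀ z, -X 1 z; E₁ z, X 0 z] with hM
  have hTne : ∀ᶠ z in 𝓝 z₀, T i.succ z ≠ 0 := (hT i.succ).continuousAt.eventually_ne hi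
  have hTan : ∀ᶠ z in 𝓝 z₀, ∀ j, AnalyticAt ℂ (T j) z :=
    Filter.eventually_all.2 fun j => (hT j).eventually_analyticAt
  refine ⟨M, ⟨?_, ?_, ?_⟩, ?_⟩
  · intro a c
    fin_cases a <;> fin_cases c
    · exact hE0
    · exact (hXan 1).neg
    · exact hE1
    · exact hXan 0
  · filter_upwards [hE] with z hz
    rw [Matrix.det_fin_two]
    simp only [hM, Matrix.of_apply, Matrix.cons_val', Matrix.cons_val_zero, Matrix.cons_val_one,
      Matrix.cons_val_fin_one]
    linear_combination hz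
  · filter_upwards [hTne] with z hz hz0
    have e : ∀ l, X l z = pd l (T 0) z := by
      intro l
      simp only [hX, hz0]
      field_simp
      ring
    constructor
    · show -X 1 z = _
      rw [e]
    · show X 0 z = _
      rw [e]
  · intro k m n b c' hc' hw t ht
    have h1 : ∀ a, OO T z₀ (-2) 0 (fun z => (Jm (UU T) z * M z) a 0) := by
      intro a
      refine ⟨fun z => (pd 0 (T a.succ) z * T 0 z - T a.succ z * pd 0 (T 0) z) * E₀ z +
        (pd 1 (T a.succ) z * T 0 z - T a.succ z * pd 1 (T 0) z) * E₁ z, ?_, ?_⟩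
      · exact ((((lh_pd_an (hT a.succ) 0).mul (hT 0)).sub
          ((hT a.succ).mul (lh_pd_an (hT 0) 0))).mul hE0).add
          ((((lh_pd_an (hT a.succ) 1).mul (hT 0)).sub
          ((hT a.succ).mul (lh_pd_an (hT 0) 1))).mul hE1)
      · filter_upwards [hTan] with z hz hg
        have hz0 : T 0 z ≠ 0 := hg.1
        rw [Matrix.mul_apply, Fin.sum_univ_two, lh_jm hz hz0, lh_jm hz hz0]
        show _ * E₀ z + _ * E₁ z = _
        rw [zpow_neg, zpow_zero, mul_one]
        have e : (T 0 z) ^ (2 : ℤ) = T 0 z ^ 2 := by norm_cast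
        rw [e]
        field_simp
    have h2 : ∀ a, OO T z₀ (-1) 1 (fun z => (Jm (UU T) z * M z) a 1) := by
      intro a
      refine ⟨fun z => (if a = i then 0 else if i = 0 then -1 else 1) / T i.succ z, ?_, ?_⟩
      · exact analyticAt_const.div (hT i.succ) hi
      · filter_upwards [hTan, hTne] with z hz hzi hg
        have hz0 : T 0 z ≠ 0 := hg.1
        rw [Matrix.mul_apply, Fin.sum_univ_two, lh_jm hz hz0, lh_jm hz hz0]
        show _ * (-X 1 z) + _ * X 0 z = _
        rw [zpow_neg, zpow_one, zpow_one]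
        unfold dl
        rw [Matrix.det_fin_three]
        simp only [hX, Matrix.of_apply, Matrix.cons_val_zero, Matrix.cons_val_one,
          Matrix.cons_val_two, Matrix.head_cons, Matrix.tail_cons]
        fin_cases i <;> fin_cases a
        · replace hzi : T 1 z ≠ 0 := hzi
          simp
          field_simp
          ring
        · replace hzi : T 1 z ≠ 0 := hzi
          simp
          field_simp
          ring
        · replace hzi : T 2 z ≠ 0 := hzi
          simp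
          field_simp
          ring
        · replace hzi : T 2 z ≠ 0 := hzi
          simp
          field_simp
          ring
    have h3 := frame_oo M h1 h2 c' hc' hw t
    have e1 : (-2 : ℤ) * nj 0 t + (-1) * nj 1 t + n = -(nj 0 t) := by
      have : (nj 0 t + nj 1 t : ℤ) = n := by
        rw [← ht]
        unfold nj dg
        rw [Fintype.sum_prod_type, Fin.sum_univ_two]
        push_cast
        rfl
      linarith
    have e2 : (0 : ℤ) * nj 0 t + 1 * nj 1 t + (-(2 * b * n)) = -(2 * b * n) + nj 1 t := by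
      ring
    rw [e1, e2] at h3
    exact h3


end Pool.Agent.GG
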