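import Pool.Agent.Lib_helper82.GG.D.All
import Pool.Agent.Lib_helper82.GG.P.DIV
import Pool.Agent.Lib_helper82.GG.P.O1
import Pool.Agent.Lib_helper82.GG.P.O2

/-! # GG, block OI: improvement of the pole orders -/

set_option autoImplicit false

open Filter Topology Metric Set

namespace Pool.Agent.GG

open Pool.Agent.BR

/-- `f` is `σ ^ r * τ ^ s` times an analytic function near `z₀` -/
def oi_G (σ τ : V2 → ℂ) (z₀ : V2) (r s : ℤ) (f : V2 → ℂ) : Prop :=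
  ∃ g : V2 → ℂ, AnalyticAt ℂ g z₀ ∧
    ∀ᶠ z in 𝓝 z₀, σ z ≠ 0 → τ z ≠ 0 → f z = σ z ^ r * τ z ^ s * g z

theorem oi_freq {σ τ : V2 → ℂ} {z₀ : V2} (hσ : AnalyticAt ℂ σ z₀) (hτ : AnalyticAt ℂ τ z₀)
    (hd : ∃ j, pd j σ z₀ ≠ 0) :
    ∀ᶠ z in 𝓝 z₀, τ z ≠ 0 → ∃ᶠ w in 𝓝 z, σ w ≠ 0 ∧ τ w ≠ 0 := by
  obtain ⟨j, hj⟩ := hd
  have hc : ContinuousAt (fun z => pd j σ z) z₀ := by
    have h1 : AnalyticAt ℂ (fderiv ℂ σ) z₀ := hσ.fderiv
    exact (h1.continuousAt.clm_apply continuousAt_const)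
  have h1 : ∀ᶠ z in 𝓝 z₀, pd j σ z ≠ 0 := hc.eventually_ne hj
  have h2 : ∀ᶠ z in 𝓝 z₀, AnalyticAt ℂ τ z := hτ.eventually_analyticAt
  filter_upwards [h1, h2] with z hz1 hz2 hz3
  have h3 : ∃ᶠ w in 𝓝 z, σ w ≠ 0 := by
    intro hcon
    have h4 : ∀ᶠ w in 𝓝 z, σ w = 0 := by
      filter_upwards [hcon] with w hw
      exact not_not.mp hw
    apply hz1
    have h5 : σ =ᶠ[𝓝 z] fun _ => (0 : ℂ) := h4
    unfold pd
    rw [h5.fderiv_eq]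
    simp
  exact h3.and_eventually (hz2.continuousAt.eventually_ne hz3)

theorem oi_step {σ τ : V2 → ℂ} {z₀ : V2} (hσ : AnalyticAt ℂ σ z₀) (hτ : AnalyticAt ℂ τ z₀)
    (h0 : σ z₀ = 0) (hd : ∃ j, pd j σ z₀ ≠ 0) {r r' s : ℤ} {f : V2 → ℂ}
    (hf : oi_G σ τ z₀ r s f)
    (h : ∀ᶠ z in 𝓝[≠] z₀, σ z = 0 → τ z ≠ 0 ∧ ∃ s', oi_G σ τ z r' s' f) (hr : r < r') :
    oi_G σ τ z₀ (r + 1) s f := by
  obtain ⟨g, hg, hfg⟩ := hf
  have key : ∀ᶠ z in 𝓝[≠] z₀, σ z = 0 → g z = 0 := by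
    have e1 : ∀ᶠ z in 𝓝[≠] z₀, ∀ᶠ w in 𝓝 z, σ w ≠ 0 → τ w ≠ 0 → f w = σ w ^ r * τ w ^ s * g w :=
      eventually_nhdsWithin_of_eventually_nhds hfg.eventually_nhds
    have e2 : ∀ᶠ z in 𝓝[≠] z₀, τ z ≠ 0 → ∃ᶠ w in 𝓝 z, σ w ≠ 0 ∧ τ w ≠ 0 :=
      eventually_nhdsWithin_of_eventually_nhds (oi_freq hσ hτ hd)
    have e3 : ∀ᶠ z in 𝓝[≠] z₀, AnalyticAt ℂ σ z :=
      eventually_nhdsWithin_of_eventually_nhds hσ.eventually_analyticAt
    have e4 : ∀ᶠ z in 𝓝[≠] z₀, AnalyticAt ℂ τ z :=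
      eventually_nhdsWithin_of_eventually_nhds hτ.eventually_analyticAt
    have e5 : ∀ᶠ z in 𝓝[≠] z₀, AnalyticAt ℂ g z :=
      eventually_nhdsWithin_of_eventually_nhds hg.eventually_analyticAt
    filter_upwards [h, e1, e2, e3, e4, e5] with z hz1 hz2 hz3 hz4 hz5 hz6 hz0
    obtain ⟨hτz, s', g1, hg1, hfg1⟩ := hz1 hz0
    have hfr := hz3 hτz
    obtain ⟨n, hn⟩ : ∃ n : ℕ, r' = r + (n + 1 : ℕ) := by
      obtain ⟨n, hn⟩ := Int.le.dest (show r + 1 ≤ r' by omega)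
      exact ⟨n, by push_cast; omega⟩
    -- the function on the right tends to zero
    have hlim : Tendsto (fun w => σ w ^ (n + 1) * (τ w ^ (s' - s) * g1 w)) (𝓝 z) (𝓝 0) := by
      have c1 : ContinuousAt (fun w => σ w ^ (n + 1) * (τ w ^ (s' - s) * g1 w)) z :=
        (hz4.continuousAt.pow _).mul
          ((hz5.continuousAt.zpow₀ _ (Or.inl hτz)).mul hg1.continuousAt)
      have := c1.tendsto
      simpa [hz0] using this
    have hlim' : Tendsto g (𝓝 z) (𝓝 (g z)) := hz6.continuousAt.tendsto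
    have hev : ∀ᶠ w in 𝓝 z, σ w ≠ 0 ∧ τ w ≠ 0 →
        g w = σ w ^ (n + 1) * (τ w ^ (s' - s) * g1 w) := by
      filter_upwards [hz2, hfg1] with w hw1 hw2 hw
      obtain ⟨ha, hb⟩ := hw
      have h1 := hw1 ha hb
      have h2 := hw2 ha hb
      rw [h1, hn, zpow_add₀ ha, zpow_natCast] at h2
      have h3 : τ w ^ s' = τ w ^ s * τ w ^ (s' - s) := by
        rw [← zpow_add₀ hb]; congr 1; ring
      rw [h3] at h2
      have ha' : σ w ^ r ≠ 0 := zpow_ne_zero _ ha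
      have hb' : τ w ^ s ≠ 0 := zpow_ne_zero _ hb
      have h4 : (σ w ^ r * τ w ^ s) * g w =
          (σ w ^ r * τ w ^ s) * (σ w ^ (n + 1) * (τ w ^ (s' - s) * g1 w)) := by
        rw [h2]; ring
      exact mul_left_cancel₀ (mul_ne_zero ha' hb') h4
    set S : Set V2 := {w | σ w ≠ 0 ∧ τ w ≠ 0} with hS
    have : NeBot (𝓝[S] z) := by
      rw [← frequently_true_iff_neBot]
      have : ∃ᶠ w in 𝓝 z, w ∈ S := hfr
      rw [frequently_nhdsWithin_iff]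
      simpa using this
    have l1 : Tendsto g (𝓝[S] z) (𝓝 (g z)) := hlim'.mono_left nhdsWithin_le_nhds
    have l2 : Tendsto g (𝓝[S] z) (𝓝 0) := by
      refine (hlim.mono_left (nhdsWithin_le_nhds (s := S))).congr' ?_
      filter_upwards [eventually_nhdsWithin_of_eventually_nhds hev, self_mem_nhdsWithin]
        with w hw hwS
      exact (hw hwS).symm
    exact tendsto_nhds_unique l1 l2
  obtain ⟨g', hg', hgg'⟩ := div_smooth hσ h0 hd hg key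
  refine ⟨g', hg', ?_⟩
  filter_upwards [hfg, hgg'] with z hz1 hz2 ha hb
  rw [hz1 ha hb, hz2, zpow_add₀ ha, zpow_one]
  ring

theorem oi_main {σ τ : V2 → ℂ} {z₀ : V2} (hσ : AnalyticAt ℂ σ z₀) (hτ : AnalyticAt ℂ τ z₀)
    (h0 : σ z₀ = 0) (hd : ∃ j, pd j σ z₀ ≠ 0) {r' s : ℤ} {f : V2 → ℂ}
    (h : ∀ᶠ z in 𝓝[≠] z₀, σ z = 0 → τ z ≠ 0 ∧ ∃ s', oi_G σ τ z r' s' f) (n : ℕ) :
    ∀ r : ℤ, r' = r + n → oi_G σ τ z₀ r s f → oi_G σ τ z₀ r' s f := by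
  induction n with
  | zero =>
    intro r hr hf
    have : r' = r := by simpa using hr
    rw [this]; exact hf
  | succ n ih =>
    intro r hr hf
    refine ih (r + 1) (by push_cast at hr; omega) ?_
    exact oi_step hσ hτ h0 hd hf h (by push_cast at hr; omega)

/-- OI: the pole along `T 0 = 0` can be read off at the points `≠ z₀` -/
theorem oo_improve_H {T : Fin 3 → V2 → ℂ} {z₀ : V2} (hT : ∀ j, AnalyticAt ℂ (T j) z₀)
    (h0 : T 0 z₀ = 0)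
    (hd : ∃ j, pd j (T 0) z₀ ≠ 0) {r r' s : ℤ} {f : V2 → ℂ} (hf : OO T z₀ r s f)
    (h : ∀ᶠ z in 𝓝[≠] z₀, T 0 z = 0 → dl T z ≠ 0 ∧ ∃ s', OO T z r' s' f) : OO T z₀ r' s f := by
  have tr : ∀ (z : V2) (a b : ℤ), OO T z a b f ↔ oi_G (T 0) (dl T) z a b f := by
    intro z a b
    constructor
    · rintro ⟨g, hg, hfg⟩
      refine ⟨g, hg, ?_⟩
      filter_upwards [hfg] with w hw ha hb
      exact hw ⟨ha, hb⟩
    · rintro ⟨g, hg, hfg⟩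
      refine ⟨g, hg, ?_⟩
      filter_upwards [hfg] with w hw hw2
      exact hw hw2.1 hw2.2
  rcases le_total r' r with hr | hr
  · exact oo_mono hT hf hr le_rfl
  · obtain ⟨n, hn⟩ := Int.le.dest hr
    rw [tr]
    refine oi_main (hT 0) (dl_an hT) h0 hd ?_ n r hn.symm ((tr _ _ _).mp hf)
    filter_upwards [h] with z hz hz0
    obtain ⟨h1, s', h2⟩ := hz hz0
    exact ⟨h1, s', (tr _ _ _).mp h2⟩

/-- OI: the pole along `δ = 0` can be read off at the points `≠ z₀` -/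
theorem oo_improve_R {T : Fin 3 → V2 → ℂ} {z₀ : V2} (hT : ∀ j, AnalyticAt ℂ (T j) z₀)
    (h0 : dl T z₀ = 0)
    (hd : ∃ j, pd j (dl T) z₀ ≠ 0) {r s s' : ℤ} {f : V2 → ℂ} (hf : OO T z₀ r s f)
    (h : ∀ᶠ z in 𝓝[≠] z₀, dl T z = 0 → T 0 z ≠ 0 ∧ ∃ r', OO T z r' s' f) : OO T z₀ r s' f := by
  have tr : ∀ (z : V2) (a b : ℤ), OO T z a b f ↔ oi_G (dl T) (T 0) z b a f := by
    intro z a b
    constructor
    · rintro ⟨g, hg, hfg⟩
      refine ⟨g, hg, ?_⟩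
      filter_upwards [hfg] with w hw ha hb
      rw [hw ⟨hb, ha⟩]; ring
    · rintro ⟨g, hg, hfg⟩
      refine ⟨g, hg, ?_⟩
      filter_upwards [hfg] with w hw hw2
      rw [hw hw2.2 hw2.1]; ring
  rcases le_total s' s with hr | hr
  · exact oo_mono hT hf le_rfl hr
  · obtain ⟨n, hn⟩ := Int.le.dest hr
    rw [tr]
    refine oi_main (dl_an hT) (hT 0) h0 hd ?_ n s hn.symm ((tr _ _ _).mp hf)
    filter_upwards [h] with z hz hz0
    obtain ⟨h1, r', h2⟩ := hz hz0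
    exact ⟨h1, r', (tr _ _ _).mp h2⟩


end Pool.Agent.GG
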