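import Pool.Agent.Lib_helper82.GG.D.All
import Pool.Agent.Lib_helper80.IS.L.V2
import Pool.Agent.Lib_helper82.GG.P.B1
import Pool.Agent.Lib_helper82.GG.P.B2
import Pool.Agent.Lib_helper82.GG.P.F1
import Pool.Agent.Lib_helper82.GG.P.F2
import Pool.Agent.Lib_helper82.GG.P.F4
import Pool.Agent.Lib_helper82.GG.P.F5
import Pool.Agent.Lib_helper82.GG.P.F7
import Pool.Agent.Lib_helper82.GG.P.F8
import Pool.Agent.Lib_helper82.GG.P.F9
import Pool.Agent.Lib_helper82.GG.P.G1
import Pool.Agent.Lib_helper82.GG.P.G3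
import Pool.Agent.Lib_helper82.GG.P.G4
import Pool.Agent.Lib_helper82.GG.P.G5
import Pool.Agent.Lib_helper82.GG.P.G6
import Pool.Agent.Lib_helper82.GG.P.G8
import Pool.Agent.Lib_helper82.GG.P.J7
import Pool.Agent.Lib_helper82.GG.P.J8
import Pool.Agent.Lib_helper82.GG.P.L2
import Pool.Agent.Lib_helper82.GG.P.LH
import Pool.Agent.Lib_helper82.GG.P.O1
import Pool.Agent.Lib_helper82.GG.P.O2
import Pool.Agent.Lib_helper82.GG.P.OI
import Pool.Agent.Lib_helper82.GG.P.ST

/-! # Existence of invariant jet differentials (MP_45e720_ag): block K2, the section over `H` -/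

set_option autoImplicit false
set_option linter.unusedVariables false
set_option linter.unusedSectionVars false

open Filter Topology Metric Set

namespace Pool.Agent.GG

open Pool.Agent.BR

section loc

variable {k m n : ℕ} {S : Fin 3 → V2 → ℂ} {z₀ : V2}

theorem k2_ls_oo {r s : ℤ} {P : V2 → JP k} {M : V2 → Matrix (Fin 2) (Fin 2) ℂ}
    (hM : ∀ i j, AnalyticAt ℂ (fun z => M z i j) z₀)
    (hw : ∀ᶠ z in 𝓝 z₀, z ∈ Gd S → Wh m (P z))
    (hP : ∀ t : Fin 2 × Fin k →₀ ℕ, dg t = n → OO S z₀ r s (fun z => (P z).coeff t))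
    (t : Fin 2 × Fin k →₀ ℕ) :
    OO S z₀ r s (fun z => (Ls k (M z) (hc n (P z))).coeff t) := by
  classical
  have h1 : ∀ t' : Fin 2 × Fin k →₀ ℕ, ∃ g : V2 → ℂ, AnalyticAt ℂ g z₀ ∧ (dg t' = n →
      ∀ᶠ z in 𝓝 z₀, z ∈ Gd S → (P z).coeff t' = S 0 z ^ r * dl S z ^ s * g z) := by
    intro t'
    by_cases h : dg t' = n
    · obtain ⟨g, hg, hg'⟩ := hP t' h
      exact ⟨g, hg, fun _ => hg'⟩
    · exact ⟨fun _ => 0, analyticAt_const, fun h' => absurd h' h⟩
  choose g hg hg' using h1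
  set G : V2 → JP k := fun z => ∑ t' ∈ (Ty k m).filter (fun t' : Fin 2 × Fin k →₀ ℕ => dg t' = n),
    MvPolynomial.monomial t' (g t' z) with hG
  have hGc : ∀ z t', (G z).coeff t' = if wt t' = m ∧ dg t' = n then g t' z else 0 := by
    intro z t'
    rw [hG]
    simp only
    rw [MvPolynomial.coeff_sum]
    simp only [MvPolynomial.coeff_monomial]
    rw [Finset.sum_ite_eq' ((Ty k m).filter (fun t' : Fin 2 × Fin k →₀ ℕ => dg t' = n)) t'
      (fun t'' => g t'' z)]
    simp only [Finset.mem_filter, (wt_fin k m).2 t']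
  have hGan : ∀ t', AnalyticAt ℂ (fun z => (G z).coeff t') z₀ := by
    intro t'
    by_cases h : wt t' = m ∧ dg t' = n
    · have h2 : (fun z => (G z).coeff t') = g t' := by
        funext z
        rw [hGc, if_pos h]
      rw [h2]
      exact hg t'
    · have h2 : (fun z => (G z).coeff t') = fun _ => 0 := by
        funext z
        rw [hGc, if_neg h]
      rw [h2]
      exact analyticAt_const
  have hGw : ∀ z, Wh m (G z) := by
    intro z t' ht'
    rw [hGc] at ht'
    by_contra h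
    exact ht' (if_neg fun h' => h h'.1)
  have hL := ls_an hM G hGan (Eventually.of_forall hGw) t
  refine ⟨fun z => (Ls k (M z) (G z)).coeff t, hL, ?_⟩
  have h3 : ∀ᶠ z in 𝓝 z₀, ∀ t' ∈ Ty k m, dg t' = n → z ∈ Gd S →
      (P z).coeff t' = S 0 z ^ r * dl S z ^ s * g t' z := by
    rw [Filter.eventually_all_finset]
    intro t' _
    by_cases h : dg t' = n
    · filter_upwards [hg' t' h] with z hz _ hzG
      exact hz hzG
    · exact Eventually.of_forall fun z h' => absurd h' h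
  filter_upwards [h3, hw] with z hz hwz hzG
  have h4 : hc n (P z) = MvPolynomial.C (S 0 z ^ r * dl S z ^ s) * G z := by
    ext t'
    rw [MvPolynomial.coeff_C_mul, hGc]
    unfold hc
    rw [MvPolynomial.coeff_homogeneousComponent, degree_dg]
    split_ifs with h5 h6 h6
    · exact hz t' (((wt_fin k m).2 t').2 h6.1) h5 hzG
    · rw [mul_zero]
      by_contra h7
      exact h6 ⟨hwz hzG t' h7, h5⟩
    · exact absurd h6.2 h5
    · rw [mul_zero]
  rw [h4, ls_C_mul, MvPolynomial.coeff_C_mul]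

end loc

section surf

variable {X : Type} [MetricSpace X] [CompactSpace X] {A : Cha V2 X} {b D k m n : ℕ}
  {T : Fin 3 → A.ι → X → ℂ} {T₃ : A.ι → X → ℂ}

open Classical in
/-- a chosen admissible frame -/
noncomputable def k2M (σ : V2 → ℂ) (z : V2) : Matrix (Fin 2) (Fin 2) ℂ :=
  if h : ∃ M, Adm σ z M then h.choose else 1

theorem k2M_spec {σ : V2 → ℂ} {z : V2} (hd : ∃ j, pd j σ z ≠ 0) : Adm σ z (k2M σ z) := by
  have h := exists_adm hd
  unfold k2M
  rw [dif_pos h]
  exact h.choose_spec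

/-- the points of `H - R` in the chart `i` -/
def HS (A : Cha V2 X) (T : Fin 3 → A.ι → X → ℂ) (i : A.ι) : Set X :=
  {y | y ∈ (A.ch i).source ∧ T 0 i y = 0 ∧ dlt A T i y ≠ 0}

theorem hs_near (hT : Net A b T) {i : A.ι} {x : X} (hi : x ∈ (A.ch i).source) :
    ∀ᶠ y in 𝓝 x, y ∈ (A.ch i).source ∧ (T 0 i y = 0 → y ≠ x → dlt A T i y ≠ 0) := by
  have h1 : ∀ᶠ y in 𝓝 x, y ∈ (A.ch i).source := (A.ch i).open_source.mem_nhds hi
  have h2 := net_pt hT hi
  rw [eventually_nhdsWithin_iff] at h2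
  have hcont : ContinuousAt (A.ch i) x := (A.ch i).continuousAt hi
  filter_upwards [h1, hcont.eventually h2] with y hy hy2
  refine ⟨hy, fun h3 h4 h5 => ?_⟩
  have h6 : A.ch i y ≠ A.ch i x := fun h => h4 ((A.ch i).injOn hy hi h)
  have h7 := net_val (T := T) hy
  exact hy2 h6 ⟨by rw [h7.1]; exact h3, by rw [h7.2]; exact h5⟩

theorem hs_nebot (hT : Net A b T) {i : A.ι} {x : X} (hi : x ∈ (A.ch i).source)
    (h0 : T 0 i x = 0) : (𝓝[HS A T i] x).NeBot := by
  have hv := net_val (T := T) hi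
  have h1 := (net_loc hT hi).1 (by rw [hv.1]; exact h0)
  have h2 := curve_acc (net_an hT hi 0) (by rw [hv.1]; exact h0) h1.1
  have h3 := net_pt hT hi
  have h4 : ∃ᶠ z in 𝓝[≠] (A.ch i x), lT A T i 0 z = 0 ∧ dl (lT A T i) z ≠ 0 := by
    refine (h2.and_eventually h3).mono fun z hz => ⟨hz.1, fun h => hz.2 ⟨hz.1, h⟩⟩
  have h5 : ∀ᶠ z in 𝓝 (A.ch i x), z ∈ (A.ch i).target :=
    (A.ch i).open_target.mem_nhds ((A.ch i).map_source hi)
  have h6 : ∃ᶠ z in 𝓝 (A.ch i x), (A.ch i).symm z ∈ HS A T i := by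
    refine ((h4.filter_mono nhdsWithin_le_nhds).and_eventually h5).mono fun z hz => ?_
    have h7 : (A.ch i).symm z ∈ (A.ch i).source := (A.ch i).map_target hz.2
    have h8 := net_val (T := T) h7
    rw [(A.ch i).right_inv hz.2] at h8
    exact ⟨h7, by rw [← h8.1]; exact hz.1.1, by rw [← h8.2]; exact hz.1.2⟩
  have h7 : Tendsto (A.ch i).symm (𝓝 (A.ch i x)) (𝓝 x) := by
    have h8 := (A.ch i).continuousAt_symm ((A.ch i).map_source hi)
    have h9 := h8.tendsto
    rwa [(A.ch i).left_inv hi] at h9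
  have h8 : ∃ᶠ y in 𝓝 x, y ∈ HS A T i := h7.frequently h6
  rw [← mem_closure_iff_nhdsWithin_neBot, mem_closure_iff_frequently]
  exact h8

/-- the values on `H - R` -/
noncomputable def F0 (A : Cha V2 X) (b : ℕ) (T : Fin 3 → A.ι → X → ℂ) (m n r : ℕ) {k : ℕ}
    (c : X → JP k) (t : Fin 2 × Fin k →₀ ℕ) (i : A.ι) (x : X) : ℂ :=
  dlt A T i x ^ (2 * b * n - nj 1 t) * (Ls k (k2M (lT A T i 0) (A.ch i x))
    (VP (lT A T i) n m (-r) 0 (pcf A T c i) (A.ch i x))).coeff t

open Classical in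
/-- the section -/
noncomputable def FH (A : Cha V2 X) (b : ℕ) (T : Fin 3 → A.ι → X → ℂ) (m n r : ℕ) {k : ℕ}
    (c : X → JP k) (t : Fin 2 × Fin k →₀ ℕ) (i : A.ι) (x : X) : ℂ :=
  if dlt A T i x = 0 then limUnder (𝓝[HS A T i] x) (F0 A b T m n r c t i)
  else F0 A b T m n r c t i x

theorem f0_eq (hT : Net A b T) {c : X → JP k} {r p : ℕ}
    (hv : SHv A T m n r p c) (t : Fin 2 × Fin k →₀ ℕ) (ht : dg t = n) (htp : nj 0 t = p)
    {i : A.ι} {x : X} (hi : x ∈ (A.ch i).source) (h0 : T 0 i x = 0) (h1 : dlt A T i x ≠ 0)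
    {M : Matrix (Fin 2) (Fin 2) ℂ} (hM : Adm (lT A T i 0) (A.ch i x) M) :
    F0 A b T m n r c t i x = dlt A T i x ^ (2 * b * n - nj 1 t) *
            (Ls k M (VP (lT A T i) n m (-r) 0 (pcf A T c i) (A.ch i x))).coeff t := by
  have h2 := (net_loc hT hi).1 (by rw [(net_val hi).1]; exact h0)
  have h3 := k2M_spec h2.1
  have h4 := (adm_indep hM h3 _ n p (hv i x hi h0 h1 M hM)).2 t ht htp
  unfold F0
  rw [h4]

/-- the local extension -/
theorem fh_an (hT : Net A b T) {c : X → JP k} (hco : CO A b T m c) (hL : SL A T n c) {r p : ℕ}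
    (hr : 0 < r) (hrp : r ≤ p) (hH : SH A T n r c) (hv : SHv A T m n r p c)
    (t : Fin 2 × Fin k →₀ ℕ) (ht : dg t = n) (htp : nj 0 t = p) {i : A.ι} {x : X}
    (hi : x ∈ (A.ch i).source) (h0 : T 0 i x = 0) :
    ∃ g : V2 → ℂ, AnalyticAt ℂ g (A.ch i x) ∧
      ∀ᶠ y in 𝓝 x, T 0 i y = 0 → FH A b T m n r c t i y = g (A.ch i y) := by
  have hS := net_an hT hi
  have hval := net_val (T := T) hi
  have hloc := (net_loc hT hi).1 (by rw [hval.1]; exact h0)
  have hdense := net_dense hT hi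
  obtain ⟨M, hM, hMo⟩ := frame_H hS (by rw [hval.1]; exact h0) hloc.1 hloc.2
  -- the curve in the chart
  have htgt : ∀ᶠ z in 𝓝 (A.ch i x), z ∈ (A.ch i).target :=
    (A.ch i).open_target.mem_nhds ((A.ch i).map_source hi)
  have hpcf : ∀ᶠ z in 𝓝 (A.ch i x), pcf A T c i z =
      Tr k (UU (lT A T i)) z (c ((A.ch i).symm z)) := by
    filter_upwards [htgt] with z hz
    unfold pcf PC
    rw [(A.ch i).right_inv hz]
  obtain ⟨c', hc'1, hc'2⟩ := lead_part hT.b_pos hS (fun z => c ((A.ch i).symm z)) (hco.oo i x hi)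
    (Eventually.of_forall fun z _ => hco.wh _) n (fun t' ht' => by
      refine oo_congr (hL i x hi t' ht') ?_
      filter_upwards [hpcf] with z hz _
      rw [hz])
  have hf := hMo k m n b c' hc'1 (hc'2.mono fun z hz hzG => (hz hzG).2.1) t ht
  set f : V2 → ℂ := fun z => (Ls k (M z) (hc n (pcf A T c i z))).coeff t with hfdef
  have hf1 : OO (lT A T i) (A.ch i x) (-(nj 0 t)) (-(2 * b * n) + nj 1 t) f := by
    refine oo_congr hf ?_
    filter_upwards [hc'2, hpcf] with z hz1 hz2 hzG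
    rw [hfdef]
    simp only
    rw [hz2, (hz1 hzG).2.2]
  -- the pole along `H`
  have hMn : ∀ᶠ z in 𝓝 (A.ch i x), ∀ a b, AnalyticAt ℂ (fun z => M z a b) z := by
    rw [eventually_all]
    intro a
    rw [eventually_all]
    intro b
    exact (hM.an a b).eventually_analyticAt
  have hf2 : OO (lT A T i) (A.ch i x) (-r) (-(2 * b * n) + nj 1 t) f := by
    refine oo_improve_H hS (by rw [hval.1]; exact h0) hloc.1 hf1 ?_
    have h1 := net_pt hT hi
    filter_upwards [h1, hMn.filter_mono nhdsWithin_le_nhds,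
      htgt.filter_mono nhdsWithin_le_nhds] with z hz1 hz2 hz3 hz0
    have hdz : dl (lT A T i) z ≠ 0 := fun h => hz1 ⟨hz0, h⟩
    refine ⟨hdz, 0, ?_⟩
    have hy : (A.ch i).symm z ∈ (A.ch i).source := (A.ch i).map_target hz3
    have hvy := net_val (T := T) hy
    rw [(A.ch i).right_inv hz3] at hvy
    have h2 := hH i _ hy (by rw [← hvy.1]; exact hz0) (by rw [← hvy.2]; exact hdz)
    rw [(A.ch i).right_inv hz3] at h2
    exact k2_ls_oo hz2 (Eventually.of_forall fun z' _ => co_wh hco i z') h2 t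
  obtain ⟨g, hg, hg1, hg2⟩ := vl_an hdense hf2
  refine ⟨g, hg, ?_⟩
  -- the values at the points of `H - R`
  have hb : nj 1 t ≤ 2 * b * n := by
    have h1 : nj 0 t + nj 1 t = dg t := by
      unfold nj dg
      rw [Fintype.sum_prod_type, Fin.sum_univ_two]
    have h2 := hT.b_pos
    nlinarith
  have key : ∀ᶠ z in 𝓝 (A.ch i x), lT A T i 0 z = 0 → dl (lT A T i) z ≠ 0 →
      F0 A b T m n r c t i ((A.ch i).symm z) = g z := by
    filter_upwards [hMn, htgt, hg.eventually_analyticAt, eventually_eventually_nhds.2 hg1,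
      hdense, hM.det, hM.tg] with z hz2 hz3 hz4 hz5 hz6 hz7 hz8 hz0 hdz
    have hy : (A.ch i).symm z ∈ (A.ch i).source := (A.ch i).map_target hz3
    have hvy := net_val (T := T) hy
    have hSy := net_an hT hy
    rw [(A.ch i).right_inv hz3] at hvy hSy
    have hy0 : T 0 i ((A.ch i).symm z) = 0 := by rw [← hvy.1]; exact hz0
    have hy1 : dlt A T i ((A.ch i).symm z) ≠ 0 := by rw [← hvy.2]; exact hdz
    have hadm : Adm (lT A T i 0) z (M z) := ⟨hz7, (hz8 hz0).1, (hz8 hz0).2⟩
    rw [f0_eq hT hv t ht htp hy hy0 hy1 (M := M z) (by rw [(A.ch i).right_inv hz3]; exact hadm),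
      (A.ch i).right_inv hz3, ← hvy.2]
    have h2 := hH i _ hy hy0 hy1
    rw [(A.ch i).right_inv hz3] at h2
    have h3 := vp_frame hz6 (M := M) (fun a b => (hz2 a b).continuousAt)
      (Eventually.of_forall fun z' _ => co_wh hco i z') h2 t
    -- the limit of `T0 ^ r * δ ^ (2 b n - a) * f`
    have h4 : Tendsto (fun w => dl (lT A T i) w ^ (2 * b * n - nj 1 t) *
        (lT A T i 0 w ^ (-(-r : ℤ)) * dl (lT A T i) w ^ (-(0 : ℤ)) *
          (Ls k (M w) (hc n (pcf A T c i w))).coeff t)) (𝓝[Gd (lT A T i)] z)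
        (𝓝 (dl (lT A T i) z ^ (2 * b * n - nj 1 t) *
          (Ls k (M z) (VP (lT A T i) n m (-r) 0 (pcf A T c i) z)).coeff t)) := by
      refine Tendsto.mul ?_ h3
      exact (((dl_an hSy).continuousAt.pow _).tendsto).mono_left nhdsWithin_le_nhds
    have h5 : Tendsto g (𝓝[Gd (lT A T i)] z) (𝓝 (g z)) :=
      hz4.continuousAt.tendsto.mono_left nhdsWithin_le_nhds
    refine tendsto_nhds_unique h4 (h5.congr' ?_)
    filter_upwards [self_mem_nhdsWithin, hz5.filter_mono nhdsWithin_le_nhds] with w hw hw2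
    have h6 := hw2 hw
    rw [hfdef] at h6
    simp only at h6
    rw [h6]
    have hw0 : lT A T i 0 w ≠ 0 := hw.1
    have hw1 : dl (lT A T i) w ≠ 0 := hw.2
    rw [neg_neg, neg_zero, zpow_zero, mul_one]
    have h7 : dl (lT A T i) w ^ (2 * b * n - nj 1 t) =
        dl (lT A T i) w ^ (-(-(2 * b * n : ℤ) + nj 1 t)) := by
      rw [← zpow_natCast]
      congr 1
      push_cast [Nat.cast_sub hb]
      ring
    rw [h7]
    have h8 : lT A T i 0 w ^ (-(r : ℤ)) = (lT A T i 0 w ^ (r : ℤ))⁻¹ := zpow_neg _ _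
    have h9 : dl (lT A T i) w ^ (-(-(2 * b * n : ℤ) + nj 1 t)) =
        (dl (lT A T i) w ^ (-(2 * b * n : ℤ) + nj 1 t))⁻¹ := zpow_neg _ _
    rw [h8, h9]
    have h10 : lT A T i 0 w ^ (r : ℤ) ≠ 0 := zpow_ne_zero _ hw0
    have h11 : dl (lT A T i) w ^ (-(2 * b * n : ℤ) + nj 1 t) ≠ 0 := zpow_ne_zero _ hw1
    field_simp
  have key2 : ∀ᶠ y in 𝓝 x, T 0 i y = 0 → dlt A T i y ≠ 0 →
      F0 A b T m n r c t i y = g (A.ch i y) := by
    have hcont : ContinuousAt (A.ch i) x := (A.ch i).continuousAt hi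
    have h1 : ∀ᶠ y in 𝓝 x, y ∈ (A.ch i).source := (A.ch i).open_source.mem_nhds hi
    filter_upwards [hcont.eventually key, h1] with y hy hy2 hy3 hy4
    have h2 := net_val (T := T) hy2
    have h3 := hy (by rw [h2.1]; exact hy3) (by rw [h2.2]; exact hy4)
    rwa [(A.ch i).left_inv hy2] at h3
  filter_upwards [key2, hs_near hT hi] with y hy hy2 hy0
  unfold FH
  split_ifs with h1
  · -- then `y = x`
    have hyx : y = x := by
      by_contra h2
      exact hy2.2 hy0 h2 h1
    rw [hyx]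
    have hne := hs_nebot hT hi h0
    refine Tendsto.limUnder_eq ?_
    have hcont : ContinuousAt (fun y => g (A.ch i y)) x :=
      ContinuousAt.comp (g := g) (f := A.ch i) hg.continuousAt ((A.ch i).continuousAt hi)
    refine (hcont.tendsto.mono_left nhdsWithin_le_nhds).congr' ?_
    filter_upwards [self_mem_nhdsWithin, key2.filter_mono nhdsWithin_le_nhds] with y' h3 h4
    exact (h4 h3.2.1 h3.2.2).symm
  · exact hy hy0 h1

/-- K2: the section over `H` -/
theorem sec_H (hT : Net A b T) {c : X → JP k} (hco : CO A b T m c) (hL : SL A T n c) {r p : ℕ}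
    (hr : 0 < r) (hrp : r ≤ p) (hH : SH A T n r c) (hv : SHv A T m n r p c)
    (t : Fin 2 × Fin k →₀ ℕ) (ht : dg t = n) (htp : nj 0 t = p) :
    ∃ F : A.ι → X → ℂ, CSec A (ZS A (T 0)) ((b : ℤ) * (r - nj 0 t) + (b + 1) * nj 1 t +
        (3 * b + 1) * (2 * b * dg t - nj 1 t)) F ∧
      ∀ i, ∀ x ∈ (A.ch i).source, T 0 i x = 0 → dlt A T i x ≠ 0 →
        ∀ M, Adm (lT A T i 0) (A.ch i x) M →
          F i x = dlt A T i x ^ (2 * b * n - nj 1 t) *
            (Ls k M (VP (lT A T i) n m (-r) 0 (pcf A T c i) (A.ch i x))).coeff t := by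
  have hb : nj 1 t ≤ 2 * b * n := by
    have h1 : nj 0 t + nj 1 t = dg t := by
      unfold nj dg
      rw [Fintype.sum_prod_type, Fin.sum_univ_two]
    have h2 := hT.b_pos
    nlinarith
  -- the transformation at the points of `H - R`
  have htr : ∀ i j x, x ∈ (A.ch i).source → x ∈ (A.ch j).source → T 0 i x = 0 →
      dlt A T i x ≠ 0 → F0 A b T m n r c t i x = IS.jac A i j x ^ ((b : ℤ) * (r - nj 0 t) +
        (b + 1) * nj 1 t + (3 * b + 1) * (2 * b * dg t - nj 1 t)) * F0 A b T m n r c t j x := by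
    intro i j x hi hj hx0 hx1
    have hJ : IS.jac A i j x ≠ 0 := IS.jac_ne hi hj
    have hx0j : T 0 j x = 0 := by
      have h1 := (hT.ps 0).tr i j x hi hj
      rw [hx0] at h1
      exact (mul_eq_zero.1 h1.symm).resolve_left (pow_ne_zero _ hJ)
    have hdtr := (dlt_ps hT.ps).tr i j x hi hj
    have hx1j : dlt A T j x ≠ 0 := by
      intro h
      rw [h, mul_zero] at hdtr
      exact hx1 hdtr
    have hvi := net_val (T := T) hi
    have hvj := net_val (T := T) hj
    have hli := (net_loc hT hi).1 (by rw [hvi.1]; exact hx0)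
    have hlj := (net_loc hT hj).1 (by rw [hvj.1]; exact hx0j)
    have hMi := k2M_spec hli.1
    have hMj := k2M_spec hlj.1
    obtain ⟨htc1, htc2, htc3⟩ := tc_near hi hj
    have hjd : IS.jac A i j x = (Jm (tc A i j) (A.ch i x)).det := jac_det
    have hJd : (Jm (tc A i j) (A.ch i x)).det ≠ 0 := by rw [← hjd]; exact hJ
    have hVP := vp_tr (n := n) (m := m) (net_dense hT hi).self_of_nhds htc1 hJd
      (net_an hT hi) (by rw [htc2]; exact net_an hT hj) (fun l => net_tr hT hi hj l)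
      (P := pcf A T c i) (P' := pcf A T c j) (pcf_tr hT c hi hj)
      (Eventually.of_forall fun z _ => co_wh hco j z)
      (fun t' ht' => by rw [htc2]; exact hL j x hj t' ht') (r := r) (s := 0)
      (Or.inl ⟨hr.ne', by rw [hvi.1]; exact hx0⟩)
      (fun t' ht' => by
        simpa using hH i x hi hx0 hx1 t' ht')
      (fun t' ht' => by
        rw [htc2]
        simpa using hH j x hj hx0j hx1j t' ht')
    rw [htc2] at hVP
    simp only [Nat.cast_zero, neg_zero, mul_zero, add_zero] at hVP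
    have hft := ft_tr (b := b) (e := b) (r := r) (σ := lT A T i 0) (τ := lT A T j 0) htc1 hJd
      (by rw [htc2]; exact net_an hT hj 0) (net_tr hT hi hj 0) (by rw [hvi.1]; exact hx0) hMi
      (by rw [htc2]; exact hMj) hVP t
      (fun t' h1 h2 => hv j x hj hx0j hx1j _ hMj t' (h1.trans ht) (by omega))
    unfold F0
    rw [hft, hdtr, ← hjd]
    rw [mul_pow, ← pow_mul]
    have h1 : IS.jac A i j x ^ ((3 * b + 1) * (2 * b * n - nj 1 t)) =
        IS.jac A i j x ^ (((3 * b + 1) * (2 * b * n - nj 1 t) : ℤ)) := by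
      rw [← zpow_natCast]
      congr 1
      push_cast [Nat.cast_sub hb]
      ring
    rw [h1]
    have h2 : IS.jac A i j x ^ ((b : ℤ) * (r - nj 0 t) + (b + 1) * nj 1 t +
        (3 * b + 1) * (2 * b * dg t - nj 1 t)) =
        IS.jac A i j x ^ (((3 * b + 1) * (2 * b * n - nj 1 t) : ℤ)) *
        IS.jac A i j x ^ ((b : ℤ) * (r - nj 0 t + nj 1 t) + nj 1 t) := by
      rw [← zpow_add₀ hJ, ht]
      congr 1
      ring
    rw [h2]
    ring
  refine ⟨FH A b T m n r c t, ⟨?_, ?_⟩, ?_⟩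
  · intro i x hi hx
    have hx0 : T 0 i x = 0 := (zs_iff (hT.ps 0) hi).1 hx
    obtain ⟨g, hg, hg2⟩ := fh_an hT hco hL hr hrp hH hv t ht htp hi hx0
    refine ⟨g, hg, ?_⟩
    have h1 : ∀ᶠ y in 𝓝 x, y ∈ (A.ch i).source := (A.ch i).open_source.mem_nhds hi
    filter_upwards [hg2, h1] with y hy hy2 hy3
    exact hy ((zs_iff (hT.ps 0) hy2).1 hy3)
  · intro i j x hi hj hx
    have hx0 : T 0 i x = 0 := (zs_iff (hT.ps 0) hi).1 hx
    have hx0j : T 0 j x = 0 := (zs_iff (hT.ps 0) hj).1 hx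
    have hJ : IS.jac A i j x ≠ 0 := IS.jac_ne hi hj
    have hdtr := (dlt_ps hT.ps).tr i j x hi hj
    by_cases hx1 : dlt A T i x = 0
    · -- passage to the limit
      obtain ⟨g, hg, hg2⟩ := fh_an hT hco hL hr hrp hH hv t ht htp hi hx0
      obtain ⟨g', hg', hg2'⟩ := fh_an hT hco hL hr hrp hH hv t ht htp hj hx0j
      have hne := hs_nebot hT hi hx0
      have hci : ContinuousAt (fun y => g (A.ch i y)) x :=
        ContinuousAt.comp (g := g) (f := A.ch i) hg.continuousAt ((A.ch i).continuousAt hi)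
      have hcj : ContinuousAt (fun y => g' (A.ch j y)) x :=
        ContinuousAt.comp (g := g') (f := A.ch j) hg'.continuousAt ((A.ch j).continuousAt hj)
      obtain ⟨htc1, htc2, htc3⟩ := tc_near hi hj
      have hJc : ContinuousAt (fun y => IS.jac A i j y) x := by
        have h1 : ContinuousAt (fun z => (Jm (tc A i j) z).det) (A.ch i x) := by
          have h2 : ∀ a l, ContinuousAt (fun z => Jm (tc A i j) z a l) (A.ch i x) := by
            intro a l
            unfold Jm pd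
            simp only [Matrix.of_apply]
            have h3 : AnalyticAt ℂ (fun w => tc A i j w a) (A.ch i x) :=
              (ContinuousLinearMap.proj (R := ℂ) (φ := fun _ : Fin 2 => ℂ) a).analyticAt _
                |>.fun_comp htc1
            exact h3.fderiv.continuousAt.clm_apply continuousAt_const
          have h4 : (fun z => (Jm (tc A i j) z).det) = fun z => Jm (tc A i j) z 0 0 *
              Jm (tc A i j) z 1 1 - Jm (tc A i j) z 0 1 * Jm (tc A i j) z 1 0 := by
            funext z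
            rw [Matrix.det_fin_two]
          rw [h4]
          exact ((h2 0 0).mul (h2 1 1)).sub ((h2 0 1).mul (h2 1 0))
        have h5 : ContinuousAt (fun y => (Jm (tc A i j) (A.ch i y)).det) x :=
          ContinuousAt.comp (g := fun z => (Jm (tc A i j) z).det) (f := A.ch i) h1
            ((A.ch i).continuousAt hi)
        refine h5.congr ?_
        have h6 : ∀ᶠ y in 𝓝 x, y ∈ (A.ch i).source ∧ y ∈ (A.ch j).source :=
          ((A.ch i).open_source.inter (A.ch j).open_source).mem_nhds ⟨hi, hj⟩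
        filter_upwards [h6] with y hy
        exact jac_det.symm
      set N : ℤ := (b : ℤ) * (r - nj 0 t) +
        (b + 1) * nj 1 t + (3 * b + 1) * (2 * b * dg t - nj 1 t) with hN
      have h1 : Tendsto (fun y => g (A.ch i y)) (𝓝[HS A T i] x) (𝓝 (g (A.ch i x))) :=
        hci.tendsto.mono_left nhdsWithin_le_nhds
      have h2 : Tendsto (fun y => IS.jac A i j y ^ N * g' (A.ch j y)) (𝓝[HS A T i] x)
          (𝓝 (IS.jac A i j x ^ N * g' (A.ch j x))) :=
        ((hJc.zpow₀ N (Or.inl hJ)).mul hcj).tendsto.mono_left nhdsWithin_le_nhds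
      have h3 : ∀ᶠ y in 𝓝[HS A T i] x, g (A.ch i y) = IS.jac A i j y ^ N * g' (A.ch j y) := by
        have h6 : ∀ᶠ y in 𝓝 x, y ∈ (A.ch j).source := (A.ch j).open_source.mem_nhds hj
        filter_upwards [self_mem_nhdsWithin, hg2.filter_mono nhdsWithin_le_nhds,
          hg2'.filter_mono nhdsWithin_le_nhds, h6.filter_mono nhdsWithin_le_nhds] with y hy h7 h8 h9
        have hy0j : T 0 j y = 0 :=
          (zs_iff (hT.ps 0) h9).1 ((zs_iff (hT.ps 0) hy.1).2 hy.2.1)
        have hy1j : dlt A T j y ≠ 0 := by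
          intro h
          have h10 := (dlt_ps hT.ps).tr i j y hy.1 h9
          rw [h, mul_zero] at h10
          exact hy.2.2 h10
        rw [← h7 hy.2.1, ← h8 hy0j]
        unfold FH
        rw [if_neg hy.2.2, if_neg hy1j]
        exact htr i j y hy.1 h9 hy.2.1 hy.2.2
      have h4 := tendsto_nhds_unique (h1.congr' h3) h2
      rw [hg2.self_of_nhds hx0, hg2'.self_of_nhds hx0j]
      exact h4
    · have hx1j : dlt A T j x ≠ 0 := by
        intro h
        rw [h, mul_zero] at hdtr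
        exact hx1 hdtr
      unfold FH
      rw [if_neg hx1, if_neg hx1j]
      exact htr i j x hi hj hx0 hx1
  · intro i x hi hx0 hx1 M hM
    unfold FH
    rw [if_neg hx1]
    exact f0_eq hT hv t ht htp hi hx0 hx1 hM

end surf

end Pool.Agent.GG
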