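import Pool.Agent.Lib_helper82.GG.D.All
import Pool.Agent.Lib_helper82.GG.P.F3
import Pool.Agent.Lib_helper82.GG.P.F4
import Pool.Agent.Lib_helper82.GG.P.F5
import Pool.Agent.Lib_helper82.GG.P.F7
import Pool.Agent.Lib_helper82.GG.P.G3
import Pool.Agent.Lib_helper82.GG.P.G4
import Pool.Agent.Lib_helper82.GG.P.G8
import Pool.Agent.Lib_helper82.GG.P.J6c
import Pool.Agent.Lib_helper82.GG.P.O2

set_option autoImplicit false
set_option linter.unusedVariables false
set_option linter.unusedSectionVars false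

open Filter Topology Metric Set
open scoped Nat

namespace Pool.Agent.GG

open Pool.Agent.BR

section surf

variable {X : Type} [MetricSpace X] [CompactSpace X] {A : Cha V2 X} {b D k m n : ℕ}
  {T : Fin 3 → A.ι → X → ℂ} {T₃ : A.ι → X → ℂ}

theorem k3_hc_coeff (P : JP k) (n : ℕ) (t : Fin 2 × Fin k →₀ ℕ) :
    (hc n P).coeff t = if dg t = n then P.coeff t else 0 := by
  have h1 : dg (t : Fin 2 × Fin k → ℕ) = Finsupp.degree t := by
    rw [Finsupp.degree_eq_sum]
    rfl
  rw [hc, MvPolynomial.coeff_homogeneousComponent, h1]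

/-- K3: the pole order drops -/
theorem drop_H (hT : Net A b T) {c : X → JP k} (hc : CO A b T m c) (hL : SL A T n c) {r : ℕ}
    (hH : SH A T n (r + 1) c) (hv : SHv A T m n (r + 1) (n + 1) c) : SH A T n r c := by
  intro i x hx h0 hd t ht
  by_cases hwt : wt (t : Fin 2 × Fin k → ℕ) = m
  swap
  · refine ⟨fun _ => 0, analyticAt_const, Eventually.of_forall fun z _ => ?_⟩
    have h1 : (pcf A T c i z).coeff t = 0 := by
      by_contra h2
      exact hwt (co_wh hc i z t h2)
    simp only [h1, mul_zero]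
  have hval := net_val (A := A) (T := T) hx
  have hT0 : lT A T i 0 (A.ch i x) = 0 := by rw [hval.1 0]; exact h0
  have hp := ((net_loc hT hx).1 hT0).1
  have hf := hH i x hx h0 hd t ht
  have hdl0 : dl (lT A T i) (A.ch i x) ≠ 0 := by rw [hval.2]; exact hd
  have hdlc : ContinuousAt (dl (lT A T i)) (A.ch i x) :=
    (dl_an (fun j => net_an hT hx j)).continuousAt
  have h3 : ∀ᶠ z in 𝓝 (A.ch i x), dl (lT A T i) z ≠ 0 := hdlc.eventually_ne hdl0
  have h4 : ∀ᶠ z in 𝓝 (A.ch i x), z ∈ (A.ch i).target :=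
    (A.ch i).open_target.mem_nhds ((A.ch i).map_source hx)
  have key : ∀ᶠ z in 𝓝[≠] (A.ch i x), lT A T i 0 z = 0 →
      vl (lT A T i) (-((r + 1 : ℕ) : ℤ)) 0 (fun z => (pcf A T c i z).coeff t) z = 0 := by
    refine eventually_nhdsWithin_of_eventually_nhds ?_
    filter_upwards [h3, h4] with z hz3 hz4 hz0
    have hy : (A.ch i).symm z ∈ (A.ch i).source := (A.ch i).map_target hz4
    have hyz : A.ch i ((A.ch i).symm z) = z := (A.ch i).right_inv hz4
    have hvy := net_val (A := A) (T := T) hy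
    rw [hyz] at hvy
    have hy0 : T 0 i ((A.ch i).symm z) = 0 := by rw [← hvy.1 0]; exact hz0
    have hyd : dlt A T i ((A.ch i).symm z) ≠ 0 := by rw [← hvy.2]; exact hz3
    have hly := net_loc hT hy
    rw [hyz] at hly
    obtain ⟨M, hM⟩ := exists_adm (hly.1 hz0).1
    have hvv := hv i _ hy hy0 hyd M (by rw [hyz]; exact hM)
    rw [hyz] at hvv
    have hVP : VP (lT A T i) n m (-((r + 1 : ℕ) : ℤ)) 0 (pcf A T c i) z = 0 := by
      refine adm_zero hM _ fun t' => ?_
      by_cases ht' : dg (t' : Fin 2 × Fin k → ℕ) = n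
      · refine hvv t' ht' ?_
        have : nj 0 (t' : Fin 2 × Fin k → ℕ) ≤ dg (t' : Fin 2 × Fin k → ℕ) := by
          simp only [nj, dg, Fintype.sum_prod_type, Fin.sum_univ_two]
          omega
        omega
      · have h5 : VP (lT A T i) n m (-((r + 1 : ℕ) : ℤ)) 0 (pcf A T c i) z =
            GG.hc n (VP (lT A T i) n m (-((r + 1 : ℕ) : ℤ)) 0 (pcf A T c i) z) := by
          ext s
          rw [k3_hc_coeff, vp_coeff]
          by_cases hs : dg (s : Fin 2 × Fin k → ℕ) = n
          · simp [hs]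
          · simp [hs]
        rw [h5, ls_hc, k3_hc_coeff, if_neg ht']
    have h6 := vp_coeff (n := n) (m := m) (T := lT A T i) (-((r + 1 : ℕ) : ℤ)) 0 (pcf A T c i) z t
    rw [hVP, if_pos ⟨hwt, ht⟩] at h6
    simpa using h6.symm
  have h7 := oo_div_T (fun j => net_an hT hx j) hT0 hp (net_dense hT hx) hf key
  have h8 : (-((r + 1 : ℕ) : ℤ)) + 1 = -(r : ℤ) := by push_cast; ring
  rw [h8] at h7
  exact h7

end surf


end Pool.Agent.GG
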