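import Pool.Agent.Lib_helper82.GG.D.All

/-! # GG, block AF: existence of admissible frames (helper16) -/

set_option autoImplicit false

open Filter Topology Metric Set
open scoped Nat

namespace Pool.Agent.GG

open Pool.Agent.BR

section div

variable {z₀ : V2}

theorem af_pd_an {σ : V2 → ℂ} (hσ : AnalyticAt ℂ σ z₀) (j : Fin 2) :
    AnalyticAt ℂ (pd j σ) z₀ := by
  have h1 : AnalyticAt ℂ (fderiv ℂ σ) z₀ := hσ.fderiv
  have h2 := (ContinuousLinearMap.apply ℂ ℂ (Pi.single j (1 : ℂ) : V2)).analyticAt (fderiv ℂ σ z₀)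
  exact h2.comp h1

/-- AF: existence of admissible frames -/
theorem exists_afr {σ : V2 → ℂ} (hσ : AnalyticAt ℂ σ z₀) (hd : ∃ j, pd j σ z₀ ≠ 0) :
    ∃ M, AFr σ z₀ M := by
  have h0 := af_pd_an hσ 0
  have h1 := af_pd_an hσ 1
  by_cases hc : pd 0 σ z₀ = 0
  · have hc1 : pd 1 σ z₀ ≠ 0 := by
      obtain ⟨j, hj⟩ := hd
      fin_cases j
      · exact absurd hc hj
      · exact hj
    refine ⟨fun z => !![0, - pd 1 σ z; (pd 1 σ z)⁻¹, pd 0 σ z], ?_, ?_, ?_⟩
    · intro i j
      fin_cases i <;> fin_cases j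
      · exact analyticAt_const
      · exact h1.neg
      · exact h1.inv hc1
      · exact h0
    · filter_upwards [h1.continuousAt.eventually_ne hc1] with z hz
      rw [Matrix.det_fin_two_of]
      field_simp
      ring
    · filter_upwards with z _
      exact ⟨rfl, rfl⟩
  · refine ⟨fun z => !![(pd 0 σ z)⁻¹, - pd 1 σ z; 0, pd 0 σ z], ?_, ?_, ?_⟩
    · intro i j
      fin_cases i <;> fin_cases j
      · exact h0.inv hc
      · exact h1.neg
      · exact analyticAt_const
      · exact h0
    · filter_upwards [h0.continuousAt.eventually_ne hc] with z hz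
      rw [Matrix.det_fin_two_of]
      field_simp
      ring
    · filter_upwards with z _
      exact ⟨rfl, rfl⟩

end div


end Pool.Agent.GG
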