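import Pool.Agent.Lib_helper82.GG.D.All
import Pool.Agent.Lib_helper82.GG.P.AF
import Pool.Agent.Lib_helper82.GG.P.F4
import Pool.Agent.Lib_helper82.GG.P.F5
import Pool.Agent.Lib_helper82.GG.P.F6
import Pool.Agent.Lib_helper82.GG.P.F7
import Pool.Agent.Lib_helper82.GG.P.F8
import Pool.Agent.Lib_helper82.GG.P.F9
import Pool.Agent.Lib_helper82.GG.P.G1
import Pool.Agent.Lib_helper82.GG.P.G3
import Pool.Agent.Lib_helper82.GG.P.G4
import Pool.Agent.Lib_helper82.GG.P.G5
import Pool.Agent.Lib_helper82.GG.P.G6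
import Pool.Agent.Lib_helper82.GG.P.G8
import Pool.Agent.Lib_helper82.GG.P.O2

/-! # Existence of invariant jet differentials (MP_45e720_ag): block K5, the section over `R` -/

set_option autoImplicit false
set_option linter.unusedVariables false
set_option linter.unusedSectionVars false

open Filter Topology Metric Set
open scoped Nat

namespace Pool.Agent.GG

open Pool.Agent.BR

section surf

variable {X : Type} [MetricSpace X] [CompactSpace X] {A : Cha V2 X} {b D k m n : ℕ}
  {T : Fin 3 → A.ι → X → ℂ} {T₃ : A.ι → X → ℂ}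

/-- K5, auxiliary: the jacobian determinants of the changes of charts are nonzero -/
theorem k5_jac_ne {i j : A.ι} {x : X} (hi : x ∈ (A.ch i).source) (hj : x ∈ (A.ch j).source) :
    (Jm (tc A i j) (A.ch i x)).det ≠ 0 := by
  rw [← jac_det]
  have h1 : AnalyticAt ℂ (fun ξ => A.ch j ((A.ch i).symm ξ)) (A.ch i x) := A.trans i j x hi hj
  have h2 : AnalyticAt ℂ (fun ξ => A.ch i ((A.ch j).symm ξ)) (A.ch j x) := A.trans j i x hj hi
  have hx : A.ch j ((A.ch i).symm (A.ch i x)) = A.ch j x := by rw [(A.ch i).left_inv hi]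
  have h3 : (fun ξ => A.ch i ((A.ch j).symm (A.ch j ((A.ch i).symm ξ)))) =ᶠ[𝓝 (A.ch i x)]
      fun ξ => ξ := by
    filter_upwards [(tc_near (A := A) hi hj).2.2] with z hz
    rw [(A.ch j).left_inv hz.2.2.1]
    exact hz.2.2.2.1
  have h4 : fderiv ℂ (fun ξ => A.ch i ((A.ch j).symm (A.ch j ((A.ch i).symm ξ)))) (A.ch i x) =
      ContinuousLinearMap.id ℂ V2 := by
    rw [h3.fderiv_eq]
    exact fderiv_fun_id
  have h5 : fderiv ℂ (fun ξ => A.ch i ((A.ch j).symm (A.ch j ((A.ch i).symm ξ)))) (A.ch i x) =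
      (fderiv ℂ (fun ξ => A.ch i ((A.ch j).symm ξ)) (A.ch j x)).comp
        (fderiv ℂ (fun ξ => A.ch j ((A.ch i).symm ξ)) (A.ch i x)) := by
    have h2' : DifferentiableAt ℂ (fun ξ => A.ch i ((A.ch j).symm ξ))
        ((fun ξ => A.ch j ((A.ch i).symm ξ)) (A.ch i x)) := by
      simp only [hx]
      exact h2.differentiableAt
    have := fderiv_comp (𝕜 := ℂ) (A.ch i x) (g := fun ξ => A.ch i ((A.ch j).symm ξ))
      (f := fun ξ => A.ch j ((A.ch i).symm ξ)) h2' h1.differentiableAt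
    simp only [hx] at this
    exact this
  rw [h4] at h5
  have h6 : (LinearMap.det ((ContinuousLinearMap.id ℂ V2 : V2 →L[ℂ] V2) : V2 →ₗ[ℂ] V2)) =
      LinearMap.det ((fderiv ℂ (fun ξ => A.ch i ((A.ch j).symm ξ)) (A.ch j x) : V2 →L[ℂ] V2) :
        V2 →ₗ[ℂ] V2) * IS.jac A i j x := by
    rw [h5]
    simp only [IS.jac, IS.dtr, ← LinearMap.det_comp]
    rfl
  intro h0
  rw [h0, mul_zero] at h6
  simp at h6

/-- K5: the section over `R` -/
theorem sec_R (hT : Net A b T) {c : X → JP k} (hc : CO A b T m c) (hL : SL A T n c) {r p : ℕ}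
    (hr : 0 < r) (hR : SR A T n r c) (hv : SRv A T m n r p c)
    (t : Fin 2 × Fin k →₀ ℕ) (ht : dg t = n) (htp : nj 0 t = p) :
    ∃ F : A.ι → X → ℂ, CSec A (ZS A (dlt A T))
        ((3 * b + 1) * ((r : ℤ) - nj 0 t + nj 1 t) + nj 1 t) F ∧
      ∀ i, ∀ x ∈ (A.ch i).source, dlt A T i x = 0 →
        ∀ M, Adm (dl (lT A T i)) (A.ch i x) M →
          F i x = (Ls k M (VP (lT A T i) n m 0 (-r) (pcf A T c i) (A.ch i x))).coeff t := by
  classical
  set F : A.ι → X → ℂ := fun i x =>
    if h : ∃ M, Adm (dl (lT A T i)) (A.ch i x) M then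
      (Ls k h.choose (VP (lT A T i) n m 0 (-r) (pcf A T c i) (A.ch i x))).coeff t else 0 with hF
  have key : ∀ i, ∀ x ∈ (A.ch i).source, dlt A T i x = 0 →
      ∀ M, Adm (dl (lT A T i)) (A.ch i x) M →
        F i x = (Ls k M (VP (lT A T i) n m 0 (-r) (pcf A T c i) (A.ch i x))).coeff t := by
    intro i x hx h0 M hM
    have hex : ∃ M, Adm (dl (lT A T i)) (A.ch i x) M := ⟨M, hM⟩
    simp only [hF, dif_pos hex]
    exact (adm_indep hM hex.choose_spec _ n p (fun t' h1 h2 => hv i x hx h0 M hM t' h1 h2)).2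
      t ht htp
  refine ⟨F, ⟨?_, ?_⟩, key⟩
  · intro i x hx hZ
    have h0 : dlt A T i x = 0 := hZ i hx
    have h0' : dl (lT A T i) (A.ch i x) = 0 := h0
    have hTa := fun l => net_an hT hx l
    obtain ⟨M, hM⟩ := exists_afr (dl_an hTa) ((net_loc hT hx).2 h0')
    refine ⟨fun z => (Ls k (M z) (VP (lT A T i) n m 0 (-r) (pcf A T c i) z)).coeff t, ?_, ?_⟩
    · exact vp_an (net_dense hT hx) hM.an (fun t' ht' => hR i x hx h0 t' ht') t
    · have e1 := ((A.ch i).continuousAt hx).eventually hM.det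
      have e2 := ((A.ch i).continuousAt hx).eventually hM.tg
      filter_upwards [e1, e2, (A.ch i).open_source.mem_nhds hx] with y y1 y2 y3 y4
      have y5 : dlt A T i y = 0 := y4 i y3
      obtain ⟨y6, y7⟩ := y2 y5
      exact key i y y3 y5 (M (A.ch i y)) ⟨y1, y6, y7⟩
  · intro i j x hi hj hZ
    have h0i : dlt A T i x = 0 := hZ i hi
    have h0j : dlt A T j x = 0 := hZ j hj
    have h0i' : dl (lT A T i) (A.ch i x) = 0 := h0i
    have h0j' : dl (lT A T j) (A.ch j x) = 0 := h0j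
    obtain ⟨M, hM⟩ := exists_adm ((net_loc hT hi).2 h0i')
    obtain ⟨N, hN⟩ := exists_adm ((net_loc hT hj).2 h0j')
    obtain ⟨hΦ, hΦx, -⟩ := tc_near (A := A) hi hj
    have hJ := k5_jac_ne (A := A) hi hj
    have hTi := fun l => net_an hT hi l
    have hTj := fun l => net_an hT hj l
    have hTj' : ∀ l, AnalyticAt ℂ (lT A T j l) (tc A i j (A.ch i x)) := by
      rw [hΦx]; exact hTj
    have htr := fun l => net_tr hT hi hj l
    rw [key i x hi h0i M hM, key j x hj h0j N hN, jac_det]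
    have hG := vp_tr (r := 0) (s := r) (m := m) (n := n) (net_dense hT hi).self_of_nhds hΦ hJ
      hTi hTj' htr (pcf_tr hT c hi hj) (Eventually.of_forall fun z _ => co_wh hc j z)
      (fun t' ht' => by rw [hΦx]; exact hL j x hj t' ht') (Or.inr ⟨hr.ne', h0i'⟩)
      (fun t' ht' => by
        simpa using hR i x hi h0i t' ht')
      (fun t' ht' => by
        rw [hΦx]
        simpa using hR j x hj h0j t' ht')
    have hdl : ∀ᶠ w in 𝓝 (A.ch i x), dl (lT A T i) w =
        (Jm (tc A i j) w).det ^ (3 * b + 1) * dl (lT A T j) (tc A i j w) := by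
      have e1 : ∀ᶠ w in 𝓝 (A.ch i x), ∀ l, AnalyticAt ℂ (lT A T j l) (tc A i j w) := by
        rw [eventually_all]
        intro l
        exact hΦ.continuousAt.eventually (hTj' l).eventually_analyticAt
      have e2 : ∀ᶠ w in 𝓝 (A.ch i x), ∀ l, ∀ᶠ w' in 𝓝 w, lT A T i l w' =
          (Jm (tc A i j) w').det ^ b * lT A T j l (tc A i j w') := by
        rw [eventually_all]
        intro l
        exact eventually_eventually_nhds.2 (htr l)
      filter_upwards [e1, e2, hΦ.eventually_analyticAt] with w w1 w2 w3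
      exact dl_comp w3 w1 w2
    have hN' : Adm (dl (lT A T j)) (tc A i j (A.ch i x)) N := by rw [hΦx]; exact hN
    have hG' : VP (lT A T i) n m 0 (-r) (pcf A T c i) (A.ch i x) =
        MvPolynomial.C ((Jm (tc A i j) (A.ch i x)).det ^ ((3 * b + 1) * r)) *
          Ls k (Jm (tc A i j) (A.ch i x))
            (VP (lT A T j) n m 0 (-r) (pcf A T c j) (A.ch j x)) := by
      rw [hΦx] at hG
      simpa using hG
    have := ft_tr (b := 0) (e := 3 * b + 1) (r := r) hΦ hJ (by rw [hΦx]; exact dl_an hTj) hdl h0i' hM hN'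
      hG' t (fun t' h1 h2 => hv j x hj h0j N hN t' (h1.trans ht) (by omega))
    rw [this]
    push_cast
    rfl


end surf

end Pool.Agent.GG
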