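import Pool.Agent.Lib_helper82.GG.D.All
import Pool.Agent.Lib_helper82.GG.P.L0b
import Pool.Agent.Lib_helper82.GG.P.L3
import Pool.Agent.Lib_helper82.GG.P.O1
import Pool.Agent.Lib_helper82.GG.P.O2

/-! GG, block LR: the frame near a point of `δ = 0` where `T 1 / T 0` and `δ` are coordinates -/

set_option autoImplicit false

open Filter Topology Metric Set
open scoped Nat

namespace Pool.Agent.GG

open Pool.Agent.BR

theorem lr_pd_an {f : V2 → ℂ} {z : V2} (hf : AnalyticAt ℂ f z) (j : Fin 2) :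
    AnalyticAt ℂ (pd j f) z := by
  have h1 : AnalyticAt ℂ (fderiv ℂ f) z := hf.fderiv
  exact ((ContinuousLinearMap.apply ℂ ℂ (Pi.single j (1 : ℂ) : V2)).analyticAt _).comp h1

theorem lr_pd_div {f g : V2 → ℂ} {z : V2} (hf : AnalyticAt ℂ f z) (hg : AnalyticAt ℂ g z)
    (h0 : g z ≠ 0) (j : Fin 2) :
    pd j (fun w => f w / g w) z = (g z * pd j f z - f z * pd j g z) / g z ^ 2 := by
  unfold pd
  have h1 := hf.differentiableAt.hasFDerivAt
  have h2 := hg.differentiableAt.hasFDerivAt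
  have h3 : HasFDerivAt (fun w => (g w)⁻¹) (-(g z ^ 2)⁻¹ • fderiv ℂ g z) z :=
    (hasDerivAt_inv h0).comp_hasFDerivAt z h2
  have h4 : HasFDerivAt (fun w => f w * (g w)⁻¹)
      (f z • (-(g z ^ 2)⁻¹ • fderiv ℂ g z) + (g z)⁻¹ • fderiv ℂ f z) z := h1.mul h3
  have h5 : (fun w => f w / g w) = fun w => f w * (g w)⁻¹ := by
    funext w; rw [div_eq_mul_inv]
  rw [h5, HasFDerivAt.fderiv h4]
  simp only [smul_apply, add_apply, smul_eq_mul]
  field_simp
  ring

section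

variable {T : Fin 3 → V2 → ℂ} {z₀ : V2}

theorem frame_R (hT : ∀ j, AnalyticAt ℂ (T j) z₀) (h0 : T 0 z₀ ≠ 0)
    (hd : pd 0 (dl T) z₀ * (T 0 z₀ * pd 1 (T 1) z₀ - T 1 z₀ * pd 1 (T 0) z₀) -
      pd 1 (dl T) z₀ * (T 0 z₀ * pd 0 (T 1) z₀ - T 1 z₀ * pd 0 (T 0) z₀) ≠ 0) :
    ∃ M, AFr (dl T) z₀ M ∧ ∀ (k m n b : ℕ) (c' : V2 → JP k),
      (∀ t, OO T z₀ n (-(2 * b * n)) (fun z => (c' z).coeff t)) →
      (∀ᶠ z in 𝓝 z₀, z ∈ Gd T → Wh m (c' z)) →
      ∀ t : Fin 2 × Fin k →₀ ℕ, dg t = n →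
        OO T z₀ 0 (-(2 * b * n) + nj 0 t)
          (fun z => (Ls k (M z) (Ls k (Jm (UU T) z) (c' z))).coeff t) := by
  set u : V2 → ℂ := fun w => UU T w 0 with hu
  have hue : u = fun w => T 1 w / T 0 w := rfl
  have hδ : AnalyticAt ℂ (dl T) z₀ := dl_an hT
  have hua : ∀ i : Fin 2, AnalyticAt ℂ (fun w => UU T w i) z₀ := by
    intro i
    exact (hT i.succ).div (hT 0) h0
  set κ : V2 → ℂ := fun z => pd 1 (dl T) z * pd 0 u z - pd 0 (dl T) z * pd 1 u z with hκ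
  have hκa : AnalyticAt ℂ κ z₀ :=
    ((lr_pd_an hδ 1).mul (lr_pd_an (hua 0) 0)).sub ((lr_pd_an hδ 0).mul (lr_pd_an (hua 0) 1))
  have hκ0 : κ z₀ ≠ 0 := by
    intro h
    apply hd
    have e0 : pd 0 u z₀ = (T 0 z₀ * pd 0 (T 1) z₀ - T 1 z₀ * pd 0 (T 0) z₀) / T 0 z₀ ^ 2 :=
      lr_pd_div (hT 1) (hT 0) h0 0
    have e1 : pd 1 u z₀ = (T 0 z₀ * pd 1 (T 1) z₀ - T 1 z₀ * pd 1 (T 0) z₀) / T 0 z₀ ^ 2 :=
      lr_pd_div (hT 1) (hT 0) h0 1
    simp only [hκ] at h
    rw [e0, e1] at h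
    field_simp at h
    linear_combination -h
  set M : V2 → Matrix (Fin 2) (Fin 2) ℂ := fun z =>
    !![-pd 1 u z / κ z, -pd 1 (dl T) z; pd 0 u z / κ z, pd 0 (dl T) z] with hM
  have hκe : ∀ᶠ z in 𝓝 z₀, κ z ≠ 0 := hκa.continuousAt.eventually_ne hκ0
  have hT0e : ∀ᶠ z in 𝓝 z₀, T 0 z ≠ 0 := (hT 0).continuousAt.eventually_ne h0
  have hTe : ∀ᶠ z in 𝓝 z₀, ∀ j, AnalyticAt ℂ (T j) z := by
    rw [eventually_all]
    exact fun j => (hT j).eventually_analyticAt
  refine ⟨M, ⟨?_, ?_, ?_⟩, ?_⟩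
  · intro i j
    fin_cases i <;> fin_cases j
    · exact ((lr_pd_an (hua 0) 1).neg).div hκa hκ0
    · exact (lr_pd_an hδ 1).neg
    · exact (lr_pd_an (hua 0) 0).div hκa hκ0
    · exact lr_pd_an hδ 0
  · filter_upwards [hκe] with z hz
    simp only [hM, Matrix.det_fin_two_of]
    have : κ z = pd 1 (dl T) z * pd 0 u z - pd 0 (dl T) z * pd 1 u z := rfl
    field_simp
    rw [this]; ring
  · filter_upwards with z _
    exact ⟨rfl, rfl⟩
  · intro k m n b c' hc' hw t ht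
    have k1 : ∀ i, OO T z₀ 0 1 (fun z => (Jm (UU T) z * M z) i 0) := by
      intro i
      fin_cases i
      · refine ⟨fun _ => 0, analyticAt_const, ?_⟩
        filter_upwards with z _
        simp only [hM, Jm, Matrix.mul_apply, Fin.sum_univ_two, Matrix.of_apply]
        simp
        ring
      · refine ⟨fun z => 1 / (T 0 z ^ 3 * κ z), ?_, ?_⟩
        · exact analyticAt_const.div (((hT 0).pow 3).mul hκa) (mul_ne_zero (pow_ne_zero 3 h0) hκ0)
        · filter_upwards [hκe, hT0e, hTe] with z h1 h2 h3 hz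
          obtain ⟨-, hdet, -⟩ := uu_inv h3 hz
          rw [Matrix.det_fin_two] at hdet
          simp only [hM, Jm, Matrix.mul_apply, Fin.sum_univ_two, Matrix.of_apply] at hdet ⊢
          have hdet' : pd 0 u z * pd 1 (fun w => UU T w 1) z -
              pd 1 u z * pd 0 (fun w => UU T w 1) z = dl T z / T 0 z ^ 3 := hdet
          change pd 0 (fun w => UU T w 1) z * (-pd 1 u z / κ z) +
            pd 1 (fun w => UU T w 1) z * (pd 0 u z / κ z) =
              T 0 z ^ (0 : ℤ) * dl T z ^ (1 : ℤ) * (1 / (T 0 z ^ 3 * κ z))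
          rw [zpow_zero, zpow_one, one_mul]
          rw [eq_div_iff (pow_ne_zero 3 h2)] at hdet'
          field_simp
          linear_combination hdet'
    have k2 : ∀ i, OO T z₀ 0 0 (fun z => (Jm (UU T) z * M z) i 1) := by
      intro i
      apply oo_an
      have e : (fun z => (Jm (UU T) z * M z) i 1) = fun z =>
          pd 0 (fun w => UU T w i) z * (-pd 1 (dl T) z) +
            pd 1 (fun w => UU T w i) z * pd 0 (dl T) z := by
        funext z
        simp only [hM, Jm, Matrix.mul_apply, Fin.sum_univ_two, Matrix.of_apply]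
        simp
      rw [e]
      exact ((lr_pd_an (hua i) 0).mul (lr_pd_an hδ 1).neg).add
        ((lr_pd_an (hua i) 1).mul (lr_pd_an hδ 0))
    have k3 := frame_oo (k := k) (m := m) M k1 k2 c' hc' hw t
    exact oo_mono hT k3 (by simp) (by simp)

end


end Pool.Agent.GG
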