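import Pool.Agent.Lib_helper82.GG.D.All
import Pool.Agent.Lib_helper82.GG.P.B1
import Pool.Agent.Lib_helper82.GG.P.B2
import Pool.Agent.Lib_helper82.GG.P.F1
import Pool.Agent.Lib_helper82.GG.P.F7
import Pool.Agent.Lib_helper82.GG.P.G3
import Pool.Agent.Lib_helper82.GG.P.G4
import Pool.Agent.Lib_helper82.GG.P.G8
import Pool.Agent.Lib_helper82.GG.P.K5
import Pool.Agent.Lib_helper82.GG.P.L2
import Pool.Agent.Lib_helper82.GG.P.LR
import Pool.Agent.Lib_helper82.GG.P.O1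
import Pool.Agent.Lib_helper82.GG.P.O2

set_option autoImplicit false
set_option linter.unusedVariables false
set_option linter.unusedSectionVars false

open Filter Topology Metric Set

namespace Pool.Agent.GG

open Pool.Agent.BR

section surf

variable {X : Type} [MetricSpace X] [CompactSpace X] {A : Cha V2 X} {b D k m n : ℕ}
  {T : Fin 3 → A.ι → X → ℂ}

theorem k6_ds {i : A.ι} {x : X} (hi : x ∈ (A.ch i).source) (j : Fin 2) :
    ds A (dlt A T) j i x = pd j (dl (lT A T i)) (A.ch i x) := by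
  have h1 : lz A i (dlt A T i) =ᶠ[𝓝 (A.ch i x)] dl (lT A T i) := by
    have ha : ∀ᶠ z in 𝓝 (A.ch i x), z ∈ (A.ch i).target :=
      (A.ch i).open_target.mem_nhds ((A.ch i).map_source hi)
    filter_upwards [ha] with z hz
    show dl (lT A T i) (A.ch i ((A.ch i).symm z)) = dl (lT A T i) z
    rw [(A.ch i).right_inv hz]
  show fderiv ℂ (lz A i (dlt A T i)) (A.ch i x) (Pi.single j (1 : ℂ)) =
    fderiv ℂ (dl (lT A T i)) (A.ch i x) (Pi.single j (1 : ℂ))
  rw [h1.fderiv_eq]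

/-- at the points of `R - H` where `T 1 / T 0` and `δ` are coordinates -/
theorem k6_good (hT : Net A b T) {c : X → JP k} (hc' : CO A b T m c) (hL : SL A T n c) {r p : ℕ}
    (hR : SR A T n r c) (hp : 2 * b * n < r + p) {i : A.ι} {y : X} (hi : y ∈ (A.ch i).source)
    (h0 : T 0 i y ≠ 0) (hdl : dlt A T i y = 0)
    (h5 : ds A (dlt A T) 0 i y * (T 0 i y * ds A (T 1) 1 i y - T 1 i y * ds A (T 0) 1 i y) -
      ds A (dlt A T) 1 i y * (T 0 i y * ds A (T 1) 0 i y - T 1 i y * ds A (T 0) 0 i y) ≠ 0)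
    (t : Fin 2 × Fin k →₀ ℕ) (ht : dg t = n) (htp : nj 0 t = p) :
    ∃ M, Adm (dl (lT A T i)) (A.ch i y) M ∧
      (Ls k M (VP (lT A T i) n m 0 (-r) (pcf A T c i) (A.ch i y))).coeff t = 0 := by
  have hTa : ∀ j, AnalyticAt ℂ (lT A T i j) (A.ch i y) := fun j => net_an hT hi j
  have hval := net_val (T := T) hi
  have hdz : dl (lT A T i) (A.ch i y) = 0 := by rw [hval.2]; exact hdl
  have h0' : lT A T i 0 (A.ch i y) ≠ 0 := by rw [hval.1 0]; exact h0
  have h5' : pd 0 (dl (lT A T i)) (A.ch i y) *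
      (lT A T i 0 (A.ch i y) * pd 1 (lT A T i 1) (A.ch i y) -
        lT A T i 1 (A.ch i y) * pd 1 (lT A T i 0) (A.ch i y)) -
      pd 1 (dl (lT A T i)) (A.ch i y) *
      (lT A T i 0 (A.ch i y) * pd 0 (lT A T i 1) (A.ch i y) -
        lT A T i 1 (A.ch i y) * pd 0 (lT A T i 0) (A.ch i y)) ≠ 0 := by
    rw [k6_ds hi 0, k6_ds hi 1] at h5
    rw [hval.1 0, hval.1 1]
    exact h5
  obtain ⟨M, hM, hMc⟩ := frame_R hTa h0' h5'
  have hrt : ∀ᶠ z in 𝓝 (A.ch i y), A.ch i ((A.ch i).symm z) = z := by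
    filter_upwards [(A.ch i).open_target.mem_nhds ((A.ch i).map_source hi)] with z hz
    exact (A.ch i).right_inv hz
  have hlead := lead_part (k := k) (m := m) (b := b) hT.b_pos hTa (fun z => c ((A.ch i).symm z))
    (fun t => hc'.oo i y hi t) (Eventually.of_forall fun z _ => hc'.wh _) n
    (fun t ht => by
      refine oo_congr (hL i y hi t ht) ?_
      filter_upwards [hrt] with z hz _
      show ((Tr k (UU (lT A T i)) (A.ch i ((A.ch i).symm z)) (c ((A.ch i).symm z)))).coeff t = _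
      rw [hz])
  obtain ⟨c', hc1, hc2⟩ := hlead
  have hfr := hMc k m n b c' hc1 (hc2.mono fun z hz hg => (hz hg).2.1) t ht
  refine ⟨M (A.ch i y), ⟨hM.det.self_of_nhds, (hM.tg.self_of_nhds hdz).1,
    (hM.tg.self_of_nhds hdz).2⟩, ?_⟩
  have hNB : (𝓝[Gd (lT A T i)] (A.ch i y)).NeBot := (net_dense hT hi).self_of_nhds
  have hlim := vp_frame (k := k) (m := m) (n := n) hNB (r := 0) (s := -(r : ℤ))
    (P := pcf A T c i) (M := M) (fun a a' => (hM.an a a').continuousAt)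
    (Eventually.of_forall fun z _ => co_wh hc' i z) (fun t ht => hR i y hi hdl t ht) t
  obtain ⟨g, hg, hge⟩ := hfr
  have hdc : ContinuousAt (dl (lT A T i)) (A.ch i y) := (dl_an hTa).continuousAt
  have hlim0 : Tendsto (fun z => dl (lT A T i) z ^ (r + p - 2 * b * n) * g z)
      (𝓝[Gd (lT A T i)] (A.ch i y)) (𝓝 0) := by
    have h1 : ContinuousAt (fun z => dl (lT A T i) z ^ (r + p - 2 * b * n) * g z) (A.ch i y) :=
      (hdc.pow _).mul hg.continuousAt
    have h2 := h1.tendsto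
    have h3 : dl (lT A T i) (A.ch i y) ^ (r + p - 2 * b * n) * g (A.ch i y) = 0 := by
      rw [hdz, zero_pow (by omega), zero_mul]
    rw [h3] at h2
    exact h2.mono_left nhdsWithin_le_nhds
  refine tendsto_nhds_unique hlim (hlim0.congr' ?_)
  have ha : ∀ᶠ z in 𝓝[Gd (lT A T i)] (A.ch i y), z ∈ Gd (lT A T i) := self_mem_nhdsWithin
  filter_upwards [ha, hge.filter_mono nhdsWithin_le_nhds, hc2.filter_mono nhdsWithin_le_nhds,
    hrt.filter_mono nhdsWithin_le_nhds] with z hz1 hz2 hz3 hz4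
  have e1 := (hz3 hz1).2.2
  have e2 := hz2 hz1
  have e3 : pcf A T c i z = Tr k (UU (lT A T i)) z (c ((A.ch i).symm z)) := by
    show Tr k (UU (lT A T i)) (A.ch i ((A.ch i).symm z)) (c ((A.ch i).symm z)) = _
    rw [hz4]
  rw [e3, e1, e2, htp]
  have hd0 : dl (lT A T i) z ≠ 0 := hz1.2
  have e4 : dl (lT A T i) z ^ (r + p - 2 * b * n) =
      dl (lT A T i) z ^ (-(-(r : ℤ))) * dl (lT A T i) z ^ (-(2 * (b : ℤ) * n) + p) := by
    rw [← zpow_add₀ hd0, ← zpow_natCast]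
    congr 1
    push_cast [Nat.cast_sub hp.le]
    ring
  rw [e4, neg_zero, zpow_zero]
  ring

/-- K6: for large `p` the values vanish automatically -/
theorem auto_R (hT : Net A b T) {c : X → JP k} (hc : CO A b T m c) (hL : SL A T n c) {r p : ℕ}
    (hr : 0 < r) (hR : SR A T n r c) (hv : SRv A T m n r p c) (hp : 2 * b * n < r + p) :
    SRv A T m n r (p + 1) c := by
  intro i x hi hx M hM t ht htp
  rcases Nat.lt_succ_iff_lt_or_eq.1 htp with htp | htp
  · exact hv i x hi hx M hM t ht htp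
  obtain ⟨F, hF, hFv⟩ := sec_R hT hc hL hr hR hv t ht htp
  have hδ : IS.PS A (3 * b + 1) (dlt A T) := dlt_ps hT.ps
  -- the points outside a finite set
  have hgood : ∀ y, y ∉ (ZS A (T 0) ∩ ZS A (dlt A T)) ∪
      {x | x ∈ ZS A (dlt A T) ∧ x ∉ ZS A (T 0) ∧ ∀ i, x ∈ (A.ch i).source →
        ds A (dlt A T) 0 i x * (T 0 i x * ds A (T 1) 1 i x - T 1 i x * ds A (T 0) 1 i x) -
        ds A (dlt A T) 1 i x * (T 0 i x * ds A (T 1) 0 i x - T 1 i x * ds A (T 0) 0 i x) = 0} →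
      y ∈ ZS A (dlt A T) → ∀ i, y ∈ (A.ch i).source → F i y = 0 := by
    intro y hy hyd i hyi
    have h1 : y ∉ ZS A (T 0) := fun h => hy (Or.inl ⟨h, hyd⟩)
    have h2 : ∃ i', y ∈ (A.ch i').source ∧
        ds A (dlt A T) 0 i' y * (T 0 i' y * ds A (T 1) 1 i' y - T 1 i' y * ds A (T 0) 1 i' y) -
        ds A (dlt A T) 1 i' y * (T 0 i' y * ds A (T 1) 0 i' y - T 1 i' y * ds A (T 0) 0 i' y) ≠
          0 := by
      by_contra hcon
      push Not at hcon
      exact hy (Or.inr ⟨hyd, h1, hcon⟩)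
    obtain ⟨i', hyi', h5⟩ := h2
    have h0 : T 0 i' y ≠ 0 := fun h => h1 ((zs_iff (hT.ps 0) hyi').2 h)
    obtain ⟨M', hM', hM0⟩ := k6_good (r := r) (p := p) hT hc hL hR hp hyi' h0 (hyd i' hyi') h5 t
      ht htp
    have h3 := hFv i' y hyi' (hyd i' hyi') M' hM'
    rw [hF.tr i i' y hyi hyi' hyd, h3, hM0, mul_zero]
  have hfin := hT.g4.union hT.g5
  -- the value at `x` is a limit of the values at other points
  have hxd : x ∈ ZS A (dlt A T) := (zs_iff hδ hi).2 hx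
  rw [← hFv i x hi hx M hM]
  obtain ⟨g, hg, hge⟩ := hF.an i x hi hxd
  have hgx : F i x = g (A.ch i x) := hge.self_of_nhds hxd
  rw [hgx]
  have hTa : ∀ j, AnalyticAt ℂ (lT A T i j) (A.ch i x) := fun j => net_an hT hi j
  have hdz : dl (lT A T i) (A.ch i x) = 0 := by rw [(net_val (T := T) hi).2]; exact hx
  have hfr := curve_acc (dl_an hTa) hdz ((net_loc hT hi).2 hdz)
  have hsym : Tendsto (A.ch i).symm (𝓝 (A.ch i x)) (𝓝 x) := by
    have hc : ContinuousAt (A.ch i).symm (A.ch i x) :=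
      (A.ch i).continuousAt_symm ((A.ch i).map_source hi)
    have h1 := hc.tendsto
    rw [(A.ch i).left_inv hi] at h1
    exact h1
  have htg : ∀ᶠ z in 𝓝 (A.ch i x), z ∈ (A.ch i).target :=
    (A.ch i).open_target.mem_nhds ((A.ch i).map_source hi)
  -- points near `x` are not in the finite set
  have hav : ∀ᶠ z in 𝓝[≠] (A.ch i x), (A.ch i).symm z ∉ (ZS A (T 0) ∩ ZS A (dlt A T)) ∪
      {x | x ∈ ZS A (dlt A T) ∧ x ∉ ZS A (T 0) ∧ ∀ i, x ∈ (A.ch i).source →
        ds A (dlt A T) 0 i x * (T 0 i x * ds A (T 1) 1 i x - T 1 i x * ds A (T 0) 1 i x) -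
        ds A (dlt A T) 1 i x * (T 0 i x * ds A (T 1) 0 i x - T 1 i x * ds A (T 0) 0 i x) = 0} := by
    have h1 : ∀ᶠ y in 𝓝 x, y ∉ ((ZS A (T 0) ∩ ZS A (dlt A T)) ∪
      {x | x ∈ ZS A (dlt A T) ∧ x ∉ ZS A (T 0) ∧ ∀ i, x ∈ (A.ch i).source →
        ds A (dlt A T) 0 i x * (T 0 i x * ds A (T 1) 1 i x - T 1 i x * ds A (T 0) 1 i x) -
        ds A (dlt A T) 1 i x * (T 0 i x * ds A (T 1) 0 i x - T 1 i x * ds A (T 0) 0 i x) = 0}) \
          {x} :=
      (hfin.subset Set.sdiff_subset).isClosed.isOpen_compl.mem_nhds (fun h => h.2 rfl)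
    have h2 := hsym.eventually h1
    filter_upwards [h2.filter_mono nhdsWithin_le_nhds, htg.filter_mono nhdsWithin_le_nhds,
      self_mem_nhdsWithin] with z hz1 hz2 hz3 hz4
    apply hz1
    refine ⟨hz4, ?_⟩
    intro hz5
    apply hz3
    have hz6 : (A.ch i).symm z = x := hz5
    show z = A.ch i x
    rw [← hz6, (A.ch i).right_inv hz2]
  have hzero : ∃ᶠ z in 𝓝[≠] (A.ch i x), g z = 0 := by
    refine (hfr.and_eventually (hav.and ((htg.and (hsym.eventually hge)).filter_mono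
      nhdsWithin_le_nhds))).mono ?_
    rintro z ⟨hz1, hz2, hz3, hz4⟩
    have hs : (A.ch i).symm z ∈ (A.ch i).source := (A.ch i).map_target hz3
    have hz5 : (A.ch i).symm z ∈ ZS A (dlt A T) := by
      refine (zs_iff hδ hs).2 ?_
      show dl (lT A T i) (A.ch i ((A.ch i).symm z)) = 0
      rw [(A.ch i).right_inv hz3]
      exact hz1
    have hz6 := hz4 hz5
    rw [(A.ch i).right_inv hz3] at hz6
    rw [← hz6]
    exact hgood _ hz2 hz5 i hs
  by_contra hne
  exact hzero ((hg.continuousAt.eventually_ne hne).filter_mono nhdsWithin_le_nhds)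

end surf

end Pool.Agent.GG

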