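import Pool.Agent.Lib_helper82.GG.D.All
import Pool.Agent.Lib_helper82.GG.P.F2
import Pool.Agent.Lib_helper82.GG.P.F3
import Pool.Agent.Lib_helper82.GG.P.F4
import Pool.Agent.Lib_helper82.GG.P.F5
import Pool.Agent.Lib_helper82.GG.P.F7
import Pool.Agent.Lib_helper82.GG.P.G1
import Pool.Agent.Lib_helper82.GG.P.G3
import Pool.Agent.Lib_helper82.GG.P.G4
import Pool.Agent.Lib_helper82.GG.P.G8
import Pool.Agent.Lib_helper82.GG.P.J6c

set_option autoImplicit false
set_option linter.unusedVariables false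
set_option linter.unusedSectionVars false

open Filter Topology Metric Set
open scoped Nat

namespace Pool.Agent.GG

open Pool.Agent.BR

section k7loc

variable {k : ℕ}

theorem k7_deg (t : Fin 2 × Fin k →₀ ℕ) : t.degree = dg t := by
  rw [Finsupp.degree_eq_sum]
  rfl

theorem k7_dg (t : Fin 2 × Fin k → ℕ) : dg t = nj 0 t + nj 1 t := by
  unfold dg nj
  rw [Fintype.sum_prod_type, Fin.sum_univ_two]

theorem k7_hc_coeff (n : ℕ) (P : JP k) (t : Fin 2 × Fin k →₀ ℕ) :
    (hc n P).coeff t = if dg t = n then P.coeff t else 0 := by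
  unfold hc
  rw [MvPolynomial.coeff_homogeneousComponent, k7_deg]

theorem k7_hc_self {n : ℕ} {P : JP k} (h : ∀ t : Fin 2 × Fin k →₀ ℕ, dg t ≠ n → P.coeff t = 0) :
    hc n P = P := by
  ext t
  rw [k7_hc_coeff]
  split_ifs with h1
  · rfl
  · rw [h t h1]

theorem k7_ls_coeff {n : ℕ} {P : JP k}
    (h : ∀ t : Fin 2 × Fin k →₀ ℕ, dg t ≠ n → P.coeff t = 0) (M : Matrix (Fin 2) (Fin 2) ℂ)
    (t : Fin 2 × Fin k →₀ ℕ) (ht : dg t ≠ n) : (Ls k M P).coeff t = 0 := by
  rw [← k7_hc_self h, ls_hc, k7_hc_coeff, if_neg ht]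

end k7loc

section surf

variable {X : Type} [MetricSpace X] [CompactSpace X] {A : Cha V2 X} {b D k m n : ℕ}
  {T : Fin 3 → A.ι → X → ℂ} {T₃ : A.ι → X → ℂ}

theorem drop_R (hT : Net A b T) {c : X → JP k} (hc : CO A b T m c) (hL : SL A T n c) {r : ℕ}
    (hR : SR A T n (r + 1) c) (hv : SRv A T m n (r + 1) (n + 1) c) : SR A T n r c := by
  intro i x hi hx t ht
  have hTa : ∀ j, AnalyticAt ℂ (lT A T i j) (A.ch i x) := fun j => net_an hT hi j
  have h0 : dl (lT A T i) (A.ch i x) = 0 := by rw [(net_val hi).2, hx]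
  have hp := (net_loc hT hi).2 h0
  have hd := net_dense hT hi
  have hf := hR i x hi hx t ht
  have key : ∀ᶠ z in 𝓝 (A.ch i x), dl (lT A T i) z = 0 →
      vl (lT A T i) 0 (-((r + 1 : ℕ) : ℤ)) (fun w => (pcf A T c i w).coeff t) z = 0 := by
    filter_upwards [(tc_near hi hi).2.2, hd] with z hz hdz hz0
    obtain ⟨z1, z2, -, z4, -⟩ := hz
    obtain ⟨y, hy⟩ : ∃ y, y = (A.ch i).symm z := ⟨_, rfl⟩
    rw [← hy] at z2 z4
    by_cases hwt : wt t = m
    · have h1 : dlt A T i y = 0 := by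
        rw [← (net_val z2).2, z4, hz0]
      obtain ⟨M, hM⟩ := exists_adm ((net_loc hT z2).2 (by rw [z4, hz0]))
      have h2 := hv i y z2 h1 M hM
      rw [z4] at h2 hM
      have h3 : VP (lT A T i) n m 0 (-((r + 1 : ℕ) : ℤ)) (pcf A T c i) z = 0 := by
        refine adm_zero hM _ fun t' => ?_
        by_cases ht' : dg t' = n
        · refine h2 t' ht' ?_
          have := k7_dg t'
          omega
        · refine k7_ls_coeff (n := n) (fun t'' ht'' => ?_) M t' ht'
          rw [vp_coeff, if_neg (fun h => ht'' h.2)]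
      have h4 := vp_coeff (T := lT A T i) (m := m) (n := n) 0 (-((r + 1 : ℕ) : ℤ)) (pcf A T c i) z t
      rw [h3, if_pos ⟨hwt, ht⟩, MvPolynomial.coeff_zero] at h4
      exact h4.symm
    · refine vl_eq (g := fun _ => 0) hdz continuousAt_const (Filter.Eventually.of_forall fun w _ => ?_)
      rw [mul_zero]
      by_contra hne
      exact hwt (co_wh hc i w t hne)
  have h5 := oo_div_dl hTa h0 hp hd hf (key.filter_mono nhdsWithin_le_nhds)
  have e : (-((r + 1 : ℕ) : ℤ)) + 1 = -(r : ℤ) := by push_cast; ring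
  rw [e] at h5
  exact h5


end surf

end Pool.Agent.GG
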