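import Pool.Agent.Lib_helper82.GG.D.All
import Pool.Agent.Lib_helper82.GG.P.G3
import Pool.Agent.Lib_helper82.GG.P.G8

/-! # GG K8: the end of the stage (helper30) -/

set_option autoImplicit false
set_option linter.unusedVariables false
set_option linter.unusedSectionVars false

open Filter Topology Metric Set

namespace Pool.Agent.GG

open Pool.Agent.BR

section surf

variable {X : Type} [MetricSpace X] [CompactSpace X] {A : Cha V2 X} {b D k m n : ℕ}
  {T : Fin 3 → A.ι → X → ℂ} {T₃ : A.ι → X → ℂ}

/-- K8: the end of the stage -/
theorem end_stage (hT : Net A b T) {c : X → JP k} (hc : CO A b T m c) (hL : SL A T n c)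
    (hH : SH A T n 0 c) (hR : SR A T n 0 c) : SL A T (n + 1) c := by
  intro i x hi t ht
  rcases Nat.lt_succ_iff_lt_or_eq.1 ht with h | h
  · exact hL i x hi t h
  · by_cases hd : dlt A T i x = 0
    · have := hR i x hi hd t h
      simpa using this
    · by_cases h0 : T 0 i x = 0
      · have := hH i x hi h0 hd t h
        simpa using this
      · have hv := net_val (T := T) hi
        refine co_good hT hc hi ((net_gd hT hi).1.2 ⟨?_, ?_⟩) t
        · rw [hv.1 0]; exact h0
        · rw [hv.2]; exact hd

end surf


end Pool.Agent.GG
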