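import Pool.Agent.Lib_helper82.GG.D.All

/-! # Block M1 of project GG: finitely many linear conditions -/

set_option autoImplicit false

open Filter Topology Metric Set
open scoped Nat

namespace Pool.Agent.GG

open Pool.Agent.BR

section lin

variable {W : Type} [AddCommGroup W] [Module ℂ W] [FiniteDimensional ℂ W]

/-- M1: finitely many linear conditions -/
theorem ach_step {S : W → Prop} {c : ℝ} (h : Ach S c) {α : Type} (Z : Finset α) (F : W → α → ℂ)
    (hadd : ∀ w w', S w → S w' → S (w + w') → ∀ z ∈ Z, F (w + w') z = F w z + F w' z)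
    (hsmul : ∀ (a : ℂ) w, S w → S (a • w) → ∀ z ∈ Z, F (a • w) z = a * F w z) :
    Ach (fun w => S w ∧ ∀ z ∈ Z, F w z = 0) (c + Z.card) := by
  obtain ⟨V, hV, hS⟩ := h
  let L : V →ₗ[ℂ] (Z → ℂ) :=
    { toFun := fun w z => F w.1 z.1
      map_add' := fun w w' => by
        funext z
        exact hadd w.1 w'.1 (hS _ w.2) (hS _ w'.2) (hS _ (w + w').2) z.1 z.2
      map_smul' := fun a w => by
        funext z
        exact hsmul a w.1 (hS _ w.2) (hS _ (a • w).2) z.1 z.2 }
  refine ⟨(LinearMap.ker L).map V.subtype, ?_, ?_⟩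
  · have h1 : Module.finrank ℂ ((LinearMap.ker L).map V.subtype) =
        Module.finrank ℂ (LinearMap.ker L) :=
      Submodule.finrank_map_subtype_eq V (LinearMap.ker L)
    have h2 := LinearMap.finrank_range_add_finrank_ker L
    have h3 : Module.finrank ℂ (LinearMap.range L) ≤ Z.card := by
      have h4 := Submodule.finrank_le (LinearMap.range L)
      rw [Module.finrank_pi] at h4
      simpa using h4
    have h5 : (Module.finrank ℂ V : ℝ) ≤ Z.card + Module.finrank ℂ (LinearMap.ker L) := by
      have : Module.finrank ℂ V ≤ Z.card + Module.finrank ℂ (LinearMap.ker L) := by omega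
      exact_mod_cast this
    rw [h1]
    linarith
  · rintro w hw
    obtain ⟨k, hk, rfl⟩ := Submodule.mem_map.1 hw
    refine ⟨hS _ k.2, fun z hz => ?_⟩
    have := congrFun (LinearMap.mem_ker.1 hk) ⟨z, hz⟩
    exact this

/-- M1 -/
theorem ach_ne {S : W → Prop} {c : ℝ} (h : Ach S c) (hc : c < Module.finrank ℂ W) :
    ∃ w, w ≠ 0 ∧ S w := by
  obtain ⟨V, hV, hS⟩ := h
  have h1 : 0 < Module.finrank ℂ V := by
    have : (0 : ℝ) < Module.finrank ℂ V := by linarith
    exact_mod_cast this
  obtain ⟨v, hv⟩ := Module.finrank_pos_iff_exists_ne_zero.1 h1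
  exact ⟨v.1, fun h0 => hv (Subtype.ext h0), hS _ v.2⟩

end lin


end Pool.Agent.GG
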