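import Pool.Agent.Lib_helper82.GG.D.All
import Pool.Agent.Lib_helper82.GG.P.B1
import Pool.Agent.Lib_helper82.GG.P.B2
import Pool.Agent.Lib_helper82.GG.P.F4
import Pool.Agent.Lib_helper82.GG.P.G3
import Pool.Agent.Lib_helper82.GG.P.G4
import Pool.Agent.Lib_helper82.GG.P.G5
import Pool.Agent.Lib_helper82.GG.P.G8
import Pool.Agent.Lib_helper82.GG.P.J8
import Pool.Agent.Lib_helper82.GG.P.K1
import Pool.Agent.Lib_helper82.GG.P.K2
import Pool.Agent.Lib_helper82.GG.P.K3
import Pool.Agent.Lib_helper82.GG.P.K4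
import Pool.Agent.Lib_helper82.GG.P.K5
import Pool.Agent.Lib_helper82.GG.P.K6
import Pool.Agent.Lib_helper82.GG.P.K7
import Pool.Agent.Lib_helper82.GG.P.K8
import Pool.Agent.Lib_helper82.GG.P.M1
import Pool.Agent.Lib_helper82.GG.P.O1
import Pool.Agent.Lib_helper82.GG.P.ST

/-! # Existence of invariant jet differentials (MP_45e720_ag): the steps and the stages -/

set_option autoImplicit false
set_option linter.unusedVariables false
set_option linter.unusedSectionVars false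

open Filter Topology Metric Set
open scoped Nat

namespace Pool.Agent.GG

open Pool.Agent.BR

section stages

variable {X : Type} [MetricSpace X] [CompactSpace X] {A : Cha V2 X} {b D k m n : ℕ}
  {T : Fin 3 → A.ι → X → ℂ} {T₃ : A.ι → X → ℂ}

open Classical in
/-- a chosen admissible frame -/
noncomputable def cM (σ : V2 → ℂ) (z : V2) : Matrix (Fin 2) (Fin 2) ℂ :=
  if h : ∃ M, Adm σ z M then h.choose else 1

theorem cM_spec {σ : V2 → ℂ} {z : V2} (hd : ∃ j, pd j σ z ≠ 0) : Adm σ z (cM σ z) := by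
  have h := exists_adm hd
  unfold cM
  rw [dif_pos h]
  exact h.choose_spec

theorem nj_add (t : Fin 2 × Fin k →₀ ℕ) : nj 0 t + nj 1 t = dg t := by
  unfold nj dg
  rw [Fintype.sum_prod_type, Fin.sum_univ_two]

theorem dg_le_wt (t : Fin 2 × Fin k →₀ ℕ) : dg t ≤ wt t := by
  unfold dg wt
  apply Finset.sum_le_sum
  intro v _
  nlinarith [Nat.zero_le ((v.2 : ℕ)), Nat.zero_le (t v)]

theorem ci_mem' (A : Cha V2 X) (x : X) : x ∈ (A.ch (ci A x)).source :=
  A.W_sub _ (subset_closure (A.cover x).choose_spec)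

/-- the cost of the step `r` along `H` for the type `t` -/
noncomputable def cH (b D : ℕ) (κ : ℝ) (t : Fin 2 × Fin k →₀ ℕ) (r : ℕ) : ℝ :=
  (D : ℝ) / b * max ((b : ℝ) * (r - nj 0 t) + (b + 1) * nj 1 t +
    (3 * b + 1) * (2 * b * dg t - nj 1 t)) 0 + κ

/-- the cost of the step `r` along `R` for the type `t` -/
noncomputable def cR (b D : ℕ) (κ : ℝ) (t : Fin 2 × Fin k →₀ ℕ) (r : ℕ) : ℝ :=
  (3 * b + 1) * (D : ℝ) / b ^ 2 * max ((3 * b + 1) * ((r : ℝ) - nj 0 t + nj 1 t) + nj 1 t) 0 + κ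

/-- the property of the test sets -/
def NL (A : Cha V2 X) (Y Y' : Set X) (a κ : ℝ) : Prop :=
  ∀ N : ℤ, ∃ Z : Finset X, (∀ x ∈ Z, x ∈ Y ∧ x ∉ Y') ∧
      (Z.card : ℝ) ≤ a * max (N : ℝ) 0 + κ ∧
      ∀ F : A.ι → X → ℂ, CSec A Y N F →
        (∀ x ∈ Z, ∀ i, x ∈ (A.ch i).source → F i x = 0) →
        ∀ x ∈ Y, ∀ i, x ∈ (A.ch i).source → F i x = 0

theorem step_H (hT : Net A b T) (h₃ : IS.PS A b T₃) {κ : ℝ}
    (hH : NL A (ZS A (T 0)) (ZS A (dlt A T)) ((D : ℝ) / b) κ) {r p : ℕ} (hr : 0 < r)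
    (hp : r ≤ p) {c : ℝ} (h : Ach (fun w : PI b D k m → ℂ =>
      (SL A T n (cW A b D T T₃ k m w) ∧ SH A T n r (cW A b D T T₃ k m w)) ∧
        SHv A T m n r p (cW A b D T T₃ k m w)) c) :
    Ach (fun w : PI b D k m → ℂ =>
      (SL A T n (cW A b D T T₃ k m w) ∧ SH A T n r (cW A b D T T₃ k m w)) ∧
        SHv A T m n r (p + 1) (cW A b D T T₃ k m w))
      (c + ∑ t ∈ ((Ty k m).filter (fun t : Fin 2 × Fin k →₀ ℕ => dg t = n)).filter
        (fun t : Fin 2 × Fin k →₀ ℕ => nj 0 t = p), cH b D κ t r) := by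
  classical
  choose Z hZ1 hZ2 hZ3 using hH
  set τ := ((Ty k m).filter (fun t : Fin 2 × Fin k →₀ ℕ => dg t = n)).filter
        (fun t : Fin 2 × Fin k →₀ ℕ => nj 0 t = p) with hτ
  set Nt : (Fin 2 × Fin k →₀ ℕ) → ℤ := fun t => (b : ℤ) * (r - nj 0 t) + (b + 1) * nj 1 t +
        (3 * b + 1) * (2 * b * dg t - nj 1 t) with hNt
  set Zf : Finset (Σ _ : (Fin 2 × Fin k →₀ ℕ), X) := τ.sigma (fun t => Z (Nt t)) with hZf
  set F : (PI b D k m → ℂ) → (Σ _ : (Fin 2 × Fin k →₀ ℕ), X) → ℂ := fun w a =>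
    (Ls k (cM (lT A T (ci A a.2) 0) (A.ch (ci A a.2) a.2))
      (VP (lT A T (ci A a.2)) n m (-r) 0 (pcf A T (cW A b D T T₃ k m w) (ci A a.2))
        (A.ch (ci A a.2) a.2))).coeff a.1 with hF
  have hpt : ∀ N, ∀ x ∈ Z N, T 0 (ci A x) x = 0 ∧ dlt A T (ci A x) x ≠ 0 := by
    intro N x hx
    obtain ⟨h1, h2⟩ := hZ1 N x hx
    exact ⟨(zs_iff (hT.ps 0) (ci_mem' A x)).1 h1,
      fun h3 => h2 ((zs_iff (dlt_ps hT.ps) (ci_mem' A x)).2 h3)⟩
  have key := ach_step h Zf F ?_ ?_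
  · refine key.mono ?_ ?_
    · rintro w ⟨⟨⟨hSL, hSH⟩, hSv⟩, hw⟩
      refine ⟨⟨hSL, hSH⟩, ?_⟩
      intro i x hi hx0 hx1 M hM t htn htp
      rcases Nat.lt_succ_iff_lt_or_eq.1 htp with h1 | h1
      · exact hSv i x hi hx0 hx1 M hM t htn h1
      · by_cases hw2 : wt t = m
        · have htτ : t ∈ τ := by
            rw [hτ, Finset.mem_filter, Finset.mem_filter]
            exact ⟨⟨((wt_fin k m).2 t).2 hw2, htn⟩, h1⟩
          have hco := co_cW (D := D) (k := k) (m := m) hT h₃ w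
          obtain ⟨G, hG, hGf⟩ := sec_H hT hco hSL hr hp hSH hSv t htn h1
          have hxs : x ∈ ZS A (T 0) := (zs_iff (hT.ps 0) hi).2 hx0
          have h2 := hZ3 (Nt t) G hG ?_ x hxs i hi
          · rw [hGf i x hi hx0 hx1 M hM] at h2
            exact (mul_eq_zero.1 h2).resolve_left (pow_ne_zero _ hx1)
          · intro x' hx' i' hi'
            have hci := ci_mem' A x'
            obtain ⟨h3, h4⟩ := hpt _ x' hx'
            rw [hG.tr i' (ci A x') x' hi' hci (hZ1 _ x' hx').1]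
            have h5 := (net_loc hT hci).1 (by rw [(net_val hci).1]; exact h3)
            rw [hGf (ci A x') x' hci h3 h4 _ (cM_spec h5.1)]
            have h6 := hw ⟨t, x'⟩ (Finset.mem_sigma.2 ⟨htτ, hx'⟩)
            rw [hF] at h6
            simp only at h6
            rw [h6, mul_zero, mul_zero]
        · exact vp_ty M t (Or.inl hw2)
    · rw [hZf, Finset.card_sigma, Nat.cast_sum]
      gcongr with t ht
      refine (hZ2 (Nt t)).trans (le_of_eq ?_)
      rw [hNt]
      unfold cH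
      push_cast
      ring
  · intro w w' hw hw' hww a ha
    rw [hZf, Finset.mem_sigma] at ha
    have hci := ci_mem' A a.2
    obtain ⟨h3, h4⟩ := hpt _ a.2 ha.2
    have hd := (net_dense hT hci).self_of_nhds
    rw [hF]
    simp only
    rw [vp_add (P := pcf A T (cW A b D T T₃ k m w) (ci A a.2))
      (P' := pcf A T (cW A b D T T₃ k m w') (ci A a.2)) hd (fun z => pcf_add w w' _ z)
      (fun t ht => hw.1.2 _ _ hci h3 h4 t ht) (fun t ht => hw'.1.2 _ _ hci h3 h4 t ht), map_add,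
      MvPolynomial.coeff_add]
  · intro e w hw hww a ha
    rw [hZf, Finset.mem_sigma] at ha
    have hci := ci_mem' A a.2
    obtain ⟨h3, h4⟩ := hpt _ a.2 ha.2
    have hd := (net_dense hT hci).self_of_nhds
    rw [hF]
    simp only
    rw [vp_smul (P := pcf A T (cW A b D T T₃ k m w) (ci A a.2)) hd e (fun z => pcf_smul e w _ z)
      (fun t ht => hw.1.2 _ _ hci h3 h4 t ht), ls_C_mul, MvPolynomial.coeff_C_mul]

theorem step_R (hT : Net A b T) (h₃ : IS.PS A b T₃) {κ : ℝ}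
    (hR : NL A (ZS A (dlt A T)) (ZS A (T 0)) ((3 * b + 1) * (D : ℝ) / b ^ 2) κ) {r p : ℕ}
    (hr : 0 < r) {c : ℝ} (h : Ach (fun w : PI b D k m → ℂ =>
      (SL A T n (cW A b D T T₃ k m w) ∧ SH A T n 0 (cW A b D T T₃ k m w) ∧
        SR A T n r (cW A b D T T₃ k m w)) ∧
        SRv A T m n r p (cW A b D T T₃ k m w)) c) :
    Ach (fun w : PI b D k m → ℂ =>
      (SL A T n (cW A b D T T₃ k m w) ∧ SH A T n 0 (cW A b D T T₃ k m w) ∧
        SR A T n r (cW A b D T T₃ k m w)) ∧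
        SRv A T m n r (p + 1) (cW A b D T T₃ k m w))
      (c + ∑ t ∈ ((Ty k m).filter (fun t : Fin 2 × Fin k →₀ ℕ => dg t = n)).filter
        (fun t : Fin 2 × Fin k →₀ ℕ => nj 0 t = p), cR b D κ t r) := by
  classical
  choose Z hZ1 hZ2 hZ3 using hR
  set τ := ((Ty k m).filter (fun t : Fin 2 × Fin k →₀ ℕ => dg t = n)).filter
        (fun t : Fin 2 × Fin k →₀ ℕ => nj 0 t = p) with hτ
  set Nt : (Fin 2 × Fin k →₀ ℕ) → ℤ := fun t =>
    (3 * b + 1) * ((r : ℤ) - nj 0 t + nj 1 t) + nj 1 t with hNt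
  set Zf : Finset (Σ _ : (Fin 2 × Fin k →₀ ℕ), X) := τ.sigma (fun t => Z (Nt t)) with hZf
  set F : (PI b D k m → ℂ) → (Σ _ : (Fin 2 × Fin k →₀ ℕ), X) → ℂ := fun w a =>
    (Ls k (cM (dl (lT A T (ci A a.2))) (A.ch (ci A a.2) a.2))
      (VP (lT A T (ci A a.2)) n m 0 (-r) (pcf A T (cW A b D T T₃ k m w) (ci A a.2))
        (A.ch (ci A a.2) a.2))).coeff a.1 with hF
  have hpt : ∀ N, ∀ x ∈ Z N, dlt A T (ci A x) x = 0 := by
    intro N x hx
    obtain ⟨h1, h2⟩ := hZ1 N x hx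
    exact (zs_iff (dlt_ps hT.ps) (ci_mem' A x)).1 h1
  have key := ach_step h Zf F ?_ ?_
  · refine key.mono ?_ ?_
    · rintro w ⟨⟨⟨hSL, hSH, hSR⟩, hSv⟩, hw⟩
      refine ⟨⟨hSL, hSH, hSR⟩, ?_⟩
      intro i x hi hx0 M hM t htn htp
      rcases Nat.lt_succ_iff_lt_or_eq.1 htp with h1 | h1
      · exact hSv i x hi hx0 M hM t htn h1
      · by_cases hw2 : wt t = m
        · have htτ : t ∈ τ := by
            rw [hτ, Finset.mem_filter, Finset.mem_filter]
            exact ⟨⟨((wt_fin k m).2 t).2 hw2, htn⟩, h1⟩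
          have hco := co_cW (D := D) (k := k) (m := m) hT h₃ w
          obtain ⟨G, hG, hGf⟩ := sec_R hT hco hSL hr hSR hSv t htn h1
          have hxs : x ∈ ZS A (dlt A T) := (zs_iff (dlt_ps hT.ps) hi).2 hx0
          have h2 := hZ3 (Nt t) G hG ?_ x hxs i hi
          · rw [hGf i x hi hx0 M hM] at h2
            exact h2
          · intro x' hx' i' hi'
            have hci := ci_mem' A x'
            have h3 := hpt _ x' hx'
            rw [hG.tr i' (ci A x') x' hi' hci (hZ1 _ x' hx').1]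
            have h5 := (net_loc hT hci).2 (by rw [(net_val hci).2]; exact h3)
            rw [hGf (ci A x') x' hci h3 _ (cM_spec h5)]
            have h6 := hw ⟨t, x'⟩ (Finset.mem_sigma.2 ⟨htτ, hx'⟩)
            rw [hF] at h6
            simp only at h6
            rw [h6, mul_zero]
        · exact vp_ty M t (Or.inl hw2)
    · rw [hZf, Finset.card_sigma, Nat.cast_sum]
      gcongr with t ht
      refine (hZ2 (Nt t)).trans (le_of_eq ?_)
      rw [hNt]
      unfold cR
      push_cast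
      ring
  · intro w w' hw hw' hww a ha
    rw [hZf, Finset.mem_sigma] at ha
    have hci := ci_mem' A a.2
    have h3 := hpt _ a.2 ha.2
    have hd := (net_dense hT hci).self_of_nhds
    rw [hF]
    simp only
    rw [vp_add (P := pcf A T (cW A b D T T₃ k m w) (ci A a.2))
      (P' := pcf A T (cW A b D T T₃ k m w') (ci A a.2)) hd (fun z => pcf_add w w' _ z)
      (fun t ht => hw.1.2.2 _ _ hci h3 t ht) (fun t ht => hw'.1.2.2 _ _ hci h3 t ht), map_add,
      MvPolynomial.coeff_add]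
  · intro e w hw hww a ha
    rw [hZf, Finset.mem_sigma] at ha
    have hci := ci_mem' A a.2
    have h3 := hpt _ a.2 ha.2
    have hd := (net_dense hT hci).self_of_nhds
    rw [hF]
    simp only
    rw [vp_smul (P := pcf A T (cW A b D T T₃ k m w) (ci A a.2)) hd e (fun z => pcf_smul e w _ z)
      (fun t ht => hw.1.2.2 _ _ hci h3 t ht), ls_C_mul, MvPolynomial.coeff_C_mul]

/-- one stage -/
theorem stage (hT : Net A b T) (h₃ : IS.PS A b T₃) {κ : ℝ}
    (hH : NL A (ZS A (T 0)) (ZS A (dlt A T)) ((D : ℝ) / b) κ)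
    (hR : NL A (ZS A (dlt A T)) (ZS A (T 0)) ((3 * b + 1) * (D : ℝ) / b ^ 2) κ) {c : ℝ}
    (h : Ach (fun w : PI b D k m → ℂ => SL A T n (cW A b D T T₃ k m w)) c) :
    Ach (fun w : PI b D k m → ℂ => SL A T (n + 1) (cW A b D T T₃ k m w))
      (c + ∑ t ∈ (Ty k m).filter (fun t : Fin 2 × Fin k →₀ ℕ => dg t = n), cond b D κ t) := by
  classical
  set τ := (Ty k m).filter (fun t : Fin 2 × Fin k →₀ ℕ => dg t = n) with hτ
  have hν : ∀ t ∈ τ, nj 0 t < n + 1 := by
    intro t ht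
    rw [hτ, Finset.mem_filter] at ht
    have := nj_add t
    omega
  have hco := fun w => co_cW (D := D) (k := k) (m := m) hT h₃ w
  -- the steps along `H`
  have h1 : Ach (fun w : PI b D k m → ℂ => SL A T n (cW A b D T T₃ k m w) ∧
      SH A T n n (cW A b D T T₃ k m w)) c :=
    h.mono (fun w hw => ⟨hw, start_H hT (hco w) hw⟩) le_rfl
  have h2 := loop_out τ (fun t : Fin 2 × Fin k →₀ ℕ => nj 0 t)
    (fun (t : Fin 2 × Fin k →₀ ℕ) (r : ℕ) => r ≤ nj 0 t) (cH b D κ)
    (fun r w => SL A T n (cW A b D T T₃ k m w) ∧ SH A T n r (cW A b D T T₃ k m w))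
    (fun r p w => SHv A T m n r p (cW A b D T T₃ k m w)) (n + 1) n hν
    (fun r w _ i x _ _ _ M _ t _ ht => absurd ht (Nat.not_lt_zero _)) ?_ ?_ c h1
  · -- the steps along `R`
    have h3 : Ach (fun w : PI b D k m → ℂ => SL A T n (cW A b D T T₃ k m w) ∧
        SH A T n 0 (cW A b D T T₃ k m w) ∧ SR A T n (2 * b * n) (cW A b D T T₃ k m w))
        (c + ∑ t ∈ τ, ∑ r ∈ (Finset.Icc 1 n).filter (fun r => r ≤ nj 0 t), cH b D κ t r) :=
      h2.mono (fun w hw => ⟨hw.1, hw.2, start_R hT (hco w) hw.1 hw.2⟩) le_rfl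
    have h4 := loop_out τ (fun t : Fin 2 × Fin k →₀ ℕ => nj 0 t)
      (fun (t : Fin 2 × Fin k →₀ ℕ) (r : ℕ) => r + nj 0 t ≤ 2 * b * n) (cR b D κ)
      (fun r w => SL A T n (cW A b D T T₃ k m w) ∧ SH A T n 0 (cW A b D T T₃ k m w) ∧
        SR A T n r (cW A b D T T₃ k m w))
      (fun r p w => SRv A T m n r p (cW A b D T T₃ k m w)) (n + 1) (2 * b * n) hν
      (fun r w _ i x _ _ M _ t _ ht => absurd ht (Nat.not_lt_zero _)) ?_ ?_ _ h3
    · refine h4.mono (fun w hw => end_stage hT (hco w) hw.1 hw.2.1 hw.2.2) ?_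
      have h5 : ∀ t ∈ τ, cond b D κ t =
          ∑ r ∈ (Finset.Icc 1 n).filter (fun r => r ≤ nj 0 t), cH b D κ t r +
          ∑ r ∈ (Finset.Icc 1 (2 * b * n)).filter (fun r => r + nj 0 t ≤ 2 * b * n),
            cR b D κ t r := by
        intro t ht
        have htn : dg t = n := (Finset.mem_filter.1 ht).2
        have htp := hν t ht
        unfold cond
        have e1 : (Finset.Icc 1 n).filter (fun r => r ≤ nj 0 t) = Finset.Icc 1 (nj 0 t) := by
          ext r
          simp only [Finset.mem_filter, Finset.mem_Icc]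
          omega
        have e2 : (Finset.Icc 1 (2 * b * n)).filter (fun r => r + nj 0 t ≤ 2 * b * n) =
            Finset.Icc 1 (2 * b * dg t - nj 0 t) := by
          ext r
          simp only [Finset.mem_filter, Finset.mem_Icc]
          rw [htn]
          omega
        rw [e1, e2]
        rfl
      rw [Finset.sum_congr rfl h5, Finset.sum_add_distrib]
      linarith
    · intro r p c' hr hc'
      have hfil : τ.filter (fun t : Fin 2 × Fin k →₀ ℕ => nj 0 t = p ∧ r + nj 0 t ≤ 2 * b * n) =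
          if r + p ≤ 2 * b * n then τ.filter (fun t : Fin 2 × Fin k →₀ ℕ => nj 0 t = p) else ∅ := by
        split_ifs with h6
        · apply Finset.filter_congr
          intro t _
          constructor
          · exact fun h => h.1
          · intro h
            exact ⟨h, by omega⟩
        · apply Finset.filter_false_of_mem
          intro t _ h7
          omega
      rw [hfil]
      split_ifs with h6
      · exact step_R hT h₃ hR hr hc'
      · rw [Finset.sum_empty, add_zero]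
        exact hc'.mono (fun w hw => ⟨hw.1, auto_R hT (hco w) hw.1.1 hr hw.1.2.2 hw.2
          (by omega)⟩) le_rfl
    · intro r w hw hv
      exact ⟨hw.1, hw.2.1, drop_R hT (hco w) hw.1 hw.2.2 hv⟩
  · intro r p c' hr hc'
    have hfil : τ.filter (fun t : Fin 2 × Fin k →₀ ℕ => nj 0 t = p ∧ r ≤ nj 0 t) =
        if r ≤ p then τ.filter (fun t : Fin 2 × Fin k →₀ ℕ => nj 0 t = p) else ∅ := by
      split_ifs with h6
      · apply Finset.filter_congr
        intro t _
        constructor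
        · exact fun h => h.1
        · intro h
          exact ⟨h, by omega⟩
      · apply Finset.filter_false_of_mem
        intro t _ h7
        omega
    rw [hfil]
    split_ifs with h6
    · exact step_H hT h₃ hH hr h6 hc'
    · rw [Finset.sum_empty, add_zero]
      refine hc'.mono (fun w hw => ⟨hw.1, ?_⟩) le_rfl
      intro i x hi hx0 hx1 M hM t htn htp
      exact start_Hv hT (hco w) hw.1.1 hr hw.1.2 i x hi hx0 hx1 M hM t htn (by omega)
  · intro r w hw hv
    exact ⟨hw.1, drop_H hT (hco w) hw.1 hw.2 hv⟩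

/-- F (helper58): the stages -/
theorem stages [Nonempty X] (hT : Net A b T) (hD : Shts A T D) (h₃ : Sep A b T T₃) {κ : ℝ}
    (hH : ∀ N : ℤ, ∃ Z : Finset X, (∀ x ∈ Z, x ∈ ZS A (T 0) ∧ x ∉ ZS A (dlt A T)) ∧
      (Z.card : ℝ) ≤ (D : ℝ) / b * max (N : ℝ) 0 + κ ∧
      ∀ F : A.ι → X → ℂ, CSec A (ZS A (T 0)) N F →
        (∀ x ∈ Z, ∀ i, x ∈ (A.ch i).source → F i x = 0) →
        ∀ x ∈ ZS A (T 0), ∀ i, x ∈ (A.ch i).source → F i x = 0)
    (hR : ∀ N : ℤ, ∃ Z : Finset X, (∀ x ∈ Z, x ∉ ZS A (T 0) ∧ x ∈ ZS A (dlt A T)) ∧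
      (Z.card : ℝ) ≤ (3 * b + 1) * (D : ℝ) / b ^ 2 * max (N : ℝ) 0 + κ ∧
      ∀ F : A.ι → X → ℂ, CSec A (ZS A (dlt A T)) N F →
        (∀ x ∈ Z, ∀ i, x ∈ (A.ch i).source → F i x = 0) →
        ∀ x ∈ ZS A (dlt A T), ∀ i, x ∈ (A.ch i).source → F i x = 0)
    {k m : ℕ} (hm : 0 < m)
    (hc : 0 < ∑ t ∈ Ty k m, (((Idx D ((6 * b + 1) * dg t)).card : ℝ) - cond b D κ t)) :
    ∃ w : (Fin 2 × Fin k →₀ ℕ) → (ℕ × ℕ × ℕ × ℕ) → ℂ,
      (∃ t ∈ Ty k m, ∃ a ∈ Idx D ((6 * b + 1) * dg t), w t a ≠ 0) ∧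
      ∀ i, ∀ x ∈ (A.ch i).source, ∀ t,
        RegX A (GX A T) (fun y => (PC A T (cE A b D T T₃ k m w) i y).coeff t) x := by
  classical
  have hH' : NL A (ZS A (T 0)) (ZS A (dlt A T)) ((D : ℝ) / b) κ := hH
  have hR' : NL A (ZS A (dlt A T)) (ZS A (T 0)) ((3 * b + 1) * (D : ℝ) / b ^ 2) κ := by
    intro N
    obtain ⟨Z, h1, h2, h3⟩ := hR N
    exact ⟨Z, fun x hx => ⟨(h1 x hx).2, (h1 x hx).1⟩, h2, h3⟩
  -- all stages
  have key : ∀ n, Ach (fun w : PI b D k m → ℂ => SL A T n (cW A b D T T₃ k m w))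
      (∑ t ∈ (Ty k m).filter (fun t : Fin 2 × Fin k →₀ ℕ => dg t < n), cond b D κ t) := by
    intro n
    induction n with
    | zero =>
      refine ⟨⊤, ?_, fun w _ i x _ t ht => absurd ht (Nat.not_lt_zero _)⟩
      have h1 : (Ty k m).filter (fun t : Fin 2 × Fin k →₀ ℕ => dg t < 0) = ∅ := by
        apply Finset.filter_false_of_mem
        intro t _ ht
        exact absurd ht (Nat.not_lt_zero _)
      rw [h1, Finset.sum_empty, sub_zero, finrank_top]
    | succ n ih =>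
      refine (stage hT h₃.ps hH' hR' ih).mono (fun w hw => hw) ?_
      have h1 : (Ty k m).filter (fun t : Fin 2 × Fin k →₀ ℕ => dg t < n + 1) =
          (Ty k m).filter (fun t : Fin 2 × Fin k →₀ ℕ => dg t < n) ∪
          (Ty k m).filter (fun t : Fin 2 × Fin k →₀ ℕ => dg t = n) := by
        ext t
        simp only [Finset.mem_filter, Finset.mem_union]
        constructor
        · rintro ⟨h2, h3⟩
          rcases Nat.lt_succ_iff_lt_or_eq.1 h3 with h5 | h5
          · exact Or.inl ⟨h2, h5⟩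
          · exact Or.inr ⟨h2, h5⟩
        · rintro (⟨h2, h3⟩ | ⟨h2, h3⟩)
          · exact ⟨h2, by omega⟩
          · exact ⟨h2, by omega⟩
      rw [h1, Finset.sum_union]
      rw [Finset.disjoint_left]
      intro t h2 h3
      rw [Finset.mem_filter] at h2 h3
      omega
  have hlt : ∀ t ∈ Ty k m, dg t < m + 1 := by
    intro t ht
    have h1 := ((wt_fin k m).2 t).1 ht
    have h2 := dg_le_wt t
    omega
  have h1 := key (m + 1)
  rw [Finset.filter_true_of_mem hlt] at h1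
  have hcard : (Module.finrank ℂ (PI b D k m → ℂ) : ℝ) =
      ∑ t ∈ Ty k m, ((Idx D ((6 * b + 1) * dg t)).card : ℝ) := by
    rw [Module.finrank_fintype_fun_eq_card, Fintype.card_coe, PI, Finset.card_sigma,
      Nat.cast_sum]
  obtain ⟨w, hw0, hw⟩ := ach_ne h1 (by
    rw [hcard]
    rw [Finset.sum_sub_distrib] at hc
    linarith)
  refine ⟨ext b D k m w, ?_, ?_⟩
  · obtain ⟨s, hs⟩ := Function.ne_iff.1 hw0
    obtain ⟨⟨t, a⟩, hta⟩ := s
    have h2 := Finset.mem_sigma.1 hta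
    refine ⟨t, h2.1, a, h2.2, ?_⟩
    unfold ext
    rw [dif_pos hta]
    exact hs
  · intro i x hi t
    rw [reg_oo hT hi]
    by_cases ht : dg t < m + 1
    · exact hw i x hi t ht
    · -- the coefficient is zero
      have h2 : lz A i (fun y => (PC A T (cE A b D T T₃ k m (ext b D k m w)) i y).coeff t) =
          fun _ => 0 := by
        funext z
        unfold lz
        have h3 : Wh m (pcf A T (cW A b D T T₃ k m w) i z) := co_wh (co_cW hT h₃.ps w) i z
        by_contra h4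
        have h5 := h3 t h4
        have h6 := dg_le_wt t
        omega
      rw [h2]
      exact oo_an analyticAt_const

end stages

end Pool.Agent.GG
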