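import Pool.Agent.Lib_helper82.GG.D.All
import Pool.Agent.Lib_helper58.GG.H4
import Pool.Agent.Lib_helper82.GG.P.J2
import Pool.Agent.Lib_helper82.GG.P.J4
import Pool.Agent.Lib_helper82.GG.P.J8

/-! # Existence of invariant jet differentials (MP_45e720_ag): part H -/

set_option autoImplicit false
set_option linter.unusedVariables false
set_option linter.unusedSectionVars false

open Filter Topology Metric Set
open scoped Manifold ContDiff

namespace Pool.Agent.GG

open Pool.Agent.BR Pool.Agent.MinBrody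

section curves

variable {E F : Type} [NormedAddCommGroup E] [NormedSpace ℂ E] [FiniteDimensional ℂ E]
  [NormedAddCommGroup F] [NormedSpace ℂ F] [FiniteDimensional ℂ F]

/-- jets of the image of a curve depend only on the jets of the curve -/
theorem jet_map_congr {k : ℕ} {G : E → F} {f g : ℂ → E} (hf : AnalyticAt ℂ f 0)
    (hg : AnalyticAt ℂ g 0) (hG : AnalyticAt ℂ G (f 0)) (h : GGH.jt k f 0 = GGH.jt k g 0) :
    GGH.jt k (fun z => G (f z)) 0 = GGH.jt k (fun z => G (g z)) 0 := by
  have h0 : f 0 = g 0 := by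
    have := congrFun h 0
    simpa [GGH.jt] using this
  have hG' : AnalyticAt ℂ G (g 0) := by rwa [← h0]
  rw [GGH.jt_eq_iff (hG.fun_comp hf) (hG'.fun_comp hg)]
  obtain ⟨C, hC⟩ := (GGH.jt_eq_iff hf hg).1 h
  have hst : HasStrictFDerivAt G (fderiv ℂ G (f 0)) (f 0) := hG.hasStrictFDerivAt
  obtain ⟨K, s, hs, hK⟩ := hst.exists_lipschitzOnWith
  refine ⟨K * |C|, ?_⟩
  have h1 : ∀ᶠ z in 𝓝 (0 : ℂ), f z ∈ s := hf.continuousAt.eventually hs
  have h2 : ∀ᶠ z in 𝓝 (0 : ℂ), g z ∈ s := hg.continuousAt.eventually (by rwa [← h0])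
  filter_upwards [h1, h2, hC] with z hz1 hz2 hz3
  have h4 := hK.dist_le_mul _ hz1 _ hz2
  rw [dist_eq_norm, dist_eq_norm] at h4
  calc ‖G (f z) - G (g z)‖ ≤ K * ‖f z - g z‖ := h4
    _ ≤ K * (|C| * ‖z‖ ^ (k + 1)) := by
        gcongr
        refine hz3.trans ?_
        gcongr
        exact le_abs_self C
    _ = K * |C| * ‖z‖ ^ (k + 1) := by ring

/-- jets of the image of the polynomial curve depend analytically on the jet -/
theorem jet_map_an {k : ℕ} {G : E → ℂ} {J : Fin (k + 1) → E} (hG : AnalyticAt ℂ G (J 0)) (n : ℕ) :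
    AnalyticAt ℂ (fun J' : Fin (k + 1) → E => iteratedDeriv n (fun ζ => G (GGH.pol k J' ζ)) 0) J := by
  have hpol : AnalyticAt ℂ (fun p : ℂ × (Fin (k + 1) → E) => GGH.pol k p.2 p.1) (0, J) := by
    unfold GGH.pol
    apply Finset.analyticAt_fun_sum
    intro r _
    have h1 : AnalyticAt ℂ (fun p : ℂ × (Fin (k + 1) → E) => p.2 r) (0, J) :=
      ((ContinuousLinearMap.proj (R := ℂ) (φ := fun _ : Fin (k + 1) => E) r).comp
        (ContinuousLinearMap.snd ℂ ℂ (Fin (k + 1) → E))).analyticAt _
    have h2 : AnalyticAt ℂ (fun p : ℂ × (Fin (k + 1) → E) => p.1) (0, J) := analyticAt_fst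
    have h3 : AnalyticAt ℂ (fun p : ℂ × (Fin (k + 1) → E) =>
        p.1 ^ (r : ℕ) / (((r : ℕ).factorial : ℕ) : ℂ)) (0, J) :=
      (h2.pow _).div analyticAt_const (by exact_mod_cast Nat.factorial_ne_zero _)
    exact h3.smul h1
  have h0 : GGH.pol k J 0 = J 0 := by
    have h := congrFun (GGH.jt_pol J) 0
    simpa [GGH.jt] using h
  have hF : AnalyticAt ℂ (fun p : ℂ × (Fin (k + 1) → E) => G (GGH.pol k p.2 p.1)) (0, J) := by
    have hG' : AnalyticAt ℂ G ((fun p : ℂ × (Fin (k + 1) → E) => GGH.pol k p.2 p.1) (0, J)) := by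
      simp only
      rwa [h0]
    exact AnalyticAt.comp (g := G) (f := fun p : ℂ × (Fin (k + 1) → E) => GGH.pol k p.2 p.1)
      (x := (0, J)) hG' hpol
  obtain ⟨H, hH, hHe⟩ := GGH.an_param hF n
  have hl : AnalyticAt ℂ (fun J' : Fin (k + 1) → E => ((0 : ℂ), J')) J :=
    analyticAt_const.prod analyticAt_id
  have h1 : AnalyticAt ℂ (fun J' : Fin (k + 1) → E => H (0, J')) J :=
    hH.comp (f := fun J' : Fin (k + 1) → E => ((0 : ℂ), J')) (x := J) hl
  refine h1.congr ?_
  filter_upwards [hl.continuousAt.eventually hHe] with J' hJ'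
  exact hJ'.symm

end curves

/-- evaluation of a weighted homogeneous polynomial -/
theorem wh_eval {k m : ℕ} {P : JP k} (hP : Wh m P) (l : ℂ) (ξ : Fin 2 × Fin k → ℂ) :
    MvPolynomial.eval (fun v => l ^ ((v.2 : ℕ) + 1) * ξ v) P = l ^ m * MvPolynomial.eval ξ P := by
  rw [MvPolynomial.eval_eq', MvPolynomial.eval_eq', Finset.mul_sum]
  refine Finset.sum_congr rfl fun t ht => ?_
  have hw := hP t (MvPolynomial.mem_support_iff.1 ht)
  have h1 : ∏ v, (l ^ ((v.2 : ℕ) + 1) * ξ v) ^ t v = l ^ m * ∏ v, ξ v ^ t v := by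
    rw [← hw]
    unfold wt
    rw [Finset.prod_congr rfl (fun v _ => mul_pow (l ^ ((v.2 : ℕ) + 1)) (ξ v) (t v)),
      Finset.prod_mul_distrib]
    congr 1
    rw [← Finset.prod_pow_eq_pow_sum]
    refine Finset.prod_congr rfl fun v _ => ?_
    rw [← pow_mul]
  rw [h1]
  ring

section mfd

variable {E X : Type} [NormedAddCommGroup E] [NormedSpace ℂ E] [FiniteDimensional ℂ E]
    [MetricSpace X] [CompactSpace X] [ConnectedSpace X] [ChartedSpace E X]
    [IsManifold 𝓘(ℂ, E) ω X]

/-- the curve `c` in the chart `i` is analytic -/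
theorem germ_an' (e : E ≃L[ℂ] V2) (A : Cha V2 X)
    (hA : ∀ i, ∃ y, A.ch i = (chartAt E y).transHomeomorph e.toHomeomorph) {c : ℂ → X}
    (hc : IsGerm E c) (i : A.ι) (hi : c 0 ∈ (A.ch i).source) :
    AnalyticAt ℂ (fun z => A.ch i (c z)) 0 := by
  obtain ⟨y, hy⟩ := hA i
  have hs : c 0 ∈ (chartAt E y).source := by
    rw [hy] at hi
    simpa using hi
  have h1 := GGH.germ_an hc y hs
  have h2 : (fun z => A.ch i (c z)) = fun z => e (chartAt E y (c z)) := by
    funext z
    rw [hy]
    rfl
  rw [h2]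
  exact (e : E →L[ℂ] V2).analyticAt _ |>.fun_comp h1

/-- the value of the jet differential on a germ -/
noncomputable def PJ (A : Cha V2 X) {k : ℕ} (P : A.ι → X → JP k) (c : ℂ → X) : ℂ :=
  MvPolynomial.eval (jt k (fun z => A.ch (ci A (c 0)) (c z))) (P (ci A (c 0)) (c 0))

theorem ci_mem (A : Cha V2 X) (x : X) : x ∈ (A.ch (ci A x)).source :=
  A.W_sub _ (subset_closure (A.cover x).choose_spec)

theorem jt_congr {k : ℕ} {c d : ℂ → V2} (h : c =ᶠ[𝓝 0] d) : jt k c = jt k d := by
  funext v
  unfold jt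
  refine Filter.EventuallyEq.iteratedDeriv_eq _ ?_
  filter_upwards [h] with z hz
  rw [hz]

theorem pj_eq (e : E ≃L[ℂ] V2) (A : Cha V2 X)
    (hA : ∀ i, ∃ y, A.ch i = (chartAt E y).transHomeomorph e.toHomeomorph) {k m : ℕ}
    {P : A.ι → X → JP k} (hP : GJ A k m P) {c : ℂ → X} (hc : IsGerm E c) (i : A.ι)
    (hi : c 0 ∈ (A.ch i).source) :
    PJ A P c = MvPolynomial.eval (jt k (fun z => A.ch i (c z))) (P i (c 0)) := by
  unfold PJ
  have hj := ci_mem A (c 0)
  set j := ci A (c 0) with hjdef
  rw [hP.tr j i (c 0) hj hi]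
  have h1 := tr_eval (k := k) (F := fun z => A.ch i ((A.ch j).symm z))
    (c := fun z => A.ch j (c z)) (germ_an' e A hA hc j hj) (A.trans j i (c 0) hj hi) (P i (c 0))
  rw [h1]
  congr 1
  congr 1
  apply jt_congr
  have hcont : ContinuousAt c 0 := (Filter.Eventually.self_of_nhds hc).continuousAt
  filter_upwards [hcont.eventually ((A.ch j).open_source.mem_nhds hj)] with z hz
  rw [(A.ch j).left_inv hz]

theorem jt_sc' {k : ℕ} {c : ℂ → V2} (hc : AnalyticAt ℂ c 0) (l : ℂ) :
    jt k (fun z => c (l * z)) = fun v => l ^ ((v.2 : ℕ) + 1) * jt k c v := by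
  funext v
  unfold jt
  have hcv : AnalyticAt ℂ (fun z => c z v.1) 0 :=
    (ContinuousLinearMap.proj (R := ℂ) (φ := fun _ : Fin 2 => ℂ) v.1).analyticAt _ |>.fun_comp hc
  have h := congrFun (GGH.jt_sc (k := (v.2 : ℕ) + 1) hcv l) ⟨(v.2 : ℕ) + 1, Nat.lt_succ_self _⟩
  simpa [GGH.jt, GGH.sc] using h

/-- the `k`-jets in the sense of `GGH.jt` determine the jets in the sense of `jt` -/
theorem jt_of_jt {k : ℕ} {c d : ℂ → V2} (hc : AnalyticAt ℂ c 0) (hd : AnalyticAt ℂ d 0)
    (h : GGH.jt k c 0 = GGH.jt k d 0) : jt k c = jt k d := by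
  funext v
  unfold jt
  have hL : ∀ w : V2, w v.1 = (ContinuousLinearMap.proj (R := ℂ) (φ := fun _ : Fin 2 => ℂ) v.1) w :=
    fun w => rfl
  have h0 : c 0 = d 0 := by
    have := congrFun h 0
    simpa [GGH.jt] using this
  have h1 := jet_map_congr (k := k) (G := fun w : V2 => w v.1) hc hd
    ((ContinuousLinearMap.proj (R := ℂ) (φ := fun _ : Fin 2 => ℂ) v.1).analyticAt _) h
  exact congrFun h1 ⟨(v.2 : ℕ) + 1, by omega⟩

/-- H (helper58) -/
theorem exists_inv (e : E ≃L[ℂ] V2) (A : Cha V2 X)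
    (hA : ∀ i, ∃ y, A.ch i = (chartAt E y).transHomeomorph e.toHomeomorph) {k m : ℕ} (hm : 0 < m)
    (P : A.ι → X → JP k) (hP : GJ A k m P) (hne : ∃ i, ∃ x ∈ (A.ch i).source, P i x ≠ 0) :
    MinBrody.HasInvariantJetDifferential E X := by
  classical
  have : IsManifold 𝓘(ℂ, E) 1 X := IsManifold.of_le (n := ω) le_top
  have : CompleteSpace E := FiniteDimensional.complete ℂ E
  refine GGH.has_invariant_of_jet (E := E) (k := k) (m := m) (P := PJ A P) hm ⟨?_, ?_⟩ ?_
  · -- analyticity
    intro y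
    -- the transition functions
    have htr : ∀ (z : E) (i : A.ι), z ∈ (chartAt E y).target →
        (chartAt E y).symm z ∈ (A.ch i).source →
        AnalyticAt ℂ (fun z => A.ch i ((chartAt E y).symm z)) z := by
      intro z i hz hi
      obtain ⟨y', hy'⟩ := hA i
      have hs : (chartAt E y).symm z ∈ (chartAt E y').source := by
        rw [hy'] at hi
        simpa using hi
      have h1 := cha_trans (X := X) ((chartAt E y).map_target hz) hs
      rw [(chartAt E y).right_inv hz] at h1
      have h7 : (fun z => A.ch i ((chartAt E y).symm z)) =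
          fun z => e (chartAt E y' ((chartAt E y).symm z)) := by
        funext z
        rw [hy']
        rfl
      rw [h7]
      exact (e : E →L[ℂ] V2).analyticAt _ |>.fun_comp h1
    have hpol0 : ∀ J : Fin (k + 1) → E, GGH.pol k J 0 = J 0 := by
      intro J
      have h := congrFun (GGH.jt_pol J) 0
      simpa [GGH.jt] using h
    have hgerm : ∀ J : Fin (k + 1) → E, J 0 ∈ (chartAt E y).target →
        IsGerm E (fun ζ => (chartAt E y).symm (GGH.pol k J ζ)) := fun J hJ =>
      (GGH.germ_of (X := X) (GGH.pol_an J 0) y (by rwa [hpol0])).1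
    refine ⟨fun J => PJ A P (fun ζ => (chartAt E y).symm (GGH.pol k J ζ)), ?_, ?_⟩
    · intro J hJ
      have hi := ci_mem A ((chartAt E y).symm (J 0))
      set i := ci A ((chartAt E y).symm (J 0)) with hidef
      have hpr : AnalyticAt ℂ (fun J' : Fin (k + 1) → E => J' 0) J :=
        (ContinuousLinearMap.proj (R := ℂ) (φ := fun _ : Fin (k + 1) => E) 0).analyticAt _
      have hev : ∀ᶠ J' in 𝓝 J, J' 0 ∈ (chartAt E y).target ∧
          (chartAt E y).symm (J' 0) ∈ (A.ch i).source := by
        have h0 : ∀ᶠ z in 𝓝 (J 0), z ∈ (chartAt E y).target :=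
          (chartAt E y).open_target.mem_nhds hJ
        have h1 : ∀ᶠ z in 𝓝 (J 0), z ∈ (chartAt E y).target ∧
            (chartAt E y).symm z ∈ (A.ch i).source :=
          h0.and
            (((chartAt E y).continuousAt_symm hJ).eventually ((A.ch i).open_source.mem_nhds hi))
        exact hpr.continuousAt.eventually h1
      have hsum : ∀ᶠ J' in 𝓝 J, PJ A P (fun ζ => (chartAt E y).symm (GGH.pol k J' ζ)) =
          ∑ t ∈ Ty k m, (P i ((A.ch i).symm (A.ch i ((chartAt E y).symm (J' 0))))).coeff t *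
            ∏ v, (iteratedDeriv ((v.2 : ℕ) + 1)
              (fun ζ => (A.ch i ((chartAt E y).symm (GGH.pol k J' ζ))) v.1) 0) ^ t v := by
        filter_upwards [hev] with J' hJ'
        have h0 : (chartAt E y).symm (GGH.pol k J' 0) ∈ (A.ch i).source := by
          rw [hpol0]
          exact hJ'.2
        rw [pj_eq e A hA hP (hgerm J' hJ'.1) i h0, hpol0, (A.ch i).left_inv hJ'.2,
          MvPolynomial.eval_eq']
        refine Finset.sum_subset_zero_on_sdiff ?_ ?_ ?_
        · intro t ht
          exact ((wt_fin k m).2 t).2 (hP.wh i _ hJ'.2 t (MvPolynomial.mem_support_iff.1 ht))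
        · intro t ht
          rw [Finset.mem_sdiff] at ht
          rw [MvPolynomial.notMem_support_iff.1 ht.2, zero_mul]
        · intro t _
          rfl
      refine AnalyticAt.congr ?_ (hsum.mono fun J' h => h.symm)
      have hG := htr (J 0) i hJ hi
      apply Finset.analyticAt_fun_sum
      intro t _
      refine AnalyticAt.mul ?_ ?_
      · have h1 : AnalyticAt ℂ (fun J' : Fin (k + 1) → E => A.ch i ((chartAt E y).symm (J' 0))) J :=
          AnalyticAt.comp (g := fun z => A.ch i ((chartAt E y).symm z))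
            (f := fun J' : Fin (k + 1) → E => J' 0) (x := J) hG hpr
        exact AnalyticAt.comp (g := fun z => (P i ((A.ch i).symm z)).coeff t)
          (f := fun J' : Fin (k + 1) → E => A.ch i ((chartAt E y).symm (J' 0))) (x := J)
          (hP.an i _ hi t) h1
      · apply Finset.analyticAt_fun_prod
        intro v _
        refine AnalyticAt.pow ?_ _
        have h2 : AnalyticAt ℂ (fun z => (A.ch i ((chartAt E y).symm z)) v.1) (J 0) :=
          (ContinuousLinearMap.proj (R := ℂ) (φ := fun _ : Fin 2 => ℂ) v.1).analyticAt _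
            |>.fun_comp hG
        exact jet_map_an h2 _
    · intro c hc hc0
      have hi := ci_mem A (c 0)
      set i := ci A (c 0) with hidef
      have hJ0 : chartJet E k y c 0 = chartAt E y (c 0) := GGH.chartJet_zero y c
      have hJt : chartJet E k y c 0 ∈ (chartAt E y).target := by
        rw [hJ0]
        exact (chartAt E y).map_source hc0
      have h0 : (chartAt E y).symm (GGH.pol k (chartJet E k y c) 0) = c 0 := by
        rw [hpol0, hJ0, (chartAt E y).left_inv hc0]
      show PJ A P c = PJ A P (fun ζ => (chartAt E y).symm (GGH.pol k (chartJet E k y c) ζ))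
      rw [pj_eq e A hA hP hc i hi, pj_eq e A hA hP (hgerm _ hJt) i (by rw [h0]; exact hi), h0]
      congr 1
      congr 1
      have hf := GGH.germ_an hc y hc0
      have hG : AnalyticAt ℂ (fun z => A.ch i ((chartAt E y).symm z)) (chartAt E y (c 0)) :=
        htr _ i ((chartAt E y).map_source hc0) (by rw [(chartAt E y).left_inv hc0]; exact hi)
      have h1 : jt k (fun z => A.ch i (c z)) =
          jt k (fun z => A.ch i ((chartAt E y).symm (chartAt E y (c z)))) := by
        apply jt_congr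
        have hcont : ContinuousAt c 0 := (Filter.Eventually.self_of_nhds hc).continuousAt
        filter_upwards [hcont.eventually ((chartAt E y).open_source.mem_nhds hc0)] with z hz
        rw [(chartAt E y).left_inv hz]
      rw [h1]
      have hpan : AnalyticAt ℂ (GGH.pol k (chartJet E k y c)) 0 := GGH.pol_an _ 0
      have hjj : GGH.jt k (fun z => chartAt E y (c z)) 0 =
          GGH.jt k (GGH.pol k (chartJet E k y c)) 0 := (GGH.jt_pol _).symm
      have hG' : AnalyticAt ℂ (fun z => A.ch i ((chartAt E y).symm z))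
          (GGH.pol k (chartJet E k y c) 0) := by
        rw [hpol0, hJ0]
        exact hG
      have ha1 : AnalyticAt ℂ (fun z => A.ch i ((chartAt E y).symm (chartAt E y (c z)))) 0 :=
        AnalyticAt.comp (g := fun z => A.ch i ((chartAt E y).symm z))
          (f := fun z => chartAt E y (c z)) (x := (0 : ℂ)) hG hf
      have ha2 : AnalyticAt ℂ (fun z => A.ch i ((chartAt E y).symm
          (GGH.pol k (chartJet E k y c) z))) 0 :=
        AnalyticAt.comp (g := fun z => A.ch i ((chartAt E y).symm z))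
          (f := GGH.pol k (chartJet E k y c)) (x := (0 : ℂ)) hG' hpan
      exact jt_of_jt ha1 ha2 (jet_map_congr (G := fun z => A.ch i ((chartAt E y).symm z))
        (f := fun z => chartAt E y (c z)) (g := GGH.pol k (chartJet E k y c)) hf hpan hG hjj)
  · intro c hc l hl
    have hla : AnalyticAt ℂ (fun z : ℂ => l * z) 0 := analyticAt_const.mul analyticAt_id
    have hcl : IsGerm E (fun z => c (l * z)) := GGH.germ_comp hc hla (by simp)
    have hi := ci_mem A (c 0)
    rw [pj_eq e A hA hP hc _ hi, pj_eq e A hA hP hcl (ci A (c 0)) (by simpa using hi)]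
    have h1 : (fun z => A.ch (ci A (c 0)) (c (l * z))) =
        fun z => (fun z => A.ch (ci A (c 0)) (c z)) (l * z) := rfl
    rw [h1, jt_sc' (germ_an' e A hA hc _ hi) l, mul_zero]
    exact wh_eval (hP.wh _ _ hi) l _
  · obtain ⟨i, x, hx, hPx⟩ := hne
    have h1 : ∃ ξ : Fin 2 × Fin k → ℂ, MvPolynomial.eval ξ (P i x) ≠ 0 := by
      by_contra hcon
      push Not at hcon
      exact hPx (MvPolynomial.funext fun ξ => by rw [hcon ξ]; simp)
    obtain ⟨ξ, hξ⟩ := h1
    obtain ⟨hcv, hcv0, hcvj⟩ := cv_an (k := k) (A.ch i x) ξ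
    obtain ⟨y, hy⟩ := hA i
    -- the curve in the chart `y`
    have hs : x ∈ (chartAt E y).source := by
      rw [hy] at hx
      simpa using hx
    have hf : AnalyticAt ℂ (fun z => e.symm (cv (A.ch i x) ξ z)) 0 :=
      (e.symm : V2 →L[ℂ] E).analyticAt _ |>.fun_comp hcv
    have hf0 : e.symm (cv (A.ch i x) ξ 0) = chartAt E y x := by
      rw [hcv0, hy]
      show e.symm (e (chartAt E y x)) = _
      simp
    obtain ⟨g1, g2, g3⟩ := GGH.germ_of (X := X) hf y (by rw [hf0]; exact (chartAt E y).map_source hs)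
    refine ⟨_, g1, ?_⟩
    have hc0 : (chartAt E y).symm (e.symm (cv (A.ch i x) ξ 0)) = x := by
      rw [hf0, (chartAt E y).left_inv hs]
    rw [pj_eq e A hA hP g1 i (by rw [hc0]; exact hx), hc0]
    have h2 : jt k (fun z => A.ch i ((chartAt E y).symm (e.symm (cv (A.ch i x) ξ z)))) = ξ := by
      refine Eq.trans ?_ hcvj
      apply jt_congr
      filter_upwards [g2] with z hz
      have h3 : A.ch i ((chartAt E y).symm (e.symm (cv (A.ch i x) ξ z))) =
          e (chartAt E y ((chartAt E y).symm (e.symm (cv (A.ch i x) ξ z)))) := by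
        rw [hy]
        rfl
      rw [h3, hz]
      simp
    rw [h2]
    exact hξ

end mfd

end Pool.Agent.GG
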