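import Pool.Agent.Lib_helper82.GG.D.All
import Pool.Agent.Lib_helper82.GG.P.B1
import Pool.Agent.Lib_helper82.GG.P.B2
import Pool.Agent.Lib_helper82.GG.P.C1
import Pool.Agent.Lib_helper82.GG.P.IFT
import Pool.Agent.Lib_helper82.GG.P.P1
import Pool.Agent.Lib_helper82.GG.P.PE

/-! # GG block Z1: the number of points of `T 0 = 0` over a general point -/

set_option autoImplicit false
set_option linter.unusedVariables false
set_option linter.unusedSectionVars false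

open Filter Topology Metric Set

namespace Pool.Agent.GG

open Pool.Agent.BR

theorem z1_line {h : V2 → ℂ} {z : V2} (hh : DifferentiableAt ℂ h z) (j : Fin 2) :
    HasDerivAt (fun t : ℂ => h (z + t • Pi.single j (1 : ℂ))) (pd j h z) 0 :=
  hh.hasFDerivAt.hasLineDerivAt _

theorem z1_pd_div {f g : V2 → ℂ} {z : V2} (hf : DifferentiableAt ℂ f z)
    (hg : DifferentiableAt ℂ g z) (h0 : g z ≠ 0) (j : Fin 2) :
    pd j (fun w => f w / g w) z = (pd j f z * g z - f z * pd j g z) / g z ^ 2 := by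
  have h1 := (z1_line hf j).fun_div (z1_line hg j) (by simpa using h0)
  have hd : DifferentiableAt ℂ (fun w => f w / g w) z := by
    simp only [div_eq_mul_inv]
    exact hf.mul ((differentiableAt_inv h0).comp z hg)
  have h2 := z1_line hd j
  have := h2.unique h1
  simpa using this

theorem z1_jac {S : Fin 3 → V2 → ℂ} {z : V2} (hS : ∀ j, AnalyticAt ℂ (S j) z) (h1 : S 1 z ≠ 0)
    (hd : dl S z ≠ 0) :
    pd 0 (fun w => S 0 w / S 1 w) z * pd 1 (fun w => S 2 w / S 1 w) z -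
      pd 1 (fun w => S 0 w / S 1 w) z * pd 0 (fun w => S 2 w / S 1 w) z ≠ 0 := by
  have e : pd 0 (fun w => S 0 w / S 1 w) z * pd 1 (fun w => S 2 w / S 1 w) z -
      pd 1 (fun w => S 0 w / S 1 w) z * pd 0 (fun w => S 2 w / S 1 w) z =
      - dl S z / S 1 z ^ 3 := by
    rw [z1_pd_div (hS 0).differentiableAt (hS 1).differentiableAt h1,
      z1_pd_div (hS 0).differentiableAt (hS 1).differentiableAt h1,
      z1_pd_div (hS 2).differentiableAt (hS 1).differentiableAt h1,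
      z1_pd_div (hS 2).differentiableAt (hS 1).differentiableAt h1]
    unfold dl
    rw [Matrix.det_fin_three]
    simp
    field_simp
    ring
  rw [e]
  exact div_ne_zero (neg_ne_zero.mpr hd) (pow_ne_zero _ h1)

section surface

variable {X : Type} [MetricSpace X] [CompactSpace X] {A : Cha V2 X} {b D : ℕ}
  {T : Fin 3 → A.ι → X → ℂ}

theorem z1_ci (x : X) : x ∈ (A.ch (ci A x)).source :=
  A.W_sub _ (subset_closure (A.cover x).choose_spec)

/-- the local section through a point of the fibre -/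
theorem z1_sec (hT : Net A b T) {x : X} {c : ℂ} (hx : x ∈ Pf A (T 0) (T 1) (T 2) c)
    (hd : x ∉ ZS A (dlt A T)) : ∃ s : V2 → X, Tendsto s (𝓝 ![0, c]) (𝓝 x) ∧
      ∀ᶠ y in 𝓝 (![0, c] : V2), y 0 ≠ 0 → s y ∈ Fib A T ![1 / y 0, y 1 / y 0] := by
  obtain ⟨h0, h1, h2⟩ := hx
  set i := ci A x with hi
  have hxi : x ∈ (A.ch i).source := z1_ci x
  set z₀ := A.ch i x with hz₀
  have e0 : T 0 i x = 0 := (zs_iff (hT.ps 0) hxi).1 h0
  have e1 : T 1 i x ≠ 0 := fun h => h1 ((zs_iff (hT.ps 1) hxi).2 h)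
  have e2 : T 2 i x = c * T 1 i x := h2 i hxi
  have ed : dlt A T i x ≠ 0 := fun h => hd ((zs_iff (dlt_ps hT.ps) hxi).2 h)
  have hS : ∀ j, AnalyticAt ℂ (lT A T i j) z₀ := fun j => (lT_an hT.ps hxi j).1
  have hSe : ∀ j, lT A T i j z₀ = T j i x := fun j => (lT_an hT.ps hxi j).2
  have hS1 : lT A T i 1 z₀ ≠ 0 := by rw [hSe]; exact e1
  obtain ⟨Θ, hΘ, hΘ0, -, hΘ2⟩ := loc_coord (f := fun w => lT A T i 0 w / lT A T i 1 w)
    (g := fun w => lT A T i 2 w / lT A T i 1 w) (z₀ := z₀)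
    ((hS 0).div (hS 1) hS1) ((hS 2).div (hS 1) hS1) (z1_jac hS hS1 ed)
  have hv : (![(fun w => lT A T i 0 w / lT A T i 1 w) z₀,
      (fun w => lT A T i 2 w / lT A T i 1 w) z₀] : V2) = ![0, c] := by
    simp only [hSe]
    rw [e0, e2, zero_div, mul_div_cancel_right₀ _ e1]
  rw [hv] at hΘ hΘ0 hΘ2
  have hΘt : Tendsto Θ (𝓝 ![0, c]) (𝓝 z₀) := by
    have := hΘ.continuousAt.tendsto
    rwa [hΘ0] at this
  have hsym : Tendsto (A.ch i).symm (𝓝 z₀) (𝓝 x) := by
    have h := (A.ch i).continuousAt_symm ((A.ch i).map_source hxi)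
    have h' := h.tendsto
    rwa [(A.ch i).left_inv hxi] at h'
  refine ⟨fun y => (A.ch i).symm (Θ y), hsym.comp hΘt, ?_⟩
  have ht : ∀ᶠ y in 𝓝 (![0, c] : V2), Θ y ∈ (A.ch i).target :=
    hΘt ((A.ch i).open_target.mem_nhds ((A.ch i).map_source hxi))
  have hne : ∀ᶠ y in 𝓝 (![0, c] : V2), lT A T i 1 (Θ y) ≠ 0 :=
    hΘt.eventually ((hS 1).continuousAt.eventually_ne hS1)
  filter_upwards [ht, hne, hΘ2] with y y1 y2 y3 y4
  obtain ⟨y3, y5⟩ := y3
  have hsrc : (A.ch i).symm (Θ y) ∈ (A.ch i).source := (A.ch i).map_target y1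
  have f0 : T 0 i ((A.ch i).symm (Θ y)) = y 0 * T 1 i ((A.ch i).symm (Θ y)) := by
    have : lT A T i 0 (Θ y) = y 0 * lT A T i 1 (Θ y) := by
      rw [← y3, div_mul_cancel₀ _ y2]
    exact this
  have f2 : T 2 i ((A.ch i).symm (Θ y)) = y 1 * T 1 i ((A.ch i).symm (Θ y)) := by
    have : lT A T i 2 (Θ y) = y 1 * lT A T i 1 (Θ y) := by
      rw [← y5, div_mul_cancel₀ _ y2]
    exact this
  have f1 : T 1 i ((A.ch i).symm (Θ y)) ≠ 0 := y2
  have g0 : T 0 i ((A.ch i).symm (Θ y)) ≠ 0 := by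
    rw [f0]
    exact mul_ne_zero y4 f1
  have hz : (A.ch i).symm (Θ y) ∉ ZS A (T 0) := fun h => g0 ((zs_iff (hT.ps 0) hsrc).1 h)
  refine ⟨hz, ?_⟩
  intro j hj
  have k0 : T 0 j ((A.ch i).symm (Θ y)) ≠ 0 := fun h => hz ((zs_iff (hT.ps 0) hj).2 h)
  have q1 := qt_eq (hT.ps 1) (hT.ps 0) hsrc
  have q1' := qt_eq (hT.ps 1) (hT.ps 0) hj
  have q2 := qt_eq (hT.ps 2) (hT.ps 0) hsrc
  have q2' := qt_eq (hT.ps 2) (hT.ps 0) hj
  rw [q1'] at q1
  rw [q2'] at q2
  constructor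
  · have : T 1 j ((A.ch i).symm (Θ y)) / T 0 j ((A.ch i).symm (Θ y)) = 1 / y 0 := by
      rw [q1, f0]
      field_simp
    simp only [Matrix.cons_val_zero]
    rw [← this, div_mul_cancel₀ _ k0]
  · have : T 2 j ((A.ch i).symm (Θ y)) / T 0 j ((A.ch i).symm (Θ y)) = y 1 / y 0 := by
      rw [q2, f0, f2]
      field_simp
    simp only [Matrix.cons_val_one, Matrix.cons_val_fin_one]
    rw [← this, div_mul_cancel₀ _ k0]

theorem bz_H (hT : Net A b T) (hD : Shts A T D) :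
    ∃ B : Finset ℂ, ∀ c ∉ B, (Pf A (T 0) (T 1) (T 2) c).ncard ≤ D := by
  classical
  refine ⟨(hT.g4.toFinset).image (qt A (T 2) (T 1)), ?_⟩
  intro c hc
  have hfin : (Pf A (T 0) (T 1) (T 2) c).Finite := pen_fin (pen_H hT) c
  -- no ramification on the fibre
  have hdl : ∀ x ∈ Pf A (T 0) (T 1) (T 2) c, x ∉ ZS A (dlt A T) := by
    intro x hx hd
    apply hc
    rw [Finset.mem_image]
    refine ⟨x, ?_, ?_⟩
    · rw [Set.Finite.mem_toFinset]
      exact ⟨hx.1, hd⟩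
    · have hxi := z1_ci (A := A) x
      rw [qt_eq (hT.ps 2) (hT.ps 1) hxi, hx.2.2 _ hxi]
      have e1 : T 1 (ci A x) x ≠ 0 := fun h => hx.2.1 ((zs_iff (hT.ps 1) hxi).2 h)
      rw [mul_div_cancel_right₀ _ e1]
  -- disjoint neighbourhoods
  obtain ⟨U, hU, hUd⟩ := hfin.t2_separation
  have hsec : ∀ x : X, ∃ s : V2 → X, x ∈ Pf A (T 0) (T 1) (T 2) c →
      ∀ᶠ y in 𝓝 (![0, c] : V2), s y ∈ U x ∧
        (y 0 ≠ 0 → s y ∈ Fib A T ![1 / y 0, y 1 / y 0]) := by
    intro x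
    by_cases hx : x ∈ Pf A (T 0) (T 1) (T 2) c
    · obtain ⟨s, hs, hs2⟩ := z1_sec hT hx (hdl x hx)
      refine ⟨s, fun _ => ?_⟩
      exact (hs.eventually ((hU x).2.mem_nhds (hU x).1)).and hs2
    · exact ⟨fun _ => x, fun h => absurd h hx⟩
  choose s hs using hsec
  have hev : ∀ᶠ y in 𝓝 (![0, c] : V2), ∀ x ∈ Pf A (T 0) (T 1) (T 2) c, s x y ∈ U x ∧
        (y 0 ≠ 0 → s x y ∈ Fib A T ![1 / y 0, y 1 / y 0]) :=
    (hfin.eventually_all).2 fun x hx => hs x hx
  obtain ⟨ε, hε, hball⟩ := Metric.eventually_nhds_iff.1 hev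
  -- the choice of the point
  set t : ℂ := ((ε / 2 : ℝ) : ℂ) with ht
  have ht0 : t ≠ 0 := by
    rw [ht]
    exact_mod_cast (by positivity : (ε / 2) ≠ 0)
  have htn : ‖t‖ < ε := by
    rw [ht, Complex.norm_real, Real.norm_eq_abs, abs_of_pos (by positivity)]
    linarith
  have hbad : {w : ℂ | (![1 / t, w / t] : V2) ∈ BrC A T}.Finite := by
    have h := (brc_closed hT).2 (1 / t)
    have hinj : Set.InjOn (fun w : ℂ => w / t) ((fun w : ℂ => w / t) ⁻¹'
        {τ : ℂ | (![1 / t, τ] : V2) ∈ BrC A T}) := by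
      intro a _ a' _ haa
      exact (div_left_inj' ht0).1 haa
    have h2 := Set.Finite.preimage hinj h
    exact h2
  obtain ⟨w, hw, hwb⟩ : ∃ w ∈ ball c ε, w ∉ {w : ℂ | (![1 / t, w / t] : V2) ∈ BrC A T} := by
    have hinf : (ball c ε).Infinite := by
      apply infinite_of_mem_nhds c
      exact ball_mem_nhds c hε
    exact hinf.exists_notMem_finite hbad
  have hy : dist (![t, w] : V2) ![0, c] < ε := by
    rw [dist_pi_lt_iff hε]
    intro i
    fin_cases i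
    · simpa using htn
    · simpa using hw
  have hgood := hball hy
  have hyb : (![1 / t, w / t] : V2) ∉ BrC A T := hwb
  have hmaps : ∀ x ∈ Pf A (T 0) (T 1) (T 2) c, s x ![t, w] ∈ Fib A T ![1 / t, w / t] := by
    intro x hx
    have := (hgood x hx).2 (by simpa using ht0)
    simpa using this
  have hinj : Set.InjOn (fun x => s x ![t, w]) (Pf A (T 0) (T 1) (T 2) c) := by
    intro x hx x' hx' hxx
    by_contra hne
    have h1 := hUd hx hx' hne
    simp only [Function.onFun] at h1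
    have h2 := (hgood x hx).1
    have h3 := (hgood x' hx').1
    simp only at hxx
    rw [hxx] at h2
    exact Set.disjoint_left.1 h1 h2 h3
  calc (Pf A (T 0) (T 1) (T 2) c).ncard
      ≤ (Fib A T ![1 / t, w / t]).ncard :=
        Set.ncard_le_ncard_of_injOn _ hmaps hinj (hD.fin _ hyb)
    _ = D := hD.card _ hyb


end surface

end Pool.Agent.GG
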