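import Pool.Agent.Lib_helper82.GG.D.All
import Pool.Agent.Lib_helper82.GG.P.B1
import Pool.Agent.Lib_helper82.GG.P.B2

/-! # GG, block Z2 (helper69): the growth of `Gf` -/

set_option autoImplicit false
set_option linter.unusedVariables false
set_option linter.unusedSectionVars false

open Filter Topology Metric Set

namespace Pool.Agent.GG

open Pool.Agent.BR

section surface

variable {X : Type} [MetricSpace X] [CompactSpace X] {A : Cha V2 X} {b D : ℕ}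
  {T : Fin 3 → A.ι → X → ℂ}

theorem z2_ci (x : X) : x ∈ (A.ch (ci A x)).source :=
  A.W_sub _ (subset_closure (A.cover x).choose_spec)

/-- the powers of a section -/
theorem z2_pow {w : ℕ} {s : A.ι → X → ℂ} (hs : IS.PS A w s) (n : ℕ) :
    IS.PS A (w * n) (fun i x => s i x ^ n) where
  an i x hx := (hs.an i x hx).pow n
  tr i j x hi hj := by
    show s i x ^ n = _
    rw [hs.tr i j x hi hj, mul_pow, ← pow_mul]

/-- sections are continuous -/
theorem z2_cont {w : ℕ} {s : A.ι → X → ℂ} (hs : IS.PS A w s) {i : A.ι} {x : X}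
    (hx : x ∈ (A.ch i).source) : ContinuousAt (s i) x := by
  have h1 : ContinuousAt (fun y => s i ((A.ch i).symm (A.ch i y))) x :=
    ContinuousAt.comp (f := A.ch i) (g := fun ξ => s i ((A.ch i).symm ξ))
      (hs.an i x hx).continuousAt ((A.ch i).continuousAt hx)
  refine h1.congr ?_
  filter_upwards [(A.ch i).open_source.mem_nhds hx] with y hy
  rw [(A.ch i).left_inv hy]

/-- `Gf` is a quotient of sections -/
theorem z2_qt (hT : Net A b T) :
    Gf A b T = qt A (fun i x => dlt A T i x ^ b) (fun i x => T 0 i x ^ (3 * b + 1)) := rfl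

theorem z2_d (hT : Net A b T) : IS.PS A (b * (3 * b + 1)) (fun i x => dlt A T i x ^ b) := by
  have h := z2_pow (dlt_ps hT.ps) b
  rwa [mul_comm] at h

theorem z2_zs (hT : Net A b T) {x : X} (h : x ∉ ZS A (T 0)) :
    x ∉ ZS A (fun i x => T 0 i x ^ (3 * b + 1)) := by
  rw [zs_iff (z2_pow (hT.ps 0) (3 * b + 1)) (z2_ci x)]
  rw [zs_iff (hT.ps 0) (z2_ci x)] at h
  exact pow_ne_zero _ h

theorem gf_growth (hT : Net A b T) : (∃ C : ℝ, ∀ x, x ∉ ZS A (T 0) →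
      ‖Gf A b T x‖ ≤ C * (1 + ‖qt A (T 1) (T 0) x‖ + ‖qt A (T 2) (T 0) x‖) ^ (3 * b + 1)) ∧
    (∀ x, x ∉ ZS A (T 0) → (Gf A b T x = 0 ↔ x ∈ ZS A (dlt A T))) ∧
    ∀ i, ∀ x ∈ (A.ch i).source, x ∉ ZS A (T 0) → AnalyticAt ℂ (lz A i (Gf A b T)) (A.ch i x) := by
  refine ⟨?_, ?_, ?_⟩
  · -- growth
    have key : ∃ C : ℝ, ∀ x ∈ (univ : Set X), x ∉ ZS A (T 0) →
        ‖Gf A b T x‖ ≤ C * (1 + ‖qt A (T 1) (T 0) x‖ + ‖qt A (T 2) (T 0) x‖) ^ (3 * b + 1) := by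
      refine isCompact_univ.induction_on (p := fun S => ∃ C : ℝ, ∀ x ∈ S, x ∉ ZS A (T 0) →
        ‖Gf A b T x‖ ≤ C * (1 + ‖qt A (T 1) (T 0) x‖ + ‖qt A (T 2) (T 0) x‖) ^ (3 * b + 1))
        ⟨0, fun x hx => absurd hx (notMem_empty x)⟩ ?_ ?_ ?_
      · rintro S S' h ⟨C, hC⟩
        exact ⟨C, fun x hx => hC x (h hx)⟩
      · rintro S S' ⟨C, hC⟩ ⟨C', hC'⟩
        refine ⟨max C C', fun x hx h0 => ?_⟩
        rcases hx with hx | hx
        · exact (hC x hx h0).trans (mul_le_mul_of_nonneg_right (le_max_left _ _) (by positivity))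
        · exact (hC' x hx h0).trans (mul_le_mul_of_nonneg_right (le_max_right _ _) (by positivity))
      · intro x₀ _
        rw [nhdsWithin_univ]
        have hi : x₀ ∈ (A.ch (ci A x₀)).source := z2_ci x₀
        set i := ci A x₀ with hidef
        have hc : ∀ j, ContinuousAt (T j i) x₀ := fun j => z2_cont (hT.ps j) hi
        have hcd : ContinuousAt (dlt A T i) x₀ := z2_cont (dlt_ps hT.ps) hi
        have hsum : ContinuousAt (fun x => ‖T 0 i x‖ + ‖T 1 i x‖ + ‖T 2 i x‖) x₀ :=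
          ((hc 0).norm.add (hc 1).norm).add (hc 2).norm
        have hpos : 0 < ‖T 0 i x₀‖ + ‖T 1 i x₀‖ + ‖T 2 i x₀‖ := by
          obtain ⟨j, hj⟩ := hT.g1 x₀
          rw [zs_iff (hT.ps j) hi] at hj
          have h0 := norm_nonneg (T 0 i x₀)
          have h1 := norm_nonneg (T 1 i x₀)
          have h2 := norm_nonneg (T 2 i x₀)
          have h3 : 0 < ‖T j i x₀‖ := norm_pos_iff.2 hj
          fin_cases j <;> simp only [Fin.zero_eta, Fin.mk_one, Fin.reduceFinMk] at h3 <;> linarith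
        obtain ⟨c, hcdef⟩ : ∃ c, c = (‖T 0 i x₀‖ + ‖T 1 i x₀‖ + ‖T 2 i x₀‖) / 2 := ⟨_, rfl⟩
        have hc0 : 0 < c := by rw [hcdef]; positivity
        obtain ⟨M, hM⟩ : ∃ M, M = ‖dlt A T i x₀‖ + 1 := ⟨_, rfl⟩
        have hM0 : 0 ≤ M := by rw [hM]; positivity
        have e1 : ∀ᶠ x in 𝓝 x₀, c < ‖T 0 i x‖ + ‖T 1 i x‖ + ‖T 2 i x‖ :=
          hsum.eventually (lt_mem_nhds (by rw [hcdef]; linarith))
        have e2 : ∀ᶠ x in 𝓝 x₀, ‖dlt A T i x‖ < M :=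
          hcd.norm.eventually (gt_mem_nhds (by rw [hM]; linarith))
        have e3 : ∀ᶠ x in 𝓝 x₀, x ∈ (A.ch i).source := (A.ch i).open_source.mem_nhds hi
        refine ⟨_, (e1.and (e2.and e3)), M ^ b / c ^ (3 * b + 1), ?_⟩
        rintro x ⟨f1, f2, f3⟩ h0
        have hG : Gf A b T x = dlt A T i x ^ b / T 0 i x ^ (3 * b + 1) := by
          rw [z2_qt hT, qt_eq (z2_d hT) (z2_pow (hT.ps 0) (3 * b + 1)) f3]
        have h0' : T 0 i x ≠ 0 := by
          rwa [zs_iff (hT.ps 0) f3] at h0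
        have hn : 0 < ‖T 0 i x‖ := norm_pos_iff.2 h0'
        have q1 : ‖qt A (T 1) (T 0) x‖ = ‖T 1 i x‖ / ‖T 0 i x‖ := by
          rw [qt_eq (hT.ps 1) (hT.ps 0) f3, norm_div]
        have q2 : ‖qt A (T 2) (T 0) x‖ = ‖T 2 i x‖ / ‖T 0 i x‖ := by
          rw [qt_eq (hT.ps 2) (hT.ps 0) f3, norm_div]
        have hq : 1 + ‖qt A (T 1) (T 0) x‖ + ‖qt A (T 2) (T 0) x‖ =
            (‖T 0 i x‖ + ‖T 1 i x‖ + ‖T 2 i x‖) / ‖T 0 i x‖ := by
          rw [q1, q2]; field_simp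
        rw [hG, norm_div, norm_pow, norm_pow, hq, div_pow _ ‖T 0 i x‖, div_mul_div_comm]
        have h1 : ‖dlt A T i x‖ ^ b ≤ M ^ b := pow_le_pow_left₀ (norm_nonneg _) f2.le b
        have h2 : c ^ (3 * b + 1) ≤ (‖T 0 i x‖ + ‖T 1 i x‖ + ‖T 2 i x‖) ^ (3 * b + 1) :=
          pow_le_pow_left₀ hc0.le f1.le _
        rw [div_le_div_iff₀ (by positivity) (by positivity)]
        calc ‖dlt A T i x‖ ^ b * (c ^ (3 * b + 1) * ‖T 0 i x‖ ^ (3 * b + 1))
            = (‖dlt A T i x‖ ^ b * c ^ (3 * b + 1)) * ‖T 0 i x‖ ^ (3 * b + 1) := by ring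
          _ ≤ (M ^ b * (‖T 0 i x‖ + ‖T 1 i x‖ + ‖T 2 i x‖) ^ (3 * b + 1)) *
              ‖T 0 i x‖ ^ (3 * b + 1) := by gcongr
    obtain ⟨C, hC⟩ := key
    exact ⟨C, fun x h => hC x (mem_univ x) h⟩
  · intro x h0
    have h0' : T 0 (ci A x) x ≠ 0 := by
      rwa [zs_iff (hT.ps 0) (z2_ci x)] at h0
    rw [zs_iff (dlt_ps hT.ps) (z2_ci x), Gf, div_eq_zero_iff]
    constructor
    · rintro (h | h)
      · exact pow_eq_zero_iff (hT.b_pos.ne') |>.1 h
      · exact absurd h (pow_ne_zero _ h0')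
    · intro h
      left
      rw [h, zero_pow hT.b_pos.ne']
  · intro i x hx h0
    rw [z2_qt hT]
    exact qt_an (z2_d hT) (z2_pow (hT.ps 0) (3 * b + 1)) hx (z2_zs hT h0)


end surface

end Pool.Agent.GG
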