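import Pool.Agent.Lib_helper82.GG.D.All
import Pool.Agent.Lib_helper82.GG.P.B1
import Pool.Agent.Lib_helper82.GG.P.B2
import Pool.Agent.Lib_helper82.GG.P.IFT

set_option autoImplicit false

open Filter Topology Metric Set

namespace Pool.Agent.GG

open Pool.Agent.BR

/-- a function whose derivative has a simple zero is the square of a local coordinate -/
theorem z3_sq {h E : ℂ → ℂ} (hh : AnalyticAt ℂ h 0) (h0 : h 0 = 0) (hE : AnalyticAt ℂ E 0)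
    (hE0 : E 0 ≠ 0) (hd : ∀ᶠ d in 𝓝 (0 : ℂ), E d * deriv h d = d) :
    ∃ χ : ℂ → ℂ, ∃ c : ℂ, HasStrictDerivAt χ c 0 ∧ c ≠ 0 ∧ χ 0 = 0 ∧
      ∀ᶠ d in 𝓝 (0 : ℂ), h d = χ d ^ 2 := by
  have h1 : analyticOrderAt (deriv h) 0 = ((1 : ℕ) : ℕ∞) := by
    rw [AnalyticAt.analyticOrderAt_eq_natCast hh.deriv]
    refine ⟨fun d => (E d)⁻¹, hE.inv hE0, inv_ne_zero hE0, ?_⟩
    have hne : ∀ᶠ d in 𝓝 (0 : ℂ), E d ≠ 0 := hE.continuousAt.eventually_ne hE0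
    filter_upwards [hd, hne] with d hd hne
    rw [sub_zero, pow_one, smul_eq_mul, eq_mul_inv_iff_mul_eq₀ hne, mul_comm, hd]
  have h2 : analyticOrderAt h 0 = ((2 : ℕ) : ℕ∞) := by
    have := (analyticOrderAt_deriv_eq_iff hh h0 (n := 1)).2 h1
    rw [this]
    norm_num
  obtain ⟨k, hk, hk0, hkh⟩ := (AnalyticAt.analyticOrderAt_eq_natCast hh).1 h2
  obtain ⟨c, hc⟩ := IsAlgClosed.exists_pow_nat_eq (k 0) (n := 2) (by norm_num)
  have hc0 : c ≠ 0 := by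
    rintro rfl
    exact hk0 (by rw [← hc]; norm_num)
  have hq : AnalyticAt ℂ (fun d => k d / k 0) 0 := hk.div analyticAt_const hk0
  have hq0 : (fun d => k d / k 0) 0 = 1 := div_self hk0
  have hlog : AnalyticAt ℂ (fun d => Complex.log (k d / k 0)) 0 := by
    refine hq.clog ?_
    rw [show k 0 / k 0 = 1 from div_self hk0]
    exact Complex.one_mem_slitPlane
  have hr : AnalyticAt ℂ (fun d => c * Complex.exp (Complex.log (k d / k 0) / 2)) 0 :=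
    analyticAt_const.mul ((hlog.div analyticAt_const two_ne_zero).cexp)
  have hχ : AnalyticAt ℂ (fun d => d * (c * Complex.exp (Complex.log (k d / k 0) / 2))) 0 :=
    analyticAt_id.mul hr
  refine ⟨fun d => d * (c * Complex.exp (Complex.log (k d / k 0) / 2)), c, ?_, hc0, by simp, ?_⟩
  · have h3 := hχ.hasStrictDerivAt
    have h4 : deriv (fun d => d * (c * Complex.exp (Complex.log (k d / k 0) / 2))) 0 = c := by
      have h5 : HasDerivAt (fun d => d * (c * Complex.exp (Complex.log (k d / k 0) / 2)))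
          (1 * (c * Complex.exp (Complex.log (k 0 / k 0) / 2)) +
            0 * deriv (fun d => c * Complex.exp (Complex.log (k d / k 0) / 2)) 0) 0 :=
        (hasDerivAt_id (0 : ℂ)).mul hr.differentiableAt.hasDerivAt
      rw [h5.deriv, div_self hk0, Complex.log_one]
      simp
    rw [h4] at h3
    exact h3
  · have hne : ∀ᶠ d in 𝓝 (0 : ℂ), k d ≠ 0 := hk.continuousAt.eventually_ne hk0
    filter_upwards [hkh, hne] with d hd hne
    rw [hd, sub_zero, smul_eq_mul, mul_pow, mul_pow, ← Complex.exp_nat_mul]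
    have : ((2 : ℕ) : ℂ) * (Complex.log (k d / k 0) / 2) = Complex.log (k d / k 0) := by
      push_cast
      ring
    rw [this, Complex.exp_log (div_ne_zero hne hk0), hc]
    field_simp

/-- solutions of `h d = t` near `0` -/
theorem z3_sol {h E : ℂ → ℂ} (hh : AnalyticAt ℂ h 0) (h0 : h 0 = 0) (hE : AnalyticAt ℂ E 0)
    (hE0 : E 0 ≠ 0) (hd : ∀ᶠ d in 𝓝 (0 : ℂ), E d * deriv h d = d) :
    (∃ C : ℝ, 0 ≤ C ∧ ∀ᶠ d in 𝓝 (0 : ℂ), ‖d‖ ^ 2 ≤ C * ‖h d‖) ∧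
      ∀ V ∈ 𝓝 (0 : ℂ), ∀ᶠ t in 𝓝[≠] (0 : ℂ), ∃ d₁ ∈ V, ∃ d₂ ∈ V, d₁ ≠ d₂ ∧ h d₁ = t ∧ h d₂ = t := by
  obtain ⟨χ, c, hχ, hc, hχ0, hsq⟩ := z3_sq hh h0 hE hE0 hd
  constructor
  · have h1 : (fun d : ℂ => d) =O[𝓝 0] fun d => χ d := by
      have := (hχ.hasDerivAt.isTheta_sub hc).2
      simpa [Function.comp_def, hχ0] using this
    obtain ⟨C, hC⟩ := h1.bound
    refine ⟨C ^ 2, sq_nonneg _, ?_⟩
    filter_upwards [hC, hsq] with d hd hs
    rw [hs, norm_pow, ← mul_pow]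
    exact pow_le_pow_left₀ (norm_nonneg _) hd 2
  · intro V hV
    set ψ := hχ.localInverse χ c 0 hc
    have hψ : HasStrictDerivAt ψ c⁻¹ (χ 0) := hχ.to_localInverse hc
    have hψr : ∀ᶠ s in 𝓝 (χ 0), χ (ψ s) = s := hχ.eventually_right_inverse hc
    have hψ0 : ψ (χ 0) = 0 := (hχ.eventually_left_inverse hc).self_of_nhds
    rw [hχ0] at hψ hψr hψ0
    have hψc : Tendsto ψ (𝓝 0) (𝓝 0) := by
      have := hψ.hasDerivAt.continuousAt.tendsto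
      rwa [hψ0] at this
    have hg : ∀ᶠ s in 𝓝 (0 : ℂ), ψ s ∈ V ∧ χ (ψ s) = s ∧ h (ψ s) = χ (ψ s) ^ 2 :=
      (hψc.eventually hV).and (hψr.and (hψc.eventually hsq))
    have hneg : Tendsto (fun s : ℂ => -s) (𝓝 0) (𝓝 0) := by
      simpa using (continuous_neg.tendsto (0 : ℂ))
    obtain ⟨r, hr, hball⟩ := Metric.eventually_nhds_iff_ball.1 (hg.and (hneg.eventually hg))
    rw [eventually_nhdsWithin_iff, Metric.eventually_nhds_iff_ball]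
    refine ⟨r ^ 2, by positivity, fun t ht htne => ?_⟩
    obtain ⟨s, hs⟩ := IsAlgClosed.exists_pow_nat_eq t (n := 2) (by norm_num)
    have hs0 : s ≠ 0 := by
      rintro rfl
      exact htne (by rw [← hs]; norm_num)
    have hsr : s ∈ ball (0 : ℂ) r := by
      rw [mem_ball_zero_iff] at ht ⊢
      rw [← hs, norm_pow] at ht
      exact lt_of_pow_lt_pow_left₀ 2 hr.le ht
    obtain ⟨⟨a1, a2, a3⟩, b1, b2, b3⟩ := hball s hsr
    refine ⟨ψ s, a1, ψ (-s), b1, ?_, ?_, ?_⟩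
    · intro he
      have : s = -s := by
        have h9 : χ (ψ s) = χ (ψ (-s)) := by rw [he]
        rwa [a2, b2] at h9
      exact hs0 (by linear_combination this / 2)
    · rw [a3, a2, hs]
    · rw [b3, b2, neg_sq, hs]


theorem z3_fd {f : V2 → ℂ} {z : V2} (w : V2) :
    fderiv ℂ f z w = w 0 * pd 0 f z + w 1 * pd 1 f z := by
  have h : w = w 0 • Pi.single 0 (1 : ℂ) + w 1 • Pi.single 1 (1 : ℂ) := by
    funext j
    fin_cases j <;> simp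
  conv_lhs => rw [h]
  rw [map_add, map_smul, map_smul]
  rfl

theorem z3_pd_an {f : V2 → ℂ} {z : V2} (hf : AnalyticAt ℂ f z) (j : Fin 2) :
    AnalyticAt ℂ (pd j f) z :=
  ((ContinuousLinearMap.apply ℂ ℂ (Pi.single j (1 : ℂ) : V2)).analyticAt _).comp hf.fderiv

theorem z3_pd_div {F G : V2 → ℂ} {z : V2} (hF : AnalyticAt ℂ F z) (hG : AnalyticAt ℂ G z)
    (h0 : G z ≠ 0) (j : Fin 2) :
    pd j (fun z => F z / G z) z = (G z * pd j F z - F z * pd j G z) / G z ^ 2 := by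
  have hq : AnalyticAt ℂ (fun z => F z / G z) z := hF.div hG h0
  have h := hq.differentiableAt.hasFDerivAt.mul hG.differentiableAt.hasFDerivAt
  have h1 : HasFDerivAt F (fderiv ℂ F z) z := hF.differentiableAt.hasFDerivAt
  have h2 : (fun z => F z / G z) * G =ᶠ[𝓝 z] F := by
    filter_upwards [hG.continuousAt.eventually_ne h0] with y hy
    simp only [Pi.mul_apply]
    field_simp
  have h3 := h.unique (h1.congr_of_eventuallyEq h2)
  have h4 := congrArg (fun L : V2 →L[ℂ] ℂ => L (Pi.single j 1)) h3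
  simp only [_root_.add_apply, _root_.smul_apply, smul_eq_mul] at h4
  unfold pd
  rw [← h4]
  field_simp
  ring

theorem z3_dl {T : Fin 3 → V2 → ℂ} {z : V2} (hT : ∀ j, AnalyticAt ℂ (T j) z) (h0 : T 0 z ≠ 0) :
    T 0 z ^ 3 * (pd 0 (fun z => T 1 z / T 0 z) z * pd 1 (fun z => T 2 z / T 0 z) z -
      pd 1 (fun z => T 1 z / T 0 z) z * pd 0 (fun z => T 2 z / T 0 z) z) = dl T z := by
  rw [z3_pd_div (hT 1) (hT 0) h0, z3_pd_div (hT 1) (hT 0) h0, z3_pd_div (hT 2) (hT 0) h0,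
    z3_pd_div (hT 2) (hT 0) h0]
  unfold dl
  rw [Matrix.det_fin_three]
  simp only [Matrix.of_apply, Matrix.cons_val_zero, Matrix.cons_val_one, Matrix.cons_val_two,
    Matrix.head_cons, Matrix.tail_cons]
  field_simp
  ring

theorem z3_chart {T : Fin 3 → V2 → ℂ} {z₀ : V2} (hT : ∀ j, AnalyticAt ℂ (T j) z₀)
    (h0 : T 0 z₀ ≠ 0) (hδ : AnalyticAt ℂ (dl T) z₀) (h1 : dl T z₀ = 0)
    (h2 : pd 0 (dl T) z₀ * (T 0 z₀ * pd 1 (T 1) z₀ - T 1 z₀ * pd 1 (T 0) z₀) -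
      pd 1 (dl T) z₀ * (T 0 z₀ * pd 0 (T 1) z₀ - T 1 z₀ * pd 0 (T 0) z₀) ≠ 0)
    {O : Set V2} (hO : O ∈ 𝓝 z₀) :
    ∃ O' ⊆ O, IsOpen O' ∧ z₀ ∈ O' ∧ ∃ C : ℝ, 0 ≤ C ∧ ∀ᶠ τ in 𝓝[≠] (T 2 z₀ / T 0 z₀),
      (∃ z₁ ∈ O', ∃ z₂ ∈ O', z₁ ≠ z₂ ∧
        (T 1 z₁ / T 0 z₁ = T 1 z₀ / T 0 z₀ ∧ T 2 z₁ / T 0 z₁ = τ) ∧
        (T 1 z₂ / T 0 z₂ = T 1 z₀ / T 0 z₀ ∧ T 2 z₂ / T 0 z₂ = τ)) ∧
      ∀ z ∈ O', T 1 z / T 0 z = T 1 z₀ / T 0 z₀ → T 2 z / T 0 z = τ →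
        ‖dl T z‖ ^ 2 ≤ C * ‖τ - T 2 z₀ / T 0 z₀‖ := by
  set f : V2 → ℂ := fun z => T 1 z / T 0 z with hfdef
  set v : V2 → ℂ := fun z => T 2 z / T 0 z with hvdef
  set g : V2 → ℂ := dl T with hgdef
  have hf : AnalyticAt ℂ f z₀ := (hT 1).div (hT 0) h0
  have hv : AnalyticAt ℂ v z₀ := (hT 2).div (hT 0) h0
  have hJ : pd 0 f z₀ * pd 1 g z₀ - pd 1 f z₀ * pd 0 g z₀ ≠ 0 := by
    rw [hfdef, z3_pd_div (hT 1) (hT 0) h0, z3_pd_div (hT 1) (hT 0) h0]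
    intro h
    apply h2
    field_simp at h
    linear_combination -h
  obtain ⟨Θ, hΘ, hΘ0, hΘl, hΘr⟩ := loc_coord hf hδ hJ
  rw [h1] at hΘ hΘ0 hΘr
  set γ : ℂ → V2 := fun d => Θ ![f z₀, d] with hγdef
  have hin : AnalyticAt ℂ (fun d : ℂ => (![f z₀, d] : V2)) 0 := by
    rw [analyticAt_pi_iff]
    intro j
    fin_cases j
    · exact analyticAt_const
    · exact analyticAt_id
  have hγ : AnalyticAt ℂ γ 0 := AnalyticAt.comp (g := Θ) (f := fun d : ℂ => (![f z₀, d] : V2)) hΘ hin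
  have hγ0 : γ 0 = z₀ := hΘ0
  have hγc : Tendsto γ (𝓝 0) (𝓝 z₀) := by
    have := hγ.continuousAt.tendsto
    rwa [hγ0] at this
  have hγr : ∀ᶠ d in 𝓝 (0 : ℂ), f (γ d) = f z₀ ∧ g (γ d) = d :=
    (hin.continuousAt.tendsto.eventually hΘr).mono fun d hd => by
      simpa using hd
  set h : ℂ → ℂ := fun d => v (γ d) - v z₀ with hhdef
  have hh : AnalyticAt ℂ h 0 := by
    refine AnalyticAt.sub ?_ analyticAt_const
    refine AnalyticAt.comp (g := v) (f := γ) ?_ hγ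
    rw [hγ0]
    exact hv
  have hh0 : h 0 = 0 := by
    simp only [hhdef, hγ0, sub_self]
  set E : ℂ → ℂ := fun d => T 0 (γ d) ^ 3 *
    (pd 0 f (γ d) * pd 1 g (γ d) - pd 1 f (γ d) * pd 0 g (γ d)) with hEdef
  have hE : AnalyticAt ℂ E 0 := by
    have hE' : AnalyticAt ℂ (fun z => T 0 z ^ 3 *
        (pd 0 f z * pd 1 g z - pd 1 f z * pd 0 g z)) z₀ :=
      ((hT 0).pow 3).mul (((z3_pd_an hf 0).mul (z3_pd_an hδ 1)).sub
        ((z3_pd_an hf 1).mul (z3_pd_an hδ 0)))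
    refine AnalyticAt.comp (g := fun z => T 0 z ^ 3 *
        (pd 0 f z * pd 1 g z - pd 1 f z * pd 0 g z)) (f := γ) ?_ hγ
    rw [hγ0]
    exact hE'
  have hE0 : E 0 ≠ 0 := by
    simp only [hEdef, hγ0]
    exact mul_ne_zero (pow_ne_zero 3 h0) hJ
  have hd : ∀ᶠ d in 𝓝 (0 : ℂ), E d * deriv h d = d := by
    have e1 : ∀ᶠ z in 𝓝 z₀, (∀ j, AnalyticAt ℂ (T j) z) ∧ T 0 z ≠ 0 ∧ AnalyticAt ℂ g z := by
      refine (eventually_all.2 fun j => (hT j).eventually_analyticAt).and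
        (((hT 0).continuousAt.eventually_ne h0).and hδ.eventually_analyticAt)
    filter_upwards [hγc.eventually e1, hγr.eventually_nhds, hγ.eventually_analyticAt] with d
      ⟨a1, a2, a3⟩ hr hγd
    have hw : HasDerivAt γ (deriv γ d) d := hγd.differentiableAt.hasDerivAt
    set w : V2 := deriv γ d
    have hfa : AnalyticAt ℂ f (γ d) := (a1 1).div (a1 0) a2
    have hva : AnalyticAt ℂ v (γ d) := (a1 2).div (a1 0) a2
    have b1 : HasDerivAt (fun d => f (γ d)) (fderiv ℂ f (γ d) w) d :=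
      hfa.differentiableAt.hasFDerivAt.comp_hasDerivAt d hw
    have b2 : HasDerivAt (fun d => g (γ d)) (fderiv ℂ g (γ d) w) d :=
      a3.differentiableAt.hasFDerivAt.comp_hasDerivAt d hw
    have b3 : HasDerivAt h (fderiv ℂ v (γ d) w) d :=
      (hva.differentiableAt.hasFDerivAt.comp_hasDerivAt d hw).sub_const _
    have c1 : fderiv ℂ f (γ d) w = 0 := by
      refine b1.unique ?_
      exact (hasDerivAt_const d (f z₀)).congr_of_eventuallyEq (hr.mono fun d hd => hd.1)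
    have c2 : fderiv ℂ g (γ d) w = 1 := by
      refine b2.unique ?_
      exact (hasDerivAt_id d).congr_of_eventuallyEq (hr.mono fun d hd => hd.2)
    have c3 := z3_dl a1 a2
    have c4 : dl T (γ d) = d := hr.self_of_nhds.2
    rw [b3.deriv, z3_fd]
    rw [z3_fd] at c1 c2
    rw [c4] at c3
    simp only [hEdef]
    have c3' : T 0 (γ d) ^ 3 * (pd 0 f (γ d) * pd 1 v (γ d) - pd 1 f (γ d) * pd 0 v (γ d)) = d := c3
    conv_rhs => rw [← c3']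
    linear_combination T 0 (γ d) ^ 3 * (
      (pd 0 v (γ d) * pd 1 g (γ d) - pd 1 v (γ d) * pd 0 g (γ d)) * c1 +
      (pd 0 f (γ d) * pd 1 v (γ d) - pd 1 f (γ d) * pd 0 v (γ d)) * c2)
  obtain ⟨⟨C, hC0, hC⟩, hsol⟩ := z3_sol hh hh0 hE hE0 hd
  have hg0 : Tendsto g (𝓝 z₀) (𝓝 0) := by
    have := hδ.continuousAt.tendsto
    rwa [h1] at this
  have hN : {z | z ∈ O ∧ Θ ![f z, g z] = z ∧ ‖g z‖ ^ 2 ≤ C * ‖h (g z)‖} ∈ 𝓝 z₀ := by
    filter_upwards [hO, hΘl, hg0.eventually hC] with z h1 h2 h3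
    exact ⟨h1, h2, h3⟩
  obtain ⟨O', hO's, hO'o, hO'm⟩ := _root_.mem_nhds_iff.1 hN
  refine ⟨O', fun z hz => (hO's hz).1, hO'o, hO'm, C, hC0, ?_⟩
  have hV : {d | γ d ∈ O' ∧ f (γ d) = f z₀ ∧ g (γ d) = d} ∈ 𝓝 (0 : ℂ) := by
    filter_upwards [hγc.eventually (hO'o.mem_nhds hO'm), hγr] with d h1 h2
    exact ⟨h1, h2⟩
  have htr : Tendsto (fun τ : ℂ => τ - v z₀) (𝓝[≠] (v z₀)) (𝓝[≠] 0) := by
    refine tendsto_nhdsWithin_iff.2 ⟨?_, ?_⟩
    · have : Tendsto (fun τ : ℂ => τ - v z₀) (𝓝 (v z₀)) (𝓝 (v z₀ - v z₀)) :=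
        (continuous_id.sub continuous_const).tendsto _
      rw [sub_self] at this
      exact this.mono_left nhdsWithin_le_nhds
    · filter_upwards [self_mem_nhdsWithin] with τ hτ
      exact sub_ne_zero.2 hτ
  filter_upwards [htr.eventually (hsol _ hV)] with τ hτ
  obtain ⟨d₁, ⟨p1, p2, p3⟩, d₂, ⟨q1, q2, q3⟩, hne, r1, r2⟩ := hτ
  refine ⟨⟨γ d₁, p1, γ d₂, q1, ?_, ⟨p2, ?_⟩, ⟨q2, ?_⟩⟩, ?_⟩
  · intro he
    exact hne (by rw [← p3, he, q3])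
  · exact sub_left_injective r1
  · exact sub_left_injective r2
  · intro z hz hz1 hz2
    obtain ⟨-, k1, k2⟩ := hO's hz
    have hz1' : f z = f z₀ := hz1
    have : h (g z) = τ - v z₀ := by
      simp only [hhdef, hγdef]
      rw [← hz1', k1]
      rw [← hz2]
    rw [this] at k2
    exact k2

section surface

variable {X : Type} [MetricSpace X] [CompactSpace X] {A : Cha V2 X} {b D : ℕ}
  {T : Fin 3 → A.ι → X → ℂ}

omit [CompactSpace X] in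
theorem z3_pow {w : ℕ} {s : A.ι → X → ℂ} (hs : IS.PS A w s) (n : ℕ) :
    IS.PS A (w * n) (fun i x => s i x ^ n) :=
  ⟨fun i x hx => (hs.an i x hx).pow n, fun i j x hi hj => by
    show s i x ^ n = _ * s j x ^ n
    rw [hs.tr i j x hi hj, mul_pow, ← pow_mul]⟩

theorem z3_fib (hT : Net A b T) {i : A.ι} {x : X} (hx : x ∈ (A.ch i).source) (h0 : T 0 i x ≠ 0)
    {c τ : ℂ} (h1 : T 1 i x / T 0 i x = c) (h2 : T 2 i x / T 0 i x = τ) :
    x ∈ Fib A T ![c, τ] := by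
  have hz : x ∉ ZS A (T 0) := fun h => h0 ((zs_iff (hT.ps 0) hx).1 h)
  refine ⟨hz, fun j hj => ?_⟩
  have hj0 : T 0 j x ≠ 0 := fun h => hz ((zs_iff (hT.ps 0) hj).2 h)
  have e1 : T 1 j x / T 0 j x = c := by
    rw [← qt_eq (hT.ps 1) (hT.ps 0) hj, qt_eq (hT.ps 1) (hT.ps 0) hx, h1]
  have e2 : T 2 j x / T 0 j x = τ := by
    rw [← qt_eq (hT.ps 2) (hT.ps 0) hj, qt_eq (hT.ps 2) (hT.ps 0) hx, h2]
  exact ⟨(div_eq_iff hj0).1 e1, (div_eq_iff hj0).1 e2⟩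

theorem z3_gf (hT : Net A b T) {i : A.ι} {x : X} (hx : x ∈ (A.ch i).source) :
    Gf A b T x = dlt A T i x ^ b / T 0 i x ^ (3 * b + 1) := by
  have hs := z3_pow (dlt_ps hT.ps) b
  have ht := z3_pow (hT.ps 0) (3 * b + 1)
  rw [mul_comm] at ht
  exact qt_eq hs ht hx

/-- Z3: the fibres near a simple branch point -/
theorem bz_loc (hT : Net A b T) {x₀ : X} (h0 : x₀ ∉ ZS A (T 0)) (h1 : x₀ ∈ ZS A (dlt A T))
    (h2 : ∃ i, x₀ ∈ (A.ch i).source ∧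
      ds A (dlt A T) 0 i x₀ * (T 0 i x₀ * ds A (T 1) 1 i x₀ - T 1 i x₀ * ds A (T 0) 1 i x₀) -
      ds A (dlt A T) 1 i x₀ * (T 0 i x₀ * ds A (T 1) 0 i x₀ - T 1 i x₀ * ds A (T 0) 0 i x₀) ≠ 0)
    {O : Set X} (hO : O ∈ 𝓝 x₀) :
    ∃ O' ⊆ O, IsOpen O' ∧ x₀ ∈ O' ∧ ∃ C : ℝ, ∀ᶠ τ in 𝓝[≠] (qt A (T 2) (T 0) x₀),
      (∃ x₁ ∈ O', ∃ x₂ ∈ O', x₁ ≠ x₂ ∧ x₁ ∈ Fib A T ![qt A (T 1) (T 0) x₀, τ] ∧
        x₂ ∈ Fib A T ![qt A (T 1) (T 0) x₀, τ]) ∧
      ∀ x ∈ O', x ∈ Fib A T ![qt A (T 1) (T 0) x₀, τ] →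
        ‖Gf A b T x‖ ^ 2 ≤ C * ‖τ - qt A (T 2) (T 0) x₀‖ ^ b := by
  obtain ⟨i, hi, h2⟩ := h2
  have hTa : ∀ j, AnalyticAt ℂ (lT A T i j) (A.ch i x₀) := fun j => (lT_an hT.ps hi j).1
  have hTv : ∀ j, lT A T i j (A.ch i x₀) = T j i x₀ := fun j => (lT_an hT.ps hi j).2
  have h00 : T 0 i x₀ ≠ 0 := fun h => h0 ((zs_iff (hT.ps 0) hi).2 h)
  have h0' : lT A T i 0 (A.ch i x₀) ≠ 0 := by rwa [hTv]
  have htgt : (A.ch i).target ∈ 𝓝 (A.ch i x₀) :=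
    (A.ch i).open_target.mem_nhds ((A.ch i).map_source hi)
  have hδ : AnalyticAt ℂ (dl (lT A T i)) (A.ch i x₀) := by
    refine ((dlt_ps hT.ps).an i x₀ hi).congr ?_
    filter_upwards [htgt] with z hz
    unfold dlt
    rw [(A.ch i).right_inv hz]
  have h1' : dl (lT A T i) (A.ch i x₀) = 0 := (zs_iff (dlt_ps hT.ps) hi).1 h1
  have h2' : pd 0 (dl (lT A T i)) (A.ch i x₀) *
      (lT A T i 0 (A.ch i x₀) * pd 1 (lT A T i 1) (A.ch i x₀) -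
        lT A T i 1 (A.ch i x₀) * pd 1 (lT A T i 0) (A.ch i x₀)) -
      pd 1 (dl (lT A T i)) (A.ch i x₀) *
      (lT A T i 0 (A.ch i x₀) * pd 0 (lT A T i 1) (A.ch i x₀) -
        lT A T i 1 (A.ch i x₀) * pd 0 (lT A T i 0) (A.ch i x₀)) ≠ 0 := by
    rw [← ds_dlt hi, ← ds_dlt hi, hTv, hTv]
    exact h2
  have hq : ∀ j, qt A (T j) (T 0) x₀ = lT A T i j (A.ch i x₀) / lT A T i 0 (A.ch i x₀) :=
    fun j => by rw [qt_eq (hT.ps j) (hT.ps 0) hi, hTv, hTv]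
  set m : ℝ := ‖lT A T i 0 (A.ch i x₀)‖ / 2 with hm
  have hm0 : 0 < m := by
    have := norm_pos_iff.2 h0'
    positivity
  have hOz : {z | z ∈ (A.ch i).target ∧ (A.ch i).symm z ∈ O ∧ m < ‖lT A T i 0 z‖} ∈
      𝓝 (A.ch i x₀) := by
    have hc : ContinuousAt (A.ch i).symm (A.ch i x₀) :=
      (A.ch i).continuousAt_symm ((A.ch i).map_source hi)
    have hc' : Tendsto (A.ch i).symm (𝓝 (A.ch i x₀)) (𝓝 x₀) := by
      have := hc.tendsto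
      rwa [(A.ch i).left_inv hi] at this
    have hn : ∀ᶠ z in 𝓝 (A.ch i x₀), m < ‖lT A T i 0 z‖ := by
      refine (hTa 0).continuousAt.norm.eventually_const_lt ?_
      rw [hm]
      have := norm_pos_iff.2 h0'
      linarith
    filter_upwards [htgt, hc'.eventually hO, hn] with z a1 a2 a3
    exact ⟨a1, a2, a3⟩
  obtain ⟨O₁, hO₁s, hO₁o, hO₁m, C, hC0, hτ⟩ := z3_chart hTa h0' hδ h1' h2' hOz
  refine ⟨(A.ch i).source ∩ A.ch i ⁻¹' O₁, ?_, (A.ch i).isOpen_inter_preimage hO₁o, ⟨hi, hO₁m⟩,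
    C ^ b / m ^ (2 * (3 * b + 1)), ?_⟩
  · rintro x ⟨hx1, hx2⟩
    have := (hO₁s hx2).2.1
    rwa [(A.ch i).left_inv hx1] at this
  · rw [hq 2, hq 1]
    filter_upwards [hτ] with τ hτ
    obtain ⟨⟨z₁, p1, z₂, q1, hne, ⟨p2, p3⟩, ⟨q2, q3⟩⟩, hle⟩ := hτ
    have key : ∀ z ∈ O₁, lT A T i 1 z / lT A T i 0 z =
        lT A T i 1 (A.ch i x₀) / lT A T i 0 (A.ch i x₀) → lT A T i 2 z / lT A T i 0 z = τ →
        (A.ch i).symm z ∈ (A.ch i).source ∩ A.ch i ⁻¹' O₁ ∧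
        (A.ch i).symm z ∈ Fib A T ![lT A T i 1 (A.ch i x₀) / lT A T i 0 (A.ch i x₀), τ] := by
      intro z hz a1 a2
      obtain ⟨k1, k2, k3⟩ := hO₁s hz
      have hs : (A.ch i).symm z ∈ (A.ch i).source := (A.ch i).map_target k1
      have hr : A.ch i ((A.ch i).symm z) = z := (A.ch i).right_inv k1
      refine ⟨⟨hs, ?_⟩, ?_⟩
      · show A.ch i ((A.ch i).symm z) ∈ O₁
        rwa [hr]
      · refine z3_fib hT hs ?_ a1 a2
        exact norm_pos_iff.1 (hm0.trans k3)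
    obtain ⟨u1, u2⟩ := key z₁ p1 p2 p3
    obtain ⟨v1, v2⟩ := key z₂ q1 q2 q3
    refine ⟨⟨_, u1, _, v1, ?_, u2, v2⟩, ?_⟩
    · intro he
      exact hne ((A.ch i).symm.injOn (hO₁s p1).1 (hO₁s q1).1 he)
    · rintro x ⟨hx1, hx2⟩ hxF
      obtain ⟨-, k2, k3⟩ := hO₁s hx2
      have hxT : ∀ j, lT A T i j (A.ch i x) = T j i x := fun j => (lT_an hT.ps hx1 j).2
      have hx0 : T 0 i x ≠ 0 := fun h => hxF.1 ((zs_iff (hT.ps 0) hx1).2 h)
      obtain ⟨f1, f2⟩ := hxF.2 i hx1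
      have hb := hle (A.ch i x) hx2 (by rw [hxT, hxT, div_eq_iff hx0]; exact f1)
        (by rw [hxT, hxT, div_eq_iff hx0]; exact f2)
      have hmT : m < ‖T 0 i x‖ := by rw [← hxT]; exact k3
      have hdx : dlt A T i x = dl (lT A T i) (A.ch i x) := rfl
      rw [z3_gf hT hx1, norm_div, div_pow, norm_pow, norm_pow, hdx, ← pow_mul, ← pow_mul,
        mul_comm b 2, mul_comm (3 * b + 1) 2, pow_mul _ 2 b]
      rw [div_mul_eq_mul_div, ← mul_pow]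
      have hmp : 0 < m ^ (2 * (3 * b + 1)) := pow_pos hm0 _
      refine div_le_div₀ (by positivity) (pow_le_pow_left₀ (by positivity) hb b) hmp
        (pow_le_pow_left₀ hm0.le hmT.le _)

end surface

end Pool.Agent.GG

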