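import Pool.Agent.Lib_helper82.GG.D.All
import Pool.Agent.Lib_helper82.GG.P.B1
import Pool.Agent.Lib_helper82.GG.P.C1
import Pool.Agent.Lib_helper82.GG.P.C2
import Pool.Agent.Lib_helper82.GG.P.P1
import Pool.Agent.Lib_helper82.GG.P.PE
import Pool.Agent.Lib_helper82.GG.P.Z2
import Pool.Agent.Lib_helper82.GG.P.Z3
import Pool.Agent.Lib_helper82.GG.P.ZC

/-! # GG, block Z4: the number of points of `δ = 0` over a general point -/

set_option autoImplicit false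

open Filter Topology Metric Set

namespace Pool.Agent.GG

open Pool.Agent.BR

theorem z4_ci {X : Type} [MetricSpace X] (A : Cha V2 X) (x : X) : x ∈ (A.ch (ci A x)).source :=
  A.W_sub _ (subset_closure (A.cover x).choose_spec)

/-- a product with many small factors -/
theorem z4_prod {X κ : Type} [DecidableEq X] (F : Finset X) (g : X → ℝ) (G : ℝ) (hG : 1 ≤ G)
    (h0 : ∀ x ∈ F, 0 ≤ g x) (h1 : ∀ x ∈ F, g x ≤ G) (K : Finset κ) (p q : κ → X) (O : κ → Set X)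
    (hp : ∀ l ∈ K, p l ∈ F ∧ p l ∈ O l) (hq : ∀ l ∈ K, q l ∈ F ∧ q l ∈ O l)
    (hpq : ∀ l ∈ K, p l ≠ q l) (hO : ∀ l ∈ K, ∀ l' ∈ K, l ≠ l' → Disjoint (O l) (O l'))
    (e : κ → ℝ) (he : ∀ l ∈ K, g (p l) * g (q l) ≤ e l) :
    ∏ x ∈ F, g x ≤ G ^ F.card * ∏ l ∈ K, e l := by
  set U : Finset X := K.biUnion fun l => {p l, q l} with hU
  have hUF : U ⊆ F := by
    intro x hx
    rw [hU, Finset.mem_biUnion] at hx
    obtain ⟨l, hl, hx⟩ := hx
    rw [Finset.mem_insert, Finset.mem_singleton] at hx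
    rcases hx with rfl | rfl
    · exact (hp l hl).1
    · exact (hq l hl).1
  have hdis : (K : Set κ).PairwiseDisjoint fun l => ({p l, q l} : Finset X) := by
    intro l hl l' hl' hll
    rw [Function.onFun, Finset.disjoint_left]
    intro x hx hx'
    rw [Finset.mem_insert, Finset.mem_singleton] at hx hx'
    have a : x ∈ O l := by
      rcases hx with rfl | rfl
      · exact (hp l hl).2
      · exact (hq l hl).2
    have a' : x ∈ O l' := by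
      rcases hx' with h | h
      · rw [h]; exact (hp l' hl').2
      · rw [h]; exact (hq l' hl').2
    exact Set.disjoint_left.1 (hO l hl l' hl' hll) a a'
  have hprodU : ∏ x ∈ U, g x = ∏ l ∈ K, (g (p l) * g (q l)) := by
    rw [hU, Finset.prod_biUnion hdis]
    apply Finset.prod_congr rfl
    intro l hl
    rw [Finset.prod_pair (hpq l hl)]
  have h2 : ∏ x ∈ F \ U, g x ≤ G ^ (F \ U).card := by
    refine (Finset.prod_le_prod (fun x hx => h0 x (Finset.mem_sdiff.1 hx).1)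
      fun x hx => h1 x (Finset.mem_sdiff.1 hx).1).trans ?_
    rw [Finset.prod_const]
  have h3 : G ^ (F \ U).card ≤ G ^ F.card :=
    pow_le_pow_right₀ hG (Finset.card_le_card Finset.sdiff_subset)
  have h4 : 0 ≤ ∏ l ∈ K, (g (p l) * g (q l)) := Finset.prod_nonneg fun l hl =>
    mul_nonneg (h0 _ (hp l hl).1) (h0 _ (hq l hl).1)
  have h5 : ∏ l ∈ K, (g (p l) * g (q l)) ≤ ∏ l ∈ K, e l :=
    Finset.prod_le_prod (fun l hl => mul_nonneg (h0 _ (hp l hl).1) (h0 _ (hq l hl).1)) he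
  rw [← Finset.prod_sdiff hUF, hprodU]
  exact mul_le_mul (h2.trans h3) h5 h4 (by positivity)

variable {X : Type} [MetricSpace X] [CompactSpace X] {A : Cha V2 X} {b D : ℕ}
  {T : Fin 3 → A.ι → X → ℂ}

theorem z4_fib (hT : Net A b T) {c τ : ℂ} {x : X} (hx : x ∈ Fib A T ![c, τ]) :
    x ∉ ZS A (T 0) ∧ qt A (T 1) (T 0) x = c ∧ qt A (T 2) (T 0) x = τ := by
  obtain ⟨h0, h1⟩ := hx
  obtain ⟨h2, h3⟩ := h1 (ci A x) (z4_ci A x)
  have h4 : T 0 (ci A x) x ≠ 0 := fun h => h0 ((zs_iff (hT.ps 0) (z4_ci A x)).2 h)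
  refine ⟨h0, ?_, ?_⟩
  · unfold qt
    rw [h2]
    simp only [Matrix.cons_val_zero]
    exact mul_div_cancel_right₀ _ h4
  · unfold qt
    rw [h3]
    simp only [Matrix.cons_val_one, Matrix.cons_val_fin_one]
    exact mul_div_cancel_right₀ _ h4

theorem z4_pf (hT : Net A b T) {c : ℂ} {x : X} (hx : x ∈ Pf A (dlt A T) (T 0) (T 1) c) :
    qt A (T 1) (T 0) x = c ∧ x ∈ Fib A T ![c, qt A (T 2) (T 0) x] := by
  obtain ⟨h0, h1, h2⟩ := hx
  have h4 : T 0 (ci A x) x ≠ 0 := fun h => h1 ((zs_iff (hT.ps 0) (z4_ci A x)).2 h)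
  refine ⟨?_, h1, fun i hi => ⟨?_, ?_⟩⟩
  · unfold qt
    rw [h2 _ (z4_ci A x)]
    exact mul_div_cancel_right₀ _ h4
  · simpa using h2 i hi
  · have h5 : T 0 i x ≠ 0 := fun h => h1 ((zs_iff (hT.ps 0) hi).2 h)
    rw [qt_eq (hT.ps 2) (hT.ps 0) hi]
    simp only [Matrix.cons_val_one, Matrix.cons_val_fin_one]
    exact (div_mul_cancel₀ _ h5).symm

theorem bz_R (hT : Net A b T) (hD : Shts A T D) :
    ∃ B : Finset ℂ, ∀ c ∉ B, b * (Pf A (dlt A T) (T 0) (T 1) c).ncard ≤ (3 * b + 1) * D := by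
  classical
  refine ⟨(hT.g5.image (qt A (T 1) (T 0))).toFinset, fun c hc => ?_⟩
  rw [Set.Finite.mem_toFinset] at hc
  by_contra hcon
  rw [not_le] at hcon
  have hRfin := pen_fin (pen_R hT) c
  set R : Finset X := hRfin.toFinset with hR
  have hRmem : ∀ x, x ∈ R ↔ x ∈ Pf A (dlt A T) (T 0) (T 1) c := fun x => hRfin.mem_toFinset
  have hRcard : (Pf A (dlt A T) (T 0) (T 1) c).ncard = R.card :=
    Set.ncard_eq_toFinset_card _ hRfin
  rw [hRcard] at hcon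
  -- the branch points on the line
  set Bc : Finset ℂ := ((brc_closed hT).2 c).toFinset with hBc
  have hBcmem : ∀ τ, τ ∈ Bc ↔ (![c, τ] : V2) ∈ BrC A T := fun τ => by
    rw [hBc, Set.Finite.mem_toFinset]
    rfl
  -- the fibres
  have hFex : ∀ τ : ℂ, ∃ F : Finset X, τ ∉ Bc → (F : Set X) = Fib A T ![c, τ] ∧ F.card = D := by
    intro τ
    by_cases h : τ ∈ Bc
    · exact ⟨∅, fun h' => absurd h h'⟩
    · have h' : (![c, τ] : V2) ∉ BrC A T := fun h'' => h ((hBcmem τ).2 h'')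
      refine ⟨(hD.fin _ h').toFinset, fun _ => ⟨(hD.fin _ h').coe_toFinset, ?_⟩⟩
      rw [← Set.ncard_eq_toFinset_card _ (hD.fin _ h')]
      exact hD.card _ h'
  choose F hF using hFex
  have hFmem : ∀ τ, τ ∉ Bc → ∀ x, x ∈ F τ ↔ x ∈ Fib A T ![c, τ] := by
    intro τ hτ x
    rw [← (hF τ hτ).1, Finset.mem_coe]
  obtain ⟨⟨C, hC⟩, hG0, hGan⟩ := gf_growth hT
  set N : ℂ → ℂ := fun τ => ∏ x ∈ F τ, Gf A b T x with hN
  -- analyticity
  have hNan : ∀ τ ∉ Bc, AnalyticAt ℂ N τ := by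
    intro τ hτ
    have hy : (![c, τ] : V2) ∉ BrC A T := fun h => hτ ((hBcmem τ).2 h)
    obtain ⟨n, s, hs⟩ := fib_cov hT hy
    have hl : AnalyticAt ℂ (fun w : ℂ => (![c, w] : V2)) τ := by
      rw [analyticAt_pi_iff]
      intro j
      fin_cases j
      · exact analyticAt_const
      · exact analyticAt_id
    have hlc : Tendsto (fun w : ℂ => (![c, w] : V2)) (𝓝 τ) (𝓝 ![c, τ]) := hl.continuousAt
    have hBo : ∀ᶠ w in 𝓝 τ, w ∉ Bc := by
      have : ((Bc : Set ℂ)ᶜ) ∈ 𝓝 τ := Bc.finite_toSet.isClosed.isOpen_compl.mem_nhds hτ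
      exact this
    have hsl : ∀ l : Fin n, AnalyticAt ℂ (fun w : ℂ => Gf A b T (s l ![c, w])) τ := by
      intro l
      obtain ⟨-, h2, h3⟩ := hs.self_of_nhds
      obtain ⟨h4, h5⟩ := h3 l
      set x₁ := s l ![c, τ] with hx₁
      have hx₁F : x₁ ∈ Fib A T ![c, τ] := by
        rw [h2]
        exact mem_range_self l
      have h6 := hGan (ci A x₁) x₁ (z4_ci A x₁) hx₁F.1
      have h7 := h5 (ci A x₁) (z4_ci A x₁)
      have h8 : AnalyticAt ℂ (fun w : ℂ => A.ch (ci A x₁) (s l ![c, w])) τ :=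
        AnalyticAt.comp (g := fun w => A.ch (ci A x₁) (s l w)) h7 hl
      have h9 : AnalyticAt ℂ (fun w : ℂ =>
          lz A (ci A x₁) (Gf A b T) (A.ch (ci A x₁) (s l ![c, w]))) τ :=
        AnalyticAt.comp (g := lz A (ci A x₁) (Gf A b T)) h6 h8
      refine h9.congr ?_
      have h10 : ∀ᶠ w in 𝓝 τ, s l ![c, w] ∈ (A.ch (ci A x₁)).source := by
        have : ContinuousAt (fun w : ℂ => s l ![c, w]) τ :=
          ContinuousAt.comp (g := s l) (f := fun w : ℂ => (![c, w] : V2)) h4 hl.continuousAt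
        exact this.eventually ((A.ch (ci A x₁)).open_source.mem_nhds (z4_ci A x₁))
      filter_upwards [h10] with w hw
      unfold lz
      rw [(A.ch (ci A x₁)).left_inv hw]
    have hprod : AnalyticAt ℂ (fun w : ℂ => ∏ l : Fin n, Gf A b T (s l ![c, w])) τ :=
      Finset.analyticAt_fun_prod _ fun l _ => hsl l
    refine hprod.congr ?_
    filter_upwards [hlc.eventually hs, hBo] with w hw hwB
    obtain ⟨h1, h2, -⟩ := hw
    have h3 : F w = Finset.univ.image (fun l : Fin n => s l ![c, w]) := by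
      rw [← Finset.coe_inj, (hF w hwB).1, h2, Finset.coe_image, Finset.coe_univ, image_univ]
    show _ = ∏ x ∈ F w, Gf A b T x
    rw [h3, Finset.prod_image fun a _ a' _ h => h1 h]
  -- growth
  set C₁ : ℝ := max C 1 with hC₁
  have hC₁1 : 1 ≤ C₁ := le_max_right _ _
  have hgr : ∀ τ, ∀ x ∈ Fib A T ![c, τ],
      ‖Gf A b T x‖ ≤ C₁ * ((1 + ‖c‖) * (1 + ‖τ‖)) ^ (3 * b + 1) := by
    intro τ x hx
    obtain ⟨h0, h1, h2⟩ := z4_fib hT hx
    have h3 := hC x h0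
    rw [h1, h2] at h3
    refine h3.trans ?_
    have h4 : 1 + ‖c‖ + ‖τ‖ ≤ (1 + ‖c‖) * (1 + ‖τ‖) := by
      nlinarith [mul_nonneg (norm_nonneg c) (norm_nonneg τ)]
    have h5 : (1 + ‖c‖ + ‖τ‖) ^ (3 * b + 1) ≤ ((1 + ‖c‖) * (1 + ‖τ‖)) ^ (3 * b + 1) :=
      pow_le_pow_left₀ (by positivity) h4 _
    exact mul_le_mul (le_max_left _ _) h5 (by positivity) (by positivity)
  have hNgr : ∀ τ ∉ Bc, ‖N τ‖ ≤ (C₁ * (1 + ‖c‖) ^ (3 * b + 1)) ^ D *
      (1 + ‖τ‖) ^ (((3 * b + 1) * D : ℕ) : ℤ) := by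
    intro τ hτ
    show ‖∏ x ∈ F τ, Gf A b T x‖ ≤ _
    rw [norm_prod]
    refine (Finset.prod_le_prod (fun x _ => norm_nonneg _)
      fun x hx => hgr τ x ((hFmem τ hτ x).1 hx)).trans ?_
    rw [Finset.prod_const, (hF τ hτ).2, zpow_natCast, mul_pow (1 + ‖c‖), pow_mul (1 + ‖τ‖),
      ← mul_assoc, mul_pow _ _ D]
  -- the vanishing
  set v : X → ℂ := qt A (T 2) (T 0) with hv
  set k : ℂ → Finset X := fun τ₀ => R.filter (fun x => v x = τ₀) with hk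
  have hloc : ∀ τ₀ ∈ Bc, ∃ C' : ℝ, ∀ᶠ z in 𝓝[≠] τ₀,
      ‖N z‖ ≤ C' * ‖z - τ₀‖ ^ (b * (k τ₀).card) := by
    intro τ₀ _
    -- disjoint neighbourhoods
    obtain ⟨O, hO1, hO2⟩ := (k τ₀).finite_toSet.t2_separation
    have hb : ∀ x : X, ∃ (O' : Set X) (C' : ℝ), x ∈ k τ₀ → O' ⊆ O x ∧
        ∀ᶠ τ in 𝓝[≠] τ₀, (∃ x₁ ∈ O', ∃ x₂ ∈ O', x₁ ≠ x₂ ∧ x₁ ∈ Fib A T ![c, τ] ∧
          x₂ ∈ Fib A T ![c, τ]) ∧
          ∀ y ∈ O', y ∈ Fib A T ![c, τ] → ‖Gf A b T y‖ ^ 2 ≤ C' * ‖τ - τ₀‖ ^ b := by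
      intro x
      by_cases hx : x ∈ k τ₀
      · have hx' := Finset.mem_filter.1 hx
        have hxP := (hRmem x).1 hx'.1
        obtain ⟨hu, hxF⟩ := z4_pf hT hxP
        have hne : ∃ i, x ∈ (A.ch i).source ∧
            ds A (dlt A T) 0 i x * (T 0 i x * ds A (T 1) 1 i x - T 1 i x * ds A (T 0) 1 i x) -
            ds A (dlt A T) 1 i x * (T 0 i x * ds A (T 1) 0 i x - T 1 i x * ds A (T 0) 0 i x)
              ≠ 0 := by
          by_contra hno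
          push Not at hno
          exact hc ⟨x, ⟨hxP.1, hxP.2.1, hno⟩, hu⟩
        obtain ⟨O', h1, -, -, C', h4⟩ := bz_loc hT hxP.2.1 hxP.1 hne
          ((hO1 x).2.mem_nhds (hO1 x).1)
        rw [hu, show qt A (T 2) (T 0) x = τ₀ from hx'.2] at h4
        exact ⟨O', C', fun _ => ⟨h1, h4⟩⟩
      · exact ⟨∅, 0, fun h => absurd h hx⟩
    choose O' C' hO' using hb
    set G : ℝ := C₁ * ((1 + ‖c‖) * (2 + ‖τ₀‖)) ^ (3 * b + 1) with hG
    have hG1 : 1 ≤ G := by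
      have h1 : 1 ≤ (1 + ‖c‖) * (2 + ‖τ₀‖) := by
        nlinarith [norm_nonneg c, norm_nonneg τ₀, mul_nonneg (norm_nonneg c) (norm_nonneg τ₀)]
      have h2 : 1 ≤ ((1 + ‖c‖) * (2 + ‖τ₀‖)) ^ (3 * b + 1) := one_le_pow₀ h1
      calc (1 : ℝ) = 1 * 1 := by norm_num
        _ ≤ G := mul_le_mul hC₁1 h2 (by norm_num) (by linarith)
    refine ⟨G ^ D * ∏ x ∈ k τ₀, C' x, ?_⟩
    have e1 : ∀ᶠ z in 𝓝[≠] τ₀, z ∉ Bc := by
      have h1 : ((Bc.erase τ₀ : Finset ℂ) : Set ℂ)ᶜ ∈ 𝓝 τ₀ :=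
        (Bc.erase τ₀).finite_toSet.isClosed.isOpen_compl.mem_nhds (by simp)
      filter_upwards [mem_nhdsWithin_of_mem_nhds h1, self_mem_nhdsWithin] with z hz hz' hzB
      exact hz (Finset.mem_coe.2 (Finset.mem_erase.2 ⟨hz', hzB⟩))
    have e2 : ∀ᶠ z in 𝓝[≠] τ₀, ‖z‖ ≤ 1 + ‖τ₀‖ := by
      have h1 : ∀ᶠ z in 𝓝 τ₀, ‖z‖ < 1 + ‖τ₀‖ :=
        continuous_norm.continuousAt.eventually_lt continuousAt_const (by linarith)
      exact (mem_nhdsWithin_of_mem_nhds h1 : _) |> fun h => by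
        filter_upwards [h] with z hz using hz.le
    have e3 : ∀ᶠ z in 𝓝[≠] τ₀, ∀ x ∈ k τ₀,
        (∃ x₁ ∈ O' x, ∃ x₂ ∈ O' x, x₁ ≠ x₂ ∧ x₁ ∈ Fib A T ![c, z] ∧ x₂ ∈ Fib A T ![c, z]) ∧
          ∀ y ∈ O' x, y ∈ Fib A T ![c, z] → ‖Gf A b T y‖ ^ 2 ≤ C' x * ‖z - τ₀‖ ^ b := by
      rw [Filter.eventually_all_finset]
      exact fun x hx => (hO' x hx).2
    filter_upwards [e1, e2, e3] with z hz1 hz2 hz3
    have hpq : ∀ x : X, ∃ p q : X, x ∈ k τ₀ → p ∈ O' x ∧ q ∈ O' x ∧ p ≠ q ∧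
        p ∈ Fib A T ![c, z] ∧ q ∈ Fib A T ![c, z] := by
      intro x
      by_cases hx : x ∈ k τ₀
      · obtain ⟨⟨p, hp, q, hq, h⟩, -⟩ := hz3 x hx
        exact ⟨p, q, fun _ => ⟨hp, hq, h⟩⟩
      · exact ⟨x, x, fun h => absurd h hx⟩
    choose p q hpq using hpq
    have hmain := z4_prod (F z) (fun x => ‖Gf A b T x‖) G hG1 (fun x _ => norm_nonneg _)
      (fun x hx => by
        refine (hgr z x ((hFmem z hz1 x).1 hx)).trans ?_
        apply mul_le_mul_of_nonneg_left _ (by linarith)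
        apply pow_le_pow_left₀ (by positivity)
        apply mul_le_mul_of_nonneg_left _ (by positivity)
        linarith)
      (k τ₀) p q O
      (fun x hx => ⟨(hFmem z hz1 _).2 (hpq x hx).2.2.2.1, (hO' x hx).1 (hpq x hx).1⟩)
      (fun x hx => ⟨(hFmem z hz1 _).2 (hpq x hx).2.2.2.2, (hO' x hx).1 (hpq x hx).2.1⟩)
      (fun x hx => (hpq x hx).2.2.1)
      (fun x hx y hy hxy => hO2 (Finset.mem_coe.2 hx) (Finset.mem_coe.2 hy) hxy)
      (fun x => C' x * ‖z - τ₀‖ ^ b)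
      (fun x hx => by
        have h1 := (hz3 x hx).2 (p x) (hpq x hx).1 (hpq x hx).2.2.2.1
        have h2 := (hz3 x hx).2 (q x) (hpq x hx).2.1 (hpq x hx).2.2.2.2
        nlinarith [sq_nonneg (‖Gf A b T (p x)‖ - ‖Gf A b T (q x)‖)])
    rw [(hF z hz1).2, Finset.prod_mul_distrib, Finset.prod_const, ← pow_mul] at hmain
    show ‖∏ x ∈ F z, Gf A b T x‖ ≤ _
    rw [norm_prod]
    refine hmain.trans (le_of_eq ?_)
    ring
  -- the number of the zeros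
  have hsum : ∑ τ₀ ∈ Bc, (k τ₀).card = R.card := by
    symm
    apply Finset.card_eq_sum_card_fiberwise
    intro x hx
    rw [Finset.mem_coe] at hx ⊢
    rw [hBcmem]
    exact ⟨x, (z4_pf hT ((hRmem x).1 hx)).2, ((hRmem x).1 hx).1⟩
  have hzero := zeros_count Bc N hNan (((3 * b + 1) * D : ℕ) : ℤ) _ hNgr Bc
    (fun τ₀ => b * (k τ₀).card) hloc (by
      rw [← Nat.cast_sum, ← Finset.mul_sum, hsum]
      exact_mod_cast hcon)
  obtain ⟨τ, hτ⟩ := Bc.exists_notMem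
  have h1 : ∏ x ∈ F τ, Gf A b T x = 0 := hzero τ hτ
  rw [Finset.prod_eq_zero_iff] at h1
  obtain ⟨x, hx, hx0⟩ := h1
  have hxF := (hFmem τ hτ x).1 hx
  have hxd := (hG0 x hxF.1).1 hx0
  exact hτ ((hBcmem τ).2 ⟨x, hxF, hxd⟩)


end Pool.Agent.GG
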