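import Pool.Agent.Lib_helper82.GG.D.All
import Pool.Agent.Lib_helper82.GG.P.B1
import Pool.Agent.Lib_helper82.GG.P.B3
import Pool.Agent.Lib_helper82.GG.P.C1
import Pool.Agent.Lib_helper82.GG.P.C2
import Pool.Agent.Lib_helper82.GG.P.L0b

/-! # Block C3 (project GG): the number of sheets -/

set_option autoImplicit false
set_option linter.unusedVariables false
set_option linter.unusedSectionVars false

open Filter Topology Metric Set

namespace Pool.Agent.GG

open Pool.Agent.BR

section surface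

variable {X : Type} [MetricSpace X] [CompactSpace X] {A : Cha V2 X} {b D : ℕ}
  {T : Fin 3 → A.ι → X → ℂ}

/-- fibres are finite and their number of points is locally constant -/
theorem c3_loc (hT : Net A b T) {y : V2} (hy : y ∉ BrC A T) :
    (Fib A T y).Finite ∧ ∀ᶠ y' in 𝓝 y, (Fib A T y').ncard = (Fib A T y).ncard := by
  obtain ⟨n, s, h⟩ := fib_cov hT hy
  have hn : ∀ y', ((Function.Injective fun l => s l y') ∧ Fib A T y' = range (fun l => s l y') ∧
      ∀ l, ContinuousAt (s l) y' ∧ ∀ i, s l y' ∈ (A.ch i).source →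
        AnalyticAt ℂ (fun w => A.ch i (s l w)) y') → (Fib A T y').ncard = n := by
    rintro y' ⟨h1, h2, -⟩
    rw [h2, ← Set.image_univ, Set.ncard_image_of_injective _ h1, Set.ncard_univ,
      Nat.card_eq_fintype_card, Fintype.card_fin]
  have h0 := h.self_of_nhds
  refine ⟨?_, ?_⟩
  · rw [h0.2.1]
    exact Set.finite_range _
  · filter_upwards [h] with y' hy'
    rw [hn y' hy', hn y h0]

/-- the complement of a finite subset of the plane is connected -/
theorem c3_line {S : Set ℂ} (hS : S.Finite) : IsConnected Sᶜ := by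
  refine (hS.countable.isPathConnected_compl_of_one_lt_rank ?_).isConnected
  rw [Complex.rank_real_complex]
  exact_mod_cast Nat.one_lt_two

theorem c3_vec (c τ : ℂ) : ContinuousAt (fun p : ℂ × ℂ => (![p.1, p.2] : V2)) (c, τ) := by
  refine Continuous.continuousAt ?_
  refine continuous_pi fun j => ?_
  fin_cases j
  · exact continuous_fst
  · exact continuous_snd

theorem c3_fst (c τ : ℂ) : ContinuousAt (fun c' : ℂ => (![c', τ] : V2)) c := by
  refine Continuous.continuousAt ?_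
  refine continuous_pi fun j => ?_
  fin_cases j
  · exact continuous_id
  · exact continuous_const

theorem c3_snd (c τ : ℂ) : ContinuousAt (fun τ' : ℂ => (![c, τ'] : V2)) τ := by
  refine Continuous.continuousAt ?_
  refine continuous_pi fun j => ?_
  fin_cases j
  · exact continuous_const
  · exact continuous_id

/-- constancy on a vertical line -/
theorem c3_const (hT : Net A b T) (c : ℂ) {τ τ' : ℂ} (h : (![c, τ] : V2) ∉ BrC A T)
    (h' : (![c, τ'] : V2) ∉ BrC A T) :
    (Fib A T ![c, τ]).ncard = (Fib A T ![c, τ']).ncard := by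
  have hfin := (brc_closed hT).2 c
  have hconn := (c3_line hfin).isPreconnected
  refine hconn.constant (f := fun τ => (Fib A T ![c, τ]).ncard) ?_ h h'
  intro t ht
  refine ContinuousAt.continuousWithinAt ?_
  have h1 := (c3_loc hT (y := ![c, t]) ht).2
  have h2 := (c3_snd c t).eventually h1
  exact continuousAt_const.congr (h2.mono fun z hz => hz.symm)

/-- fibres near the image of a point of the good set are nonempty -/
theorem c3_near (hT : Net A b T) {x : X} (hx : x ∈ GX A T) :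
    ∃ y₀ : V2, ∀ᶠ y in 𝓝 y₀, (Fib A T y).Nonempty := by
  obtain ⟨i, hi⟩ := A.cover x
  have hs : x ∈ (A.ch i).source := A.W_sub i (subset_closure hi)
  have hG : A.ch i x ∈ Gd (lT A T i) := (gx_iff hT.ps hs).1 hx
  have han : ∀ j, AnalyticAt ℂ (lT A T i j) (A.ch i x) := fun j => (lT_an hT.ps hs j).1
  obtain ⟨-, -, Θ, hΘ, h1, h2⟩ := uu_inv han hG
  have hΘ0 : Θ (UU (lT A T i) (A.ch i x)) = A.ch i x := h1.self_of_nhds
  refine ⟨UU (lT A T i) (A.ch i x), ?_⟩
  have hcont : Tendsto Θ (𝓝 (UU (lT A T i) (A.ch i x))) (𝓝 (A.ch i x)) := by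
    have := hΘ.continuousAt.tendsto
    rwa [hΘ0] at this
  have h3 : ∀ᶠ y in 𝓝 (UU (lT A T i) (A.ch i x)), lT A T i 0 (Θ y) ≠ 0 :=
    hcont.eventually ((han 0).continuousAt.eventually_ne hG.1)
  have h4 : ∀ᶠ y in 𝓝 (UU (lT A T i) (A.ch i x)), Θ y ∈ (A.ch i).target :=
    hcont.eventually ((A.ch i).open_target.mem_nhds ((A.ch i).map_source hs))
  filter_upwards [h2, h3, h4] with y a2 a3 a4
  have hxs : (A.ch i).symm (Θ y) ∈ (A.ch i).source := (A.ch i).map_target a4
  have hT0 : T 0 i ((A.ch i).symm (Θ y)) ≠ 0 := a3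
  refine ⟨(A.ch i).symm (Θ y), ?_, ?_⟩
  · intro h
    exact hT0 ((zs_iff (hT.ps 0) hxs).1 h)
  · have e : ∀ j : Fin 2, T j.succ i ((A.ch i).symm (Θ y)) =
        y j * T 0 i ((A.ch i).symm (Θ y)) := by
      intro j
      have h5 : UU (lT A T i) (Θ y) j = y j := congrFun a2 j
      have h6 : T j.succ i ((A.ch i).symm (Θ y)) / T 0 i ((A.ch i).symm (Θ y)) = y j := h5
      rw [← h6, div_mul_cancel₀ _ hT0]
    intro i' hi'
    have t0 := (hT.ps 0).tr i' i _ hi' hxs
    have t1 := (hT.ps 1).tr i' i _ hi' hxs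
    have t2 := (hT.ps 2).tr i' i _ hi' hxs
    have e1 : T 1 i ((A.ch i).symm (Θ y)) = y 0 * T 0 i ((A.ch i).symm (Θ y)) := e 0
    have e2 : T 2 i ((A.ch i).symm (Θ y)) = y 1 * T 0 i ((A.ch i).symm (Θ y)) := e 1
    rw [t0, t1, t2, e1, e2]
    constructor <;> ring

/-- C3: the number of sheets -/
theorem exists_shts_aux [Nonempty X] (hT : Net A b T) : ∃ D, Shts A T D := by
  obtain ⟨hcl, hfin⟩ := brc_closed hT
  have hex : ∀ c : ℂ, ∃ τ : ℂ, (![c, τ] : V2) ∉ BrC A T := fun c => (c3_line (hfin c)).nonempty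
  choose t ht using hex
  have hd : ∀ c c' : ℂ, (Fib A T ![c, t c]).ncard = (Fib A T ![c', t c']).ncard := by
    intro c c'
    refine isPreconnected_univ.constant (f := fun c => (Fib A T ![c, t c]).ncard) ?_
      (Set.mem_univ c) (Set.mem_univ c')
    intro c₀ _
    refine ContinuousAt.continuousWithinAt ?_
    have h1 := (c3_fst c₀ (t c₀)).eventually (c3_loc hT (ht c₀)).2
    have h2 : ∀ᶠ z in 𝓝 c₀, (![z, t c₀] : V2) ∉ BrC A T :=
      (c3_fst c₀ (t c₀)).eventually (hcl.isOpen_compl.mem_nhds (ht c₀))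
    refine continuousAt_const.congr (?_ : ∀ᶠ z in 𝓝 c₀, (Fib A T ![c₀, t c₀]).ncard =
      (Fib A T ![z, t z]).ncard)
    filter_upwards [h1, h2] with z hz1 hz2
    rw [← hz1]
    exact c3_const hT z hz2 (ht z)
  have hall : ∀ y, y ∉ BrC A T → (Fib A T y).ncard = (Fib A T ![0, t 0]).ncard := by
    intro y hy
    have hye : y = ![y 0, y 1] := by
      funext j
      fin_cases j <;> rfl
    have hy' : (![y 0, y 1] : V2) ∉ BrC A T := by rw [← hye]; exact hy
    have := c3_const hT (y 0) hy' (ht (y 0))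
    rw [← hye] at this
    rw [this]
    exact hd (y 0) 0
  refine ⟨(Fib A T ![0, t 0]).ncard, ?_, fun y hy => (c3_loc hT hy).1, hall⟩
  obtain ⟨x, hx⟩ := (gx_open_dense hT).2.nonempty
  obtain ⟨y₀, hy₀⟩ := c3_near hT hx
  -- a point near `y₀` off the branch curve
  have hye : y₀ = ![y₀ 0, y₀ 1] := by
    funext j
    fin_cases j <;> rfl
  have h1 : ∀ᶠ τ in 𝓝 (y₀ 1), (Fib A T ![y₀ 0, τ]).Nonempty := by
    have h2 := c3_snd (y₀ 0) (y₀ 1)
    have h3 : ∀ᶠ y in 𝓝 (![y₀ 0, y₀ 1] : V2), (Fib A T y).Nonempty := by rwa [← hye]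
    exact h2.eventually h3
  have h2 : ∀ᶠ τ in 𝓝[≠] (y₀ 1), (![y₀ 0, τ] : V2) ∉ BrC A T := by
    have hf : ({τ : ℂ | (![y₀ 0, τ] : V2) ∈ BrC A T} \ {y₀ 1}).Finite := (hfin (y₀ 0)).subset
      Set.sdiff_subset
    have h3 : ∀ᶠ τ in 𝓝 (y₀ 1), τ ∉ {τ : ℂ | (![y₀ 0, τ] : V2) ∈ BrC A T} \ {y₀ 1} :=
      hf.isClosed.isOpen_compl.mem_nhds (fun h => h.2 rfl)
    rw [eventually_nhdsWithin_iff]
    filter_upwards [h3] with τ hτ hne h
    exact hτ ⟨h, hne⟩
  obtain ⟨τ, hτ1, hτ2⟩ := ((eventually_nhdsWithin_of_eventually_nhds h1).and h2).exists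
  rw [← hall _ hτ2]
  exact (Set.ncard_pos (c3_loc hT hτ2).1).2 hτ1

end surface


end Pool.Agent.GG
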