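import Pool.Agent.Lib_helper82.GG.D.All
import Pool.Agent.Lib_helper82.GG.P.F3
import Pool.Agent.Lib_helper82.GG.P.G1
import Pool.Agent.Lib_helper82.GG.P.G3
import Pool.Agent.Lib_helper82.GG.P.G5
import Pool.Agent.Lib_helper82.GG.P.J6c
import Pool.Agent.Lib_helper82.GG.P.J7
import Pool.Agent.Lib_helper82.GG.P.J8
import Pool.Agent.Lib_helper82.GG.P.L2
import Pool.Agent.Lib_helper82.GG.P.L3
import Pool.Agent.Lib_helper82.GG.P.LH
import Pool.Agent.Lib_helper82.GG.P.O1
import Pool.Agent.Lib_helper82.GG.P.OI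

/-! # Block K4 of GG (MP_45e720_ag): the start of the steps along `R` -/

set_option autoImplicit false

open Filter Topology Metric Set
open scoped Nat

namespace Pool.Agent.GG

open Pool.Agent.BR

section k4loc

variable {k m n : ℕ} {T : Fin 3 → V2 → ℂ} {z₀ : V2}

theorem k4_pd_an {f : V2 → ℂ} (hf : AnalyticAt ℂ f z₀) (j : Fin 2) :
    AnalyticAt ℂ (pd j f) z₀ := by
  unfold pd
  exact ((ContinuousLinearMap.apply ℂ ℂ (Pi.single j (1 : ℂ) : V2)).analyticAt _).comp hf.fderiv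

/-- `OO` of the coefficients after an analytic linear substitution -/
theorem k4_ls_oo {M : V2 → Matrix (Fin 2) (Fin 2) ℂ}
    (hM : ∀ i j, AnalyticAt ℂ (fun z => M z i j) z₀) {r s : ℤ} (P : V2 → JP k)
    (hP : ∀ t, OO T z₀ r s (fun z => (P z).coeff t))
    (hw : ∀ᶠ z in 𝓝 z₀, z ∈ Gd T → Wh m (P z)) (t : Fin 2 × Fin k →₀ ℕ) :
    OO T z₀ r s (fun z => (Ls k (M z) (P z)).coeff t) := by
  classical
  have h1 : OO T z₀ r s (fun z => ∑ t' ∈ Ty k m, (P z).coeff t' *
      (Ls k (M z) (MvPolynomial.monomial t' 1)).coeff t) := by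
    refine oo_sum _ fun t' _ => ?_
    have h2 : AnalyticAt ℂ (fun z => (Ls k (M z) (MvPolynomial.monomial t' 1)).coeff t) z₀ := by
      refine ls_an hM (m := wt t') (fun _ => MvPolynomial.monomial t' 1)
        (fun t'' => analyticAt_const) (Eventually.of_forall fun z => ?_) t
      intro t'' ht''
      rw [MvPolynomial.coeff_monomial] at ht''
      by_cases h3 : t' = t''
      · rw [h3]
      · rw [if_neg h3] at ht''
        exact absurd rfl ht''
    have h3 := oo_mul (hP t') (oo_an (T := T) h2)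
    rwa [add_zero, add_zero] at h3
  refine oo_congr h1 ?_
  filter_upwards [hw] with z hz hzG
  have hW := hz hzG
  have h4 : P z = ∑ t' ∈ Ty k m, MvPolynomial.C ((P z).coeff t') *
      MvPolynomial.monomial t' 1 := by
    ext t''
    rw [MvPolynomial.coeff_sum]
    have h5 : ∀ t' ∈ Ty k m, MvPolynomial.coeff t'' (MvPolynomial.C ((P z).coeff t') *
        MvPolynomial.monomial t' 1) = if t' = t'' then (P z).coeff t' else 0 := by
      intro t' _
      rw [MvPolynomial.coeff_C_mul, MvPolynomial.coeff_monomial]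
      split_ifs <;> ring
    rw [Finset.sum_congr rfl h5, Finset.sum_ite_eq']
    split_ifs with h6
    · rfl
    · by_contra h7
      exact h6 (((wt_fin k m).2 t'').mpr (hW t'' h7))
  conv_rhs => rw [h4]
  rw [map_sum, MvPolynomial.coeff_sum]
  refine Finset.sum_congr rfl fun t' _ => ?_
  have h8 : Ls k (M z) (MvPolynomial.C ((P z).coeff t')) = MvPolynomial.C ((P z).coeff t') :=
    MvPolynomial.algHom_C _ _
  rw [map_mul, h8, MvPolynomial.coeff_C_mul]

theorem k4_inv {M : Matrix (Fin 2) (Fin 2) ℂ} (h : M.det = 1) :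
    M * !![M 1 1, -M 0 1; -M 1 0, M 0 0] = 1 := by
  rw [Matrix.det_fin_two] at h
  ext i j
  fin_cases i <;> fin_cases j <;> simp [Matrix.mul_apply, Fin.sum_univ_two] <;>
    first | linear_combination h | ring

theorem k4_dg_nj (t : Fin 2 × Fin k →₀ ℕ) : nj 0 t + nj 1 t = dg t := by
  unfold nj dg
  rw [Fintype.sum_prod_type, Fin.sum_univ_two]

theorem k4_hc_coeff {P : JP k} (h : hc n P = P) (t : Fin 2 × Fin k →₀ ℕ) (ht : dg t ≠ n) :
    P.coeff t = 0 := by
  have h1 : (hc n P).coeff t = 0 := by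
    unfold hc
    rw [MvPolynomial.coeff_homogeneousComponent, if_neg]
    intro h2
    apply ht
    rw [← h2]
    unfold dg
    rw [Finsupp.degree_eq_sum]
  rw [← h, h1]

/-- the local form of the start of the steps along `R` -/
theorem k4_loc {b : ℕ} (hb : 0 < b) (hT : ∀ j, AnalyticAt ℂ (T j) z₀)
    (hp : T 0 z₀ = 0 → (∃ j, pd j (T 0) z₀ ≠ 0) ∧ (T 1 z₀ ≠ 0 ∨ T 2 z₀ ≠ 0)) (c : V2 → JP k)
    (hc0 : ∀ t : Fin 2 × Fin k →₀ ℕ, OO T z₀ (dg t) (-(2 * b * dg t)) (fun z => (c z).coeff t))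
    (hw : ∀ᶠ z in 𝓝 z₀, z ∈ Gd T → Wh m (c z))
    (hr : ∀ t : Fin 2 × Fin k →₀ ℕ, dg t < n →
      OO T z₀ 0 0 (fun z => (Tr k (UU T) z (c z)).coeff t))
    (t : Fin 2 × Fin k →₀ ℕ) (ht : dg t = n)
    (hH : T 0 z₀ = 0 → ∀ᶠ z in 𝓝[≠] z₀, T 0 z = 0 → dl T z ≠ 0 ∧
      ∃ s', OO T z 0 s' (fun z => (Tr k (UU T) z (c z)).coeff t)) :
    OO T z₀ 0 (-(2 * b * n)) (fun z => (Tr k (UU T) z (c z)).coeff t) := by
  classical
  obtain ⟨c', hc', hall⟩ := lead_part hb hT c hc0 hw n hr
  have hco : ∀ z, hc n (Tr k (UU T) z (c z)) = Ls k (Jm (UU T) z) (c' z) →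
      (Tr k (UU T) z (c z)).coeff t = (Ls k (Jm (UU T) z) (c' z)).coeff t := by
    intro z hz
    rw [← hz]
    unfold hc
    rw [MvPolynomial.coeff_homogeneousComponent, if_pos]
    rw [← ht]
    unfold dg
    rw [Finsupp.degree_eq_sum]
  have hw' : ∀ᶠ z in 𝓝 z₀, z ∈ Gd T → Wh m (c' z) := by
    filter_upwards [hall] with z hz hzG
    exact (hz hzG).2.1
  by_cases h0 : T 0 z₀ = 0
  · obtain ⟨hd, h12⟩ := hp h0
    obtain ⟨M, hM, hMo⟩ := frame_H hT h0 hd h12
    have hMo' := hMo k m n b c' hc' hw'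
    set Q : V2 → JP k := fun z => Ls k (M z) (Ls k (Jm (UU T) z) (c' z)) with hQ
    have hQn : ∀ᶠ z in 𝓝 z₀, z ∈ Gd T → hc n (Q z) = Q z := by
      filter_upwards [hall] with z hz hzG
      rw [hQ]
      show hc n (Ls k (M z) (Ls k (Jm (UU T) z) (c' z))) = _
      rw [← ls_hc, ← ls_hc, (hz hzG).1]
    have hQw : ∀ᶠ z in 𝓝 z₀, z ∈ Gd T → Wh m (Q z) := by
      filter_upwards [hall] with z hz hzG
      exact ls_wh _ (ls_wh _ (hz hzG).2.1)
    have hQo : ∀ t, OO T z₀ (-n) (-(2 * b * n)) (fun z => (Q z).coeff t) := by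
      intro t'
      by_cases ht' : dg t' = n
      · have h1 := hMo' t' ht'
        have h2 := k4_dg_nj t'
        refine oo_mono hT h1 ?_ ?_
        · have : (nj 0 t' : ℤ) ≤ n := by exact_mod_cast (by omega : nj 0 t' ≤ n)
          linarith
        · have : (0 : ℤ) ≤ nj 1 t' := by positivity
          linarith
      · refine ⟨fun _ => 0, analyticAt_const, ?_⟩
        filter_upwards [hQn] with z hz hzG
        rw [mul_zero]
        exact k4_hc_coeff (hz hzG) t' ht'
    have hN : ∀ i j, AnalyticAt ℂ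
        (fun z => (!![M z 1 1, -M z 0 1; -M z 1 0, M z 0 0] : Matrix (Fin 2) (Fin 2) ℂ) i j)
        z₀ := by
      intro i j
      fin_cases i <;> fin_cases j
      · exact hM.an 1 1
      · exact (hM.an 0 1).neg
      · exact (hM.an 1 0).neg
      · exact hM.an 0 0
    have h3 := k4_ls_oo hN Q hQo hQw t
    have h4 : OO T z₀ (-n) (-(2 * b * n)) (fun z => (Tr k (UU T) z (c z)).coeff t) := by
      refine oo_congr h3 ?_
      filter_upwards [hall, hM.det] with z hz hdet hzG
      rw [hco z (hz hzG).2.2]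
      show (Ls k _ (Ls k (M z) (Ls k (Jm (UU T) z) (c' z)))).coeff t = _
      rw [ls_mul, k4_inv hdet, ls_one]
    exact oo_improve_H hT h0 hd h4 (hH h0)
  · have hJ : ∀ i j, AnalyticAt ℂ (fun z => (Jm (UU T) z) i j) z₀ := by
      intro i j
      have h1 : AnalyticAt ℂ (fun w => UU T w i) z₀ := (hT i.succ).div (hT 0) h0
      exact k4_pd_an h1 j
    have h2 := frame_oo (T := T) (z₀ := z₀) (r₁ := 0) (s₁ := 0) (r₂ := 0) (s₂ := 0)
      (fun _ => (1 : Matrix (Fin 2) (Fin 2) ℂ))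
      (fun i => by
        simp only [mul_one]
        exact oo_an (hJ i 0))
      (fun i => by
        simp only [mul_one]
        exact oo_an (hJ i 1)) c' hc' hw' t
    simp only [ls_one, zero_mul, zero_add] at h2
    have h3 : OO T z₀ n (-(2 * b * n)) (fun z => (Tr k (UU T) z (c z)).coeff t) := by
      refine oo_congr h2 ?_
      filter_upwards [hall] with z hz hzG
      exact (hco z (hz hzG).2.2).symm
    exact oo_unit_T hT h0 h3

end k4loc

section k4surf

variable {X : Type} [MetricSpace X] [CompactSpace X] {A : Cha V2 X} {b k m n : ℕ}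
  {T : Fin 3 → A.ι → X → ℂ}

theorem start_R (hT : Net A b T) {c : X → JP k} (hc : CO A b T m c) (hL : SL A T n c)
    (hH : SH A T n 0 c) : SR A T n (2 * b * n) c := by
  intro i x hx hdl t ht
  have hnear := (tc_near (A := A) hx hx).2.2
  have hpcf : ∀ᶠ z in 𝓝 (A.ch i x), pcf A T c i z =
      Tr k (UU (lT A T i)) z (c ((A.ch i).symm z)) := by
    filter_upwards [hnear] with z hz
    unfold pcf PC
    rw [hz.2.2.2.1]
  have hpcf' : ∀ᶠ z in 𝓝 (A.ch i x), ∀ᶠ w in 𝓝 z, pcf A T c i w =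
      Tr k (UU (lT A T i)) w (c ((A.ch i).symm w)) := hpcf.eventually_nhds
  have hval := net_val (T := T) hx
  have h := k4_loc (m := m) (n := n) hT.b_pos (fun j => net_an hT hx j)
    (fun h0 => (net_loc hT hx).1 h0) (fun z => c ((A.ch i).symm z))
    (fun t => hc.oo i x hx t) (Eventually.of_forall fun z _ => hc.wh _)
    (fun t ht => by
      refine oo_congr (hL i x hx t ht) ?_
      filter_upwards [hpcf] with z hz _
      rw [hz]) t ht
    (fun h0 => by
      have h1 : ∀ᶠ z in 𝓝[≠] (A.ch i x), z ∈ (A.ch i).target ∧ (A.ch i).symm z ∈ (A.ch i).source ∧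
          A.ch i ((A.ch i).symm z) = z := by
        refine Filter.Eventually.filter_mono nhdsWithin_le_nhds ?_
        filter_upwards [hnear] with z hz
        exact ⟨hz.1, hz.2.1, hz.2.2.2.1⟩
      filter_upwards [h1, net_pt hT hx, hpcf'.filter_mono nhdsWithin_le_nhds] with z hz hpt hz' hz0
      have h2 : dl (lT A T i) z ≠ 0 := fun h3 => hpt ⟨hz0, h3⟩
      refine ⟨h2, 0, ?_⟩
      have h3 := hH i ((A.ch i).symm z) hz.2.1 hz0 (by unfold dlt; rw [hz.2.2]; exact h2) t ht
      rw [hz.2.2] at h3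
      have h4 : OO (lT A T i) z 0 0 (fun z => (pcf A T c i z).coeff t) := by simpa using h3
      refine oo_congr h4 ?_
      filter_upwards [hz'] with w hw _
      rw [hw])
  have h5 : OO (lT A T i) (A.ch i x) 0 (-(2 * b * n)) (fun z => (pcf A T c i z).coeff t) := by
    refine oo_congr h ?_
    filter_upwards [hpcf] with z hz _
    rw [hz]
  have h6 : (-((2 * b * n : ℕ) : ℤ)) = -(2 * b * n) := by push_cast; ring
  rw [h6]
  exact h5


end k4surf

end Pool.Agent.GG
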